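import Pool.Agent.LGF.Base

/-!
# Families of matrices and of polynomials

`asm ρ` is the homomorphism to matrices over a product assembled from homomorphisms to matrices over
the factors.

MODULE LGF-Asm. PLAN. `map_asm`: `ext` and `rfl`-like. `asmX`: from a family `lam t : C → Matrix δ δ (K t)[X]` with
uniformly bounded degrees (for each `c`) one gets `C → Matrix δ δ (∏ K t)[X]`: the entry at `c, i, j`
is `∑ n ∈ range (D c + 1), monomial n (fun t => (lam t c i j).coeff n)`; it is characterised by its
images over `K t` (`Polynomial.ext`, `coeff_map`), which gives the ring homomorphism laws. The same for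
one matrix (`exists_asmX_mat`).
-/

noncomputable section

namespace Pool.Agent.LGF

open Pool.Agent.GSM Polynomial

variable {T : Type} {K : T → Type} [∀ t, CommRing (K t)] {C : Type} [CommRing C]
  {δ : Type} [Fintype δ] [DecidableEq δ]

/-- Assemble matrices over the factors to a matrix over the product. -/
def asm (ρ : ∀ t, C →+* Matrix δ δ (K t)) : C →+* Matrix δ δ (∀ t, K t) where
  toFun c := Matrix.of fun i j t => ρ t c i j
  map_one' := by
    ext i j t
    rw [Matrix.of_apply, map_one, Matrix.one_apply, Matrix.one_apply]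
    split_ifs <;> rfl
  map_mul' a b := by
    ext i j t
    simp [Matrix.mul_apply, Finset.sum_apply]
  map_zero' := by
    ext i j t
    simp
  map_add' a b := by
    ext i j t
    simp

@[simp] theorem asm_apply (ρ : ∀ t, C →+* Matrix δ δ (K t)) (c : C) (i j : δ) (t : T) :
    asm ρ c i j t = ρ t c i j := rfl

/-- Reindexing of an assembled homomorphism. -/
theorem map_asm {T' : Type} (φ : T' → T) (ρ : ∀ t, C →+* Matrix δ δ (K t)) :
    ((res K φ).mapMatrix).comp (asm ρ) = asm fun s => ρ (φ s) := by
  refine RingHom.ext fun c => ?_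
  ext i j t
  rfl

/-- Two homomorphisms to matrices over the product agree if their components do. -/
theorem asm_ext {Λ Λ' : C →+* Matrix δ δ (∀ t, K t)}
    (h : ∀ t, ((Pi.evalRingHom K t).mapMatrix).comp Λ = ((Pi.evalRingHom K t).mapMatrix).comp Λ') :
    Λ = Λ' := by
  refine RingHom.ext fun c => ?_
  ext i j t
  exact congrFun (congrFun (RingHom.congr_fun (h t) c) i) j

/-- the component at `t` -/
private def Et (K : T → Type) [∀ t, CommRing (K t)] (δ : Type) [Fintype δ] [DecidableEq δ] (t : T) :
    Matrix δ δ (∀ t, K t)[X] →+* Matrix δ δ (K t)[X] :=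
  (Polynomial.mapRingHom (Pi.evalRingHom K t)).mapMatrix

private theorem Et_coeff (t : T) (A : Matrix δ δ (∀ t, K t)[X]) (i j : δ) (n : ℕ) :
    (Et K δ t A i j).coeff n = (A i j).coeff n t :=
  Polynomial.coeff_map (Pi.evalRingHom K t) n

private theorem Et_inj {A B : Matrix δ δ (∀ t, K t)[X]} (h : ∀ t, Et K δ t A = Et K δ t B) : A = B := by
  refine Matrix.ext fun i j => Polynomial.ext fun n => funext fun t => ?_
  rw [← Et_coeff, ← Et_coeff, h t]

private def asmM (M : ∀ t, Matrix δ δ (K t)[X]) (D : ℕ) : Matrix δ δ (∀ t, K t)[X] :=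
  Matrix.of fun i j => ∑ n ∈ Finset.range (D + 1), monomial n (fun t => (M t i j).coeff n)

omit [Fintype δ] [DecidableEq δ] in
private theorem asmM_coeff (M : ∀ t, Matrix δ δ (K t)[X]) (D : ℕ)
    (hb : ∀ t i j, (M t i j).natDegree ≤ D) (i j : δ) (n : ℕ) :
    (asmM M D i j).coeff n = fun t => (M t i j).coeff n := by
  unfold asmM
  rw [Matrix.of_apply, Polynomial.finsetSum_coeff]
  by_cases hn : n < D + 1
  · rw [Finset.sum_eq_single n]
    · rw [Polynomial.coeff_monomial, if_pos rfl]
    · intro m _ hm
      rw [Polynomial.coeff_monomial, if_neg hm]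
    · intro h
      exact absurd (Finset.mem_range.2 hn) h
  · rw [Finset.sum_eq_zero]
    · funext t
      rw [Polynomial.coeff_eq_zero_of_natDegree_lt (by have := hb t i j; omega)]
      rfl
    · intro m hm
      rw [Polynomial.coeff_monomial, if_neg]
      have := Finset.mem_range.1 hm
      omega

private theorem Et_asmM (M : ∀ t, Matrix δ δ (K t)[X]) (D : ℕ)
    (hb : ∀ t i j, (M t i j).natDegree ≤ D) (t : T) : Et K δ t (asmM M D) = M t := by
  refine Matrix.ext fun i j => Polynomial.ext fun n => ?_
  rw [Et_coeff, asmM_coeff M D hb]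

theorem exists_asmX (lam : ∀ t, C →+* Matrix δ δ (K t)[X])
    (hb : ∀ c, ∃ D : ℕ, ∀ t i j, (lam t c i j).natDegree ≤ D) :
    ∃ Λ : C →+* Matrix δ δ (∀ t, K t)[X], ∀ t,
      ((Polynomial.mapRingHom (Pi.evalRingHom K t)).mapMatrix).comp Λ = lam t := by
  choose D hD using hb
  have key : ∀ t c, Et K δ t (asmM (fun t => lam t c) (D c)) = lam t c := fun t c =>
    Et_asmM (fun t => lam t c) (D c) (hD c) t
  refine ⟨{ toFun := fun c => asmM (fun t => lam t c) (D c)
            map_one' := Et_inj fun t => by rw [key, map_one, map_one]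
            map_mul' := fun a b => Et_inj fun t => by rw [key, map_mul, map_mul, key, key]
            map_zero' := Et_inj fun t => by rw [key, map_zero, map_zero]
            map_add' := fun a b => Et_inj fun t => by rw [key, map_add, map_add, key, key] }, fun t => ?_⟩
  exact RingHom.ext fun c => key t c

theorem exists_asmX_mat (M : ∀ t, Matrix δ δ (K t)[X]) (D : ℕ)
    (hb : ∀ t i j, (M t i j).natDegree ≤ D) :
    ∃ M' : Matrix δ δ (∀ t, K t)[X], (∀ t,
      M'.map (Polynomial.map (Pi.evalRingHom K t)) = M t) ∧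
      ∀ i j (n : ℕ), (∀ t, (M t i j).coeff n = 0) → (M' i j).coeff n = 0 := by
  refine ⟨asmM M D, fun t => Et_asmM M D hb t, fun i j n h => ?_⟩
  rw [asmM_coeff M D hb]
  exact funext h

end Pool.Agent.LGF
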