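import Pool.Agent.GSM.Plain

/-!
# Families of classes over finite fields: the definitions used in the statement

Nothing but definitions. A bounded family of classes over rings `k i`, `i ∈ ι`, is a class over the
product ring `∏ k i`. `res`, `pb`, `at_`, `rr` are reindexings of products; `pb k A x` is the family
over `ι × A` with members `x i` at `(i, a)`, `at_ k φ y` has the members `y (i, φ i)`, and `rr k φ y`
has the members `y (i, φ i b)` at `(i, b)`.
-/

noncomputable section

namespace Pool.Agent.LGF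

section

variable {ι ι' ι'' : Type} (k : ι → Type) [∀ i, CommRing (k i)]

/-- Reindexing of products: `x ↦ (x (φ j))_j`. -/
def res (φ : ι' → ι) : (∀ i, k i) →+* ∀ j, k (φ j) :=
  RingHom.pi fun j => Pi.evalRingHom k (φ j)

@[simp] theorem res_apply (φ : ι' → ι) (x : ∀ i, k i) (j : ι') : res k φ x j = x (φ j) := rfl

theorem res_comp (φ : ι' → ι) (ψ : ι'' → ι') :
    (res (fun j => k (φ j)) ψ).comp (res k φ) = res k (φ ∘ ψ) := rfl

variable (A : Type) {B : Type}

/-- Pull back a family over `ι` to `ι × A`. -/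
def pb : (∀ i, k i) →+* ∀ s : ι × A, k s.1 := RingHom.pi fun s => Pi.evalRingHom k s.1

@[simp] theorem pb_apply (x : ∀ i, k i) (s : ι × A) : pb k A x s = x s.1 := rfl

variable {A}

/-- Restrict a family over `ι × A` to the section `i ↦ (i, φ i)`. -/
def at_ (φ : ι → A) : (∀ s : ι × A, k s.1) →+* ∀ i, k i :=
  RingHom.pi fun i => Pi.evalRingHom (fun s : ι × A => k s.1) (i, φ i)

@[simp] theorem at_apply (φ : ι → A) (x : ∀ s : ι × A, k s.1) (i : ι) :
    at_ k φ x i = x (i, φ i) := rfl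

/-- Reindexing of families over `ι × A` along maps `φ i : B → A`. -/
def rr (φ : ι → B → A) : (∀ s : ι × A, k s.1) →+* ∀ s : ι × B, k s.1 :=
  RingHom.pi fun s => Pi.evalRingHom (fun s : ι × A => k s.1) (s.1, φ s.1 s.2)

@[simp] theorem rr_apply (φ : ι → B → A) (x : ∀ s : ι × A, k s.1) (s : ι × B) :
    rr k φ x s = x (s.1, φ s.1 s.2) := rfl

end

namespace Plain

open Pool.Agent.GSM.Plain

/-- `H(n, w; R) = 0`. -/
def Vanishes (n w : ℕ) (R : Type) [CommRing R] : Prop :=
  ∀ x : F (Fin w) (MvPolynomial (Fin n) R), IsCube x → IsBd x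

variable {ι : Type}

/-- A family `k i` of fields is a family of finite fields with characteristics in `S` and bounded
degrees over their prime fields. -/
def IsFiniteFamily (S : Set ℕ) (k : ι → Type) [∀ i, Field (k i)] : Prop :=
  (∀ i, Finite (k i) ∧ ringChar (k i) ∈ S) ∧ ∃ f : ℕ, ∀ i, Nat.card (k i) ≤ ringChar (k i) ^ f

/-- The steps `L i` are `o(log (q i))`. -/
def SmallO (q L : ι → ℕ) : Prop := ∀ δ : ℝ, 0 < δ → ∃ N, ∀ i, N < q i → (L i : ℝ) ≤ δ * Real.log (q i)

/-- The set `S` contains only `X ^ o(1)` primes up to `X`. -/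
def Thin (S : Set ℕ) : Prop :=
  ∀ ε : ℝ, 0 < ε → ∃ N : ℕ, ∀ X : ℕ, N ≤ X →
    ({p : ℕ | p ∈ S ∧ p.Prime ∧ p ≤ X}.ncard : ℝ) ≤ (X : ℝ) ^ ε

end Plain

end Pool.Agent.LGF
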