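import Pool.Agent.GSM.ContG
import Pool.Agent.GSM.Tri
import Pool.Agent.GSM.Desc
import Pool.Agent.GSM.InjH
import Pool.Agent.LGF.Defs

/-!
# Log fillings: basic notation

`Cub x`: the class `x` over `R[t_i, i ∈ I]` is a cube; `Nul x`: it is a boundary, that is, it is
zero in `H(n, w; R)`. `IsCyc` and `Die` are the notions of `Defs.lean` for classes in `GG`.
-/

noncomputable section

namespace Pool.Agent.LGF

open Pool.Agent.GSM

universe u v

/-- All faces vanish. -/
abbrev Cub {I σ : Type} [DecidableEq I] [DecidableEq σ] {R : Type u} [CommRing R]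
    (x : GG I σ R) : Prop := IsCubeOn (Set.univ : Set I) (Set.univ : Set σ) x

/-- Zero up to homotopy. -/
abbrev Nul {I σ : Type} [DecidableEq I] [DecidableEq σ] {R : Type u} [CommRing R]
    (x : GG I σ R) : Prop := BdOn (Set.univ : Set I) (Set.univ : Set σ) x

/-- `T` is the product of `T₁` and `T₂` along `f₁`, `f₂`. -/
def IsProd {T T₁ T₂ : Type} [CommRing T] [CommRing T₁] [CommRing T₂] (f₁ : T →+* T₁)
    (f₂ : T →+* T₂) : Prop := Function.Bijective (f₁.prod f₂)

section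

variable {ι : Type} (k : ι → Type) [∀ i, CommRing (k i)]

/-- Componentwise ring homomorphisms. -/
def pmap {k' : ι → Type} [∀ i, CommRing (k' i)] (f : ∀ i, k i →+* k' i) :
    (∀ i, k i) →+* ∀ i, k' i := RingHom.pi fun i => (f i).comp (Pi.evalRingHom k i)

@[simp] theorem pmap_apply {k' : ι → Type} [∀ i, CommRing (k' i)] (f : ∀ i, k i →+* k' i)
    (x : ∀ i, k i) (i : ι) : pmap k f x i = f i (x i) := rfl

variable {I σ : Type} [DecidableEq I] [DecidableEq σ]

/-- `x` generates a bounded cyclic group of order dividing `m i`. -/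
def IsCyc (m : ι → ℕ) (x : GG I σ (∀ i, k i)) : Prop :=
  ∃ y : GG I σ (∀ s : ι × ℕ, k s.1), Cub y ∧
    Nul (GG.base (at_ k fun _ => 1) y - x) ∧
    Nul (GG.base (rr k fun _ (s : ℕ × ℕ) => s.1 + s.2) y - GG.base (rr k fun _ s => s.1) y -
      GG.base (rr k fun _ s => s.2) y) ∧
    Nul (GG.base (rr k fun i a => m i * a) y)

/-- `x` dies in `L i` doubling steps. -/
def Die (L : ι → ℕ) (x : GG I σ (∀ i, k i)) : Prop :=
  ∃ (e : ι → ℕ → Bool) (y : GG I σ (∀ s : ι × ℕ, k s.1)), Cub y ∧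
    Nul (GG.base (at_ k fun _ => 0) y - x) ∧
    Nul (GG.base (at_ k L) y) ∧
    ∀ b : Bool, Nul (GG.base (res (fun s : ι × ℕ => k s.1)
      (Subtype.val : {s : ι × ℕ // s.2 < L s.1 ∧ e s.1 s.2 = b} → ι × ℕ))
        (GG.base (rr k fun _ j => j + 1) y - (2 : ℚ) • y - (if b then 1 else 0 : ℚ) •
          GG.base (pb k ℕ) x))

/-- Tame: cyclic of order at most `(card k) ^ c`. -/
def IsTame (c : ℕ) (x : GG I σ (∀ i, k i)) : Prop :=
  ∃ m : ι → ℕ, (∀ i, 0 < m i ∧ m i ≤ Nat.card (k i) ^ c) ∧ IsCyc k m x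

end

end Pool.Agent.LGF
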