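import Pool.Agent.GSM.Rat

/-!
# Degrees at infinity of vectors over `k(X)`
-/

noncomputable section

namespace Pool.Agent.LGF

open Polynomial Pool.Agent.GSM Module

variable {k : Type} [Field k]

private theorem X_zpow_mem (n : ℤ) : (RatFunc.X : RatFunc k) ^ n ∈ degLE k n := by
  have hXd : ∀ n : ℕ, ((RatFunc.X : RatFunc k) ^ n).intDegree = n := by
    intro n
    have h1 : (RatFunc.X : RatFunc k) ^ n = algebraMap k[X] (RatFunc k) (X ^ n) := by
      rw [map_pow, RatFunc.algebraMap_X]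
    rw [h1, RatFunc.intDegree_polynomial, natDegree_X_pow]
  right
  obtain ⟨m, rfl | rfl⟩ := Int.eq_nat_or_neg n
  · rw [zpow_natCast, hXd]
  · rw [zpow_neg, zpow_natCast, RatFunc.intDegree_inv, hXd]

theorem exists_lead {f : RatFunc k} {n : ℤ} (hf : f ∈ degLE k n) :
    ∃ c : k, f - c • (RatFunc.X : RatFunc k) ^ n ∈ degLE k (n - 1) ∧
      (f ∉ degLE k (n - 1) → c ≠ 0) := by
  have hX : (RatFunc.X : RatFunc k) ≠ 0 := RatFunc.X_ne_zero
  have hg : (RatFunc.X : RatFunc k) ^ (-n) * f ∈ degLE k 0 := by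
    have h1 := degLE_mul (X_zpow_mem (k := k) (-n)) hf
    rwa [neg_add_cancel] at h1
  obtain ⟨p, c, r, hr, hd⟩ := exists_decomp 0 ((RatFunc.X : RatFunc k) ^ (-n) * f)
  have hr' : r ∈ degLE k (-1) := by
    simpa using hr
  have hd' : (RatFunc.X : RatFunc k) ^ (-n) * f = algebraMap k[X] (RatFunc k) p + r := by
    simpa using hd
  have hp : algebraMap k[X] (RatFunc k) p ∈ degLE k 0 := by
    have h3 : algebraMap k[X] (RatFunc k) p = (RatFunc.X : RatFunc k) ^ (-n) * f - r := by
      rw [hd', add_sub_cancel_right]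
    rw [h3]
    exact Submodule.sub_mem _ hg (degLE_mono (by norm_num) hr')
  have h3 : p.natDegree = 0 := by
    rcases (mem_degLE.1 hp) with h | h
    · have h4 : p = 0 := (map_eq_zero_iff _ (RatFunc.algebraMap_injective k)).1 h
      rw [h4, natDegree_zero]
    · rw [RatFunc.intDegree_polynomial] at h
      omega
  obtain ⟨c', hc'⟩ := natDegree_eq_zero.1 h3
  have h5 : f = (RatFunc.X : RatFunc k) ^ n * ((RatFunc.X : RatFunc k) ^ (-n) * f) := by
    rw [← mul_assoc, ← zpow_add₀ hX, add_neg_cancel, zpow_zero, one_mul]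
  have h6 : f - c' • (RatFunc.X : RatFunc k) ^ n = (RatFunc.X : RatFunc k) ^ n * r := by
    have h7 : algebraMap k[X] (RatFunc k) p = RatFunc.C c' := by
      rw [← hc', RatFunc.algebraMap_C]
    rw [hd', h7] at h5
    rw [RatFunc.smul_eq_C_mul]
    conv_lhs => rw [h5]
    ring
  have h8 : f - c' • (RatFunc.X : RatFunc k) ^ n ∈ degLE k (n - 1) := by
    rw [h6, sub_eq_add_neg]
    exact degLE_mul (X_zpow_mem n) hr'
  refine ⟨c', h8, ?_⟩
  rintro hn rfl
  rw [zero_smul, sub_zero] at h8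
  exact hn h8

theorem exists_deg {f : RatFunc k} (hf : f ≠ 0) : ∃ n : ℤ, f ∈ degLE k n ∧ f ∉ degLE k (n - 1) := by
  refine ⟨f.intDegree, Or.inr le_rfl, ?_⟩
  rintro (h | h)
  · exact hf h
  · omega

theorem poly_degLE {p : k[X]} {n : ℤ} : algebraMap k[X] (RatFunc k) p ∈ degLE k n ↔
    p = 0 ∨ (p.natDegree : ℤ) ≤ n := by
  rw [mem_degLE, RatFunc.intDegree_polynomial, map_eq_zero_iff _ (RatFunc.algebraMap_injective k)]

variable {V : Type} [AddCommGroup V] [Module (RatFunc k) V] {d : ℕ}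

/-- The coordinates of `x` in the basis `v` have degree at most `n` at infinity. -/
def DLE (v : Basis (Fin d) (RatFunc k) V) (x : V) (n : ℤ) : Prop := ∀ l, v.repr x l ∈ degLE k n

theorem DLE.add {v : Basis (Fin d) (RatFunc k) V} {x y : V} {n : ℤ} (hx : DLE v x n)
    (hy : DLE v y n) : DLE v (x + y) n := by
  intro l
  rw [map_add, Finsupp.add_apply]
  exact Submodule.add_mem _ (hx l) (hy l)

theorem DLE.mono {v : Basis (Fin d) (RatFunc k) V} {x : V} {m n : ℤ} (h : m ≤ n) (hx : DLE v x m) :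
    DLE v x n := by
  exact fun l => degLE_mono h (hx l)

theorem DLE.smul {v : Basis (Fin d) (RatFunc k) V} {x : V} {f : RatFunc k} {m n : ℤ}
    (hf : f ∈ degLE k m) (hx : DLE v x n) : DLE v (f • x) (m + n) := by
  intro l
  rw [map_smul, Finsupp.smul_apply, smul_eq_mul]
  exact degLE_mul hf (hx l)

theorem DLE.sum {v : Basis (Fin d) (RatFunc k) V} {ι : Type} (s : Finset ι) {x : ι → V} {n : ℤ}
    (hx : ∀ i ∈ s, DLE v (x i) n) : DLE v (∑ i ∈ s, x i) n := by
  intro l
  rw [map_sum, Finsupp.finsetSum_apply]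
  exact Submodule.sum_mem _ fun i hi => hx i hi l

theorem bounded_below (v u : Basis (Fin d) (RatFunc k) V) : ∃ B : ℤ, ∀ (p : Fin d → k[X]) (n : ℤ),
    DLE v (∑ i, algebraMap k[X] (RatFunc k) (p i) • u i) n → n < -B → p = 0 := by
  choose e he using fun s : Fin d × Fin d => exists_mem_degLE (u.repr (v s.2) s.1)
  refine ⟨∑ s, (e s : ℤ), ?_⟩
  intro p n hx hn
  funext i
  show p i = 0
  have h1 : u.repr (∑ i, algebraMap k[X] (RatFunc k) (p i) • u i) i = algebraMap k[X] (RatFunc k) (p i) := by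
    rw [u.repr_sum_self]
  set x := ∑ i, algebraMap k[X] (RatFunc k) (p i) • u i with hxd
  have h2 : u.repr x i = ∑ l, v.repr x l * u.repr (v l) i := by
    conv_lhs => rw [← v.sum_repr x]
    rw [map_sum, Finsupp.finsetSum_apply]
    refine Finset.sum_congr rfl fun l _ => ?_
    rw [map_smul, Finsupp.smul_apply, smul_eq_mul]
  have h3 : algebraMap k[X] (RatFunc k) (p i) ∈ degLE k (n + ∑ s, (e s : ℤ)) := by
    rw [← h1, h2]
    refine Submodule.sum_mem _ fun l _ => ?_
    refine degLE_mul (hx l) (degLE_mono ?_ (he (i, l)))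
    exact Finset.single_le_sum (f := fun s => (e s : ℤ)) (fun s _ => Int.natCast_nonneg _)
      (Finset.mem_univ (i, l))
  rcases poly_degLE.1 h3 with h | h
  · exact h
  · exfalso
    omega

end Pool.Agent.LGF
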