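import Pool.Agent.LGF.Bg1

/-!
# Reduced bases

Lattice reduction over `k[X]`: a family related to `u` by an invertible matrix over `k[X]` with the
smallest sum of degrees is reduced.
-/

noncomputable section

namespace Pool.Agent.LGF

open Polynomial Pool.Agent.GSM Module

variable {k : Type} [Field k] {V : Type} [AddCommGroup V] [Module (RatFunc k) V] {d : ℕ}

omit [AddCommGroup V] [Module (RatFunc k) V] in
private theorem bg2_X {j : ℤ} : (RatFunc.X : RatFunc k) ^ j ∈ degLE k j := by
  have hX : (RatFunc.X : RatFunc k) ≠ 0 := RatFunc.X_ne_zero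
  have h1 : (RatFunc.X : RatFunc k) ∈ degLE k 1 := by
    right
    rw [RatFunc.intDegree_X]
  have h2 : (RatFunc.X : RatFunc k)⁻¹ ∈ degLE k (-1) := by
    right
    rw [RatFunc.intDegree_inv, RatFunc.intDegree_X]
  induction j using Int.induction_on with
  | zero =>
    right
    rw [zpow_zero, RatFunc.intDegree_one]
  | succ i ih =>
    rw [zpow_add_one₀ hX]
    exact degLE_mul ih h1
  | pred i ih =>
    rw [zpow_sub_one₀ hX]
    exact degLE_mul ih h2

/-- Every vector has bounded degree. -/
private theorem bg2_ex (v : Basis (Fin d) (RatFunc k) V) (x : V) : ∃ n : ℤ, DLE v x n := by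
  choose e he using fun l => exists_mem_degLE (v.repr x l)
  refine ⟨((∑ l, e l : ℕ) : ℤ), fun l => degLE_mono ?_ (he l)⟩
  have h1 : e l ≤ ∑ l, e l := Finset.single_le_sum (fun _ _ => Nat.zero_le _) (Finset.mem_univ l)
  exact_mod_cast h1

/-- The families related to `u` by an invertible matrix. -/
private def bg2_Rel (u : Basis (Fin d) (RatFunc k) V) (ω : Fin d → V)
    (P Q : Matrix (Fin d) (Fin d) k[X]) : Prop :=
  (∀ i, ω i = ∑ j, algebraMap k[X] (RatFunc k) (P i j) • u j) ∧
    ∀ i, u i = ∑ j, algebraMap k[X] (RatFunc k) (Q i j) • ω j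

private theorem bg2_row {u : Basis (Fin d) (RatFunc k) V} {ω : Fin d → V}
    {P Q : Matrix (Fin d) (Fin d) k[X]} (h : bg2_Rel u ω P Q) (i : Fin d) : P i ≠ 0 := by
  have h1 : Q * P = 1 := by
    refine Matrix.ext fun i l => ?_
    have h2 : ∑ l, algebraMap k[X] (RatFunc k) ((Q * P) i l) • u l =
        ∑ l, algebraMap k[X] (RatFunc k) ((1 : Matrix (Fin d) (Fin d) k[X]) i l) • u l := by
      have e1 : ∑ l, algebraMap k[X] (RatFunc k) ((1 : Matrix (Fin d) (Fin d) k[X]) i l) • u l =
          u i := by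
        rw [Finset.sum_eq_single i]
        · rw [Matrix.one_apply_eq, map_one, one_smul]
        · intro j _ hj
          rw [Matrix.one_apply_ne hj.symm, map_zero, zero_smul]
        · intro hi
          exact absurd (Finset.mem_univ i) hi
      rw [e1]
      conv_rhs => rw [h.2 i]
      have e2 : ∀ j, algebraMap k[X] (RatFunc k) (Q i j) • ω j =
          ∑ l, algebraMap k[X] (RatFunc k) (Q i j * P j l) • u l := by
        intro j
        rw [h.1 j, Finset.smul_sum]
        refine Finset.sum_congr rfl fun l _ => ?_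
        rw [smul_smul, map_mul]
      rw [Finset.sum_congr rfl fun j _ => e2 j, Finset.sum_comm]
      refine Finset.sum_congr rfl fun l _ => ?_
      rw [Matrix.mul_apply, map_sum, Finset.sum_smul]
    have h3 := Fintype.linearIndependent_iff.1 u.linearIndependent
      (fun l => algebraMap k[X] (RatFunc k) ((Q * P) i l) -
        algebraMap k[X] (RatFunc k) ((1 : Matrix (Fin d) (Fin d) k[X]) i l)) (by
        simp only [sub_smul, Finset.sum_sub_distrib]
        rw [h2, sub_self]) l
    exact RatFunc.algebraMap_injective k (sub_eq_zero.1 h3)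
  have h2 : P * Q = 1 := mul_eq_one_comm.1 h1
  intro h3
  have h4 : (P * Q) i i = 1 := by rw [h2, Matrix.one_apply_eq]
  rw [Matrix.mul_apply] at h4
  have h5 : ∀ j, P i j = 0 := fun j => congrFun h3 j
  simp only [h5, zero_mul, Finset.sum_const_zero] at h4
  exact one_ne_zero h4.symm

/-- Replacement of one vector. -/
private theorem bg2_repl {u : Basis (Fin d) (RatFunc k) V} {ω : Fin d → V}
    {P Q : Matrix (Fin d) (Fin d) k[X]} (h : bg2_Rel u ω P Q) (l₀ : Fin d) (q : Fin d → k[X])
    {c : k} (hc : c ≠ 0) (hq : q l₀ = C c) :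
    bg2_Rel u (fun i => if i = l₀ then ∑ l, algebraMap k[X] (RatFunc k) (q l) • ω l else ω i)
      (fun i j => if i = l₀ then ∑ l, q l * P l j else P i j)
      (fun i j => if j = l₀ then Q i l₀ * C c⁻¹ else Q i j - Q i l₀ * C c⁻¹ * q j) := by
  constructor
  · intro i
    by_cases hi : i = l₀
    · simp only [if_pos hi]
      have e2 : ∀ l, algebraMap k[X] (RatFunc k) (q l) • ω l =
          ∑ j, algebraMap k[X] (RatFunc k) (q l * P l j) • u j := by
        intro l
        rw [h.1 l, Finset.smul_sum]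
        refine Finset.sum_congr rfl fun j _ => ?_
        rw [smul_smul, map_mul]
      rw [Finset.sum_congr rfl fun l _ => e2 l, Finset.sum_comm]
      refine Finset.sum_congr rfl fun j _ => ?_
      rw [map_sum, Finset.sum_smul]
    · simp only [if_neg hi]
      exact h.1 i
  · intro i
    have hcc : algebraMap k[X] (RatFunc k) (C c⁻¹) * algebraMap k[X] (RatFunc k) (q l₀) = 1 := by
      rw [hq, ← map_mul, ← C_mul, inv_mul_cancel₀ hc, C_1, map_one]
    rw [← Finset.add_sum_erase Finset.univ _ (Finset.mem_univ l₀)]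
    simp only [if_true]
    have e1 : ∑ x ∈ Finset.univ.erase l₀,
        (algebraMap k[X] (RatFunc k) (if x = l₀ then Q i l₀ * C c⁻¹
          else Q i x - Q i l₀ * C c⁻¹ * q x) •
          if x = l₀ then ∑ l, algebraMap k[X] (RatFunc k) (q l) • ω l else ω x) =
        ∑ x ∈ Finset.univ.erase l₀, (algebraMap k[X] (RatFunc k) (Q i x) • ω x -
          (algebraMap k[X] (RatFunc k) (Q i l₀ * C c⁻¹)) •
            (algebraMap k[X] (RatFunc k) (q x) • ω x)) := by
      refine Finset.sum_congr rfl fun x hx => ?_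
      have hx' := (Finset.mem_erase.1 hx).1
      rw [if_neg hx', if_neg hx', map_sub, map_mul _ (Q i l₀ * C c⁻¹) (q x), sub_smul, mul_smul]
    rw [e1, Finset.sum_sub_distrib, ← Finset.smul_sum,
      ← Finset.add_sum_erase Finset.univ (fun l => algebraMap k[X] (RatFunc k) (q l) • ω l)
        (Finset.mem_univ l₀), smul_add, smul_smul]
    have e2 : algebraMap k[X] (RatFunc k) (Q i l₀ * C c⁻¹) * algebraMap k[X] (RatFunc k) (q l₀) =
        algebraMap k[X] (RatFunc k) (Q i l₀) := by
      rw [map_mul, mul_assoc, hcc, mul_one]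
    rw [e2]
    conv_lhs => rw [h.2 i, ← Finset.add_sum_erase Finset.univ _ (Finset.mem_univ l₀)]
    abel

theorem exists_reduced (v u : Basis (Fin d) (RatFunc k) V) :
    ∃ (ω : Fin d → V) (P Q : Matrix (Fin d) (Fin d) k[X]) (a : Fin d → ℤ),
      (∀ i, ω i = ∑ j, algebraMap k[X] (RatFunc k) (P i j) • u j) ∧
      (∀ i, u i = ∑ j, algebraMap k[X] (RatFunc k) (Q i j) • ω j) ∧
      ∀ (p : Fin d → RatFunc k) (n : ℤ),
        DLE v (∑ l, p l • ω l) n ↔ ∀ l, p l ∈ degLE k (n - a l) := by
  classical
  obtain ⟨B, hB⟩ := bounded_below v u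
  let Good : ℕ → Prop := fun s => ∃ (ω : Fin d → V) (P Q : Matrix (Fin d) (Fin d) k[X])
    (m : Fin d → ℕ), bg2_Rel u ω P Q ∧ (∀ l, DLE v (ω l) ((m l : ℤ) - B)) ∧ ∑ l, m l = s
  have hex : ∃ s, Good s := by
    choose e he using fun l => bg2_ex v (u l)
    refine ⟨_, u, 1, 1, fun l => (e l + B).toNat, ⟨fun i => ?_, fun i => ?_⟩, fun l => ?_, rfl⟩
    · rw [Finset.sum_eq_single i]
      · rw [Matrix.one_apply_eq, map_one, one_smul]
      · intro j _ hj
        rw [Matrix.one_apply_ne hj.symm, map_zero, zero_smul]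
      · intro hi
        exact absurd (Finset.mem_univ i) hi
    · rw [Finset.sum_eq_single i]
      · rw [Matrix.one_apply_eq, map_one, one_smul]
      · intro j _ hj
        rw [Matrix.one_apply_ne hj.symm, map_zero, zero_smul]
      · intro hi
        exact absurd (Finset.mem_univ i) hi
    · refine DLE.mono ?_ (he l)
      have h1 := Int.self_le_toNat (e l + B)
      show e l ≤ ((e l + B).toNat : ℤ) - B
      omega
  obtain ⟨ω, P, Q, m, hrel, hdle, hsum⟩ := Nat.find_spec hex
  have hmin : ∀ s, Good s → Nat.find hex ≤ s := fun s hs => Nat.find_min' hex hs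
  refine ⟨ω, P, Q, fun l => (m l : ℤ) - B, hrel.1, hrel.2, fun p n => ⟨fun hx => ?_, fun hp => ?_⟩⟩
  · -- the main part
    by_contra hcon
    have hlarge : ∃ t : ℕ, ∀ l, p l ∈ degLE k (n + t - ((m l : ℤ) - B)) := by
      choose e he using fun l => exists_mem_degLE (p l)
      refine ⟨∑ l, (e l + m l) + (n.natAbs + B.natAbs), fun l => degLE_mono ?_ (he l)⟩
      have h1 : e l + m l ≤ ∑ l, (e l + m l) :=
        Finset.single_le_sum (f := fun l => e l + m l) (fun _ _ => Nat.zero_le _)
          (Finset.mem_univ l)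
      omega
    have ht := Nat.find_spec hlarge
    set t := Nat.find hlarge with htd
    have ht0 : t ≠ 0 := by
      intro h0
      apply hcon
      intro l
      have h1 := ht l
      rw [h0, Nat.cast_zero, add_zero] at h1
      exact h1
    have ht1 : ¬ ∀ l, p l ∈ degLE k (n + (t - 1 : ℕ) - ((m l : ℤ) - B)) :=
      Nat.find_min hlarge (by omega)
    obtain ⟨N, hN⟩ : ∃ N : ℤ, N = n + t := ⟨_, rfl⟩
    rw [← hN] at ht
    obtain ⟨l₁, hl₁⟩ := not_forall.1 ht1
    have hl₁' : p l₁ ∉ degLE k (N - ((m l₁ : ℤ) - B) - 1) := by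
      have e1 : N - ((m l₁ : ℤ) - B) - 1 = n + (t - 1 : ℕ) - ((m l₁ : ℤ) - B) := by omega
      rw [e1]
      exact hl₁
    choose c hc1 hc2 using fun l => exists_lead (ht l)
    have hcl₁ : c l₁ ≠ 0 := hc2 l₁ hl₁'
    -- `l₀`
    obtain ⟨l₀, hl₀, hmax⟩ := Finset.exists_max_image (Finset.univ.filter fun l => c l ≠ 0) m
      ⟨l₁, Finset.mem_filter.2 ⟨Finset.mem_univ _, hcl₁⟩⟩
    have hcl₀ : c l₀ ≠ 0 := (Finset.mem_filter.1 hl₀).2
    have hmax' : ∀ l, c l ≠ 0 → m l ≤ m l₀ := fun l hl =>
      hmax l (Finset.mem_filter.2 ⟨Finset.mem_univ _, hl⟩)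
    have hX0 : (RatFunc.X : RatFunc k) ≠ 0 := RatFunc.X_ne_zero
    -- `y`
    have hy : DLE v (∑ l, (c l • (RatFunc.X : RatFunc k) ^ (N - ((m l : ℤ) - B))) • ω l)
        (N - 1) := by
      have e1 : ∑ l, (c l • (RatFunc.X : RatFunc k) ^ (N - ((m l : ℤ) - B))) • ω l =
          ∑ l, p l • ω l + ∑ l, (-1 : RatFunc k) •
            ((p l - c l • (RatFunc.X : RatFunc k) ^ (N - ((m l : ℤ) - B))) • ω l) := by
        rw [← Finset.sum_add_distrib]
        refine Finset.sum_congr rfl fun l _ => ?_
        rw [smul_smul, ← add_smul]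
        congr 1
        ring
      rw [e1]
      refine DLE.add (hx.mono (by omega)) (DLE.sum _ fun l _ => ?_)
      have h1 := DLE.smul (v := v) (hc1 l) (hdle l)
      have h2 : (-1 : RatFunc k) ∈ degLE k 0 := by
        have h3 : (1 : RatFunc k) ∈ degLE k 0 := by
          right
          rw [RatFunc.intDegree_one]
        exact (degLE k 0).neg_mem h3
      have h4 := DLE.smul (v := v) h2 h1
      exact h4.mono (by omega)
    have hy' := DLE.smul (v := v) (bg2_X (k := k) (j := ((m l₀ : ℤ) - B) - N)) hy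
    -- the coefficients
    let q : Fin d → k[X] := fun l => C (c l) * X ^ (m l₀ - m l)
    have hq0 : q l₀ = C (c l₀) := by
      simp only [q, Nat.sub_self, pow_zero, mul_one]
    have hqy : (RatFunc.X : RatFunc k) ^ (((m l₀ : ℤ) - B) - N) •
        ∑ l, (c l • (RatFunc.X : RatFunc k) ^ (N - ((m l : ℤ) - B))) • ω l =
        ∑ l, algebraMap k[X] (RatFunc k) (q l) • ω l := by
      rw [Finset.smul_sum]
      refine Finset.sum_congr rfl fun l _ => ?_
      rw [smul_smul]
      congr 1
      by_cases hcl : c l = 0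
      · simp only [q, hcl, zero_smul, mul_zero, zero_mul, map_zero]
      · have e1 : (((m l₀ : ℤ) - B) - N) + (N - ((m l : ℤ) - B)) = ((m l₀ - m l : ℕ) : ℤ) := by
          have := hmax' l hcl
          omega
        rw [mul_smul_comm, ← zpow_add₀ hX0, e1, zpow_natCast, RatFunc.smul_eq_C_mul]
        simp only [q]
        rw [map_mul, map_pow, RatFunc.algebraMap_C, RatFunc.algebraMap_X]
    rw [hqy] at hy'
    have hrel' := bg2_repl hrel l₀ q hcl₀ hq0
    have hm0 : m l₀ ≠ 0 := by
      intro h0
      have h1 := bg2_row hrel' l₀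
      apply h1
      have h2 := hrel'.1 l₀
      simp only [if_true] at h2
      have h3 := hB (fun j => ∑ l, q l * P l j) (-B - 1) (by
        rw [← h2]
        exact hy'.mono (by omega)) (by omega)
      funext j
      have h4 := congrFun h3 j
      simp only [if_true]
      exact h4
    have hgood : Good (∑ l, if l = l₀ then m l₀ - 1 else m l) := by
      refine ⟨_, _, _, fun l => if l = l₀ then m l₀ - 1 else m l, hrel', fun l => ?_, rfl⟩
      by_cases hl : l = l₀
      · simp only [if_pos hl]
        exact hy'.mono (by omega)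
      · simp only [if_neg hl]
        exact hdle l
    have h1 := hmin _ hgood
    have h2 : ∑ l, (if l = l₀ then m l₀ - 1 else m l) < ∑ l, m l := by
      refine Finset.sum_lt_sum (fun l _ => ?_) ⟨l₀, Finset.mem_univ _, ?_⟩
      · by_cases hl : l = l₀
        · rw [if_pos hl, hl]
          omega
        · rw [if_neg hl]
      · rw [if_pos rfl]
        omega
    omega
  · refine DLE.sum _ fun l _ => ?_
    have h1 := DLE.smul (v := v) (hp l) (hdle l)
    refine h1.mono ?_
    show n - ((m l : ℤ) - B) + ((m l : ℤ) - B) ≤ n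
    omega

end Pool.Agent.LGF
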