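import Pool.Agent.LGF.ExH
import Pool.Agent.LGF.Base

/-!
# A curve in a field of characteristic zero

`AlgLE φ m`: the image of `φ : R → K` is algebraic over a subfield generated by `m` elements.
`CD C m`: the subring `C` of `K` is the coordinate ring of a curve over a ring `S` with `AlgLE` number `m`.
-/

noncomputable section

namespace Pool.Agent.LGF

open Polynomial

/-- The values of `φ` are algebraic over a field generated by `m` elements. -/
def AlgLE {K : Type} [Field K] [CharZero K] {R : Type} [CommRing R] (φ : R →+* K) (m : ℕ) : Prop :=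
  ∃ x : Fin m → K, ∀ r, IsAlgebraic (IntermediateField.adjoin ℚ (Set.range x)) (φ r)

/-- The coordinate ring of a curve. -/
structure CD {K : Type} [Field K] [CharZero K] (C : Subring K) (m : ℕ) where
  S : Subring K
  le : S ≤ C
  t : C
  θ : C
  Φ : S[X][X]
  δ : S[X]
  monic : Φ.Monic
  pos : 0 < Φ.natDegree
  root : ev2 (Subring.inclusion le) t θ Φ = 0
  ker : ∀ p : S[X][X], ev2 (Subring.inclusion le) t θ p = 0 → Φ ∣ p
  δ_ne : δ.eval₂ (Subring.inclusion le) t ≠ 0
  gen : ∀ c : C, ∃ (n : ℕ) (p : S[X][X]),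
    δ.eval₂ (Subring.inclusion le) t ^ n * c = ev2 (Subring.inclusion le) t θ p
  int : ∀ c : C, ∃ χ : S[X][X], χ.Monic ∧ ev2 (Subring.inclusion le) t c χ = 0
  alg : AlgLE S.subtype m

end Pool.Agent.LGF
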