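import Pool.Agent.LGF.Lift

/-!
# A class which vanishes in the ultraproduct vanishes almost everywhere

MODULE LGF-CNul. PLAN. By `exists_cube` (for the ring `K = ∏ k i`, universe 0) the cube `x` comes from
`x₀` over a finitely generated subring `R₀ = Subring.closure F ⊆ ∏ k i`
(`Algebra.FiniteType ℤ` for the closure of a finite set), `x = base (R₀ → ∏) x₀`. Let
`f : R₀ → UP`. `base f x₀` is `Nul`; `bd_descend f x₀` gives a finite set `F' ⊆ UP`. Let
`R₁ ⊆ UP` be the subring generated by `F'` and the image of `R₀` (finitely generated), `g : R₀ → R₁`: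
`Nul (base g x₀)`. `exists_lift_over` for `g`, `φ = R₁ ⊆ UP` and `a₀ = (R₀ ⊆ ∏)` gives `J`, `ρ` with
`ρ ∘ g = res ∘ a₀`; apply `BdOn.base ρ` (`GG.base_base`).
-/

noncomputable section

namespace Pool.Agent.LGF

open Pool.Agent.GSM Filter

variable {ι : Type} (k : ι → Type) [∀ i, Field (k i)] (U : Ultrafilter ι)
variable {I σ : Type} [Finite I] [DecidableEq I] [Finite σ] [DecidableEq σ]

private theorem fg_cl {A : Type} [CommRing A] {F : Set A} (hF : F.Finite) :
    Algebra.FiniteType ℤ (Subring.closure F) := by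
  have h1 : (subalgebraOfSubring (Subring.closure F)).FG := by
    rw [← Algebra.adjoin_int, Subalgebra.fg_def]
    exact ⟨F, hF, rfl⟩
  have h2 := (Subalgebra.fg_iff_finiteType _).mp h1
  exact h2

theorem nul_of_UP {x : GG I σ (∀ i, k i)} (hx : Cub x) (h : Nul (GG.base (toUP k U) x)) :
    ∃ J ∈ U, Nul (GG.base (res k (Subtype.val : J → ι)) x) := by
  classical
  obtain ⟨F, hF, h1⟩ := exists_cube.{0, 0} hx
  obtain ⟨x₀, -, hxx⟩ := h1 (Subring.closure F).subtype Subtype.val_injective
    (fun c hc => ⟨⟨c, Subring.subset_closure hc⟩, rfl⟩)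
  obtain ⟨F', hF', h2⟩ := bd_descend.{0, 0, 0} ((toUP k U).comp (Subring.closure F).subtype) x₀
    (by
      rw [← GG.base_base, hxx]
      exact h)
  have hmem : ∀ c : Subring.closure F, ((toUP k U).comp (Subring.closure F).subtype) c ∈
      Subring.closure (F' ∪ (toUP k U) '' F) := by
    intro c
    have h3 : Subring.closure F ≤ (Subring.closure (F' ∪ (toUP k U) '' F)).comap (toUP k U) := by
      rw [Subring.closure_le]
      intro d hd
      exact Subring.subset_closure (Or.inr ⟨d, hd, rfl⟩)
    exact h3 c.2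
  have hf0 : Algebra.FiniteType ℤ (Subring.closure F) := fg_cl hF
  have hf1 : Algebra.FiniteType ℤ (Subring.closure (F' ∪ (toUP k U) '' F)) :=
    fg_cl (hF'.union (hF.image _))
  have h4 := h2 (((toUP k U).comp (Subring.closure F).subtype).codRestrict
    (Subring.closure (F' ∪ (toUP k U) '' F)) hmem) (Subring.closure (F' ∪ (toUP k U) '' F)).subtype
    rfl Subtype.val_injective (fun c hc => ⟨⟨c, Subring.subset_closure (Or.inl hc)⟩, rfl⟩)
  obtain ⟨J, hJ, ρ, -, hρ⟩ := exists_lift_over k U (((toUP k U).comp (Subring.closure F).subtype).codRestrict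
    (Subring.closure (F' ∪ (toUP k U) '' F)) hmem) (Subring.closure (F' ∪ (toUP k U) '' F)).subtype
    (Subring.closure F).subtype rfl
  refine ⟨J, hJ, ?_⟩
  have h5 := h4.base ρ
  rw [GG.base_base, hρ, ← GG.base_base, hxx] at h5
  exact h5

end Pool.Agent.LGF
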