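import Pool.Agent.LGF.Eqv

/-!
# Finitely many ideals of given colength, periods

MODULE LGF-Cnt. PLAN. Let `A = ∑ a l`, `n = N + A`, `Col J N`. The characteristic polynomial `χ` of the
multiplication by `X` on `O / J` is monic of degree `N` and `χ(t) ∈ J` (Cayley-Hamilton). So
`χ(t) ∈ J ⊓ leSub N` and every `x ∈ O` is congruent modulo `(χ(t))` to an element whose coordinates have
degree `< N`, i.e. of weight `≤ N + A`: hence `J` is the ideal generated by `J ⊓ leSub n`, and `J` is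
determined by the subspace `J ⊓ leSub n` of `leSub n`. A subspace of a space of dimension `D` over a field
with `q` elements is spanned by `D` vectors, so there are at most `(q ^ D) ^ D` subspaces;
`D ≤ d * (n + 1)` (`finrank_leSub_le`).
* `exists_period`: let `Q` be the bound. For `0 ≤ b ≤ Q` choose `J_b` with `Eqv J_b (𝔞 ^ b)`
  (`exists_ideal`, `Col (𝔞 ^ b) ((b * s) * d)`); two of them are equal (pigeonhole,
  `Finset.exists_ne_map_eq_of_card_lt_of_maps_to` or `Fintype.exists_ne_map_eq_of_card_lt`), say for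
  `b < b'`; then `Eqv (𝔞 ^ b) (𝔞 ^ b')`, cancel `𝔞 ^ b`: `Eqv ⊤ (𝔞 ^ (b' - b))`.
-/

noncomputable section

namespace Pool.Agent.LGF

open Polynomial Module

namespace Crv

variable {k : Type} [Field k] [Finite k] {d : ℕ} {a : Fin d → ℕ} {Y : Crv k d a} {J : Ideal Y.O}
  {N s : ℕ}

private theorem exists_span {k V : Type} [Field k] [AddCommGroup V] [Module k V]
    [Module.Finite k V] (W : Submodule k V) :
    ∃ f : Fin (finrank k V) → V, Submodule.span k (Set.range f) = W := by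
  have hle : finrank k W ≤ finrank k V := Submodule.finrank_le W
  obtain ⟨b, hb⟩ : ∃ b : Basis (Fin (finrank k W)) k W, b = Module.finBasis k W := ⟨_, rfl⟩
  refine ⟨fun i => if h : (i : ℕ) < finrank k W then (b ⟨i, h⟩ : V) else 0, ?_⟩
  apply le_antisymm
  · rw [Submodule.span_le]
    rintro _ ⟨i, rfl⟩
    simp only
    split_ifs with h
    · exact (b ⟨i, h⟩).2
    · exact W.zero_mem
  · intro x hx
    have h1 : (⟨x, hx⟩ : W) ∈ Submodule.span k (Set.range b) := by
      rw [b.span_eq]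
      exact Submodule.mem_top
    have h2 := Submodule.mem_map_of_mem (f := W.subtype) h1
    rw [Submodule.map_span, ← Set.range_comp] at h2
    refine Submodule.span_mono ?_ h2
    rintro _ ⟨i, rfl⟩
    refine ⟨⟨i, lt_of_lt_of_le i.2 hle⟩, ?_⟩
    simp only
    rw [dif_pos i.2]
    rfl

private theorem card_sub (k V : Type) [Field k] [Finite k] [AddCommGroup V] [Module k V]
    [Module.Finite k V] :
    Finite (Submodule k V) ∧ Nat.card (Submodule k V) ≤ Nat.card k ^ (finrank k V) ^ 2 := by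
  have : Finite V := Module.finite_of_finite k
  have hs : Function.Surjective
      (fun f : Fin (finrank k V) → V => Submodule.span k (Set.range f)) := fun W => exists_span W
  refine ⟨Finite.of_surjective _ hs, ?_⟩
  refine (Nat.card_le_card_of_surjective _ hs).trans (le_of_eq ?_)
  rw [Nat.card_fun, Module.natCard_eq_pow_finrank (K := k) (V := V), Nat.card_fin, ← pow_mul, sq]

private theorem chi_mem {k : Type} [Field k] {d : ℕ} {a : Fin d → ℕ} {Y : Crv k d a}
    {J : Ideal Y.O} {N : ℕ} (hJ : Y.Col J N) :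
    ∃ χ : k[X], χ.Monic ∧ χ.natDegree = N ∧ algebraMap k[X] Y.O χ ∈ J := by
  obtain ⟨hfin, hN⟩ := hJ
  have := hfin
  obtain ⟨T, hT⟩ : ∃ T : Module.End k (Y.O ⧸ J),
      T = Algebra.lmul k (Y.O ⧸ J) (Ideal.Quotient.mk J Y.t) := ⟨_, rfl⟩
  refine ⟨T.charpoly, T.charpoly_monic, ?_, ?_⟩
  · rw [LinearMap.charpoly_natDegree]
    exact hN
  · have h1 := LinearMap.aeval_self_charpoly T
    have h2' : ∀ p : k[X], aeval T p = Algebra.lmul k (Y.O ⧸ J)
        (aeval (Ideal.Quotient.mk J Y.t) p) := by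
      intro p
      rw [hT]
      exact Polynomial.aeval_algHom_apply (Algebra.lmul k (Y.O ⧸ J)) _ _
    have h2 := h2' T.charpoly
    rw [h1] at h2
    have h3 := (DFunLike.congr_fun h2 (1 : Y.O ⧸ J)).symm
    have h4 : aeval (Ideal.Quotient.mk J Y.t) T.charpoly = 0 := by
      have h5 : Algebra.lmul k (Y.O ⧸ J) (aeval (Ideal.Quotient.mk J Y.t) T.charpoly) 1 =
          aeval (Ideal.Quotient.mk J Y.t) T.charpoly := by
        show aeval (Ideal.Quotient.mk J Y.t) T.charpoly * 1 = _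
        rw [mul_one]
      rw [← h5, h3]
      rfl
    have h6 : aeval (Ideal.Quotient.mk J Y.t) T.charpoly =
        Ideal.Quotient.mk J (algebraMap k[X] Y.O T.charpoly) := by
      have h7 : algebraMap k[X] Y.O T.charpoly = aeval Y.t T.charpoly := by
        have h8 := Polynomial.aeval_algebraMap_apply Y.O (X : k[X]) T.charpoly
        rw [Polynomial.aeval_X_left_apply] at h8
        exact h8.symm
      rw [h7]
      exact Polynomial.aeval_algHom_apply (Ideal.Quotient.mkₐ k J) _ _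
    rw [h6] at h4
    exact Ideal.Quotient.eq_zero_iff_mem.1 h4

private theorem div_chi {k : Type} [Field k] {d : ℕ} {a : Fin d → ℕ} {Y : Crv k d a} {N : ℕ}
    {χ : k[X]} (hχ : χ.Monic) (hN : χ.natDegree = N) (x : Y.O) :
    ∃ q r : Y.O, x = algebraMap k[X] Y.O χ * q + r ∧ Y.Le r (N + ∑ l, a l) := by
  refine ⟨∑ l, (Y.ω.repr x l /ₘ χ) • Y.ω l, ∑ l, (Y.ω.repr x l %ₘ χ) • Y.ω l, ?_, ?_⟩
  · rw [← Algebra.smul_def, Finset.smul_sum, ← Finset.sum_add_distrib]
    refine (Y.ω.sum_repr x).symm.trans (Finset.sum_congr rfl fun l _ => ?_)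
    rw [smul_smul, ← add_smul, add_comm, modByMonic_add_div]
  · intro l
    rw [Basis.repr_sum_self]
    right
    have h1 := natDegree_modByMonic_le (Y.ω.repr x l) hχ
    have h2 : a l ≤ ∑ l, a l := Finset.single_le_sum (fun _ _ => Nat.zero_le _) (Finset.mem_univ l)
    omega

private theorem span_cut {k : Type} [Field k] {d : ℕ} {a : Fin d → ℕ} {Y : Crv k d a}
    {J : Ideal Y.O} {N : ℕ} (hJ : Y.Col J N) :
    Ideal.span {x | x ∈ J ∧ Y.Le x (N + ∑ l, a l)} = J := by
  apply le_antisymm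
  · rw [Ideal.span_le]
    exact fun x hx => hx.1
  · intro x hx
    obtain ⟨χ, hχ, hN, hχJ⟩ := chi_mem hJ
    obtain ⟨q, r, hx', hr⟩ := div_chi hχ hN x
    have hχL : Y.Le (algebraMap k[X] Y.O χ) (N + ∑ l, a l) := by
      have h1 := le_smul (Y := Y) (x := Y.t ^ 0) χ le_t
      rw [pow_zero, ← Algebra.algebraMap_eq_smul_one, hN] at h1
      exact le_mono (by omega) h1
    have hrJ : r ∈ J := by
      have h1 : r = x - algebraMap k[X] Y.O χ * q := by
        rw [hx']
        ring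
      rw [h1]
      exact J.sub_mem hx (J.mul_mem_right _ hχJ)
    rw [hx']
    refine Ideal.add_mem _ (Ideal.mul_mem_right _ _ ?_) ?_
    · exact Ideal.subset_span ⟨hχJ, hχL⟩
    · exact Ideal.subset_span ⟨hrJ, hr⟩

theorem finite_col (Y : Crv k d a) (N : ℕ) : {J : Ideal Y.O | Y.Col J N}.Finite ∧
    {J : Ideal Y.O | Y.Col J N}.ncard ≤ Nat.card k ^ (d * (N + (∑ l, a l) + 1)) ^ 2 := by
  obtain ⟨n, hn⟩ : ∃ n, n = N + ∑ l, a l := ⟨_, rfl⟩
  have := leSub_finite Y n
  obtain ⟨hfin, hcard⟩ := card_sub k (Y.leSub n)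
  have hinj : Set.InjOn (fun J : Ideal Y.O =>
      Submodule.comap (Y.leSub n).subtype (J.restrictScalars k)) {J : Ideal Y.O | Y.Col J N} := by
    intro J hJ J' hJ' h
    have h1 := span_cut (show Y.Col J N from hJ)
    have h2 := span_cut (show Y.Col J' N from hJ')
    have h3 : {x | x ∈ J ∧ Y.Le x (N + ∑ l, a l)} = {x | x ∈ J' ∧ Y.Le x (N + ∑ l, a l)} := by
      ext x
      have key : ∀ hx : Y.Le x (N + ∑ l, a l), (x ∈ J ↔ x ∈ J') := by
        intro hx
        have hx' : x ∈ Y.leSub n := by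
          rw [hn]
          exact hx
        have h4 := SetLike.ext_iff.1 h (⟨x, hx'⟩ : Y.leSub n)
        exact h4
      constructor
      · rintro ⟨hx1, hx2⟩
        exact ⟨(key hx2).1 hx1, hx2⟩
      · rintro ⟨hx1, hx2⟩
        exact ⟨(key hx2).2 hx1, hx2⟩
    rw [← h1, ← h2, h3]
  refine ⟨Set.Finite.of_injOn (Set.mapsTo_univ _ _) hinj Set.finite_univ, ?_⟩
  have h5 := Set.ncard_le_ncard_of_injOn _ (fun J _ => Set.mem_univ _) hinj Set.finite_univ
  rw [Set.ncard_univ] at h5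
  refine h5.trans (hcard.trans ?_)
  apply Nat.pow_le_pow_right Nat.card_pos
  apply Nat.pow_le_pow_left
  rw [← hn]
  exact finrank_leSub_le Y n

theorem exists_period (h : Y.Col J (s * d)) : ∃ M, 0 < M ∧
    M ≤ Nat.card k ^ (d * (2 * (∑ l, a l) * d + (∑ l, a l) + 1)) ^ 2 ∧ Eqv (J ^ M) ⊤ := by
  obtain ⟨A, hA⟩ : ∃ A, A = ∑ l, a l := ⟨_, rfl⟩
  rw [← hA]
  obtain ⟨Q, hQ⟩ : ∃ Q, Q = Nat.card k ^ (d * (2 * A * d + A + 1)) ^ 2 := ⟨_, rfl⟩
  rw [← hQ]
  obtain ⟨hfin, hcard⟩ := finite_col Y (2 * A * d)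
  rw [← hA, ← hQ] at hcard
  have hex : ∀ b : ℕ, ∃ J' : Ideal Y.O, Y.Col J' (2 * A * d) ∧ Eqv J' (J ^ b) := by
    intro b
    have h1 := col_pow h b
    have h2 : b * (s * d) = (b * s) * d := by ring
    rw [h2] at h1
    rw [hA]
    exact exists_ideal h1
  choose F hF1 hF2 using hex
  obtain ⟨b, hb, b', hb', hne, heq⟩ : ∃ b ∈ Finset.range (Q + 1), ∃ b' ∈ Finset.range (Q + 1),
      b ≠ b' ∧ F b = F b' := by
    refine Finset.exists_ne_map_eq_of_card_lt_of_maps_to (t := hfin.toFinset) ?_ ?_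
    · rw [Finset.card_range, ← Set.ncard_eq_toFinset_card _ hfin]
      omega
    · intro b _
      exact Finset.mem_coe.2 (hfin.mem_toFinset.2 (hF1 b))
  have hJ0 : J ≠ ⊥ := col_ne_bot h
  have main : ∀ b b' : ℕ, b < b' → b' ≤ Q → F b = F b' →
      ∃ M, 0 < M ∧ M ≤ Q ∧ Eqv (J ^ M) ⊤ := by
    intro b b' hbb hb' heq
    refine ⟨b' - b, by omega, by omega, ?_⟩
    have h1 : Eqv (J ^ b') (J ^ b) := by
      have h2 := hF2 b
      rw [heq] at h2
      exact (hF2 b').symm.trans h2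
    have h3 : J ^ b' = J ^ (b' - b) * J ^ b := by
      rw [← pow_add]
      congr 1
      omega
    have h4 : J ^ b = ⊤ * J ^ b := by rw [Ideal.top_mul]
    rw [h3] at h1
    have h5 : Eqv (J ^ (b' - b) * J ^ b) (⊤ * J ^ b) := by
      rw [← h4]
      exact h1
    exact Eqv.cancel (pow_ne_zero b hJ0) h5
  rw [Finset.mem_range] at hb hb'
  rcases lt_or_gt_of_ne hne with hlt | hlt
  · exact main b b' hlt (by omega) heq
  · exact main b' b hlt (by omega) heq.symm

end Crv

end Pool.Agent.LGF
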