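import Pool.Agent.LGF.Crv

/-!
# Colengths of ideals are additive

`col_gen`: a generator of `J` modulo `J * J'`; multiplication by it gives the exact sequence
`0 → O / J' → O / J J' → O / J → 0`, and the dimensions are additive.
-/

noncomputable section

namespace Pool.Agent.LGF

open Polynomial Module

namespace Crv

variable {k : Type} [Field k] {d : ℕ} {a : Fin d → ℕ} {Y : Crv k d a} {J J' : Ideal Y.O} {N N' : ℕ}

theorem col_ne_bot (h : Y.Col J N) : J ≠ ⊥ := by
  rintro rfl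
  obtain ⟨hfin, _⟩ := h
  have e1 : (Y.O ⧸ (⊥ : Ideal Y.O)) ≃ₗ[Y.O] Y.O := Submodule.quotEquivOfEqBot (⊥ : Ideal Y.O) rfl
  have hO : Module.Finite k Y.O := Module.Finite.equiv (e1.restrictScalars k)
  have hne : Nonempty (Fin d) := by
    by_contra hemp
    rw [not_nonempty_iff] at hemp
    have h1 : (1 : Y.O) = 0 := by
      rw [← Y.ω.sum_repr 1]
      exact Finset.sum_of_isEmpty _
    exact one_ne_zero h1
  obtain ⟨l⟩ := hne
  have hinj : Function.Injective ((LinearMap.toSpanSingleton k[X] Y.O (Y.ω l)).restrictScalars k) := by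
    intro p q hpq
    have h1 : p • Y.ω l = q • Y.ω l := hpq
    have h2 := congrArg (fun x => Y.ω.repr x l) h1
    simp only [map_smul, Basis.repr_self, Finsupp.smul_apply, Finsupp.single_eq_same, smul_eq_mul,
      mul_one] at h2
    exact h2
  have hX : Module.Finite k k[X] := Module.Finite.of_injective _ hinj
  have h3 : Finite ℕ := Module.Finite.finite_basis (Polynomial.basisMonomials k)
  exact not_finite ℕ

theorem col_top : Y.Col ⊤ 0 := by
  have hs : Subsingleton (Y.O ⧸ (⊤ : Ideal Y.O)) := Ideal.Quotient.subsingleton_iff.mpr rfl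
  exact ⟨inferInstance, finrank_zero_of_subsingleton⟩

theorem col_unique (h : Y.Col J N) (h' : Y.Col J N') : N = N' := by
  rw [← h.2, ← h'.2]

theorem col_gen (hJ : J ≠ ⊥) (hJ' : J' ≠ ⊥) : ∃ g ∈ J, J = Ideal.span {g} ⊔ J * J' ∧
    ∀ x, g * x ∈ J * J' ↔ x ∈ J' := by
  have hJJ : J * J' ≠ 0 := mul_ne_zero hJ hJ'
  obtain ⟨g, hg⟩ := IsDedekindDomain.exists_sup_span_eq (Ideal.mul_le_left : J * J' ≤ J) hJJ
  have hgJ : g ∈ J := by
    have h1 : Ideal.span {g} ≤ J := by
      conv_rhs => rw [← hg]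
      exact le_sup_right
    exact h1 (Ideal.mem_span_singleton_self g)
  obtain ⟨L, hL⟩ := Ideal.dvd_span_singleton.mpr hgJ
  have hcop : L ⊔ J' = 1 := by
    have h1 : J * (L ⊔ J') = J * 1 := by
      rw [Ideal.mul_sup, ← hL, sup_comm, hg, mul_one]
    exact mul_left_cancel₀ hJ h1
  have hcop' : IsCoprime J' L := by
    rw [Ideal.isCoprime_iff_sup_eq, sup_comm, ← Ideal.one_eq_top]
    exact hcop
  refine ⟨g, hgJ, by rw [sup_comm]; exact hg.symm, fun x => ?_⟩
  rw [← Ideal.dvd_span_singleton, ← Ideal.dvd_span_singleton, ← Ideal.span_singleton_mul_span_singleton,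
    hL, mul_assoc, mul_dvd_mul_iff_left hJ]
  exact ⟨fun h => hcop'.dvd_of_dvd_mul_left h, fun h => Dvd.dvd.mul_left h L⟩

/-- The exact sequence `0 → O / J' → O / J J' → O / J → 0`. -/
theorem col_exact (hJ : J ≠ ⊥) (hJ' : J' ≠ ⊥) :
    ∃ (i : (Y.O ⧸ J') →ₗ[Y.O] (Y.O ⧸ J * J')) (p : (Y.O ⧸ J * J') →ₗ[Y.O] (Y.O ⧸ J)),
      Function.Injective i ∧ Function.Surjective p ∧ LinearMap.range i = LinearMap.ker p := by
  obtain ⟨g, hgJ, hg, hgx⟩ := col_gen hJ hJ'
  have h1 : J' ≤ Submodule.comap (LinearMap.mulLeft Y.O g) (J * J') := by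
    intro x hx
    exact (hgx x).mpr hx
  refine ⟨Submodule.mapQ J' (J * J') (LinearMap.mulLeft Y.O g) h1,
    Submodule.factor (Ideal.mul_le_left : J * J' ≤ J), ?_, Submodule.factor_surjective _, ?_⟩
  · rw [← LinearMap.ker_eq_bot, LinearMap.ker_eq_bot']
    intro y hy
    obtain ⟨x, rfl⟩ := Submodule.Quotient.mk_surjective J' y
    rw [Submodule.mapQ_apply] at hy
    have h2 : g * x ∈ J * J' := (Submodule.Quotient.mk_eq_zero (J * J')).mp hy
    exact (Submodule.Quotient.mk_eq_zero J').mpr ((hgx x).mp h2)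
  · ext y
    constructor
    · rintro ⟨z, rfl⟩
      obtain ⟨x, rfl⟩ := Submodule.Quotient.mk_surjective J' z
      rw [Submodule.mapQ_apply, LinearMap.mem_ker]
      exact (Submodule.Quotient.mk_eq_zero J).mpr (J.mul_mem_right x hgJ)
    · intro hy
      obtain ⟨x, rfl⟩ := Submodule.Quotient.mk_surjective (J * J') y
      have h2 : x ∈ J := (Submodule.Quotient.mk_eq_zero J).mp hy
      rw [hg] at h2
      obtain ⟨u, hu, v, hv, huv⟩ := Submodule.mem_sup.mp h2
      obtain ⟨c, hc⟩ := Ideal.mem_span_singleton'.mp hu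
      refine ⟨Submodule.Quotient.mk c, ?_⟩
      rw [Submodule.mapQ_apply]
      refine (Submodule.Quotient.eq (J * J')).mpr ?_
      have h3 : g * c - x = -v := by
        rw [← huv, ← hc]
        ring
      show g * c - x ∈ J * J'
      rw [h3]
      exact (J * J').neg_mem hv

private theorem col_fr {J J' J'' : Ideal Y.O} [Module.Finite k (Y.O ⧸ J'')]
    (i : (Y.O ⧸ J') →ₗ[Y.O] (Y.O ⧸ J'')) (p : (Y.O ⧸ J'') →ₗ[Y.O] (Y.O ⧸ J))
    (hi : Function.Injective i) (hp : Function.Surjective p) (hip : LinearMap.range i = LinearMap.ker p) :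
    finrank k (Y.O ⧸ J'') = finrank k (Y.O ⧸ J) + finrank k (Y.O ⧸ J') := by
  have h1 := LinearMap.finrank_range_add_finrank_ker (p.restrictScalars k)
  have h2 : LinearMap.range (p.restrictScalars k) = ⊤ := LinearMap.range_eq_top.mpr hp
  have h3 : LinearMap.ker (p.restrictScalars k) = LinearMap.range (i.restrictScalars k) := by
    ext y
    have h4 : y ∈ LinearMap.ker p ↔ y ∈ LinearMap.range i := by rw [hip]
    exact h4
  rw [h2, finrank_top, h3, LinearMap.finrank_range_of_inj (f := i.restrictScalars k) hi] at h1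
  exact h1.symm

theorem col_mul (h : Y.Col J N) (h' : Y.Col J' N') : Y.Col (J * J') (N + N') := by
  have hJ := col_ne_bot h
  have hJ' := col_ne_bot h'
  obtain ⟨i, p, hi, hp, hip⟩ := col_exact hJ hJ'
  obtain ⟨hf, hN⟩ := h
  obtain ⟨hf', hN'⟩ := h'
  have hex : Function.Exact (i.restrictScalars k) (p.restrictScalars k) := by
    intro y
    constructor
    · intro hy
      have h1 : y ∈ LinearMap.ker p := hy
      rw [← hip] at h1
      exact h1
    · rintro ⟨x, hx⟩
      have h1 : y ∈ LinearMap.range i := ⟨x, hx⟩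
      rw [hip] at h1
      exact h1
  have hfin : Module.Finite k (Y.O ⧸ J * J') := Module.Finite.of_exact hex hp
  refine ⟨hfin, ?_⟩
  rw [← hN, ← hN']
  exact col_fr i p hi hp hip

theorem col_pow (h : Y.Col J N) (n : ℕ) : Y.Col (J ^ n) (n * N) := by
  induction n with
  | zero =>
    rw [pow_zero, zero_mul, Ideal.one_eq_top]
    exact col_top (Y := Y)
  | succ n ih =>
    rw [pow_succ, Nat.add_mul, one_mul]
    exact col_mul ih h

theorem col_of_mul (hJ : J ≠ ⊥) (hJ' : J' ≠ ⊥) (h : Y.Col (J * J') N) :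
    ∃ M M', Y.Col J M ∧ Y.Col J' M' ∧ M + M' = N := by
  obtain ⟨i, p, hi, hp, hip⟩ := col_exact hJ hJ'
  obtain ⟨hf, hN⟩ := h
  have hfJ : Module.Finite k (Y.O ⧸ J) := Module.Finite.of_surjective (p.restrictScalars k) hp
  have hfJ' : Module.Finite k (Y.O ⧸ J') := Module.Finite.of_injective (i.restrictScalars k) hi
  refine ⟨_, _, ⟨hfJ, rfl⟩, ⟨hfJ', rfl⟩, ?_⟩
  rw [← hN]
  exact (col_fr i p hi hp hip).symm

end Crv

end Pool.Agent.LGF
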