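import Mathlib

/-!
# Compactness
-/

noncomputable section

namespace Pool.Agent.LGF

open Filter

private def cptF {ι : Type} (q : ι → ℕ) (P : Set ι → Prop) (h0 : P ∅)
    (hunion : ∀ J J', P J → P J' → P (J ∪ J')) : Filter ι where
  sets := {S | ∃ (N : ℕ) (J : Set ι), P J ∧ {i | N < q i} \ J ⊆ S}
  univ_sets := ⟨0, ∅, h0, Set.subset_univ _⟩
  sets_of_superset := by
    rintro S S' ⟨N, J, hJ, hS⟩ hSS
    exact ⟨N, J, hJ, hS.trans hSS⟩
  inter_sets := by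
    rintro S S' ⟨N, J, hJ, hS⟩ ⟨N', J', hJ', hS'⟩
    refine ⟨max N N', J ∪ J', hunion J J' hJ hJ', ?_⟩
    rintro i ⟨h1, h2⟩
    have h3 : max N N' < q i := h1
    exact ⟨hS ⟨lt_of_le_of_lt (le_max_left _ _) h3, fun h => h2 (Or.inl h)⟩,
      hS' ⟨lt_of_le_of_lt (le_max_right _ _) h3, fun h => h2 (Or.inr h)⟩⟩

theorem exists_tail {ι : Type} (q : ι → ℕ) (P : Set ι → Prop) (h0 : P ∅)
    (hmono : ∀ J J', J ⊆ J' → P J' → P J) (hunion : ∀ J J', P J → P J' → P (J ∪ J'))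
    (hU : ∀ U : Ultrafilter ι, (∀ N : ℕ, ∀ᶠ i in (U : Filter ι), N < q i) → ∃ J ∈ U, P J) :
    ∃ N : ℕ, P {i | N < q i} := by
  by_contra hno
  have hne : (cptF q P h0 hunion).NeBot := by
    rw [← Filter.forall_mem_nonempty_iff_neBot]
    intro S hSm
    rw [Set.nonempty_iff_ne_empty]
    rintro rfl
    obtain ⟨N, J, hJ, hS⟩ := hSm
    apply hno
    refine ⟨N, hmono _ J ?_ hJ⟩
    intro i hi
    by_contra hiJ
    exact hS ⟨hi, hiJ⟩
  have hle := Ultrafilter.of_le (cptF q P h0 hunion)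
  obtain ⟨J, hJU, hJ⟩ := hU (Ultrafilter.of (cptF q P h0 hunion)) (fun N =>
    hle ⟨N, ∅, h0, fun i hi => hi.1⟩)
  have h1 : Jᶜ ∈ Ultrafilter.of (cptF q P h0 hunion) := hle ⟨0, J, hJ, fun i hi => hi.2⟩
  exact Ultrafilter.compl_notMem_iff.2 hJU h1

end Pool.Agent.LGF
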