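import Mathlib

/-!
# Affine curves with a reduced basis

`Crv k d a`: a Dedekind domain `O`, free of rank `d` over `k[X]`, with a basis `ω l` of weights `a l`
such that the weight of `x = ∑ p_l ω l`, the maximum of the `natDegree p_l + a l`, is submultiplicative
and `1` has weight `0`. (The weight is the order of the pole at infinity, measured by an order at
infinity.) `X.Le x n`: the weight of `x` is at most `n`; `X.Lt x n`: it is less than `n`.
`X.Nrm m f`: `f = X ^ m - (something of weight < m)`. `X.Col J N`: `O / J` has dimension `N` over `k`.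
-/

noncomputable section

namespace Pool.Agent.LGF

open Polynomial Module

structure Crv (k : Type) [Field k] (d : ℕ) (a : Fin d → ℕ) where
  O : Type
  [cr : CommRing O]
  [ded : IsDedekindDomain O]
  [alg : Algebra k O]
  [algX : Algebra k[X] O]
  [tow : IsScalarTower k k[X] O]
  ω : Basis (Fin d) k[X] O
  one_le : ∀ l, ω.repr 1 l = 0 ∨ (ω.repr 1 l).natDegree + a l ≤ 0
  mul_le : ∀ (x y : O) (m n : ℕ), (∀ l, ω.repr x l = 0 ∨ (ω.repr x l).natDegree + a l ≤ m) →
    (∀ l, ω.repr y l = 0 ∨ (ω.repr y l).natDegree + a l ≤ n) →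
    ∀ l, ω.repr (x * y) l = 0 ∨ (ω.repr (x * y) l).natDegree + a l ≤ m + n

namespace Crv

attribute [instance] Crv.cr Crv.ded Crv.alg Crv.algX Crv.tow

variable {k : Type} [Field k] {d : ℕ} {a : Fin d → ℕ} (X' : Crv k d a)

/-- The weight of `x` is at most `n`. -/
def Le (x : X'.O) (n : ℕ) : Prop := ∀ l, X'.ω.repr x l = 0 ∨ (X'.ω.repr x l).natDegree + a l ≤ n

/-- The weight of `x` is less than `n`. -/
def Lt (x : X'.O) (n : ℕ) : Prop := ∀ l, X'.ω.repr x l = 0 ∨ (X'.ω.repr x l).natDegree + a l < n

/-- The coordinate function. -/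
def t : X'.O := algebraMap k[X] X'.O X

/-- `f` is normalised of degree `m`. -/
def Nrm (m : ℕ) (f : X'.O) : Prop := X'.Lt (f - X'.t ^ m) m

/-- The quotient by the ideal `J` has dimension `N`. -/
def Col (J : Ideal X'.O) (N : ℕ) : Prop :=
  Module.Finite k (X'.O ⧸ J) ∧ finrank k (X'.O ⧸ J) = N

/-- Multiplication by `x` in the basis `ω` (columns). -/
def mat (x : X'.O) : Matrix (Fin d) (Fin d) k[X] := Algebra.leftMulMatrix X'.ω x

end Crv

end Pool.Agent.LGF
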