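import Pool.Agent.LGF.Defs

/-!
# The conditions of the theorem

Nothing but definitions. `Cls n w R`: formal classes over `R[t_1, ..., t_n]` in `w`-tuples of commuting
invertible matrices; a family of classes over the rings `k i` is a class over `∏ k i` (`Fml`), a family
over `ι × A` (`Fml2`) has members `y (i, a)` over `k i`. The difference of equal elements of
`H(n, w; R)` is a boundary (`IsBd`); over a product this says that the homotopies are uniformly bounded.
-/

noncomputable section

namespace Pool.Agent.LGF.Plain

open Pool.Agent.GSM.Plain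

/-- Formal classes over `R[t_1, ..., t_n]` in `w`-tuples of matrices. -/
abbrev Cls (n w : ℕ) (R : Type) [CommRing R] : Type := F (Fin w) (MvPolynomial (Fin n) R)

/-- Base change of classes. -/
def bc {n w : ℕ} {R R' : Type} [CommRing R] [CommRing R'] (f : R →+* R') (x : Cls n w R) :
    Cls n w R' := base f x

section

variable {ι : Type}

/-- Families of classes over the rings `k i`. -/
abbrev Fml (n w : ℕ) (k : ι → Type) [∀ i, CommRing (k i)] : Type := Cls n w (∀ i, k i)

/-- Families of classes `y (i, a)` over the rings `k i`. -/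
abbrev Fml2 (n w : ℕ) (k : ι → Type) [∀ i, CommRing (k i)] (A : Type) : Type :=
  Cls n w (∀ s : ι × A, k s.1)

variable {n w : ℕ} (k : ι → Type) [∀ i, CommRing (k i)] {A B : Type}

/-- The family `y (i, φ i)`. -/
def value (φ : ι → A) (y : Fml2 n w k A) : Fml n w k := bc (at_ k φ) y

/-- The family `y (i, φ i b)`. -/
def reindex (φ : ι → B → A) (y : Fml2 n w k A) : Fml2 n w k B := bc (rr k φ) y

/-- The family with member `x i` at `(i, a)`. -/
def const (A : Type) (x : Fml n w k) : Fml2 n w k A := bc (pb k A) x

/-- The members with index in a subset. -/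
def sub (P : ι × A → Prop) (y : Fml2 n w k A) : Fml n w fun s : {s : ι × A // P s} => k s.1.1 :=
  bc (res (fun s : ι × A => k s.1) Subtype.val) y

/-- `x` generates a bounded cyclic group of order dividing `m i`: there are classes `y (i, a)`
over `k i`, uniformly bounded for all `i` and all `a ∈ ℕ`, with `y (i, 1) = x i`,
`y (i, a + b) = y (i, a) + y (i, b)` and `y (i, m i * a) = 0`, by uniformly bounded homotopies. -/
def Cyclic (m : ι → ℕ) (x : Fml n w k) : Prop :=
  ∃ y : Fml2 n w k ℕ, IsCube y ∧
    IsBd (value k (fun _ => 1) y - x) ∧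
    IsBd (reindex k (fun _ (s : ℕ × ℕ) => s.1 + s.2) y - reindex k (fun _ s => s.1) y -
      reindex k (fun _ s => s.2) y) ∧
    IsBd (reindex k (fun i a => m i * a) y)

/-- The family `y (i, j + 1) - 2 y (i, j) - c x i`. -/
def step (c : ℚ) (y : Fml2 n w k ℕ) (x : Fml n w k) : Fml2 n w k ℕ :=
  reindex k (fun _ j => j + 1) y - (2 : ℚ) • y - c • const k ℕ x

/-- `x` dies in `L i` doubling steps: there are digits `e i j` and classes `y (i, j)` over `k i`,
uniformly bounded for all `i` and `j`, with `y (i, 0) = x i`, `y (i, L i) = 0` and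
`y (i, j + 1) = 2 y (i, j) + e i j x i` for `j < L i`, by uniformly bounded homotopies. -/
def Dies (L : ι → ℕ) (x : Fml n w k) : Prop :=
  ∃ (e : ι → ℕ → Bool) (y : Fml2 n w k ℕ), IsCube y ∧
    IsBd (value k (fun _ => 0) y - x) ∧
    IsBd (value k L y) ∧
    ∀ b : Bool, IsBd (sub k (fun s : ι × ℕ => s.2 < L s.1 ∧ e s.1 s.2 = b)
      (step k (if b then 1 else 0) y x))

end

section

variable {n w : ℕ} {ι : Type} (k : ι → Type) [∀ i, Field (k i)]

/-- The part of the family `x` in characteristics larger than `N`. -/
def above (N : ℕ) (x : Fml n w k) : Fml n w fun i : {i // N < ringChar (k i)} => k i :=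
  bc (res k Subtype.val) x

/-- The part in characteristics larger than `N` is a boundary. -/
def BdAbove (N : ℕ) (x : Fml n w k) : Prop := IsBd (above k N x)

/-- The part in characteristics larger than `N` generates a bounded cyclic group of order dividing
`m i`. -/
def CyclicAbove (N : ℕ) (m : ι → ℕ) (x : Fml n w k) : Prop :=
  Cyclic (fun i : {i // N < ringChar (k i)} => k i) (fun i => m i) (above k N x)

/-- The part in characteristics larger than `N` dies in `L i` doubling steps. -/
def DiesAbove (N : ℕ) (L : ι → ℕ) (x : Fml n w k) : Prop :=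
  Dies (fun i : {i // N < ringChar (k i)} => k i) (fun i => L i) (above k N x)

end

/-- Logarithmic fillings: families of classes over finite fields generate, in large characteristic,
bounded cyclic groups of order at most `(card (k i)) ^ c` and die in `c log (card (k i))` steps. -/
def LogFillings (n w : ℕ) : Prop :=
  ∀ (ι : Type) (k : ι → Type) [∀ i, Field (k i)] [∀ i, Finite (k i)] (x : Fml n w k), IsCube x →
    ∃ N c : ℕ,
      (∃ m : ι → ℕ, (∀ i, 0 < m i ∧ m i ≤ Nat.card (k i) ^ c) ∧ CyclicAbove k N m x) ∧
      ∃ L : ι → ℕ, (∀ i, (L i : ℝ) ≤ c * Real.log (Nat.card (k i))) ∧ DiesAbove k N L x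

/-- Families of classes over fields vanish in large characteristic. -/
def FamiliesVanish (n w : ℕ) : Prop :=
  ∀ (ι : Type) (k : ι → Type) [∀ i, Field (k i)] (x : Fml n w k),
    IsCube x → ∃ N : ℕ, BdAbove k N x

/-- Families of classes over finite fields with characteristics `p i` in `S` and bounded degrees
generate, in large characteristic, bounded cyclic groups of order `(p i) ^ o(1)`. -/
def SmallCyclic (n w : ℕ) (S : Set ℕ) : Prop :=
  ∀ (ι : Type) (k : ι → Type) [∀ i, Field (k i)], IsFiniteFamily S k →
    ∀ x : Fml n w k, IsCube x →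
      ∃ (N : ℕ) (m : ι → ℕ), (∀ i, 0 < m i) ∧ SmallO (fun i => ringChar (k i)) (fun i => Nat.log 2 (m i)) ∧
        CyclicAbove k N m x

/-- Families of classes over finite fields with characteristics `p i` in `S` and bounded degrees
die, in large characteristic, in `o(log (p i))` steps. -/
def SmallDies (n w : ℕ) (S : Set ℕ) : Prop :=
  ∀ (ι : Type) (k : ι → Type) [∀ i, Field (k i)], IsFiniteFamily S k →
    ∀ x : Fml n w k, IsCube x → ∃ (N : ℕ) (L : ι → ℕ), SmallO (fun i => ringChar (k i)) L ∧ DiesAbove k N L x

section

variable {n w : ℕ} {R : Type} [CommRing R]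

/-- `z` vanishes over the fraction field. -/
def GenericallyZero (z : Cls n w R) : Prop := IsBd (bc (algebraMap R (FractionRing R)) z)

/-- The values of `z` at all families of points `a` over fields with `a(f) ≠ 0` vanish. -/
def PointsVanish (f : R) (z : Cls n w R) : Prop :=
  ∀ (ι : Type) (k : ι → Type) [∀ i, Field (k i)] (a : R →+* ∀ i, k i),
    (∀ i, a f i ≠ 0) → IsBd (bc a z)

/-- The values of `z` at all families of points `a` with `a(f) ≠ 0` over finite fields with
characteristics `p i` in `S` and bounded degrees die, in large characteristic, in `o(log (p i))`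
steps. -/
def PointsSmallDies (S : Set ℕ) (f : R) (z : Cls n w R) : Prop :=
  ∀ (ι : Type) (k : ι → Type) [∀ i, Field (k i)], IsFiniteFamily S k →
    ∀ a : R →+* ∀ i, k i, (∀ i, a f i ≠ 0) →
      ∃ (N : ℕ) (L : ι → ℕ), SmallO (fun i => ringChar (k i)) L ∧ DiesAbove k N L (bc a z)

end

end Pool.Agent.LGF.Plain
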