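import Mathlib

/-!
# Division by `X ^ m - M` in `A[X]^d`

`a l` are weights; `Wt a n v`: the vector `v ∈ A[X]^d` has weight less than `n`, that is
`natDegree (v l) + a l < n` for the nonzero components. `WtM a m M`: the matrix `M` lowers weights by
more than `-m`, i.e. column `l` has weight less than `m + a l`.

`X ^ m • q` has weight exactly `m` larger than `q`, `M *ᵥ q` has smaller weight (`Wt.mulVec`); existence by induction
on the weight, uniqueness by minimality of the weight of `q`.
-/

noncomputable section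

namespace Pool.Agent.LGF

open Polynomial Matrix

variable {A : Type} [CommRing A] {d : ℕ} (a : Fin d → ℕ)

/-- The vector `v` has weight less than `n`. -/
def Wt (n : ℕ) (v : Fin d → A[X]) : Prop := ∀ l, v l = 0 ∨ (v l).natDegree + a l < n

/-- The columns of the matrix `M` have weight less than `m + a l`. -/
def WtM (m : ℕ) (M : Matrix (Fin d) (Fin d) A[X]) : Prop :=
  ∀ l' l, M l' l = 0 ∨ (M l' l).natDegree + a l' < m + a l

variable {a}

theorem Wt.zero (n : ℕ) : Wt a n (0 : Fin d → A[X]) := fun _ => Or.inl rfl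

private theorem wt_iff {n : ℕ} {v : Fin d → A[X]} :
    Wt a n v ↔ ∀ l k, n ≤ k + a l → (v l).coeff k = 0 := by
  constructor
  · intro h l k hk
    rcases h l with h1 | h1
    · rw [h1, coeff_zero]
    · exact coeff_eq_zero_of_natDegree_lt (by omega)
  · intro h l
    by_cases h1 : v l = 0
    · exact Or.inl h1
    · right
      by_contra h2
      rw [not_lt] at h2
      exact h1 (leadingCoeff_eq_zero.mp (h l _ h2))

private theorem wtM_coeff {m : ℕ} {M : Matrix (Fin d) (Fin d) A[X]} (hM : WtM a m M) {l' l : Fin d} {k : ℕ}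
    (hk : m + a l ≤ k + a l') : (M l' l).coeff k = 0 := by
  rcases hM l' l with h1 | h1
  · rw [h1, coeff_zero]
  · exact coeff_eq_zero_of_natDegree_lt (by omega)

/-- division with remainder by `X ^ m` -/
private theorem div_X (m : ℕ) (p : A[X]) : ∃ q r : A[X], p = X ^ m * q + r ∧ r.degree < m ∧
    ∀ k, q.coeff k = p.coeff (k + m) := by
  induction m with
  | zero =>
    refine ⟨p, 0, by ring, ?_, fun k => rfl⟩
    rw [degree_zero]
    exact WithBot.bot_lt_coe 0
  | succ m ih =>
    obtain ⟨q, r, h1, h2, h3⟩ := ih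
    refine ⟨q.divX, C (q.coeff 0) * X ^ m + r, ?_, ?_, ?_⟩
    · have h4 := divX_mul_X_add q
      calc p = X ^ m * q + r := h1
        _ = X ^ m * (q.divX * X + C (q.coeff 0)) + r := by rw [h4]
        _ = _ := by ring
    · have h5 : ((m : ℕ) : WithBot ℕ) < ((m + 1 : ℕ) : WithBot ℕ) := by
        exact_mod_cast Nat.lt_succ_self m
      refine lt_of_le_of_lt (degree_add_le _ _) (max_lt ?_ (h2.trans h5))
      exact lt_of_le_of_lt (degree_C_mul_X_pow_le _ _) h5
    · intro k
      rw [coeff_divX, h3]
      congr 1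
      omega

theorem Wt.add {n : ℕ} {v w : Fin d → A[X]} (hv : Wt a n v) (hw : Wt a n w) : Wt a n (v + w) := by
  rw [wt_iff] at *
  intro l k hk
  rw [Pi.add_apply, coeff_add, hv l k hk, hw l k hk, add_zero]

theorem exists_wt (v : Fin d → A[X]) : ∃ n, Wt a n v := by
  refine ⟨Finset.univ.sup (fun l => (v l).natDegree + a l) + 1, fun l => Or.inr ?_⟩
  exact Nat.lt_succ_of_le (Finset.le_sup (f := fun l => (v l).natDegree + a l) (Finset.mem_univ l))

theorem Wt.mulVec {m n : ℕ} {M : Matrix (Fin d) (Fin d) A[X]} (hM : WtM a m M)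
    {q : Fin d → A[X]} (hq : Wt a (n + 1) q) : Wt a (m + n) (M *ᵥ q) := by
  rw [wt_iff] at *
  intro l' k hk
  have h1 : (M *ᵥ q) l' = ∑ l, M l' l * q l := rfl
  rw [h1, finsetSum_coeff]
  refine Finset.sum_eq_zero fun l _ => ?_
  rw [coeff_mul]
  refine Finset.sum_eq_zero fun p hp => ?_
  have h2 : p.1 + p.2 = k := Finset.HasAntidiagonal.mem_antidiagonal.mp hp
  by_cases h3 : m + a l ≤ p.1 + a l'
  · rw [wtM_coeff hM h3, zero_mul]
  · rw [hq l p.2 (by omega), mul_zero]

theorem div_exists {m : ℕ} {M : Matrix (Fin d) (Fin d) A[X]} (hM : WtM a m M) (v : Fin d → A[X]) :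
    ∃ q r : Fin d → A[X], v = (X : A[X]) ^ m • q - M *ᵥ q + r ∧ ∀ l, (r l).degree < m := by
  have key : ∀ n, ∀ v : Fin d → A[X], Wt a n v →
      ∃ q r : Fin d → A[X], v = (X : A[X]) ^ m • q - M *ᵥ q + r ∧ ∀ l, (r l).degree < m := by
    intro n
    induction n using Nat.strong_induction_on with
    | _ n ih =>
    intro v hv
    by_cases hn : n ≤ m
    · refine ⟨0, v, ?_, fun l => ?_⟩
      · rw [smul_zero, Matrix.mulVec_zero, sub_zero, zero_add]
      · rcases hv l with h1 | h1
        · rw [h1, degree_zero]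
          exact WithBot.bot_lt_coe m
        · by_cases h2 : v l = 0
          · rw [h2, degree_zero]
            exact WithBot.bot_lt_coe m
          · rw [degree_eq_natDegree h2]
            exact_mod_cast (by omega : (v l).natDegree < m)
    · obtain ⟨n', rfl⟩ : ∃ n', n = m + n' + 1 := ⟨n - m - 1, by omega⟩
      choose q r h1 h2 h3 using fun l => div_X m (v l)
      have hq : Wt a (n' + 1) q := by
        rw [wt_iff] at *
        intro l k hk
        rw [h3]
        exact hv l _ (by omega)
      obtain ⟨q', r', h4, h5⟩ := ih (m + n') (by omega) (M *ᵥ q) (hq.mulVec hM)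
      refine ⟨q + q', r + r', ?_, fun l => ?_⟩
      · have h6 : v = (X : A[X]) ^ m • q + r := by
          funext l
          exact h1 l
        calc v = (X : A[X]) ^ m • q + r := h6
          _ = (X : A[X]) ^ m • q - M *ᵥ q + r + M *ᵥ q := by abel
          _ = (X : A[X]) ^ m • q - M *ᵥ q + r + ((X : A[X]) ^ m • q' - M *ᵥ q' + r') := by
            rw [← h4]
          _ = _ := by
            rw [smul_add, Matrix.mulVec_add]
            abel
      · exact lt_of_le_of_lt (degree_add_le _ _) (max_lt (h2 l) (h5 l))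
  obtain ⟨n, hn⟩ := exists_wt (a := a) v
  exact key n v hn

theorem div_unique {m : ℕ} {M : Matrix (Fin d) (Fin d) A[X]} (hM : WtM a m M)
    {q r : Fin d → A[X]} (h : (X : A[X]) ^ m • q - M *ᵥ q + r = 0) (hr : ∀ l, (r l).degree < m) :
    q = 0 ∧ r = 0 := by
  classical
  have hq0 : q = 0 := by
    have hex := exists_wt (a := a) q
    obtain ⟨n, hn⟩ : ∃ n, n = Nat.find hex := ⟨_, rfl⟩
    have h1 : Wt a n q := by
      rw [hn]
      exact Nat.find_spec hex
    rcases n with _ | n'
    · funext l
      rcases h1 l with h2 | h2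
      · exact h2
      · omega
    · exfalso
      have h2 : Wt a n' q := by
        have h3 := h1.mulVec hM
        rw [wt_iff] at *
        intro l k hk
        have h4 := congrArg (fun p => Polynomial.coeff p (k + m)) (congrFun h l)
        simp only [Pi.add_apply, Pi.sub_apply, Pi.smul_apply, smul_eq_mul, Pi.zero_apply, coeff_add,
          coeff_sub, coeff_zero] at h4
        have h5 : (X ^ m * q l).coeff (k + m) = (q l).coeff k := coeff_X_pow_mul _ _ _
        have h6 : ((m : ℕ) : WithBot ℕ) ≤ ((k + m : ℕ) : WithBot ℕ) := by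
          exact_mod_cast Nat.le_add_left m k
        rw [h5, h3 l (k + m) (by omega), coeff_eq_zero_of_degree_lt ((hr l).trans_le h6), sub_zero,
          add_zero] at h4
        exact h4
      exact Nat.find_min hex (by omega) h2
  refine ⟨hq0, ?_⟩
  rw [hq0, smul_zero, Matrix.mulVec_zero, sub_zero, zero_add] at h
  exact h

end Pool.Agent.LGF
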