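import Pool.Agent.LGF.Div
import Pool.Agent.LGF.Base

/-!
# The representation on `A[X]^d / (X ^ m - M)` and its homotopy

Every vector `v` is uniquely `X ^ m • q - M *ᵥ q + emb w` (`Rel`); the representation is `w ↦` the
remainder of `lam c *ᵥ emb w`. The homotopy is the representation for `s • M` over `A[s]`.
-/

noncomputable section

namespace Pool.Agent.LGF

open Polynomial Matrix Pool.Agent.GSM

variable {A : Type} [CommRing A] {d : ℕ} {m : ℕ}

/-- Vectors with components of degree less than `m`. -/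
def emb (w : Fin d × Fin m → A) : Fin d → A[X] := fun l => ∑ j : Fin m, C (w (l, j)) * X ^ (j : ℕ)

private theorem emb_add (w w' : Fin d × Fin m → A) : emb (w + w') = emb w + emb w' := by
  funext l
  simp only [emb, Pi.add_apply, map_add, add_mul, Finset.sum_add_distrib]

private theorem emb_smul (c : A) (w : Fin d × Fin m → A) : emb (c • w) = (C c : A[X]) • emb w := by
  funext l
  simp only [emb, Pi.smul_apply, smul_eq_mul, map_mul, Finset.mul_sum, mul_assoc]

private theorem emb_zero : emb (0 : Fin d × Fin m → A) = 0 := by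
  funext l
  simp only [emb, Pi.zero_apply, map_zero, zero_mul, Finset.sum_const_zero]

private theorem emb_coeff (w : Fin d × Fin m → A) (l : Fin d) (j : Fin m) :
    (emb w l).coeff (j : ℕ) = w (l, j) := by
  unfold emb
  rw [finsetSum_coeff]
  simp only [coeff_C_mul_X_pow]
  rw [Finset.sum_eq_single j]
  · rw [if_pos rfl]
  · intro b _ hb
    rw [if_neg]
    intro h
    exact hb (Fin.ext h.symm)
  · intro h
    exact absurd (Finset.mem_univ j) h

private theorem emb_deg (w : Fin d × Fin m → A) (l : Fin d) : (emb w l).degree < m :=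
  degree_sum_fin_lt _

private theorem emb_surj {r : Fin d → A[X]} (hr : ∀ l, (r l).degree < m) :
    ∃ w : Fin d × Fin m → A, emb w = r := by
  refine ⟨fun p => (r p.1).coeff (p.2 : ℕ), ?_⟩
  funext l
  ext k
  by_cases hk : k < m
  · exact emb_coeff (fun p : Fin d × Fin m => (r p.1).coeff (p.2 : ℕ)) l ⟨k, hk⟩
  · rw [not_lt] at hk
    have h1 : ((m : ℕ) : WithBot ℕ) ≤ (k : WithBot ℕ) := by exact_mod_cast hk
    rw [coeff_eq_zero_of_degree_lt ((emb_deg _ l).trans_le h1),
      coeff_eq_zero_of_degree_lt ((hr l).trans_le h1)]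

private theorem emb_inj {w w' : Fin d × Fin m → A} (h : emb w = emb w') : w = w' := by
  funext p
  rcases p with ⟨l, j⟩
  rw [← emb_coeff w l j, ← emb_coeff w' l j, h]

/-- `w` is the remainder of `v` -/
private def Rel (M : Matrix (Fin d) (Fin d) A[X]) (v : Fin d → A[X]) (w : Fin d × Fin m → A) : Prop :=
  ∃ q : Fin d → A[X], v = (X : A[X]) ^ m • q - M *ᵥ q + emb w

private theorem rel_ex {a : Fin d → ℕ} {M : Matrix (Fin d) (Fin d) A[X]} (hM : WtM a m M)
    (v : Fin d → A[X]) : ∃ w : Fin d × Fin m → A, Rel M v w := by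
  obtain ⟨q, r, h, hr⟩ := div_exists hM v
  obtain ⟨w, hw⟩ := emb_surj hr
  exact ⟨w, q, by rw [hw]; exact h⟩

private theorem rel_un {a : Fin d → ℕ} {M : Matrix (Fin d) (Fin d) A[X]} (hM : WtM a m M)
    {v : Fin d → A[X]} {w w' : Fin d × Fin m → A} (h : Rel M v w) (h' : Rel M v w') : w = w' := by
  obtain ⟨q, hq⟩ := h
  obtain ⟨q', hq'⟩ := h'
  have h1 : (X : A[X]) ^ m • (q - q') - M *ᵥ (q - q') + (emb w - emb w') = 0 := by
    rw [Matrix.mulVec_sub, smul_sub]
    have h2 : ((X : A[X]) ^ m • q - M *ᵥ q + emb w) - ((X : A[X]) ^ m • q' - M *ᵥ q' + emb w') = 0 := by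
      rw [← hq, ← hq', sub_self]
    rw [← h2]
    abel
  have h2 := (div_unique hM h1 (fun l => by
    refine lt_of_le_of_lt (degree_sub_le _ _) ?_
    exact max_lt (emb_deg w l) (emb_deg w' l))).2
  exact emb_inj (sub_eq_zero.mp h2)

private theorem rel_zero (M : Matrix (Fin d) (Fin d) A[X]) : Rel M 0 (0 : Fin d × Fin m → A) := by
  refine ⟨0, ?_⟩
  rw [smul_zero, Matrix.mulVec_zero, sub_zero, emb_zero, add_zero]

private theorem rel_emb (M : Matrix (Fin d) (Fin d) A[X]) (w : Fin d × Fin m → A) : Rel M (emb w) w := by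
  refine ⟨0, ?_⟩
  rw [smul_zero, Matrix.mulVec_zero, sub_zero, zero_add]

private theorem rel_add {M : Matrix (Fin d) (Fin d) A[X]} {v v' : Fin d → A[X]}
    {w w' : Fin d × Fin m → A} (h : Rel M v w) (h' : Rel M v' w') : Rel M (v + v') (w + w') := by
  obtain ⟨q, hq⟩ := h
  obtain ⟨q', hq'⟩ := h'
  refine ⟨q + q', ?_⟩
  rw [hq, hq', emb_add, smul_add, Matrix.mulVec_add]
  abel

private theorem rel_smul {M : Matrix (Fin d) (Fin d) A[X]} {v : Fin d → A[X]}
    {w : Fin d × Fin m → A} (c : A) (h : Rel M v w) : Rel M ((C c : A[X]) • v) (c • w) := by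
  obtain ⟨q, hq⟩ := h
  refine ⟨(C c : A[X]) • q, ?_⟩
  rw [hq, emb_smul, Matrix.mulVec_smul, smul_add, smul_sub, smul_comm ((X : A[X]) ^ m) (C c : A[X]) q]

private theorem rel_sum {M : Matrix (Fin d) (Fin d) A[X]} {ι : Type} (s : Finset ι)
    {v : ι → Fin d → A[X]} {w : ι → Fin d × Fin m → A} (h : ∀ i ∈ s, Rel M (v i) (w i)) :
    Rel M (∑ i ∈ s, v i) (∑ i ∈ s, w i) := by
  classical
  induction s using Finset.induction_on with
  | empty => exact rel_zero M
  | insert i s hi ih =>
    rw [Finset.sum_insert hi, Finset.sum_insert hi]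
    exact rel_add (h i (Finset.mem_insert_self i s)) (ih fun k hk => h k (Finset.mem_insert_of_mem hk))

private theorem rel_comm {M N : Matrix (Fin d) (Fin d) A[X]} (hN : Commute N M) {v : Fin d → A[X]}
    {w w' : Fin d × Fin m → A} (h : Rel M v w) (h' : Rel M (N *ᵥ emb w) w') : Rel M (N *ᵥ v) w' := by
  obtain ⟨q, hq⟩ := h
  obtain ⟨q', hq'⟩ := h'
  refine ⟨N *ᵥ q + q', ?_⟩
  rw [hq, Matrix.mulVec_add, Matrix.mulVec_sub, Matrix.mulVec_smul, Matrix.mulVec_mulVec, hN.eq, hq',
    Matrix.mulVec_add, Matrix.mulVec_mulVec, smul_add]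
  abel

/-- the basis vectors -/
private theorem vec_sum (w : Fin d × Fin m → A) : w = ∑ j, w j • (Pi.single j (1 : A) : Fin d × Fin m → A) := by
  funext p
  rw [Finset.sum_apply, Finset.sum_eq_single p]
  · rw [Pi.smul_apply, Pi.single_eq_same, smul_eq_mul, mul_one]
  · intro b _ hb
    rw [Pi.smul_apply, Pi.single_eq_of_ne (Ne.symm hb), smul_zero]
  · intro h
    exact absurd (Finset.mem_univ p) h

private theorem emb_sum {ι : Type} (s : Finset ι) (w : ι → Fin d × Fin m → A) :
    emb (∑ i ∈ s, w i) = ∑ i ∈ s, emb (w i) := by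
  classical
  induction s using Finset.induction_on with
  | empty => exact emb_zero
  | insert i s hi ih => rw [Finset.sum_insert hi, Finset.sum_insert hi, emb_add, ih]

private theorem rel_mat {M P : Matrix (Fin d) (Fin d) A[X]}
    {N : Matrix (Fin d × Fin m) (Fin d × Fin m) A}
    (h : ∀ j, Rel M (P *ᵥ emb (Pi.single j (1 : A))) (N *ᵥ Pi.single j (1 : A)))
    (w : Fin d × Fin m → A) : Rel M (P *ᵥ emb w) (N *ᵥ w) := by
  have e1 : P *ᵥ emb w = ∑ j, (C (w j) : A[X]) • (P *ᵥ emb (Pi.single j (1 : A))) := by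
    conv_lhs => rw [vec_sum w, emb_sum]
    rw [Matrix.mulVec_sum]
    refine Finset.sum_congr rfl fun j _ => ?_
    rw [emb_smul, Matrix.mulVec_smul]
  have e2 : N *ᵥ w = ∑ j, w j • (N *ᵥ Pi.single j (1 : A)) := by
    conv_lhs => rw [vec_sum w]
    rw [Matrix.mulVec_sum]
    refine Finset.sum_congr rfl fun j _ => ?_
    rw [Matrix.mulVec_smul]
  rw [e1, e2]
  exact rel_sum _ fun j _ => rel_smul (w j) (h j)

private theorem mat_un {a : Fin d → ℕ} {M P : Matrix (Fin d) (Fin d) A[X]} (hM : WtM a m M)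
    {N N' : Matrix (Fin d × Fin m) (Fin d × Fin m) A} (h : ∀ w, Rel M (P *ᵥ emb w) (N *ᵥ w))
    (h' : ∀ w, Rel M (P *ᵥ emb w) (N' *ᵥ w)) : N = N' := by
  ext i j
  have h1 := congrFun (rel_un hM (h (Pi.single j 1)) (h' (Pi.single j 1))) i
  rw [Matrix.mulVec_single_one, Matrix.mulVec_single_one] at h1
  exact h1

/-- `ρ` is the action of `lam` on `A[X]^d / (X ^ m - M)` in the basis `X ^ j e_l`, `j < m`. -/
def IsRep {S : Type} [CommRing S] (M : Matrix (Fin d) (Fin d) A[X])
    (lam : S →+* Matrix (Fin d) (Fin d) A[X])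
    (ρ : S →+* Matrix (Fin d × Fin m) (Fin d × Fin m) A) : Prop :=
  ∀ c w, ∃ q : Fin d → A[X],
    lam c *ᵥ emb w = (X : A[X]) ^ m • q - M *ᵥ q + emb (ρ c *ᵥ w)

theorem exists_rep {S : Type} [CommRing S] {a : Fin d → ℕ} {M : Matrix (Fin d) (Fin d) A[X]}
    (hM : WtM a m M) (lam : S →+* Matrix (Fin d) (Fin d) A[X]) (hc : ∀ c, Commute (lam c) M) :
    ∃ ρ : S →+* Matrix (Fin d × Fin m) (Fin d × Fin m) A, IsRep M lam ρ := by
  have hex : ∀ (c : S) (j : Fin d × Fin m), ∃ w : Fin d × Fin m → A,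
      Rel M (lam c *ᵥ emb (Pi.single j (1 : A))) w := fun c j => rel_ex hM _
  choose col hcol using hex
  obtain ⟨N, hN⟩ : ∃ N : S → Matrix (Fin d × Fin m) (Fin d × Fin m) A,
      N = fun c => Matrix.of fun i j => col c j i := ⟨_, rfl⟩
  have hrel : ∀ c w, Rel M (lam c *ᵥ emb w) (N c *ᵥ w) := by
    intro c
    refine rel_mat fun j => ?_
    have h1 : N c *ᵥ Pi.single j (1 : A) = col c j := by
      rw [Matrix.mulVec_single_one, hN]
      rfl
    rw [h1]
    exact hcol c j
  refine ⟨{ toFun := N, map_one' := ?_, map_mul' := ?_, map_zero' := ?_, map_add' := ?_ }, hrel⟩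
  · refine mat_un hM (P := 1) (fun w => ?_) (fun w => ?_)
    · have h1 := hrel 1 w
      rw [map_one] at h1
      exact h1
    · rw [Matrix.one_mulVec, Matrix.one_mulVec]
      exact rel_emb M w
  · intro c c'
    refine mat_un hM (P := lam c * lam c') (fun w => ?_) (fun w => ?_)
    · have h1 := hrel (c * c') w
      rw [map_mul] at h1
      exact h1
    · rw [← Matrix.mulVec_mulVec, ← Matrix.mulVec_mulVec]
      exact rel_comm (hc c) (hrel c' w) (hrel c (N c' *ᵥ w))
  · refine mat_un hM (P := 0) (fun w => ?_) (fun w => ?_)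
    · have h1 := hrel 0 w
      rw [map_zero] at h1
      exact h1
    · rw [Matrix.zero_mulVec, Matrix.zero_mulVec]
      exact rel_zero M
  · intro c c'
    refine mat_un hM (P := lam c + lam c') (fun w => ?_) (fun w => ?_)
    · have h1 := hrel (c + c') w
      rw [map_add] at h1
      exact h1
    · rw [Matrix.add_mulVec, Matrix.add_mulVec]
      exact rel_add (hrel c w) (hrel c' w)

theorem rep_unique {S : Type} [CommRing S] {a : Fin d → ℕ} {M : Matrix (Fin d) (Fin d) A[X]}
    (hM : WtM a m M) {lam : S →+* Matrix (Fin d) (Fin d) A[X]}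
    {ρ ρ' : S →+* Matrix (Fin d × Fin m) (Fin d × Fin m) A} (h : IsRep M lam ρ)
    (h' : IsRep M lam ρ') : ρ = ρ' := by
  ext1 c
  exact mat_un hM (fun w => h c w) (fun w => h' c w)

/-- Base change of a representation. -/
theorem IsRep.map {S : Type} [CommRing S] {A' : Type} [CommRing A'] (f : A →+* A')
    {M : Matrix (Fin d) (Fin d) A[X]} {lam : S →+* Matrix (Fin d) (Fin d) A[X]}
    {ρ : S →+* Matrix (Fin d × Fin m) (Fin d × Fin m) A} (h : IsRep M lam ρ) :
    IsRep (M.map (Polynomial.map f)) (((Polynomial.mapRingHom f).mapMatrix).comp lam)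
      ((f.mapMatrix).comp ρ) := by
  intro c
  refine rel_mat (M := M.map (Polynomial.map f)) (P := (((Polynomial.mapRingHom f).mapMatrix).comp lam) c)
    (N := ((f.mapMatrix).comp ρ) c) fun j => ?_
  obtain ⟨q, hq⟩ := h c (Pi.single j 1)
  refine ⟨fun l => Polynomial.map f (q l), ?_⟩
  have hemb : ∀ w : Fin d × Fin m → A, (fun l => Polynomial.map f (emb w l)) = emb (fun p => f (w p)) := by
    intro w
    funext l
    simp only [emb, Polynomial.map_sum, Polynomial.map_mul, Polynomial.map_C, Polynomial.map_pow,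
      Polynomial.map_X]
  have hmv : ∀ (N : Matrix (Fin d) (Fin d) A[X]) (v : Fin d → A[X]) (l : Fin d),
      Polynomial.map f ((N *ᵥ v) l) = ((N.map (Polynomial.map f)) *ᵥ fun l => Polynomial.map f (v l)) l := by
    intro N v l
    simp only [Matrix.mulVec, dotProduct, Polynomial.map_sum, Polynomial.map_mul, Matrix.map_apply]
  have hs1 : (fun p => f ((Pi.single j (1 : A) : Fin d × Fin m → A) p)) = Pi.single j (1 : A') := by
    funext p
    by_cases hp : p = j
    · rw [hp, Pi.single_eq_same, Pi.single_eq_same, map_one]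
    · rw [Pi.single_eq_of_ne hp, Pi.single_eq_of_ne hp, map_zero]
  have hs2 : (fun p => f ((ρ c *ᵥ Pi.single j (1 : A)) p)) =
      ((f.mapMatrix).comp ρ) c *ᵥ Pi.single j (1 : A') := by
    funext p
    rw [Matrix.mulVec_single_one, Matrix.mulVec_single_one]
    rfl
  funext l
  have h1 := congrArg (Polynomial.map f) (congrFun hq l)
  rw [hmv] at h1
  have h2 : Polynomial.map f (((X : A[X]) ^ m • q - M *ᵥ q + emb (ρ c *ᵥ Pi.single j 1)) l) =
      ((X : A'[X]) ^ m • (fun l => Polynomial.map f (q l)) -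
        M.map (Polynomial.map f) *ᵥ (fun l => Polynomial.map f (q l)) +
        emb (((f.mapMatrix).comp ρ) c *ᵥ Pi.single j (1 : A'))) l := by
    rw [← hs2, ← hemb]
    simp only [Pi.add_apply, Pi.sub_apply, Pi.smul_apply, smul_eq_mul, Polynomial.map_add,
      Polynomial.map_sub, Polynomial.map_mul, Polynomial.map_pow, Polynomial.map_X, hmv]
  have h3 : emb (Pi.single j (1 : A') : Fin d × Fin m → A') =
      fun l => Polynomial.map f (emb (Pi.single j (1 : A) : Fin d × Fin m → A) l) := by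
    rw [hemb, hs1]
  rw [h3]
  exact h1.trans h2

theorem rep_homotopy {S : Type} [CommRing S] {a : Fin d → ℕ} {M : Matrix (Fin d) (Fin d) A[X]}
    (hM : WtM a m M) (lam : S →+* Matrix (Fin d) (Fin d) A[X]) (hc : ∀ c, Commute (lam c) M)
    {ρ ρ₀ : S →+* Matrix (Fin d × Fin m) (Fin d × Fin m) A} (h : IsRep M lam ρ)
    (h₀ : IsRep 0 lam ρ₀) {I σ : Type} [DecidableEq I] [DecidableEq σ] {z : GG I σ S}
    (hz : Cub z) : Nul (GG.corr ρ z - GG.corr ρ₀ z) := by
  obtain ⟨iota, hiota⟩ : ∃ iota : A[X] →+* A[X][X], iota = Polynomial.mapRingHom (C : A →+* A[X]) :=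
    ⟨_, rfl⟩
  have hi : ∀ p, iota p = Polynomial.map (C : A →+* A[X]) p := by
    intro p
    rw [hiota]
    rfl
  obtain ⟨Ms, hMs⟩ : ∃ Ms : Matrix (Fin d) (Fin d) A[X][X], Ms = (C (X : A[X])) • M.map iota :=
    ⟨_, rfl⟩
  have hMs' : ∀ l' l, Ms l' l = C (X : A[X]) * iota (M l' l) := by
    intro l' l
    rw [hMs]
    rfl
  have hW : WtM a m Ms := by
    intro l' l
    rcases hM l' l with h1 | h1
    · left
      rw [hMs', h1, map_zero, mul_zero]
    · right
      refine lt_of_le_of_lt (Nat.add_le_add_right ?_ _) h1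
      rw [hMs', hi]
      exact (natDegree_C_mul_le _ _).trans natDegree_map_le
  have hcomm : ∀ c, Commute (((iota.mapMatrix).comp lam) c) Ms := by
    intro c
    rw [hMs]
    refine Commute.smul_right ?_ _
    have h1 := (hc c).map (iota.mapMatrix : Matrix (Fin d) (Fin d) A[X] →+* _)
    exact h1
  obtain ⟨ρs, hρs⟩ := exists_rep hW ((iota.mapMatrix).comp lam) hcomm
  have hev : ∀ (e : Bool) (p : A[X]), Polynomial.map (ev A e) (iota p) = p := by
    intro e p
    have h1 : (ev A e).comp (C : A →+* A[X]) = RingHom.id A := by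
      refine RingHom.ext fun x => ?_
      simp [ev]
    rw [hi, Polynomial.map_map, h1, Polynomial.map_id]
  have hlam : ∀ e : Bool, ((Polynomial.mapRingHom (ev A e)).mapMatrix).comp ((iota.mapMatrix).comp lam) =
      lam := by
    intro e
    refine RingHom.ext fun c => ?_
    ext1 l' l
    exact hev e (lam c l' l)
  have hT : Ms.map (Polynomial.map (ev A true)) = M := by
    ext1 l' l
    show Polynomial.map (ev A true) (Ms l' l) = M l' l
    rw [hMs', Polynomial.map_mul, hev, Polynomial.map_C]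
    simp [ev]
  have hF : Ms.map (Polynomial.map (ev A false)) = 0 := by
    ext1 l' l
    show Polynomial.map (ev A false) (Ms l' l) = 0
    rw [hMs', Polynomial.map_mul, Polynomial.map_C]
    simp [ev]
  have h1 := hρs.map (ev A true)
  rw [hT, hlam] at h1
  have h2 := hρs.map (ev A false)
  rw [hF, hlam] at h2
  have hM0 : WtM a m (0 : Matrix (Fin d) (Fin d) A[X]) := fun _ _ => Or.inl rfl
  rw [rep_unique hM h h1, rep_unique hM0 h₀ h2]
  exact homotopy ρs hz

end Pool.Agent.LGF
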