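import Pool.Agent.LGF.RieC

/-!
# The class relation for ideals

MODULE LGF-Eqv. PLAN. `Eqv J J'`: `(f) J = (f') J'` with normalised `f`, `f'`.
* `refl` (`f = f' = t ^ 0 = 1`), `symm`, `trans` (multiply by the elements crosswise), `mul`
  (`nrm_mul`; `Ideal.span_singleton_mul_span_singleton`), `pow`, `cancel` (ideals of a Dedekind domain
  cancel: `mul_right_injective₀`/`mul_left_cancel₀` with `≠ ⊥`), `eqv_t` : `Eqv (span {t} ^ j) ⊤`,
  `eqv_nrm`.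
* `eqv_principal`: `Eqv J ⊤` and `Col J (m * d)` give `J = (g)` with `Nrm m g`: `(f) J = (f')`, so
  `f' = f g`, `(f) J = (f) (g)`, `J = (g)`; `nrm_of_mul`: `Nrm n g` for some `n`; `nrm_col` and
  `col_unique`, `d_pos` give `n = m`.
* `exists_compl`: for `f ∈ J`, `f ≠ 0` there is `J'` with `J * J' = (f)` (`Ideal.dvd_span_singleton`).
* `exists_ideal`: let `Col 𝔞 (s * d)`, `A = ∑ a l`. `𝔞 * (t)^(A+1)` has colength `(s + A + 1) d`;
  `exists_nrm` with `m = s + 3 A + 1` gives `f`; the complement `𝔟` of `𝔞 (t)^(A+1)` has colength `2 A d`.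
  Again: `𝔟 (t)^(A+1)`, `m' = 5 A + 1`, `f'`; the complement `J` has colength `2 A d`, and
  `(f) (t)^(A+1) J = 𝔞 (t)^(A+1) (𝔟 (t)^(A+1) J) = (f') (t)^(A+1) 𝔞`, so `Eqv J 𝔞`.
-/

noncomputable section

namespace Pool.Agent.LGF

open Polynomial Module

namespace Crv

variable {k : Type} [Field k] {d : ℕ} {a : Fin d → ℕ} {Y : Crv k d a} {J J' J'' K K' : Ideal Y.O}
  {N m s : ℕ} {f : Y.O}

/-- The ideals `J`, `J'` are in the same class. -/
def Eqv (J J' : Ideal Y.O) : Prop := ∃ (m m' : ℕ) (f f' : Y.O), Y.Nrm m f ∧ Y.Nrm m' f' ∧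
  Ideal.span {f} * J = Ideal.span {f'} * J'

theorem Eqv.refl (J : Ideal Y.O) : Eqv J J :=
  ⟨0, 0, Y.t ^ 0, Y.t ^ 0, nrm_t, nrm_t, rfl⟩

theorem Eqv.symm (h : Eqv J J') : Eqv J' J := by
  obtain ⟨m, m', f, f', hf, hf', e⟩ := h
  exact ⟨m', m, f', f, hf', hf, e.symm⟩

theorem Eqv.trans (h : Eqv J J') (h' : Eqv J' J'') : Eqv J J'' := by
  obtain ⟨m, m', f, f', hf, hf', e⟩ := h
  obtain ⟨n, n', g, g', hg, hg', e'⟩ := h'
  refine ⟨n + m, m' + n', g * f, f' * g', nrm_mul hg hf, nrm_mul hf' hg', ?_⟩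
  rw [← Ideal.span_singleton_mul_span_singleton, ← Ideal.span_singleton_mul_span_singleton,
    mul_assoc, e, mul_assoc, ← e', mul_left_comm]

theorem Eqv.mul (h : Eqv J J') (h' : Eqv K K') : Eqv (J * K) (J' * K') := by
  obtain ⟨m, m', f, f', hf, hf', e⟩ := h
  obtain ⟨n, n', g, g', hg, hg', e'⟩ := h'
  refine ⟨m + n, m' + n', f * g, f' * g', nrm_mul hf hg, nrm_mul hf' hg', ?_⟩
  rw [← Ideal.span_singleton_mul_span_singleton, ← Ideal.span_singleton_mul_span_singleton,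
    mul_mul_mul_comm, e, e', mul_mul_mul_comm]

theorem Eqv.pow (h : Eqv J J') (n : ℕ) : Eqv (J ^ n) (J' ^ n) := by
  induction n with
  | zero =>
    rw [pow_zero, pow_zero]
    exact Eqv.refl _
  | succ n ih =>
    rw [pow_succ, pow_succ]
    exact ih.mul h

theorem Eqv.cancel (hK : K ≠ ⊥) (h : Eqv (J * K) (J' * K)) : Eqv J J' := by
  obtain ⟨m, m', f, f', hf, hf', e⟩ := h
  refine ⟨m, m', f, f', hf, hf', ?_⟩
  rw [← mul_assoc, ← mul_assoc] at e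
  exact mul_right_cancel₀ hK e

theorem eqv_nrm (hf : Y.Nrm m f) : Eqv (Ideal.span {f}) (⊤ : Ideal Y.O) := by
  refine ⟨0, m, Y.t ^ 0, f, nrm_t, hf, ?_⟩
  rw [pow_zero, Ideal.span_singleton_one, Ideal.top_mul, Ideal.mul_top]

theorem eqv_t (j : ℕ) : Eqv (Ideal.span {Y.t} ^ j) (⊤ : Ideal Y.O) := by
  rw [Ideal.span_singleton_pow]
  exact eqv_nrm nrm_t

theorem col_t (j : ℕ) : Y.Col (Ideal.span {Y.t} ^ j) (j * d) := by
  rw [Ideal.span_singleton_pow]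
  exact nrm_col nrm_t

private theorem span_ne (hf : Y.Nrm m f) : Ideal.span {f} ≠ (⊥ : Ideal Y.O) := by
  rw [Ne, Ideal.span_singleton_eq_bot]
  exact nrm_ne_zero hf

theorem eqv_principal (h : Eqv J ⊤) (hJ : Y.Col J (m * d)) :
    ∃ g, Y.Nrm m g ∧ J = Ideal.span {g} := by
  obtain ⟨n, n', f, f', hf, hf', e⟩ := h
  rw [Ideal.mul_top] at e
  have h1 : f' ∈ Ideal.span {f} := by
    have h2 : f' ∈ Ideal.span {f} * J := by
      rw [e]
      exact Ideal.mem_span_singleton_self f'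
    exact (Ideal.mul_le_inf (I := Ideal.span {f}) (J := J) h2).1
  obtain ⟨g, hg⟩ := Ideal.mem_span_singleton'.1 h1
  rw [mul_comm] at hg
  rw [← hg, ← Ideal.span_singleton_mul_span_singleton] at e
  have hJg : J = Ideal.span {g} := mul_left_cancel₀ (span_ne hf) e
  rw [← hg] at hf'
  obtain ⟨-, h4⟩ := nrm_of_mul hf hf'
  have h5 := nrm_col h4
  rw [← hJg] at h5
  have h6 : m = n' - n := Nat.eq_of_mul_eq_mul_right (d_pos Y) (col_unique hJ h5)
  exact ⟨g, h6 ▸ h4, hJg⟩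

theorem exists_compl (hf : f ∈ J) (h0 : f ≠ 0) : ∃ J', J * J' = Ideal.span {f} := by
  obtain ⟨J', h⟩ := Ideal.dvd_span_singleton.2 hf
  exact ⟨J', h.symm⟩

/-- one step: the complement of `J (t)^(A+1)` -/
private theorem step_compl (h : Y.Col J (s * d)) :
    ∃ (f : Y.O) (J' : Ideal Y.O), Y.Nrm (s + 3 * (∑ l, a l) + 1) f ∧
      (J * Ideal.span {Y.t} ^ ((∑ l, a l) + 1)) * J' = Ideal.span {f} ∧
      Y.Col J' (2 * (∑ l, a l) * d) := by
  obtain ⟨A, hA⟩ : ∃ A, A = ∑ l, a l := ⟨_, rfl⟩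
  rw [← hA]
  have hd := d_pos Y
  have h1 : Y.Col (J * Ideal.span {Y.t} ^ (A + 1)) (s * d + (A + 1) * d) :=
    col_mul h (col_t (A + 1))
  obtain ⟨f, hf, hn⟩ := exists_nrm (m := s + 3 * A + 1) h1 (by rw [← hA]; nlinarith)
    (by rw [← hA]; omega) (by rw [← hA]; nlinarith)
  obtain ⟨J', hJ'⟩ := exists_compl hf (nrm_ne_zero hn)
  refine ⟨f, J', hn, hJ', ?_⟩
  have h2 : J' ≠ ⊥ := by
    rintro rfl
    rw [Ideal.mul_bot] at hJ'
    exact span_ne hn hJ'.symm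
  have h3 := nrm_col hn
  rw [← hJ'] at h3
  obtain ⟨M, M', hM, hM', hs⟩ := col_of_mul (col_ne_bot h1) h2 h3
  have h4 := col_unique h1 hM
  have h5 : M' = 2 * A * d := by
    rw [← h4] at hs
    nlinarith
  rw [← h5]
  exact hM'

theorem exists_ideal (h : Y.Col J (s * d)) : ∃ J', Y.Col J' (2 * (∑ l, a l) * d) ∧ Eqv J' J := by
  obtain ⟨f, B, hf, hB, hcB⟩ := step_compl h
  obtain ⟨f', J', hf', hJ', hc⟩ := step_compl hcB
  refine ⟨J', hc, _, _, f * Y.t ^ ((∑ l, a l) + 1), f' * Y.t ^ ((∑ l, a l) + 1),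
    nrm_mul hf nrm_t, nrm_mul hf' nrm_t, ?_⟩
  rw [← Ideal.span_singleton_mul_span_singleton, ← Ideal.span_singleton_mul_span_singleton,
    ← hB, ← hJ', ← Ideal.span_singleton_pow]
  ring

end Crv

end Pool.Agent.LGF
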