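import Pool.Agent.LGF.CD

/-!
# Existence of curve data

MODULE LGF-ExCD. PLAN. Let `R₁ = φ.range`, `A = Algebra.adjoin ℚ R₁ ⊆ K`, a finitely generated
`ℚ`-algebra (`R` is finitely generated over `ℤ`), a domain. Noether normalisation
(`exists_integral_inj_algHom_of_fg ℚ A`): `y_0, ..., y_{s-1} ∈ A` algebraically independent over `ℚ`, `A`
integral over `ℚ[y]`. The `y_j` are algebraic over `ℚ(x_1, ..., x_m)` (they are polynomials in elements of
`R₁`), so `s ≤ m` (transcendence degree of `ℚ(x)` is at most `m`: `Algebra.trdeg` lemmas,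
`AlgebraicIndependent`...). If `s = 0` every element of `A` is integral over `ℚ`: first alternative.
Otherwise `m' = s - 1`, `F₀ = ℚ(y_0, ..., y_{s-2})`, `t = y_{s-1}`, transcendental over `F₀`. The field
`F = F₀(t)(R₁)` is a finite separable extension of `F₀(t)` (generated by finitely many elements integral
over `F₀[t]`), so `F = F₀(t)(θ)` (primitive element), and we may take `θ` integral over `F₀[t]`
(multiply by a polynomial in `t`). `Φ` = its minimal polynomial over the integrally closed ring
`F₀[t] ≅ F₀[X]` (coefficients in `F₀[X]`: `minpoly.isIntegrallyClosed_eq_field_fractions`), so for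
`q ∈ F₀[X][Y]`: `q(t, θ) = 0 → Φ ∣ q`. Let `g_j` generate `R` over `ℤ`; `φ g_j = p_j(t, θ) / δ(t)` with a
common `δ ∈ F₀[X]`, `δ ≠ 0`; `χ_j(t, φ g_j) = 0` with `χ_j ∈ F₀[X][Y]` monic. Let `S ⊆ F₀` be the subring
generated by the (finitely many) coefficients of `Φ`, `δ`, `p_j`, `χ_j`, and `C` = the subring of `K`
generated by `S`, `t`, `θ`, the `φ g_j`: finitely generated over `ℤ`. `ker`: if `q ∈ S[X][Y]` vanishes at
`(t, θ)` divide by the monic `Φ` over `S`; the remainder is divisible by `Φ` over `F₀[X]`, so it is `0`.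
`gen`: the elements `c ∈ K` with `δ(t)^n c ∈ S[t, θ]` for some `n` form a subring containing the
generators. `int`: elements integral over the subring `S[t]` form a subring (`IsIntegral` over the range
of `S[X] → K`, then lift a monic polynomial); `θ` is a root of `Φ`, `t` and `S` are in `S[t]`.
`alg`: `S ⊆ F₀ = ℚ(y_0..y_{s-2})`.
This module may be split; keep auxiliary lemmas private.
-/

noncomputable section

namespace Pool.Agent.LGF

open Polynomial

private theorem ev2_comp {S C D : Type} [CommRing S] [CommRing C] [CommRing D] (f : S →+* C)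
    (g : C →+* D) (t θ : C) (p : S[X][X]) : g (ev2 f t θ p) = ev2 (g.comp f) (g t) (g θ) p := by
  unfold ev2
  rw [coe_eval₂RingHom, coe_eval₂RingHom, hom_eval₂]
  congr 1
  refine RingHom.ext fun q => ?_
  rw [RingHom.comp_apply, coe_eval₂RingHom, coe_eval₂RingHom, hom_eval₂]

private theorem ev1_comp {S C D : Type} [CommRing S] [CommRing C] [CommRing D] (f : S →+* C)
    (g : C →+* D) (t : C) (p : S[X]) : g (p.eval₂ f t) = p.eval₂ (g.comp f) (g t) :=
  hom_eval₂ p f g t

private theorem ev2_map {S P C : Type} [CommRing S] [CommRing P] [CommRing C] (i : S →+* P)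
    (f : P →+* C) (t θ : C) (p : S[X][X]) :
    ev2 f t θ (p.map (mapRingHom i)) = ev2 (f.comp i) t θ p := by
  unfold ev2
  rw [coe_eval₂RingHom, coe_eval₂RingHom, eval₂_map]
  congr 1
  refine RingHom.ext fun q => ?_
  rw [RingHom.comp_apply, coe_eval₂RingHom, coe_eval₂RingHom, coe_mapRingHom, eval₂_map]

private theorem partB {K F : Type} [Field K] [CharZero K] [Field F] [Algebra F K] (t : K)
    (T : Finset K) (htr : ∀ p : F[X], p.eval₂ (algebraMap F K) t = 0 → p = 0)
    (hT : ∀ τ ∈ T, ∃ χ : F[X][X], χ.Monic ∧ ev2 (algebraMap F K) t τ χ = 0) :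
    ∃ (θ : K) (Φ : F[X][X]) (δ : F[X]), Φ.Monic ∧ 0 < Φ.natDegree ∧
      ev2 (algebraMap F K) t θ Φ = 0 ∧
      (∀ p : F[X][X], ev2 (algebraMap F K) t θ p = 0 → Φ ∣ p) ∧ δ ≠ 0 ∧
      ∀ τ ∈ T, ∃ q : F[X][X], δ.eval₂ (algebraMap F K) t * τ = ev2 (algebraMap F K) t θ q := by
  classical
  have : CharZero F := (algebraMap F K).charZero
  letI a1 : Algebra F[X] K := (eval₂RingHom (algebraMap F K) t).toAlgebra
  have ha1 : ∀ p : F[X], algebraMap F[X] K p = p.eval₂ (algebraMap F K) t := fun p => rfl
  have inj : Function.Injective (algebraMap F[X] K) := by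
    rw [injective_iff_map_eq_zero]
    exact fun p hp => htr p hp
  have fs : FaithfulSMul F[X] K := (faithfulSMul_iff_algebraMap_injective F[X] K).mpr inj
  have tf : Module.IsTorsionFree F[X] K := inferInstance
  -- the field `L = F(t)`
  let L : IntermediateField F K := IntermediateField.adjoin F {t}
  let tL : L := ⟨t, IntermediateField.subset_adjoin F {t} rfl⟩
  letI a2 : Algebra F[X] L := (eval₂RingHom (algebraMap F L) tL).toAlgebra
  have ha2 : ∀ p : F[X], algebraMap L K (algebraMap F[X] L p) = algebraMap F[X] K p := by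
    intro p
    show algebraMap L K (p.eval₂ (algebraMap F L) tL) = p.eval₂ (algebraMap F K) t
    rw [hom_eval₂]
    rfl
  have st : IsScalarTower F[X] L K := IsScalarTower.of_algebraMap_eq fun p => (ha2 p).symm
  have inj2 : Function.Injective (algebraMap F[X] L) := by
    intro p q h
    apply inj
    rw [← ha2, ← ha2, h]
  have fs2 : FaithfulSMul F[X] L := (faithfulSMul_iff_algebraMap_injective F[X] L).mpr inj2
  have fr : IsFractionRing F[X] L := by
    refine IsFractionRing.of_field F[X] L ?_
    rintro ⟨z, hz⟩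
    obtain ⟨r, s, hrs⟩ := (IntermediateField.mem_adjoin_simple_iff F z).mp hz
    refine ⟨r, s, ?_⟩
    apply Subtype.ext
    show z = algebraMap L K (algebraMap F[X] L r / algebraMap F[X] L s)
    rw [map_div₀, ha2, ha2, hrs]
    rfl
  -- the field `E`
  have hTL : ∀ τ ∈ (T : Set K), IsIntegral L τ := by
    intro τ hτ
    obtain ⟨χ, h1, h2⟩ := hT τ hτ
    have : IsIntegral F[X] τ := ⟨χ, h1, h2⟩
    exact this.tower_top
  let E : IntermediateField L K := IntermediateField.adjoin L (T : Set K)
  have fd : FiniteDimensional L E := IntermediateField.finiteDimensional_adjoin hTL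
  have cz : CharZero L := charZero_of_injective_algebraMap (algebraMap F L).injective
  have pb := Field.powerBasisOfFiniteOfSeparable L E
  obtain ⟨α, hα⟩ : ∃ α : K, α = (pb.gen : K) := ⟨_, rfl⟩
  have hαE : ∀ z ∈ E, ∃ p : L[X], z = aeval α p := by
    intro z hz
    obtain ⟨p, hp⟩ := pb.exists_eq_aeval' ⟨z, hz⟩
    refine ⟨p, ?_⟩
    have h1 : z = algebraMap E K (aeval pb.gen p) := by
      rw [← hp]
      rfl
    rw [h1, hα]
    exact (aeval_algebraMap_apply K pb.gen p).symm
  have hαL : IsAlgebraic L α := by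
    rw [hα]
    exact (Algebra.IsIntegral.isIntegral (R := L) pb.gen).isAlgebraic.algebraMap
  have hαF : IsAlgebraic F[X] α := (IsFractionRing.isAlgebraic_iff F[X] L K).mpr hαL
  obtain ⟨d, hd0, hdi⟩ := hαF.exists_integral_multiple
  obtain ⟨θ, hθ⟩ : ∃ θ : K, θ = d • α := ⟨_, rfl⟩
  rw [← hθ] at hdi
  have hdL : algebraMap F[X] L d ≠ 0 := by
    intro h
    apply hd0
    apply inj2
    rw [h, map_zero]
  have hαθ : α = algebraMap L K (algebraMap F[X] L d)⁻¹ * θ := by
    rw [hθ, Algebra.smul_def, ← ha2, ← mul_assoc, ← map_mul, inv_mul_cancel₀ hdL, map_one, one_mul]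
  have hE2 : ∀ z ∈ E, ∃ δ : F[X], δ ≠ 0 ∧ ∃ q : F[X][X],
      δ.eval₂ (algebraMap F K) t * z = ev2 (algebraMap F K) t θ q := by
    intro z hz
    obtain ⟨p, hp⟩ := hαE z hz
    obtain ⟨p', hp'⟩ : ∃ p' : L[X], z = aeval θ p' := by
      refine ⟨p.comp (C (algebraMap F[X] L d)⁻¹ * X), ?_⟩
      rw [aeval_comp, map_mul, aeval_X, aeval_C, ← hαθ]
      exact hp
    obtain ⟨b, hb⟩ := IsLocalization.integerNormalization_map_to_map (nonZeroDivisors F[X]) p'
    refine ⟨b, nonZeroDivisors.ne_zero b.2,
      IsLocalization.integerNormalization (nonZeroDivisors F[X]) p', ?_⟩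
    have h1 : ev2 (algebraMap F K) t θ (IsLocalization.integerNormalization
        (nonZeroDivisors F[X]) p') = aeval θ ((IsLocalization.integerNormalization
        (nonZeroDivisors F[X]) p').map (algebraMap F[X] L)) := by
      rw [aeval_map_algebraMap]
      rfl
    rw [h1, hb, ← algebraMap_smul L (b : F[X]) p', map_smul, ← hp', Algebra.smul_def, ha2, ha1]
  -- common denominator
  have hcd : ∀ T' : Finset K, T' ⊆ T → ∃ δ : F[X], δ ≠ 0 ∧ ∀ τ ∈ T', ∃ q : F[X][X],
      δ.eval₂ (algebraMap F K) t * τ = ev2 (algebraMap F K) t θ q := by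
    intro T'
    induction T' using Finset.induction_on with
    | empty => exact fun _ => ⟨1, one_ne_zero, fun τ hτ => absurd hτ (Finset.notMem_empty τ)⟩
    | insert a T' ha ih =>
      intro hsub
      obtain ⟨δ, h1, h2⟩ := ih ((Finset.subset_insert a T').trans hsub)
      obtain ⟨δ', h3, q', h4⟩ := hE2 a (IntermediateField.subset_adjoin L _
        (hsub (Finset.mem_insert_self a T')))
      refine ⟨δ * δ', mul_ne_zero h1 h3, ?_⟩
      intro τ hτ
      rcases Finset.mem_insert.mp hτ with rfl | hτ
      · refine ⟨C δ * q', ?_⟩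
        rw [map_mul, ← h4, eval₂_mul]
        have : ev2 (algebraMap F K) t θ (C δ) = δ.eval₂ (algebraMap F K) t := by
          unfold ev2
          rw [coe_eval₂RingHom, eval₂_C, coe_eval₂RingHom]
        rw [this, mul_assoc]
      · obtain ⟨q, h5⟩ := h2 τ hτ
        refine ⟨C δ' * q, ?_⟩
        rw [map_mul, ← h5, eval₂_mul]
        have : ev2 (algebraMap F K) t θ (C δ') = δ'.eval₂ (algebraMap F K) t := by
          unfold ev2
          rw [coe_eval₂RingHom, eval₂_C, coe_eval₂RingHom]
        rw [this]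
        ring
  obtain ⟨δ, hδ0, hδ⟩ := hcd T (Finset.Subset.refl T)
  refine ⟨θ, minpoly F[X] θ, δ, minpoly.monic hdi, minpoly.natDegree_pos hdi, minpoly.aeval F[X] θ,
    fun p hp => minpoly.isIntegrallyClosed_dvd hdi hp, hδ0, hδ⟩

/-- coefficients -/
private def W {K : Type} [Field K] [CharZero K] (F : IntermediateField ℚ K) (q : F[X][X]) :
    Finset K :=
  open Classical in q.support.biUnion fun n =>
    (q.coeff n).support.image fun m => (((q.coeff n).coeff m : F) : K)

private theorem W_le {K : Type} [Field K] [CharZero K] (F : IntermediateField ℚ K) (q : F[X][X]) :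
    ∀ w ∈ W F q, w ∈ F := by
  classical
  intro w hw
  unfold W at hw
  obtain ⟨n, _, hw⟩ := Finset.mem_biUnion.mp hw
  obtain ⟨m, _, rfl⟩ := Finset.mem_image.mp hw
  exact ((q.coeff n).coeff m).2

private theorem W_mem {K : Type} [Field K] [CharZero K] (F : IntermediateField ℚ K) (q : F[X][X])
    (S : Subring K) (h : (W F q : Set K) ⊆ S) (n m : ℕ) :
    (((q.coeff n).coeff m : F) : K) ∈ S := by
  classical
  by_cases h0 : (q.coeff n).coeff m = 0
  · rw [h0]
    exact S.zero_mem
  · apply h
    have hn : q.coeff n ≠ 0 := by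
      intro h1
      apply h0
      rw [h1, coeff_zero]
    unfold W
    rw [Finset.mem_coe]
    exact Finset.mem_biUnion.mpr ⟨n, mem_support_iff.mpr hn,
      Finset.mem_image.mpr ⟨m, mem_support_iff.mpr h0, rfl⟩⟩

private theorem lift1 {S F : Type} [CommRing S] [CommRing F] (i : S →+* F) (q : F[X])
    (h : ∀ m, q.coeff m ∈ Set.range i) : ∃ q' : S[X], q'.map i = q :=
  (mem_lifts q).mp ((lifts_iff_coeff_lifts q).mpr h)

private theorem lift2 {S F : Type} [CommRing S] [CommRing F] (i : S →+* F) (q : F[X][X])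
    (h : ∀ n m, (q.coeff n).coeff m ∈ Set.range i) :
    ∃ q' : S[X][X], q'.map (mapRingHom i) = q := by
  refine (mem_lifts q).mp ((lifts_iff_coeff_lifts q).mpr fun n => ?_)
  obtain ⟨r, hr⟩ := lift1 i (q.coeff n) (h n)
  exact ⟨r, hr⟩

private theorem ft_closure {K : Type} [Field K] (V : Finset K) :
    Algebra.FiniteType ℤ (Subring.closure (V : Set K)) := by
  have h1 : Algebra.FiniteType ℤ (Algebra.adjoin ℤ (V : Set K)) :=
    Subalgebra.fg_iff_finiteType _ |>.mp (Subalgebra.fg_adjoin_finset V)
  have h2 : ∀ x : K, x ∈ Algebra.adjoin ℤ (V : Set K) ↔ x ∈ Subring.closure (V : Set K) := by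
    intro x
    rw [Algebra.adjoin_int]
    rfl
  let e : Algebra.adjoin ℤ (V : Set K) →+* Subring.closure (V : Set K) :=
    { toFun := fun x => ⟨x.1, (h2 x.1).mp x.2⟩
      map_one' := rfl
      map_mul' := fun _ _ => rfl
      map_zero' := rfl
      map_add' := fun _ _ => rfl }
  have he : Function.Surjective e := fun x => ⟨⟨x.1, (h2 x.1).mpr x.2⟩, rfl⟩
  exact h1.of_surjective e.toIntAlgHom he

private theorem partC {K : Type} [Field K] [CharZero K] (F : IntermediateField ℚ K) (t θ : K)
    (T : Finset K) (Φ : F[X][X]) (δ : F[X]) (hm : Φ.Monic) (hp : 0 < Φ.natDegree)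
    (hr : ev2 (algebraMap F K) t θ Φ = 0)
    (hk : ∀ p : F[X][X], ev2 (algebraMap F K) t θ p = 0 → Φ ∣ p)
    (hδ : δ.eval₂ (algebraMap F K) t ≠ 0)
    (hq : ∀ τ ∈ T, ∃ q : F[X][X], δ.eval₂ (algebraMap F K) t * τ = ev2 (algebraMap F K) t θ q)
    (hχ : ∀ τ ∈ T, ∃ χ : F[X][X], χ.Monic ∧ ev2 (algebraMap F K) t τ χ = 0)
    {m' : ℕ} (y : Fin m' → K) (hF : F = IntermediateField.adjoin ℚ (Set.range y)) :
    ∃ C : Subring K, (T : Set K) ⊆ C ∧ Algebra.FiniteType ℤ C ∧ Nonempty (CD C m') := by
  classical
  choose! q hq using hq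
  choose! χ hχm hχ using hχ
  let TS : Finset K := W F Φ ∪ W F (C δ) ∪ T.biUnion (fun τ => W F (q τ)) ∪
    T.biUnion (fun τ => W F (χ τ))
  let S : Subring K := Subring.closure (TS : Set K)
  have s1 : (W F Φ : Set K) ⊆ S := fun w hw => Subring.subset_closure (by
    rw [Finset.mem_coe] at hw ⊢
    exact Finset.mem_union_left _ (Finset.mem_union_left _ (Finset.mem_union_left _ hw)))
  have s2 : (W F (C δ) : Set K) ⊆ S := fun w hw => Subring.subset_closure (by
    rw [Finset.mem_coe] at hw ⊢
    exact Finset.mem_union_left _ (Finset.mem_union_left _ (Finset.mem_union_right _ hw)))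
  have s3 : ∀ τ ∈ T, (W F (q τ) : Set K) ⊆ S := fun τ hτ w hw => Subring.subset_closure (by
    rw [Finset.mem_coe] at hw ⊢
    exact Finset.mem_union_left _ (Finset.mem_union_right _ (Finset.mem_biUnion.mpr ⟨τ, hτ, hw⟩)))
  have s4 : ∀ τ ∈ T, (W F (χ τ) : Set K) ⊆ S := fun τ hτ w hw => Subring.subset_closure (by
    rw [Finset.mem_coe] at hw ⊢
    exact Finset.mem_union_right _ (Finset.mem_biUnion.mpr ⟨τ, hτ, hw⟩))
  have hSF : ∀ s ∈ S, s ∈ F := by
    intro s hs
    have : S ≤ F.toSubfield.toSubring := by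
      rw [Subring.closure_le]
      intro w hw
      rw [Finset.mem_coe] at hw
      rcases Finset.mem_union.mp hw with hw | hw
      · rcases Finset.mem_union.mp hw with hw | hw
        · rcases Finset.mem_union.mp hw with hw | hw
          · exact W_le F _ w hw
          · exact W_le F _ w hw
        · obtain ⟨τ, _, hw⟩ := Finset.mem_biUnion.mp hw
          exact W_le F _ w hw
      · obtain ⟨τ, _, hw⟩ := Finset.mem_biUnion.mp hw
        exact W_le F _ w hw
    exact this hs
  let i : S →+* F := S.subtype.codRestrict F (fun s => hSF s.1 s.2)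
  have hi : Function.Injective i := by
    intro a b h
    apply Subtype.ext
    exact congrArg (fun z : F => (z : K)) h
  have hi2 : Function.Injective (mapRingHom i) := map_injective i hi
  have hic : (algebraMap F K).comp i = S.subtype := rfl
  have lft : ∀ p : F[X][X], (W F p : Set K) ⊆ S → ∃ p' : S[X][X], p'.map (mapRingHom i) = p := by
    intro p hp
    exact lift2 i p fun n m => ⟨⟨_, W_mem F p S hp n m⟩, rfl⟩
  have ev : ∀ (p : S[X][X]) (c : K), ev2 S.subtype t c p =
      ev2 (algebraMap F K) t c (p.map (mapRingHom i)) := by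
    intro p c
    rw [ev2_map, hic]
  obtain ⟨Φ', hΦ'⟩ := lft Φ s1
  obtain ⟨δ', hδ'⟩ := lift1 i δ (fun m => by
    have := W_mem F (C δ) S s2 0 m
    rw [coeff_C_zero] at this
    exact ⟨⟨_, this⟩, rfl⟩)
  have hδe : δ'.eval₂ S.subtype t = δ.eval₂ (algebraMap F K) t := by
    rw [← hδ', eval₂_map, hic]
  let V : Finset K := TS ∪ ({t, θ} ∪ T)
  let C' : Subring K := Subring.closure (V : Set K)
  have hle : S ≤ C' := Subring.closure_mono (by
    intro w hw
    rw [Finset.mem_coe] at hw ⊢
    exact Finset.mem_union_left _ hw)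
  have ht : t ∈ C' := Subring.subset_closure (by
    rw [Finset.mem_coe]
    exact Finset.mem_union_right _ (Finset.mem_union_left _ (Finset.mem_insert_self t _)))
  have hθ : θ ∈ C' := Subring.subset_closure (by
    rw [Finset.mem_coe]
    exact Finset.mem_union_right _ (Finset.mem_union_left _
      (Finset.mem_insert_of_mem (Finset.mem_singleton_self θ))))
  have hT : (T : Set K) ⊆ C' := fun w hw => Subring.subset_closure (by
    rw [Finset.mem_coe] at hw ⊢
    exact Finset.mem_union_right _ (Finset.mem_union_right _ hw))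
  -- evaluation in `C'`
  have evC : ∀ (c : C') (p : S[X][X]), ((ev2 (Subring.inclusion hle) ⟨t, ht⟩ c p : C') : K) =
      ev2 S.subtype t c p := fun c p => ev2_comp (Subring.inclusion hle) C'.subtype ⟨t, ht⟩ c p
  have ev1C : ((δ'.eval₂ (Subring.inclusion hle) (⟨t, ht⟩ : C') : C') : K) =
      δ'.eval₂ S.subtype t := ev1_comp (Subring.inclusion hle) C'.subtype ⟨t, ht⟩ δ'
  -- representations
  have gen : ∀ c ∈ C', ∃ (n : ℕ) (p : S[X][X]),
      δ'.eval₂ S.subtype t ^ n * c = ev2 S.subtype t θ p := by
    intro c hc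
    have evCδ : ev2 S.subtype t θ (C δ') = δ'.eval₂ S.subtype t := by
      unfold ev2
      rw [coe_eval₂RingHom, eval₂_C, coe_eval₂RingHom]
    induction hc using Subring.closure_induction with
    | mem x hx =>
      have hS : x ∈ S → ∃ (n : ℕ) (p : S[X][X]),
          δ'.eval₂ S.subtype t ^ n * x = ev2 S.subtype t θ p := by
        intro hx
        refine ⟨0, C (C ⟨x, hx⟩), ?_⟩
        unfold ev2
        rw [coe_eval₂RingHom, eval₂_C, coe_eval₂RingHom, eval₂_C, pow_zero, one_mul]
        rfl
      rw [Finset.mem_coe] at hx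
      rcases Finset.mem_union.mp hx with hx | hx
      · exact hS (Subring.subset_closure (Finset.mem_coe.mpr hx))
      · rcases Finset.mem_union.mp hx with hx | hx
        · rcases Finset.mem_insert.mp hx with rfl | hx
          · refine ⟨0, C X, ?_⟩
            unfold ev2
            rw [coe_eval₂RingHom, eval₂_C, coe_eval₂RingHom, eval₂_X, pow_zero, one_mul]
          · rw [Finset.mem_singleton] at hx
            subst hx
            refine ⟨0, X, ?_⟩
            unfold ev2
            rw [coe_eval₂RingHom, eval₂_X, pow_zero, one_mul]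
        · obtain ⟨q', hq'⟩ := lft (q x) (s3 x hx)
          refine ⟨1, q', ?_⟩
          rw [pow_one, hδe, hq x hx, ev, hq']
    | zero => exact ⟨0, 0, by rw [map_zero, mul_zero]⟩
    | one => exact ⟨0, 1, by rw [map_one, pow_zero, mul_one]⟩
    | add a b _ _ ha hb =>
      obtain ⟨n1, p1, h1⟩ := ha
      obtain ⟨n2, p2, h2⟩ := hb
      refine ⟨n1 + n2, C δ' ^ n2 * p1 + C δ' ^ n1 * p2, ?_⟩
      rw [map_add, map_mul, map_mul, map_pow, map_pow, evCδ, ← h1, ← h2]
      ring
    | mul a b _ _ ha hb =>
      obtain ⟨n1, p1, h1⟩ := ha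
      obtain ⟨n2, p2, h2⟩ := hb
      refine ⟨n1 + n2, p1 * p2, ?_⟩
      rw [map_mul, ← h1, ← h2]
      ring
    | neg a _ ha =>
      obtain ⟨n1, p1, h1⟩ := ha
      refine ⟨n1, -p1, ?_⟩
      rw [map_neg, ← h1]
      ring
  have int : ∀ c ∈ C', (eval₂RingHom S.subtype t).IsIntegralElem c := by
    intro c hc
    induction hc using Subring.closure_induction with
    | mem x hx =>
      have hS : x ∈ S → (eval₂RingHom S.subtype t).IsIntegralElem x := by
        intro hx
        have h1 : eval₂RingHom S.subtype t (C ⟨x, hx⟩) = x := by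
          rw [coe_eval₂RingHom, eval₂_C]
          rfl
        have h2 := RingHom.isIntegralElem_map (f := eval₂RingHom S.subtype t) (x := C ⟨x, hx⟩)
        rw [h1] at h2
        exact h2
      rw [Finset.mem_coe] at hx
      rcases Finset.mem_union.mp hx with hx | hx
      · exact hS (Subring.subset_closure (Finset.mem_coe.mpr hx))
      · rcases Finset.mem_union.mp hx with hx | hx
        · rcases Finset.mem_insert.mp hx with rfl | hx
          · have h1 : eval₂RingHom S.subtype x X = x := by
              rw [coe_eval₂RingHom, eval₂_X]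
            have h2 := RingHom.isIntegralElem_map (f := eval₂RingHom S.subtype x) (x := X)
            rw [h1] at h2
            exact h2
          · rw [Finset.mem_singleton] at hx
            subst hx
            refine ⟨Φ', monic_of_injective hi2 (by rw [hΦ']; exact hm), ?_⟩
            have := ev Φ' x
            rw [hΦ', hr] at this
            exact this
        · obtain ⟨χ', hχ'⟩ := lft (χ x) (s4 x hx)
          refine ⟨χ', monic_of_injective hi2 (by rw [hχ']; exact hχm x hx), ?_⟩
          have := ev χ' x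
          rw [hχ', hχ x hx] at this
          exact this
    | zero => exact RingHom.isIntegralElem_zero _
    | one => exact RingHom.isIntegralElem_one _
    | add a b _ _ ha hb => exact ha.add _ hb
    | mul a b _ _ ha hb => exact ha.mul _ hb
    | neg a _ ha => exact ha.neg _
  refine ⟨C', hT, ft_closure V, ⟨?_⟩⟩
  exact
    { S := S
      le := hle
      t := ⟨t, ht⟩
      θ := ⟨θ, hθ⟩
      Φ := Φ'
      δ := δ'
      monic := monic_of_injective hi2 (by rw [hΦ']; exact hm)
      pos := by
        rw [← natDegree_map_eq_of_injective hi2 Φ', hΦ']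
        exact hp
      root := by
        apply Subtype.ext
        rw [evC, ev, hΦ', hr]
        rfl
      ker := by
        intro p h
        have h1 : ev2 (algebraMap F K) t θ (p.map (mapRingHom i)) = 0 := by
          rw [← ev]
          have h2 := evC ⟨θ, hθ⟩ p
          rw [h] at h2
          exact h2.symm
        have h3 := hk _ h1
        rw [← hΦ'] at h3
        exact (map_dvd_map (mapRingHom i) hi2
          (monic_of_injective hi2 (by rw [hΦ']; exact hm))).mp h3
      δ_ne := by
        intro h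
        apply hδ
        rw [← hδe, ← ev1C, h]
        rfl
      gen := by
        intro c
        obtain ⟨n, p, h⟩ := gen c.1 c.2
        refine ⟨n, p, ?_⟩
        apply Subtype.ext
        rw [evC]
        show ((δ'.eval₂ (Subring.inclusion hle) (⟨t, ht⟩ : C') : C') : K) ^ n * (c : K) = _
        rw [ev1C, h]
      int := by
        intro c
        obtain ⟨p, h1, h2⟩ := int c.1 c.2
        refine ⟨p, h1, ?_⟩
        apply Subtype.ext
        rw [evC]
        exact h2
      alg := by
        refine ⟨y, fun r => ?_⟩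
        have hr' : (r : K) ∈ IntermediateField.adjoin ℚ (Set.range y) := by
          rw [← hF]
          exact hSF r.1 r.2
        exact isAlgebraic_algebraMap
          (⟨(r : K), hr'⟩ : IntermediateField.adjoin ℚ (Set.range y)) }

private theorem rank_le {K : Type} [Field K] [CharZero K] {s m : ℕ} (y : Fin s → K)
    (x : Fin m → K) (hy : AlgebraicIndependent ℚ y)
    (h : ∀ j, IsAlgebraic (IntermediateField.adjoin ℚ (Set.range x)) (y j)) : s ≤ m := by
  have h1 : (AlgebraicIndependent.matroid ℚ K).Indep (Set.range y) := by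
    rw [AlgebraicIndependent.matroid_indep_iff]
    exact AlgebraicIndependent.coe_range hy
  have h2 : Set.range y ⊆ (AlgebraicIndependent.matroid ℚ K).closure (Set.range x) := by
    rw [AlgebraicIndependent.matroid_closure_eq]
    rintro _ ⟨j, rfl⟩
    open scoped IntermediateField.algebraAdjoinAdjoin in
    exact (IsFractionRing.isAlgebraic_iff (Algebra.adjoin ℚ (Set.range x))
      (IntermediateField.adjoin ℚ (Set.range x)) K).mpr (h j)
  have h3 := h1.encard_le_eRk_of_subset h2
  rw [Matroid.eRk_closure_eq] at h3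
  have h4 := h3.trans (Matroid.eRk_le_encard _ _)
  have h5 : (Set.range y).encard = s := by
    rw [← Set.image_univ, hy.injective.encard_image, Set.encard_univ]
    simp
  have h6 : (Set.range x).encard ≤ m := by
    rw [← Set.image_univ]
    refine (Set.encard_image_le x Set.univ).trans ?_
    rw [Set.encard_univ]
    simp
  rw [h5] at h4
  exact_mod_cast h4.trans h6

private theorem transc {K : Type} [Field K] [CharZero K] {s : ℕ} (y : Fin (s + 1) → K)
    (hy : AlgebraicIndependent ℚ y) (p : (IntermediateField.adjoin ℚ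
      (Set.range fun j : Fin s => y j.castSucc))[X])
    (hp : p.eval₂ (algebraMap (IntermediateField.adjoin ℚ
      (Set.range fun j : Fin s => y j.castSucc)) K) (y (Fin.last s)) = 0) : p = 0 := by
  have h1 : Transcendental (Algebra.adjoin ℚ (y '' Set.range (Fin.castSucc : Fin s → Fin (s + 1))))
      (y (Fin.last s)) := hy.transcendental_adjoin (by
    rintro ⟨j, hj⟩
    exact (Fin.castSucc_lt_last j).ne hj)
  rw [← Set.range_comp] at h1
  by_contra hp0
  apply h1
  open scoped IntermediateField.algebraAdjoinAdjoin in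
  exact (IsFractionRing.isAlgebraic_iff (Algebra.adjoin ℚ
    (Set.range fun j : Fin s => y j.castSucc)) (IntermediateField.adjoin ℚ
    (Set.range fun j : Fin s => y j.castSucc)) K).mpr ⟨p, hp0, hp⟩

theorem exists_CD {K : Type} [Field K] [CharZero K] {R : Type} [CommRing R]
    [Algebra.FiniteType ℤ R] (φ : R →+* K) {m : ℕ} (hm : AlgLE φ m) :
    (∀ r, IsAlgebraic ℚ (φ r)) ∨ ∃ (m' : ℕ) (C : Subring K), m' < m ∧ φ.range ≤ C ∧
      Algebra.FiniteType ℤ C ∧ Nonempty (CD C m') := by
  classical
  obtain ⟨x, hx⟩ := hm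
  obtain ⟨G, hG⟩ := (Algebra.FiniteType.out : (⊤ : Subalgebra ℤ R).FG)
  let T : Finset K := G.image φ
  have hTR : ∀ τ ∈ T, ∃ r, φ r = τ := by
    intro τ hτ
    obtain ⟨r, _, hr⟩ := Finset.mem_image.mp hτ
    exact ⟨r, hr⟩
  have hRT : ∀ r : R, φ r ∈ Subring.closure (T : Set K) := by
    intro r
    have hr : r ∈ Algebra.adjoin ℤ (G : Set R) := by
      rw [hG]
      exact Algebra.mem_top
    induction hr using Algebra.adjoin_induction with
    | mem a ha => exact Subring.subset_closure (Finset.mem_coe.mpr (Finset.mem_image_of_mem φ ha))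
    | algebraMap n =>
      rw [algebraMap_int_eq, eq_intCast, map_intCast]
      exact intCast_mem _ n
    | add a b _ _ ha hb =>
      rw [map_add]
      exact add_mem ha hb
    | mul a b _ _ ha hb =>
      rw [map_mul]
      exact mul_mem ha hb
  let A : Subalgebra ℚ K := Algebra.adjoin ℚ (T : Set K)
  have hRA : ∀ r : R, φ r ∈ A := by
    intro r
    have : Subring.closure (T : Set K) ≤ A.toSubring :=
      Subring.closure_le.mpr Algebra.subset_adjoin
    exact this (hRT r)
  have hTA : ∀ τ ∈ T, τ ∈ A := fun τ hτ => Algebra.subset_adjoin (Finset.mem_coe.mpr hτ)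
  have ftA : Algebra.FiniteType ℚ A := Subalgebra.fg_iff_finiteType _ |>.mp
    (Subalgebra.fg_adjoin_finset T)
  have hAx : ∀ a ∈ A, IsAlgebraic (IntermediateField.adjoin ℚ (Set.range x)) a := by
    intro a ha
    induction ha using Algebra.adjoin_induction with
    | mem τ hτ =>
      obtain ⟨r, hr⟩ := hTR τ hτ
      rw [← hr]
      exact hx r
    | algebraMap q =>
      exact isAlgebraic_algebraMap (algebraMap ℚ (IntermediateField.adjoin ℚ (Set.range x)) q)
    | add a b _ _ ha hb => exact ha.add hb
    | mul a b _ _ ha hb => exact ha.mul hb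
  obtain ⟨s, g, ginj, gint⟩ := exists_integral_inj_algHom_of_fg ℚ A
  let y : Fin s → K := fun j => (g (MvPolynomial.X j) : K)
  have hyg : ∀ p, MvPolynomial.aeval y p = (g p : K) := by
    intro p
    have : MvPolynomial.aeval y = A.val.comp g := by
      apply MvPolynomial.algHom_ext
      intro j
      rw [MvPolynomial.aeval_X]
      rfl
    rw [this]
    rfl
  have hy : AlgebraicIndependent ℚ y := by
    intro p q h
    rw [hyg, hyg] at h
    exact ginj (Subtype.ext h)
  have hsm : s ≤ m := rank_le y x hy fun j => hAx _ (g (MvPolynomial.X j)).2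
  rcases Nat.eq_zero_or_pos s with h0 | h0
  · left
    subst h0
    intro r
    obtain ⟨χ, h1, h2⟩ := gint ⟨φ r, hRA r⟩
    let e := MvPolynomial.isEmptyAlgEquiv ℚ (Fin 0)
    have hge : ∀ p, (g p : K) = algebraMap ℚ K (e p) := by
      intro p
      have h3 : g p = algebraMap ℚ A (e p) := by
        have h4 := ((g : MvPolynomial (Fin 0) ℚ →ₐ[ℚ] A).comp e.symm.toAlgHom).commutes (e p)
        have h5 : ((g : MvPolynomial (Fin 0) ℚ →ₐ[ℚ] A).comp e.symm.toAlgHom)
            (algebraMap ℚ ℚ (e p)) = g p := by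
          show g (e.symm (e p)) = g p
          rw [AlgEquiv.symm_apply_apply]
        rw [← h5, h4]
      rw [h3]
      rfl
    have h6 : IsIntegral ℚ (φ r) := by
      refine ⟨χ.map (e : MvPolynomial (Fin 0) ℚ →+* ℚ), h1.map _, ?_⟩
      rw [eval₂_map]
      have h7 : (algebraMap ℚ K).comp (e : MvPolynomial (Fin 0) ℚ →+* ℚ) =
          (A.val : A →+* K).comp (g : MvPolynomial (Fin 0) ℚ →+* A) :=
        RingHom.ext fun p => (hge p).symm
      rw [h7]
      have h8 := congrArg (A.val : A →+* K) h2
      rw [hom_eval₂, map_zero] at h8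
      exact h8
    exact h6.isAlgebraic
  · right
    obtain ⟨s', rfl⟩ : ∃ s', s = s' + 1 := ⟨s - 1, by omega⟩
    let y' : Fin s' → K := fun j => y j.castSucc
    let F : IntermediateField ℚ K := IntermediateField.adjoin ℚ (Set.range y')
    let t : K := y (Fin.last s')
    have htr : ∀ p : F[X], p.eval₂ (algebraMap F K) t = 0 → p = 0 := fun p hp => transc y hy p hp
    have hyF : ∀ j, y' j ∈ F := fun j => IntermediateField.subset_adjoin ℚ _ ⟨j, rfl⟩
    let hh : MvPolynomial (Fin (s' + 1)) ℚ →ₐ[ℚ] F[X] :=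
      MvPolynomial.aeval (Fin.snoc (fun j : Fin s' => (C ⟨y' j, hyF j⟩ : F[X])) X :
        Fin (s' + 1) → F[X])
    have hhg : (eval₂RingHom (algebraMap F K) t).comp (hh : MvPolynomial (Fin (s' + 1)) ℚ →+* F[X]) =
        (A.val : A →+* K).comp (g : MvPolynomial (Fin (s' + 1)) ℚ →+* A) := by
      apply MvPolynomial.ringHom_ext
      · intro q
        have e1 : ((eval₂RingHom (algebraMap F K) t).comp
            (hh : MvPolynomial (Fin (s' + 1)) ℚ →+* F[X])).comp MvPolynomial.C =
            ((A.val : A →+* K).comp (g : MvPolynomial (Fin (s' + 1)) ℚ →+* A)).comp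
              MvPolynomial.C := Subsingleton.elim _ _
        exact RingHom.congr_fun e1 q
      · intro j
        show (hh (MvPolynomial.X j)).eval₂ (algebraMap F K) t = (g (MvPolynomial.X j) : K)
        have e2 : hh (MvPolynomial.X j) = (Fin.snoc (fun j : Fin s' => (C ⟨y' j, hyF j⟩ : F[X])) X :
            Fin (s' + 1) → F[X]) j := MvPolynomial.aeval_X _ _
        rw [e2]
        refine Fin.lastCases ?_ (fun j => ?_) j
        · rw [Fin.snoc_last, eval₂_X]
        · rw [Fin.snoc_castSucc, eval₂_C]
          rfl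
    have hT : ∀ τ ∈ T, ∃ χ : F[X][X], χ.Monic ∧ ev2 (algebraMap F K) t τ χ = 0 := by
      intro τ hτ
      obtain ⟨χ, h1, h2⟩ := gint ⟨τ, hTA τ hτ⟩
      refine ⟨χ.map (hh : MvPolynomial (Fin (s' + 1)) ℚ →+* F[X]), h1.map _, ?_⟩
      unfold ev2
      rw [coe_eval₂RingHom, eval₂_map, hhg]
      have h8 := congrArg (A.val : A →+* K) h2
      rw [hom_eval₂, map_zero] at h8
      exact h8
    obtain ⟨θ, Φ, δ, b1, b2, b3, b4, b5, b6⟩ := partB t T htr hT
    obtain ⟨C', c1, c2, c3⟩ := partC F t θ T Φ δ b1 b2 b3 b4 (fun h => b5 (htr δ h)) b6 hT y' rfl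
    refine ⟨s', C', by omega, ?_, c2, c3⟩
    rintro _ ⟨r, rfl⟩
    exact (Subring.closure_le.mpr c1) (hRT r)

end Pool.Agent.LGF
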