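import Mathlib

/-!
# Specialisation of the coordinate ring of a curve

`ev2 f t θ p` is the value of `p ∈ S[X][Y]` at `(t, θ)`.

MODULE LGF-ExH: the map is first defined with values in the fraction field, integrality gives values in `O`.
-/

noncomputable section

namespace Pool.Agent.LGF

open Polynomial

/-- The value of `p ∈ S[X][Y]` at `(t, θ)`. -/
def ev2 {S C : Type} [CommRing S] [CommRing C] (f : S →+* C) (t θ : C) : S[X][X] →+* C :=
  eval₂RingHom (eval₂RingHom f t) θ

theorem exists_spec {S C O : Type} [CommRing S] [CommRing C] [IsDomain C] [CommRing O] [IsDomain O]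
    [IsIntegrallyClosed O] (f : S →+* C) (t θ : C) (Φ : S[X][X]) (δ : S[X])
    (hker : ∀ p, ev2 f t θ p = 0 → Φ ∣ p) (hδ : δ.eval₂ f t ≠ 0)
    (hC : ∀ c : C, ∃ (n : ℕ) (p : S[X][X]), δ.eval₂ f t ^ n * c = ev2 f t θ p)
    (hint : ∀ c : C, ∃ χ : S[X][X], χ.Monic ∧ ev2 f t c χ = 0)
    (f' : S →+* O) (t' θ' : O) (hΦ : ev2 f' t' θ' Φ = 0) (hδ' : δ.eval₂ f' t' ≠ 0) :
    ∃ h : C →+* O, h.comp f = f' ∧ h t = t' ∧ h θ = θ' := by
  classical
  obtain ⟨L, hL1, hL2, hL3⟩ : ∃ (L : Type) (_ : Field L) (_ : Algebra O L), IsFractionRing O L :=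
    ⟨FractionRing O, inferInstance, inferInstance, inferInstance⟩
  have hker' : ∀ p, ev2 f t θ p = 0 → ev2 f' t' θ' p = 0 := by
    intro p hp
    obtain ⟨q, rfl⟩ := hker p hp
    rw [map_mul, hΦ, zero_mul]
  have heq : ∀ p q, ev2 f t θ p = ev2 f t θ q → ev2 f' t' θ' p = ev2 f' t' θ' q := by
    intro p q h
    have := hker' (p - q) (by rw [map_sub, h, sub_self])
    rw [map_sub] at this
    exact sub_eq_zero.mp this
  have hCδ : ev2 f t θ (Polynomial.C δ) = δ.eval₂ f t := by simp [ev2]
  have hCδ' : ev2 f' t' θ' (Polynomial.C δ) = δ.eval₂ f' t' := by simp [ev2]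
  have hinj : Function.Injective (algebraMap O L) := IsFractionRing.injective O L
  choose n p hp using hC
  have hd' : algebraMap O L (δ.eval₂ f' t') ≠ 0 := by
    intro h
    apply hδ'
    apply hinj
    rw [h, map_zero]
  obtain ⟨g, hg⟩ : ∃ g : C → L, ∀ c, g c = algebraMap O L (ev2 f' t' θ' (p c)) /
      (algebraMap O L (δ.eval₂ f' t')) ^ (n c) := ⟨_, fun _ => rfl⟩
  have key : ∀ (c : C) (m : ℕ) (q : S[X][X]), δ.eval₂ f t ^ m * c = ev2 f t θ q →
      g c * (algebraMap O L (δ.eval₂ f' t')) ^ m = algebraMap O L (ev2 f' t' θ' q) := by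
    intro c m q h
    have h1 : ev2 f t θ (Polynomial.C δ ^ m * p c) = ev2 f t θ (Polynomial.C δ ^ (n c) * q) := by
      rw [map_mul, map_mul, map_pow, map_pow, hCδ, ← hp c, ← h]
      ring
    have h2 := heq _ _ h1
    rw [map_mul, map_mul, map_pow, map_pow, hCδ'] at h2
    have h3 := congrArg (algebraMap O L) h2
    rw [map_mul, map_mul, map_pow, map_pow] at h3
    rw [hg, div_mul_eq_mul_div, div_eq_iff (pow_ne_zero _ hd')]
    linear_combination h3
  have g_one : g 1 = 1 := by
    have := key 1 0 1 (by rw [map_one, pow_zero, mul_one])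
    rwa [pow_zero, mul_one, map_one, map_one] at this
  have g_zero : g 0 = 0 := by
    have := key 0 0 0 (by rw [map_zero, mul_zero])
    rwa [pow_zero, mul_one, map_zero, map_zero] at this
  have g_mul : ∀ x y, g (x * y) = g x * g y := by
    intro x y
    have := key (x * y) (n x + n y) (p x * p y) (by rw [map_mul, ← hp x, ← hp y]; ring)
    rw [map_mul, map_mul, ← key x (n x) (p x) (hp x), ← key y (n y) (p y) (hp y)] at this
    apply mul_right_cancel₀ (pow_ne_zero (n x + n y) hd')
    rw [this]
    ring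
  have g_add : ∀ x y, g (x + y) = g x + g y := by
    intro x y
    have := key (x + y) (n x + n y) (Polynomial.C δ ^ (n y) * p x + Polynomial.C δ ^ (n x) * p y) (by
      rw [map_add, map_mul, map_mul, map_pow, map_pow, hCδ, ← hp x, ← hp y]; ring)
    rw [map_add, map_mul, map_mul, map_pow, map_pow, hCδ', map_add, map_mul, map_mul, map_pow, map_pow,
      ← key x (n x) (p x) (hp x), ← key y (n y) (p y) (hp y)] at this
    apply mul_right_cancel₀ (pow_ne_zero (n x + n y) hd')
    rw [this]
    ring
  obtain ⟨G, hG⟩ : ∃ G : C →+* L, ∀ c, G c = g c :=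
    ⟨{ toFun := g, map_one' := g_one, map_mul' := g_mul, map_zero' := g_zero, map_add' := g_add },
      fun _ => rfl⟩
  have hGf : ∀ s, G (f s) = algebraMap O L (f' s) := by
    intro s
    have := key (f s) 0 (Polynomial.C (Polynomial.C s)) (by simp [ev2])
    rw [hG]
    simpa [ev2] using this
  have hGt : G t = algebraMap O L t' := by
    have := key t 0 (Polynomial.C X) (by simp [ev2])
    rw [hG]
    simpa [ev2] using this
  have hGθ : G θ = algebraMap O L θ' := by
    have := key θ 0 X (by simp [ev2])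
    rw [hG]
    simpa [ev2] using this
  have hint' : ∀ c, ∃ y, algebraMap O L y = G c := by
    intro c
    obtain ⟨χ, hχ, h0⟩ := hint c
    apply (IsIntegrallyClosed.isIntegral_iff (R := O) (K := L)).mp
    refine ⟨χ.map (eval₂RingHom f' t'), hχ.map _, ?_⟩
    have hcomp : (algebraMap O L).comp (eval₂RingHom f' t') = G.comp (eval₂RingHom f t) := by
      apply Polynomial.ringHom_ext
      · intro s
        simp [hGf]
      · simp [hGt]
    have h1 : eval₂ (eval₂RingHom f t) c χ = 0 := h0
    rw [Polynomial.eval₂_map, hcomp, ← Polynomial.hom_eval₂, h1, map_zero]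
  choose y hy using hint'
  refine ⟨{ toFun := y
            map_one' := hinj (by rw [hy, map_one, map_one])
            map_mul' := fun a b => hinj (by rw [hy, map_mul, map_mul, hy, hy])
            map_zero' := hinj (by rw [hy, map_zero, map_zero])
            map_add' := fun a b => hinj (by rw [hy, map_add, map_add, hy, hy]) }, ?_, ?_, ?_⟩
  · ext s
    show y (f s) = f' s
    apply hinj
    rw [hy, hGf]
  · show y t = t'
    apply hinj
    rw [hy, hGt]
  · show y θ = θ'
    apply hinj
    rw [hy, hGθ]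

end Pool.Agent.LGF
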