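import Mathlib

/-!
# A monic irreducible factor through a given point, with bounded weights

MODULE LGF-Fac: unique factorisation in `k[X][Y]` and multiplicativity of the weighted degree.
-/

noncomputable section

namespace Pool.Agent.LGF

open Polynomial

private theorem lead {k : Type} [Field k] (e : ℕ) (p : k[X][X]) (hp : p ≠ 0) : ∃ A j : ℕ, p.coeff j ≠ 0 ∧
    (p.coeff j).natDegree + e * j = A ∧ (∀ i, p.coeff i ≠ 0 → (p.coeff i).natDegree + e * i ≤ A) ∧
    (∀ i, p.coeff i ≠ 0 → j < i → (p.coeff i).natDegree + e * i < A) := by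
  classical
  obtain ⟨j0, hj0, hmax⟩ := p.support.exists_max_image (fun j => (p.coeff j).natDegree + e * j)
    (support_nonempty.mpr hp)
  obtain ⟨j, hj, hjm⟩ := (p.support.filter (fun j => (p.coeff j).natDegree + e * j =
    (p.coeff j0).natDegree + e * j0)).exists_max_image id ⟨j0, Finset.mem_filter.mpr ⟨hj0, rfl⟩⟩
  obtain ⟨hj1, hj2⟩ := Finset.mem_filter.mp hj
  refine ⟨(p.coeff j0).natDegree + e * j0, j, mem_support_iff.mp hj1, hj2, ?_, ?_⟩
  · intro i hi
    exact hmax i (mem_support_iff.mpr hi)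
  · intro i hi hji
    have h1 := hmax i (mem_support_iff.mpr hi)
    rcases h1.lt_or_eq with h2 | h2
    · exact h2
    · exfalso
      have h3 := hjm i (Finset.mem_filter.mpr ⟨mem_support_iff.mpr hi, h2⟩)
      simp only [id] at h3
      omega

private theorem mul_lead {k : Type} [Field k] (e : ℕ) (p q : k[X][X]) (A B i j : ℕ) (hj : p.coeff j ≠ 0)
    (hi : q.coeff i ≠ 0) (hA : (p.coeff j).natDegree + e * j = A) (hB : (q.coeff i).natDegree + e * i = B)
    (hA1 : ∀ x, p.coeff x ≠ 0 → (p.coeff x).natDegree + e * x ≤ A)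
    (hA2 : ∀ x, p.coeff x ≠ 0 → j < x → (p.coeff x).natDegree + e * x < A)
    (hB1 : ∀ x, q.coeff x ≠ 0 → (q.coeff x).natDegree + e * x ≤ B)
    (hB2 : ∀ x, q.coeff x ≠ 0 → i < x → (q.coeff x).natDegree + e * x < B) :
    ((p * q).coeff (j + i)).coeff ((p.coeff j).natDegree + (q.coeff i).natDegree) ≠ 0 := by
  rw [coeff_mul, finsetSum_coeff, Finset.sum_eq_single (j, i)]
  · rw [coeff_mul_degree_add_degree]
    exact mul_ne_zero (leadingCoeff_ne_zero.mpr hj) (leadingCoeff_ne_zero.mpr hi)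
  · rintro ⟨x, y⟩ hxy hne
    have hs : x + y = j + i := Finset.HasAntidiagonal.mem_antidiagonal.mp hxy
    by_cases hx : p.coeff x = 0
    · simp [hx]
    by_cases hy : q.coeff y = 0
    · simp [hy]
    apply coeff_eq_zero_of_natDegree_lt
    refine lt_of_le_of_lt natDegree_mul_le ?_
    have he : e * x + e * y = e * j + e * i := by rw [← mul_add, ← mul_add, hs]
    have h1 := hA1 x hx
    have h2 := hB1 y hy
    rcases lt_trichotomy x j with h | h | h
    · have h3 := hB2 y hy (by omega)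
      simp only
      omega
    · exfalso
      apply hne
      rw [h] at hs ⊢
      have : y = i := by omega
      rw [this]
    · have h3 := hA2 x hx h
      simp only
      omega
  · intro h
    exact (h (Finset.HasAntidiagonal.mem_antidiagonal.mpr rfl)).elim

theorem exists_factor {k : Type} [Field k] (Φ : k[X][X]) (hΦ : Φ.Monic) (D e : ℕ)
    (hD : Φ.natDegree = D) (hD0 : 0 < D) (hw : ∀ j, (Φ.coeff j).natDegree ≤ e * (D - j)) (t₀ θ₀ : k)
    (h₀ : (Φ.map (evalRingHom t₀)).eval θ₀ = 0) :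
    ∃ Ψ : k[X][X], Ψ.Monic ∧ Irreducible Ψ ∧ Ψ ∣ Φ ∧ 0 < Ψ.natDegree ∧ Ψ.natDegree ≤ D ∧
      (∀ j, (Ψ.coeff j).natDegree ≤ e * (Ψ.natDegree - j)) ∧
      (Ψ.map (evalRingHom t₀)).eval θ₀ = 0 := by
  classical
  have hΦ0 : Φ ≠ 0 := hΦ.ne_zero
  obtain ⟨F, hF, hFu⟩ := UniqueFactorizationMonoid.exists_prime_factors Φ hΦ0
  obtain ⟨ev, hev⟩ : ∃ ev : k[X][X] →+* k, ∀ p, ev p = (p.map (evalRingHom t₀)).eval θ₀ :=
    ⟨(evalRingHom θ₀).comp (mapRingHom (evalRingHom t₀)), fun p => rfl⟩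
  have h1 : ev F.prod = 0 := by
    obtain ⟨u, hu⟩ := hFu.symm
    rw [← hu, map_mul, hev Φ, h₀, zero_mul]
  rw [map_multiset_prod, Multiset.prod_eq_zero_iff, Multiset.mem_map] at h1
  obtain ⟨q, hqF, hq0⟩ := h1
  have hqp : Prime q := hF q hqF
  have hqd : q ∣ Φ := (Multiset.dvd_prod hqF).trans hFu.dvd
  obtain ⟨q', hq'⟩ := hqd
  have hlc : q.leadingCoeff * q'.leadingCoeff = 1 := by
    rw [← leadingCoeff_mul, ← hq']
    exact hΦ
  have hlc' : q'.leadingCoeff * q.leadingCoeff = 1 := by rw [mul_comm]; exact hlc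
  have hΨm : (C q'.leadingCoeff * q).Monic := by
    unfold Monic
    rw [leadingCoeff_mul, leadingCoeff_C, hlc']
  have hΨm' : (C q.leadingCoeff * q').Monic := by
    unfold Monic
    rw [leadingCoeff_mul, leadingCoeff_C, hlc]
  have hprod : Φ = (C q'.leadingCoeff * q) * (C q.leadingCoeff * q') := by
    calc Φ = q * q' := hq'
      _ = C (q.leadingCoeff * q'.leadingCoeff) * (q * q') := by rw [hlc, C_1, one_mul]
      _ = _ := by rw [C_mul]; ring
  have hunit : IsUnit (C q'.leadingCoeff : k[X][X]) :=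
    IsUnit.map C (IsUnit.of_mul_eq_one _ hlc')
  have hirr : Irreducible (C q'.leadingCoeff * q) :=
    (irreducible_isUnit_mul hunit).mpr hqp.irreducible
  obtain ⟨Ψ, hΨ⟩ : ∃ Ψ, Ψ = C q'.leadingCoeff * q := ⟨_, rfl⟩
  obtain ⟨Ψ', hΨ'⟩ : ∃ Ψ', Ψ' = C q.leadingCoeff * q' := ⟨_, rfl⟩
  have hΨev : ev Ψ = 0 := by rw [hΨ, map_mul, hq0, mul_zero]
  rw [← hΨ] at hΨm hprod hirr
  rw [← hΨ'] at hΨm' hprod
  have hdeg : Ψ.natDegree + Ψ'.natDegree = D := by
    rw [← hD, hprod, hΨm.natDegree_mul hΨm']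
  refine ⟨Ψ, hΨm, hirr, ⟨Ψ', hprod⟩, ?_, by omega, ?_, by rw [← hev]; exact hΨev⟩
  · rcases Nat.eq_zero_or_pos Ψ.natDegree with h | h
    · exfalso
      have := hΨm.natDegree_eq_zero.mp h
      rw [this] at hirr
      exact hirr.not_isUnit isUnit_one
    · exact h
  · obtain ⟨A, j, hj, hA, hA1, hA2⟩ := lead e Ψ hΨm.ne_zero
    obtain ⟨B, i, hi, hB, hB1, hB2⟩ := lead e Ψ' hΨm'.ne_zero
    have h2 := mul_lead e Ψ Ψ' A B i j hj hi hA hB hA1 hA2 hB1 hB2
    rw [← hprod] at h2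
    have h3 := le_natDegree_of_ne_zero h2
    have h4 : Φ.coeff (j + i) ≠ 0 := by
      intro h
      rw [h, coeff_zero] at h2
      exact h2 rfl
    have h5 : j + i ≤ D := by
      rw [← hD]
      exact le_natDegree_of_ne_zero h4
    have h6 := hw (j + i)
    have h7 : e * (D - (j + i)) + e * (j + i) = e * D := by
      rw [← mul_add, Nat.sub_add_cancel h5]
    have h8 : A + B ≤ e * D := by
      have : e * (j + i) = e * j + e * i := mul_add _ _ _
      omega
    have h9 : e * Ψ'.natDegree ≤ B := by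
      have h10 : Ψ'.coeff Ψ'.natDegree = 1 := hΨm'
      have h11 := hB1 Ψ'.natDegree (by rw [h10]; exact one_ne_zero)
      omega
    have h12 : e * D = e * Ψ.natDegree + e * Ψ'.natDegree := by rw [← hdeg, mul_add]
    intro x
    by_cases hx : Ψ.coeff x = 0
    · rw [hx, natDegree_zero]
      exact Nat.zero_le _
    · have h13 := hA1 x hx
      rw [Nat.mul_sub]
      omega

end Pool.Agent.LGF
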