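import Pool.Agent.LGF.Asm

/-!
# Families of modules

`V t` is a vector space over `K t` with basis `b t` (indexed by a fixed finite type) on which the ring
`C` acts by `ρ t`. `famCls b ρ z` is the class over `∏ K t` obtained from the class `z` over `C`.

MODULE LGF-Fam. PLAN.
* `famCls_iso`: equivariant isomorphisms `e t`; conjugating matrices `P`, `Q` over `∏ K t` with entries
  `P i j t = toMatrix (b' t) (b t) ((e t).symm) i j`, `Q i j t = toMatrix (b t) (b' t) (e t) i j`
  (check which order), then `GG.corr_conj`. The index types need not be equal.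
* `famCls_res`: by `map_asm` and `GG.base_corr`, `rfl`-like.
* `famCls_scalar`: if `C` acts on `V t` through a homomorphism `f t : C → K t` then the matrix of `c` is
  scalar: `GG.corr_diagonal` with `f = (c ↦ (f t c)_t)`.
* `famCls_trf`: let `κ t` be a field (or ring) acting: if `ρ t c = μ t (f t c)` with
  `μ t : κ t → End (V t)`, `f t : C → κ t`, then `famCls b ρ z = corr (trf ..) (base (f) z)`:
  `GG.corr_base`.
-/

noncomputable section

namespace Pool.Agent.LGF

open Pool.Agent.GSM Module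

variable {T : Type} {K : T → Type} [∀ t, Field (K t)] {C : Type} [CommRing C]
variable {V : T → Type} [∀ t, AddCommGroup (V t)] [∀ t, Module (K t) (V t)]
variable {V' : T → Type} [∀ t, AddCommGroup (V' t)] [∀ t, Module (K t) (V' t)]
variable {δ ε : Type} [Fintype δ] [DecidableEq δ] [Fintype ε] [DecidableEq ε]
variable {I σ : Type} [DecidableEq I] [DecidableEq σ]

/-- The matrices of the action of `C` on `V t`, assembled. -/
def famMat (b : ∀ t, Basis δ (K t) (V t)) (ρ : ∀ t, C →+* End (K t) (V t)) :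
    C →+* Matrix δ δ (∀ t, K t) :=
  asm fun t => (LinearMap.toMatrixAlgEquiv (b t)).toRingEquiv.toRingHom.comp (ρ t)

/-- The class over `∏ K t` obtained from `z` by the action on the family of modules `V t`. -/
def famCls (b : ∀ t, Basis δ (K t) (V t)) (ρ : ∀ t, C →+* End (K t) (V t)) (z : GG I σ C) :
    GG I σ (∀ t, K t) := GG.corr (famMat b ρ) z

private theorem fam_mul {ζ : Type} [Fintype ζ] (M : Matrix δ ε (∀ t, K t))
    (N : Matrix ε ζ (∀ t, K t)) (i : δ) (j : ζ) (t : T) :
    (M * N) i j t = ((Matrix.of fun i j => M i j t) * (Matrix.of fun i j => N i j t)) i j := by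
  simp [Matrix.mul_apply, Finset.sum_apply]

private theorem fam_one (i j : δ) (t : T) :
    (1 : Matrix δ δ (∀ t, K t)) i j t = (1 : Matrix δ δ (K t)) i j := by
  rw [Matrix.one_apply, Matrix.one_apply]
  split_ifs <;> rfl

private theorem fam_at (b : ∀ t, Basis δ (K t) (V t)) (ρ : ∀ t, C →+* End (K t) (V t)) (c : C)
    (t : T) : (Matrix.of fun i j => famMat b ρ c i j t) = LinearMap.toMatrix (b t) (b t) (ρ t c) := by
  ext i j
  rfl

theorem famCls_iso (b : ∀ t, Basis δ (K t) (V t)) (ρ : ∀ t, C →+* End (K t) (V t))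
    (b' : ∀ t, Basis ε (K t) (V' t)) (ρ' : ∀ t, C →+* End (K t) (V' t))
    (e : ∀ t, V t ≃ₗ[K t] V' t) (he : ∀ t c v, e t (ρ t c v) = ρ' t c (e t v)) (z : GG I σ C) :
    famCls b ρ z = famCls b' ρ' z := by
  let P : Matrix δ ε (∀ t, K t) := Matrix.of fun i j t =>
    LinearMap.toMatrix (b' t) (b t) ((e t).symm : V' t →ₗ[K t] V t) i j
  let Q : Matrix ε δ (∀ t, K t) := Matrix.of fun i j t =>
    LinearMap.toMatrix (b t) (b' t) ((e t) : V t →ₗ[K t] V' t) i j
  have hP : ∀ t, (Matrix.of fun i j => P i j t) =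
      LinearMap.toMatrix (b' t) (b t) ((e t).symm : V' t →ₗ[K t] V t) := fun t => rfl
  have hQ : ∀ t, (Matrix.of fun i j => Q i j t) =
      LinearMap.toMatrix (b t) (b' t) ((e t) : V t →ₗ[K t] V' t) := fun t => rfl
  refine GG.corr_conj _ _ P Q ?_ ?_ ?_ z
  · ext i j t
    rw [fam_mul, fam_one, hP, hQ, ← LinearMap.toMatrix_comp (b t) (b' t) (b t)]
    have : ((e t).symm : V' t →ₗ[K t] V t) ∘ₗ ((e t) : V t →ₗ[K t] V' t) = LinearMap.id := by
      ext v
      simp
    rw [this, LinearMap.toMatrix_id]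
  · ext i j t
    rw [fam_mul, fam_one, hP, hQ, ← LinearMap.toMatrix_comp (b' t) (b t) (b' t)]
    have : ((e t) : V t →ₗ[K t] V' t) ∘ₗ ((e t).symm : V' t →ₗ[K t] V t) = LinearMap.id := by
      ext v
      simp
    rw [this, LinearMap.toMatrix_id]
  · intro c
    ext i j t
    rw [fam_mul, fam_mul, hP, fam_at, fam_at, ← LinearMap.toMatrix_comp (b' t) (b t) (b t),
      ← LinearMap.toMatrix_comp (b' t) (b' t) (b t)]
    have h3 : ρ t c ∘ₗ ((e t).symm : V' t →ₗ[K t] V t) =
        ((e t).symm : V' t →ₗ[K t] V t) ∘ₗ ρ' t c := by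
      refine LinearMap.ext fun v => ?_
      have h1 := he t c ((e t).symm v)
      rw [LinearEquiv.apply_symm_apply] at h1
      simp only [LinearMap.comp_apply, LinearEquiv.coe_coe]
      rw [← h1, LinearEquiv.symm_apply_apply]
    rw [h3]

theorem famCls_res {T' : Type} (φ : T' → T) (b : ∀ t, Basis δ (K t) (V t))
    (ρ : ∀ t, C →+* End (K t) (V t)) (z : GG I σ C) :
    GG.base (res K φ) (famCls b ρ z) = famCls (K := fun s => K (φ s)) (V := fun s => V (φ s))
      (fun s => b (φ s)) (fun s => ρ (φ s)) z := by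
  unfold famCls
  rw [GG.base_corr]
  unfold famMat
  rw [map_asm]

theorem famCls_scalar (b : ∀ t, Basis δ (K t) (V t)) (ρ : ∀ t, C →+* End (K t) (V t))
    (f : ∀ t, C →+* K t) (h : ∀ t c v, ρ t c v = f t c • v) (z : GG I σ C) :
    famCls b ρ z = (Fintype.card δ : ℚ) • GG.base (RingHom.pi f) z := by
  refine GG.corr_diagonal _ _ (fun c => ?_) z
  ext i j t
  have h1 : famMat b ρ c i j t = LinearMap.toMatrix (b t) (b t) (ρ t c) i j := rfl
  have h2 : ρ t c = f t c • LinearMap.id := by
    ext v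
    rw [h]
    rfl
  rw [h1, h2, map_smul, LinearMap.toMatrix_id, Matrix.smul_apply, Matrix.one_apply,
    Matrix.diagonal_apply]
  split_ifs
  · simp
  · simp

theorem famCls_trf {κ : T → Type} [∀ t, CommRing (κ t)] (b : ∀ t, Basis δ (K t) (V t))
    (ρ : ∀ t, C →+* End (K t) (V t)) (μ : ∀ t, κ t →+* End (K t) (V t)) (f : ∀ t, C →+* κ t)
    (h : ∀ t c, ρ t c = μ t (f t c)) (z : GG I σ C) :
    famCls b ρ z = GG.corr (asm fun t => ((LinearMap.toMatrixAlgEquiv (b t)).toRingEquiv.toRingHom.comp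
      (μ t)).comp (Pi.evalRingHom κ t)) (GG.base (RingHom.pi f) z) := by
  rw [GG.corr_base]
  unfold famCls
  congr 2
  refine RingHom.ext fun c => ?_
  ext i j t
  show LinearMap.toMatrix (b t) (b t) (ρ t c) i j = LinearMap.toMatrix (b t) (b t) (μ t (f t c)) i j
  rw [h]

theorem famCls_cub (b : ∀ t, Basis δ (K t) (V t)) (ρ : ∀ t, C →+* End (K t) (V t)) {z : GG I σ C}
    (hz : Cub z) : Cub (famCls b ρ z) := hz.corr _

end Pool.Agent.LGF
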