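import Pool.Agent.LGF.Fam

/-!
# Families of exact sequences

MODULE LGF-FamEx. PLAN. For each `t` the images `i t (b₁ t x)` and lifts of the `b₂ t y` along `p t` form
a basis `b' t` of `V t` indexed by `δ₁ ⊕ δ₂` (choose a linear section of `p t`; linear equivalence
`V₁ t × V₂ t ≃ V t`, `Basis.prod`, or `Basis.mk`). In this basis the matrices of `ρ t c` are block upper
triangular `fromBlocks (matrix of ρ₁) (N) 0 (matrix of ρ₂)`. So `famMat b' ρ` is block triangular over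
`∏ K t` and `corr_triangular` (GSM/Tri.lean) applies; compare `famCls b ρ z = famCls b' ρ z` by
`famCls_iso` with `e = refl`.
-/

noncomputable section

namespace Pool.Agent.LGF

open Pool.Agent.GSM Module

variable {T : Type} {K : T → Type} [∀ t, Field (K t)] {C : Type} [CommRing C]
variable {V V₁ V₂ : T → Type} [∀ t, AddCommGroup (V t)] [∀ t, Module (K t) (V t)]
  [∀ t, AddCommGroup (V₁ t)] [∀ t, Module (K t) (V₁ t)]
  [∀ t, AddCommGroup (V₂ t)] [∀ t, Module (K t) (V₂ t)]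
variable {δ δ₁ δ₂ : Type} [Fintype δ] [DecidableEq δ] [Fintype δ₁] [DecidableEq δ₁] [Fintype δ₂]
  [DecidableEq δ₂]
variable {I σ : Type} [DecidableEq I] [DecidableEq σ]

omit [∀ t, AddCommGroup (V t)] [∀ t, Module (K t) (V t)] [∀ t, AddCommGroup (V₁ t)]
  [∀ t, Module (K t) (V₁ t)] [∀ t, AddCommGroup (V₂ t)] [∀ t, Module (K t) (V₂ t)] in
/-- A short exact sequence of vector spaces splits. -/
private theorem famEx_split {k W W₁ W₂ : Type} [Field k] [AddCommGroup W] [Module k W]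
    [AddCommGroup W₁] [Module k W₁] [AddCommGroup W₂] [Module k W₂]
    (i : W₁ →ₗ[k] W) (p : W →ₗ[k] W₂) (hi : Function.Injective i) (hp : Function.Surjective p)
    (hex : LinearMap.range i = LinearMap.ker p) :
    ∃ e : (W₁ × W₂) ≃ₗ[k] W, (∀ x, e (x, 0) = i x) ∧ ∀ v, p (e v) = v.2 := by
  obtain ⟨s, hs⟩ := LinearMap.exists_rightInverse_of_surjective p (LinearMap.range_eq_top.2 hp)
  have hs' : ∀ y, p (s y) = y := fun y => LinearMap.congr_fun hs y
  have hpi : ∀ x, p (i x) = 0 := fun x => by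
    have h : i x ∈ LinearMap.ker p := hex ▸ LinearMap.mem_range_self i x
    exact h
  have hinj : Function.Injective (i.coprod s) := by
    rw [← LinearMap.ker_eq_bot, LinearMap.ker_eq_bot']
    rintro ⟨x, y⟩ hxy
    rw [LinearMap.coprod_apply] at hxy
    have hy : y = 0 := by
      have h := congrArg p hxy
      rwa [map_add, hpi, hs', zero_add, map_zero] at h
    rw [hy, map_zero, add_zero] at hxy
    have hx : x = 0 := hi (by rw [hxy, map_zero])
    rw [hx, hy]
    rfl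
  have hsurj : Function.Surjective (i.coprod s) := by
    intro v
    have h : v - s (p v) ∈ LinearMap.range i := by
      rw [hex, LinearMap.mem_ker, map_sub, hs', sub_self]
    obtain ⟨x, hx⟩ := h
    exact ⟨(x, p v), by rw [LinearMap.coprod_apply, hx, sub_add_cancel]⟩
  have hbij : Function.Bijective (i.coprod s) := ⟨hinj, hsurj⟩
  refine ⟨LinearEquiv.ofBijective (i.coprod s) hbij, fun x => ?_, fun v => ?_⟩
  · rw [LinearEquiv.ofBijective_apply, LinearMap.coprod_apply, map_zero, add_zero]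
  · rw [LinearEquiv.ofBijective_apply, LinearMap.coprod_apply, map_add, hpi, hs', zero_add]

omit [∀ t, AddCommGroup (V t)] [∀ t, Module (K t) (V t)] [∀ t, AddCommGroup (V₁ t)]
  [∀ t, Module (K t) (V₁ t)] [∀ t, AddCommGroup (V₂ t)] [∀ t, Module (K t) (V₂ t)] in
/-- The matrix of an endomorphism respecting an exact sequence is block triangular. -/
private theorem famEx_blocks {k W W₁ W₂ : Type} [Field k] [AddCommGroup W] [Module k W]
    [AddCommGroup W₁] [Module k W₁] [AddCommGroup W₂] [Module k W₂]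
    (b₁ : Basis δ₁ k W₁) (b₂ : Basis δ₂ k W₂) (e : (W₁ × W₂) ≃ₗ[k] W)
    (f : End k W) (f₁ : End k W₁) (f₂ : End k W₂) (h₁ : ∀ x, f (e (x, 0)) = e (f₁ x, 0))
    (h₂ : ∀ v, (e.symm (f (e v))).2 = f₂ v.2) :
    LinearMap.toMatrixAlgEquiv ((b₁.prod b₂).map e) f =
      Matrix.fromBlocks (LinearMap.toMatrixAlgEquiv b₁ f₁)
        (Matrix.of fun i j => b₁.repr (e.symm (f (e (0, b₂ j)))).1 i) 0
        (LinearMap.toMatrixAlgEquiv b₂ f₂) := by
  have hl : ∀ j, (b₁.prod b₂) (Sum.inl j) = (b₁ j, 0) := fun j => by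
    rw [Basis.prod_apply]
    rfl
  have hr : ∀ j, (b₁.prod b₂) (Sum.inr j) = (0, b₂ j) := fun j => by
    rw [Basis.prod_apply]
    rfl
  have hrep : ∀ w, ((b₁.prod b₂).map e).repr w = (b₁.prod b₂).repr (e.symm w) := fun w => rfl
  ext a c
  rw [LinearMap.toMatrixAlgEquiv_apply, hrep, Basis.map_apply]
  rcases a with a | a <;> rcases c with c | c
  · rw [hl, h₁, LinearEquiv.symm_apply_apply, Basis.prod_repr_inl, Matrix.fromBlocks_apply₁₁,
      LinearMap.toMatrixAlgEquiv_apply]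
  · rw [hr, Basis.prod_repr_inl, Matrix.fromBlocks_apply₁₂, Matrix.of_apply]
  · rw [hl, h₁, LinearEquiv.symm_apply_apply, Basis.prod_repr_inr, Matrix.fromBlocks_apply₂₁,
      map_zero]
    rfl
  · rw [hr, Basis.prod_repr_inr, h₂, Matrix.fromBlocks_apply₂₂,
      LinearMap.toMatrixAlgEquiv_apply]

theorem famCls_exact (b : ∀ t, Basis δ (K t) (V t)) (ρ : ∀ t, C →+* End (K t) (V t))
    (b₁ : ∀ t, Basis δ₁ (K t) (V₁ t)) (ρ₁ : ∀ t, C →+* End (K t) (V₁ t))
    (b₂ : ∀ t, Basis δ₂ (K t) (V₂ t)) (ρ₂ : ∀ t, C →+* End (K t) (V₂ t))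
    (i : ∀ t, V₁ t →ₗ[K t] V t) (p : ∀ t, V t →ₗ[K t] V₂ t)
    (hi : ∀ t, Function.Injective (i t)) (hp : ∀ t, Function.Surjective (p t))
    (hex : ∀ t, LinearMap.range (i t) = LinearMap.ker (p t))
    (hic : ∀ t c v, i t (ρ₁ t c v) = ρ t c (i t v)) (hpc : ∀ t c v, p t (ρ t c v) = ρ₂ t c (p t v))
    {z : GG I σ C} (hz : Cub z) :
    Nul (famCls b ρ z - (famCls b₁ ρ₁ z + famCls b₂ ρ₂ z)) := by
  choose e he₁ he₂ using fun t => famEx_split (i t) (p t) (hi t) (hp t) (hex t)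
  have hb : famCls b ρ z = famCls (fun t => ((b₁ t).prod (b₂ t)).map (e t)) ρ z :=
    famCls_iso b ρ _ ρ (fun t => LinearEquiv.refl (K t) (V t)) (fun t c v => rfl) z
  rw [hb]
  refine corr_triangular (famMat (fun t => ((b₁ t).prod (b₂ t)).map (e t)) ρ) (famMat b₁ ρ₁)
    (famMat b₂ ρ₂) (fun c => Matrix.of fun a d t =>
      (b₁ t).repr ((e t).symm (ρ t c (e t (0, b₂ t d)))).1 a) (fun c => ?_) hz
  have hblk : ∀ t, LinearMap.toMatrixAlgEquiv (((b₁ t).prod (b₂ t)).map (e t)) (ρ t c) =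
      Matrix.fromBlocks (LinearMap.toMatrixAlgEquiv (b₁ t) (ρ₁ t c))
        (Matrix.of fun a d => (b₁ t).repr ((e t).symm (ρ t c (e t (0, b₂ t d)))).1 a) 0
        (LinearMap.toMatrixAlgEquiv (b₂ t) (ρ₂ t c)) := fun t =>
    famEx_blocks (b₁ t) (b₂ t) (e t) (ρ t c) (ρ₁ t c) (ρ₂ t c)
      (fun x => by rw [he₁, he₁, hic])
      (fun v => by rw [← he₂ t, LinearEquiv.apply_symm_apply, hpc, he₂])
  ext a d t
  have h1 : famMat (fun t => ((b₁ t).prod (b₂ t)).map (e t)) ρ c a d t =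
      LinearMap.toMatrixAlgEquiv (((b₁ t).prod (b₂ t)).map (e t)) (ρ t c) a d := rfl
  rw [h1, hblk t]
  rcases a with a | a <;> rcases d with d | d <;> rfl

end Pool.Agent.LGF
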