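import Pool.Agent.LGF.Prod

/-!
# Extension of a class from one factor to the product

A tuple `A` of size `r` over `T₁` is extended by identity matrices over `T₂`; the class `[A]` goes to
`[A'] - [triv r]`.
-/

noncomputable section

namespace Pool.Agent.LGF

open Pool.Agent.GSM

variable {T T₁ T₂ : Type} [CommRing T] [CommRing T₁] [CommRing T₂] {f₁ : T →+* T₁} {f₂ : T →+* T₂}

private def pxLM (h : IsProd f₁ f₂) {ι κ : Type} (M : Matrix ι κ T₁) (N : Matrix ι κ T₂) :
    Matrix ι κ T := Matrix.of fun i j => (Equiv.ofBijective _ h).symm (M i j, N i j)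

private theorem px_val (h : IsProd f₁ f₂) (x : T₁ × T₂) :
    (f₁ ((Equiv.ofBijective _ h).symm x), f₂ ((Equiv.ofBijective _ h).symm x)) = x :=
  (Equiv.ofBijective _ h).apply_symm_apply x

private theorem px_f1 (h : IsProd f₁ f₂) {ι κ : Type} (M : Matrix ι κ T₁) (N : Matrix ι κ T₂) :
    (pxLM h M N).map f₁ = M := by
  ext i j
  exact congrArg Prod.fst (px_val h (M i j, N i j))

private theorem px_f2 (h : IsProd f₁ f₂) {ι κ : Type} (M : Matrix ι κ T₁) (N : Matrix ι κ T₂) :
    (pxLM h M N).map f₂ = N := by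
  ext i j
  exact congrArg Prod.snd (px_val h (M i j, N i j))

private theorem px_inj (h : IsProd f₁ f₂) {ι κ : Type} {X Y : Matrix ι κ T}
    (h1 : X.map f₁ = Y.map f₁) (h2 : X.map f₂ = Y.map f₂) : X = Y := by
  ext i j
  refine h.1 (Prod.ext ?_ ?_)
  · exact congrFun (congrFun h1 i) j
  · exact congrFun (congrFun h2 i) j

private theorem px_mul (h : IsProd f₁ f₂) {ι κ ν : Type} [Fintype κ] (M : Matrix ι κ T₁)
    (N : Matrix ι κ T₂) (M' : Matrix κ ν T₁) (N' : Matrix κ ν T₂) :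
    pxLM h M N * pxLM h M' N' = pxLM h (M * M') (N * N') := by
  refine px_inj h ?_ ?_
  · rw [Matrix.map_mul, px_f1, px_f1, px_f1]
  · rw [Matrix.map_mul, px_f2, px_f2, px_f2]

private theorem px_one (h : IsProd f₁ f₂) {ι : Type} [DecidableEq ι] :
    pxLM h (1 : Matrix ι ι T₁) (1 : Matrix ι ι T₂) = 1 := by
  refine px_inj h ?_ ?_
  · rw [px_f1, Matrix.map_one _ (map_zero f₁) (map_one f₁)]
  · rw [px_f2, Matrix.map_one _ (map_zero f₂) (map_one f₂)]

/-- the extended tuple -/
private def pxT (h : IsProd f₁ f₂) {ι σ : Type} [Fintype ι] [DecidableEq ι] (A : Tup ι σ T₁) :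
    Tup ι σ T where
  mat s := pxLM h (A.mat s) 1
  unit s := by
    obtain ⟨b, hb⟩ := (A.unit s).exists_left_inv
    refine (Matrix.isUnit_iff_isUnit_det _).2
      (Matrix.isUnit_det_of_left_inverse (B := pxLM h b 1) ?_)
    rw [px_mul, hb, Matrix.one_mul, px_one]
  comm s t := by
    show pxLM h (A.mat s) 1 * pxLM h (A.mat t) 1 = pxLM h (A.mat t) 1 * pxLM h (A.mat s) 1
    rw [px_mul, px_mul, (A.comm s t).eq]

private theorem px_iso (h : IsProd f₁ f₂) [Nontrivial T₁] {ι κ σ : Type} [Fintype ι]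
    [DecidableEq ι] [Fintype κ] [DecidableEq κ] {A : Tup ι σ T₁} {B : Tup κ σ T₁}
    (hAB : A.Iso B) : (pxT h A).Iso (pxT h B) ∧ (Tup.triv ι σ T).Iso (Tup.triv κ σ T) := by
  obtain ⟨P, Q, h1, h2, h3⟩ := hAB
  have hc : Fintype.card ι = Fintype.card κ := Matrix.square_of_invertible P Q h1 h2
  let e : ι ≃ κ := Fintype.equivOfCardEq hc
  refine ⟨?_, Tup.iso_of_equiv e ?_⟩
  · have k1 : (1 : Matrix ι ι T₂).submatrix id e.symm * (1 : Matrix ι ι T₂).submatrix e.symm id
        = 1 := by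
      rw [Matrix.submatrix_mul_equiv (1 : Matrix ι ι T₂) (1 : Matrix ι ι T₂) id e.symm id,
        Matrix.one_mul, Matrix.submatrix_id_id]
    have k2 : (1 : Matrix ι ι T₂).submatrix e.symm id * (1 : Matrix ι ι T₂).submatrix id e.symm
        = 1 := by
      have h := Matrix.submatrix_mul_equiv (1 : Matrix ι ι T₂) (1 : Matrix ι ι T₂) e.symm
        (Equiv.refl ι) e.symm
      rw [Equiv.coe_refl] at h
      rw [h, Matrix.one_mul, Matrix.submatrix_one_equiv]
    refine ⟨pxLM h P ((1 : Matrix ι ι T₂).submatrix id e.symm),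
      pxLM h Q ((1 : Matrix ι ι T₂).submatrix e.symm id), ?_, ?_, fun s => ?_⟩
    · rw [px_mul, h1, k1, px_one]
    · rw [px_mul, h2, k2, px_one]
    · show pxLM h (A.mat s) 1 * pxLM h P _ = pxLM h P _ * pxLM h (B.mat s) 1
      rw [px_mul, px_mul, h3, Matrix.one_mul, Matrix.mul_one]
  · intro s i j
    show (1 : Matrix ι ι T) i j = (1 : Matrix κ κ T) (e i) (e j)
    rw [Matrix.one_apply, Matrix.one_apply]
    simp

private theorem px_add (h : IsProd f₁ f₂) {ι κ σ : Type} [Fintype ι]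
    [DecidableEq ι] [Fintype κ] [DecidableEq κ] (A : Tup ι σ T₁) (B : Tup κ σ T₁) :
    pxT h (A.add B) = (pxT h A).add (pxT h B) := by
  apply Tup.ext
  funext s
  show pxLM h (Matrix.fromBlocks (A.mat s) 0 0 (B.mat s)) 1 =
    Matrix.fromBlocks (pxLM h (A.mat s) 1) 0 0 (pxLM h (B.mat s) 1)
  refine px_inj h ?_ ?_
  · rw [px_f1, Matrix.fromBlocks_map, px_f1, px_f1]
    simp
  · rw [px_f2, Matrix.fromBlocks_map, px_f2, px_f2]
    simp

private theorem px_triv_add {R : Type} [CommRing R] {ι κ σ : Type} [Fintype ι] [DecidableEq ι]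
    [Fintype κ] [DecidableEq κ] :
    (Tup.triv ι σ R).add (Tup.triv κ σ R) = Tup.triv (ι ⊕ κ) σ R := by
  apply Tup.ext
  funext s
  exact Matrix.fromBlocks_one

/-- the additive map on classes -/
private def pxQ (h : IsProd f₁ f₂) [Nontrivial T₁] (σ : Type) : TupQ σ T₁ → KK σ T :=
  Quotient.lift (fun A => KK.mk (pxT h A.2) - KK.mk (Tup.triv (Fin A.1) σ T))
    (fun _ _ hAB => by
      have h1 := px_iso h hAB
      show KK.mk _ - KK.mk _ = KK.mk _ - KK.mk _
      rw [KK.mk_eq_of_iso h1.1, KK.mk_eq_of_iso h1.2])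

private theorem pxQ_cls (h : IsProd f₁ f₂) [Nontrivial T₁] {ι σ : Type} [Fintype ι]
    [DecidableEq ι] (A : Tup ι σ T₁) :
    pxQ h σ (cls A) = KK.mk (pxT h A) - KK.mk (Tup.triv ι σ T) := by
  have h1 := px_iso h (Tup.iso_reindex (Fintype.equivFin ι) A)
  show KK.mk _ - KK.mk _ = KK.mk _ - KK.mk _
  rw [KK.mk_eq_of_iso h1.1, KK.mk_eq_of_iso h1.2]

private theorem px_mk_empty {R : Type} [CommRing R] {σ : Type} (A : Tup (Fin 0) σ R) :
    KK.mk A = 0 := by
  have h1 : cls A = 0 := by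
    rw [← TupQ.cls_zero, cls_eq_iff]
    exact Tup.iso_of_equiv (Equiv.refl _) fun s i => i.elim0
  unfold KK.mk
  rw [h1, map_zero]

private def pxA (h : IsProd f₁ f₂) [Nontrivial T₁] (σ : Type) : TupQ σ T₁ →+ KK σ T where
  toFun := pxQ h σ
  map_zero' := by
    rw [← TupQ.cls_zero, pxQ_cls, px_mk_empty, px_mk_empty, sub_zero]
  map_add' := by
    intro x y
    obtain ⟨r, A, rfl⟩ := cls_surj x
    obtain ⟨s, B, rfl⟩ := cls_surj y
    rw [← TupQ.cls_add, pxQ_cls, pxQ_cls, pxQ_cls, px_add, ← px_triv_add, KK.mk_add, KK.mk_add]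
    abel

private theorem px_triv_map {R R' : Type} [CommRing R] [CommRing R'] (f : R →+* R') {ι σ : Type}
    [Fintype ι] [DecidableEq ι] : (Tup.triv ι σ R).map f = Tup.triv ι σ R' := by
  apply Tup.ext
  funext s
  exact map_one f.mapMatrix

private theorem px_pull {R : Type} [CommRing R] {ι σ : Type} [Fintype ι] [DecidableEq ι]
    (A : Tup ι σ R) : A.pull (fun _ : σ => none) = Tup.triv ι σ R := by
  apply Tup.ext
  funext s
  rfl

theorem kk_ext_prod {σ : Type} (h : IsProd f₁ f₂) : ∃ E : KK σ T₁ →ₗ[ℚ] KK σ T,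
    (∀ x, KK.map f₁ (E x) = x - KK.pull (fun _ => none) x) ∧ ∀ x, KK.map f₂ (E x) = 0 := by
  rcases subsingleton_or_nontrivial T₁ with hT | hT
  · refine ⟨0, ?_, fun x => by simp⟩
    have h1 : (LinearMap.id : KK σ T₁ →ₗ[ℚ] KK σ T₁) =
        (KK.pull (fun _ : σ => none)).toLinearMap := by
      refine KK.lin_ext fun r A => ?_
      show KK.mk A = KK.pull _ (KK.mk A)
      rw [KK.pull_mk, px_pull]
      congr 1
      apply Tup.ext
      funext s
      ext i j
      exact Subsingleton.elim _ _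
    intro x
    have h2 := LinearMap.congr_fun h1 x
    have h3 : x = KK.pull (fun _ : σ => none) x := h2
    rw [← h3]
    simp
  · let E : KK σ T₁ →ₗ[ℚ] KK σ T := GR.liftAdd (pxA h σ)
    have hE : ∀ (r : ℕ) (A : Tup (Fin r) σ T₁),
        E (KK.mk A) = KK.mk (pxT h A) - KK.mk (Tup.triv (Fin r) σ T) := by
      intro r A
      show GR.liftAdd (pxA h σ) (GR.of (cls A)) = _
      rw [GR.liftAdd_of]
      exact pxQ_cls h A
    refine ⟨E, ?_, ?_⟩
    · have h1 : (KK.map f₁).toLinearMap ∘ₗ E =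
          LinearMap.id - (KK.pull (fun _ : σ => none)).toLinearMap := by
        refine KK.lin_ext fun r A => ?_
        show KK.map f₁ (E (KK.mk A)) = KK.mk A - KK.pull _ (KK.mk A)
        rw [hE, map_sub, KK.map_mk, KK.map_mk, KK.pull_mk, px_pull, px_triv_map]
        congr 2
        apply Tup.ext
        funext s
        exact px_f1 h (A.mat s) 1
      intro x
      exact LinearMap.congr_fun h1 x
    · have h1 : (KK.map f₂).toLinearMap ∘ₗ E = 0 := by
        refine KK.lin_ext fun r A => ?_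
        show KK.map f₂ (E (KK.mk A)) = 0
        rw [hE, map_sub, KK.map_mk, KK.map_mk, px_triv_map, sub_eq_zero]
        congr 1
        apply Tup.ext
        funext s
        exact px_f2 h (A.mat s) 1
      intro x
      exact LinearMap.congr_fun h1 x

end Pool.Agent.LGF
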