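import Pool.Agent.LGF.PInj
import Pool.Agent.LGF.PExt

/-!
# Gluing of cubes and of homotopies over a product
-/

noncomputable section

namespace Pool.Agent.LGF

open Pool.Agent.GSM

variable {T T₁ T₂ : Type} [CommRing T] [CommRing T₁] [CommRing T₂] {f₁ : T →+* T₁} {f₂ : T →+* T₂}
variable {I σ : Type} [DecidableEq I] [DecidableEq σ] [Nonempty σ]

theorem IsProd.symm (h : IsProd f₁ f₂) : IsProd f₂ f₁ := by
  have h1 : (f₂.prod f₁ : T → T₂ × T₁) = Prod.swap ∘ (f₁.prod f₂ : T → T₁ × T₂) := rfl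
  unfold IsProd
  rw [h1]
  exact Prod.swap_bijective.comp h

private theorem pull_none {R : Type} [CommRing R] {x : GG I σ R} (h : Cub x) :
    KK.pull (fun _ : σ => (none : Option σ)) x = 0 := by
  have s : σ := Classical.arbitrary σ
  have h1 := KK.pull_pull (fun _ : σ => (none : Option σ)) (killMap s) x
  have h2 : KK.pull (killMap s) x = 0 := h.kill_mem s (Set.mem_univ s)
  rw [h2, map_zero] at h1
  exact h1.symm

private theorem glue_one (h : IsProd f₁ f₂) {x₁ : GG I σ T₁} (h₁ : Cub x₁) :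
    ∃ X : GG I σ T, GG.base f₁ X = x₁ ∧ GG.base f₂ X = 0 := by
  obtain ⟨E, hE1, hE2⟩ := kk_ext_prod (σ := σ) (h.mv I)
  refine ⟨E x₁, ?_, hE2 x₁⟩
  have h2 := hE1 x₁
  rw [pull_none h₁, sub_zero] at h2
  exact h2

theorem cub_glue (h : IsProd f₁ f₂) {x₁ : GG I σ T₁} {x₂ : GG I σ T₂} (h₁ : Cub x₁) (h₂ : Cub x₂) :
    ∃ x : GG I σ T, Cub x ∧ GG.base f₁ x = x₁ ∧ GG.base f₂ x = x₂ := by
  obtain ⟨X₁, a1, a2⟩ := glue_one h h₁
  obtain ⟨X₂, b1, b2⟩ := glue_one h.symm h₂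
  have c1 : GG.base f₁ (X₁ + X₂) = x₁ := by rw [map_add, a1, b2, add_zero]
  have c2 : GG.base f₂ (X₁ + X₂) = x₂ := by rw [map_add, a2, b1, zero_add]
  refine ⟨X₁ + X₂, ⟨?_, ?_, ?_, ?_⟩, c1, c2⟩
  · intro i _ e
    refine gg_inj_prod h _ ?_ ?_
    · unfold face
      rw [GG.base_sub, c1]
      exact h₁.face_mem i (Set.mem_univ i) e
    · unfold face
      rw [GG.base_sub, c2]
      exact h₂.face_mem i (Set.mem_univ i) e
  · intro i hi
    exact absurd (Set.mem_univ i) hi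
  · intro s _
    refine gg_inj_prod h _ ?_ ?_
    · unfold kill
      rw [GG.base_pull, c1]
      exact h₁.kill_mem s (Set.mem_univ s)
    · unfold kill
      rw [GG.base_pull, c2]
      exact h₂.kill_mem s (Set.mem_univ s)
  · intro s hs
    exact absurd (Set.mem_univ s) hs

theorem nul_glue (h : IsProd f₁ f₂) {x : GG I σ T} (h₁ : Nul (GG.base f₁ x))
    (h₂ : Nul (GG.base f₂ x)) : Nul x := by
  obtain ⟨y₁, hy₁, e₁⟩ := h₁
  obtain ⟨y₂, hy₂, e₂⟩ := h₂
  obtain ⟨y, hy, c1, c2⟩ := cub_glue h.poly hy₁ hy₂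
  refine ⟨y, hy, ?_⟩
  rw [← sub_eq_zero]
  refine gg_inj_prod h _ ?_ ?_
  · rw [map_sub, map_sub, GG.base_base, GG.base_base, ← ev_map, ← ev_map, ← GG.base_base,
      ← GG.base_base, c1, e₁, sub_self]
  · rw [map_sub, map_sub, GG.base_base, GG.base_base, ← ev_map, ← ev_map, ← GG.base_base,
      ← GG.base_base, c2, e₂, sub_self]

end Pool.Agent.LGF
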