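import Pool.Agent.LGF.FamEx
import Pool.Agent.LGF.ColM

/-!
# The class of a family of ideals on a family of curves

`icl Y h hJ z`: `Y t` a curve over `K t`, `h t : C → (Y t).O` homomorphisms, `J t` ideals of colength `N`
(`hJ`), `z` a class over `C`; the class over `∏ K t` given by the modules `(Y t).O / J t`.

Products, powers, base change, comparison with another basis, scalar actions.
-/

noncomputable section

namespace Pool.Agent.LGF

open Pool.Agent.GSM Module Polynomial

variable {T : Type} {K : T → Type} [∀ t, Field (K t)] {d : ℕ} {a : Fin d → ℕ}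
  {Y : ∀ t, Crv (K t) d a} {C : Type} [CommRing C] (h : ∀ t, C →+* (Y t).O)
  {J J' : ∀ t, Ideal (Y t).O} {N N' : ℕ}
variable {I σ : Type} [DecidableEq I] [DecidableEq σ]

/-- A basis of `O / J`. -/
def iclB {k : Type} [Field k] {X' : Crv k d a} {J : Ideal X'.O} (hJ : X'.Col J N) :
    Basis (Fin N) k (X'.O ⧸ J) := by
  haveI := hJ.1
  exact Module.finBasisOfFinrankEq k (X'.O ⧸ J) hJ.2

/-- The action of `C` on `O / J`. -/
def iclρ {k : Type} [Field k] {X' : Crv k d a} (h : C →+* X'.O) (J : Ideal X'.O) :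
    C →+* End k (X'.O ⧸ J) :=
  ((Algebra.lmul k (X'.O ⧸ J)).toRingHom.comp (Ideal.Quotient.mk J)).comp h

theorem iclρ_apply {k : Type} [Field k] {X' : Crv k d a} (h : C →+* X'.O) (J : Ideal X'.O) (c : C)
    (x : X'.O) : iclρ h J c (Ideal.Quotient.mk J x) = Ideal.Quotient.mk J (h c * x) := by
  simp [iclρ]

/-- The class of the family of modules `O / J`. -/
def icl (hJ : ∀ t, (Y t).Col (J t) N) (z : GG I σ C) : GG I σ (∀ t, K t) :=
  famCls (fun t => iclB (hJ t)) (fun t => iclρ (h t) (J t)) z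

variable {h}

private theorem iclρ_smul {k : Type} [Field k] {X' : Crv k d a} (h : C →+* X'.O) (J : Ideal X'.O)
    (c : C) (v : X'.O ⧸ J) : iclρ h J c v = h c • v := by
  obtain ⟨x, rfl⟩ := Ideal.Quotient.mk_surjective v
  rw [iclρ_apply]
  rfl

private theorem icl_cg (hJ : ∀ t, (Y t).Col (J t) N) (hJ' : ∀ t, (Y t).Col (J' t) N')
    (e : J = J') (eN : N = N') (z : GG I σ C) : icl h hJ z = icl h hJ' z := by
  subst e eN
  rfl

theorem icl_congr (hJ : ∀ t, (Y t).Col (J t) N) (hJ' : ∀ t, (Y t).Col (J' t) N')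
    (e : ∀ t, J t = J' t) [Nonempty T] (z : GG I σ C) : icl h hJ z = icl h hJ' z := by
  obtain ⟨t⟩ := (inferInstance : Nonempty T)
  have e1 : J = J' := funext e
  have h1 := hJ' t
  rw [← e t] at h1
  exact icl_cg hJ hJ' e1 (Crv.col_unique (hJ t) h1) z

theorem icl_basis {δ : Type} [Fintype δ] [DecidableEq δ] (hJ : ∀ t, (Y t).Col (J t) N)
    (b : ∀ t, Basis δ (K t) ((Y t).O ⧸ J t)) (z : GG I σ C) :
    icl h hJ z = famCls b (fun t => iclρ (h t) (J t)) z := by
  exact famCls_iso (fun t => iclB (hJ t)) (fun t => iclρ (h t) (J t)) b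
    (fun t => iclρ (h t) (J t)) (fun t => LinearEquiv.refl (K t) ((Y t).O ⧸ J t))
    (fun t c v => rfl) z

theorem icl_res {T' : Type} (φ : T' → T) (hJ : ∀ t, (Y t).Col (J t) N) (z : GG I σ C) :
    GG.base (res K φ) (icl h hJ z) =
      icl (K := fun s => K (φ s)) (Y := fun s => Y (φ s)) (fun s => h (φ s))
        (J := fun s => J (φ s)) (fun s => hJ (φ s)) z := by
  exact famCls_res φ (fun t => iclB (hJ t)) (fun t => iclρ (h t) (J t)) z

theorem icl_cub (hJ : ∀ t, (Y t).Col (J t) N) {z : GG I σ C} (hz : Cub z) : Cub (icl h hJ z) :=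
  hz.corr _

theorem icl_mul (hJ : ∀ t, (Y t).Col (J t) N) (hJ' : ∀ t, (Y t).Col (J' t) N')
    (hJJ : ∀ t, (Y t).Col (J t * J' t) (N + N')) {z : GG I σ C} (hz : Cub z) :
    Nul (icl h hJJ z - (icl h hJ z + icl h hJ' z)) := by
  have hex := fun t => Crv.col_exact (Crv.col_ne_bot (hJ t)) (Crv.col_ne_bot (hJ' t))
  choose i p hi hp hr using hex
  rw [add_comm (icl h hJ z)]
  refine famCls_exact (fun t => iclB (hJJ t)) (fun t => iclρ (h t) (J t * J' t))
    (fun t => iclB (hJ' t)) (fun t => iclρ (h t) (J' t))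
    (fun t => iclB (hJ t)) (fun t => iclρ (h t) (J t))
    (fun t => (i t).restrictScalars (K t)) (fun t => (p t).restrictScalars (K t))
    hi hp ?_ ?_ ?_ hz
  · intro t
    ext x
    have h1 : x ∈ LinearMap.range (i t) ↔ x ∈ LinearMap.ker (p t) := by rw [hr t]
    exact h1
  · intro t c v
    rw [iclρ_smul, iclρ_smul]
    exact (i t).map_smul (h t c) v
  · intro t c v
    rw [iclρ_smul, iclρ_smul]
    exact (p t).map_smul (h t c) v

theorem icl_pow (n : ℕ) (hJ : ∀ t, (Y t).Col (J t) N) (hJn : ∀ t, (Y t).Col (J t ^ n) (n * N))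
    {z : GG I σ C} (hz : Cub z) : Nul (icl h hJn z - (n : ℚ) • icl h hJ z) := by
  induction n with
  | zero =>
    have e : icl h hJn z = 0 := by
      have : IsEmpty (Fin (0 * N)) := by
        rw [Nat.zero_mul]
        infer_instance
      exact GG.corr_empty _ z
    rw [e, Nat.cast_zero, zero_smul, sub_zero]
    exact BdOn.zero _ _
  | succ n ih =>
    have hn : ∀ t, (Y t).Col (J t ^ n) (n * N) := fun t => Crv.col_pow (hJ t) n
    have hm : ∀ t, (Y t).Col (J t ^ n * J t) (n * N + N) := fun t => Crv.col_mul (hn t) (hJ t)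
    have e : icl h hJn z = icl h hm z :=
      icl_cg hJn hm (funext fun t => pow_succ (J t) n) (Nat.succ_mul n N) z
    have h1 := (icl_mul (h := h) hn hJ hm hz).add (ih hn)
    have e2 : icl h hJn z - ((n + 1 : ℕ) : ℚ) • icl h hJ z =
        icl h hm z - (icl h hn z + icl h hJ z) + (icl h hn z - (n : ℚ) • icl h hJ z) := by
      rw [e, Nat.cast_succ, add_smul, one_smul]
      abel
    rw [e2]
    exact h1

theorem icl_scalar (hJ : ∀ t, (Y t).Col (J t) N) (P : ∀ t, C →+* K t)
    (hP : ∀ t c, h t c - algebraMap (K t) (Y t).O (P t c) ∈ J t) (z : GG I σ C) :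
    icl h hJ z = (N : ℚ) • GG.base (RingHom.pi P) z := by
  have h1 := famCls_scalar (fun t => iclB (hJ t)) (fun t => iclρ (h t) (J t)) P (fun t c v => by
    obtain ⟨x, rfl⟩ := Ideal.Quotient.mk_surjective v
    rw [iclρ_apply]
    have e1 : P t c • (Ideal.Quotient.mk (J t) x) =
        Ideal.Quotient.mk (J t) (algebraMap (K t) (Y t).O (P t c) * x) := by
      rw [← Algebra.smul_def]
      rfl
    rw [e1, Ideal.Quotient.eq, ← sub_mul]
    exact Ideal.mul_mem_right x _ (hP t c)) z
  rw [Fintype.card_fin] at h1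
  exact h1

end Pool.Agent.LGF
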