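import Pool.Agent.LGF.IclN
import Pool.Agent.LGF.Eqv

/-!
# Equivalent families of ideals have homotopic classes

MODULE LGF-IclE. PLAN. Let `A = ∑ a l`, `m = N + 3 A + 2`. For every `t`: `J t * (t)^(A+1)` has colength
`N + (A + 1) d`; `exists_nrm` gives `f t ∈ J t (t)^(A+1)`, `Nrm m`; `exists_compl` gives `𝔟 t` with
`J (t)^(A+1) 𝔟 = (f)`, of colength `N₂ = m d - N - (A + 1) d` (`nrm_col`, `col_of_mul`, `col_unique`).
`J' (t)^(A+1) 𝔟` is equivalent to `(f)`, hence to `⊤`, and has colength `m d`, so it is `(f')` with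
`Nrm m f'` (`eqv_principal`). Choose all this for every `t`. Then with `icl_mul`, `icl_congr`, `icl_nrm`:
`icl J + icl (t)^(A+1) + icl 𝔟 ≈ icl (f) ≈ icl (t^m) ≈ icl (f') ≈ icl J' + icl (t)^(A+1) + icl 𝔟`.
If `T` is empty: the ring `∏ K t` is the zero ring and every class over it is `0`
(`KK.mk A = KK.mk (A.add A)` as all tuples over the zero ring are isomorphic), or treat `T` empty through
`nul_of_isEmpty` below.
-/

noncomputable section

namespace Pool.Agent.LGF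

open Pool.Agent.GSM Module Polynomial

variable {I σ : Type} [DecidableEq I] [DecidableEq σ]

/-- Every class over the zero ring vanishes. -/
theorem gg_eq_zero_of_subsingleton {R : Type} [CommRing R] [Subsingleton R] (x : GG I σ R) :
    x = 0 := by
  have : Subsingleton (MvPolynomial I R) := by
    refine subsingleton_of_zero_eq_one ?_
    have h : (1 : MvPolynomial I R) = MvPolynomial.C (1 : R) := rfl
    rw [h, Subsingleton.elim (1 : R) 0, map_zero]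
  have hk : ∀ (r : ℕ) (A : Tup (Fin r) σ (MvPolynomial I R)), KK.mk A = 0 := by
    intro r A
    have h1 : A.Iso (A.add A) :=
      ⟨0, 0, Subsingleton.elim _ _, Subsingleton.elim _ _, fun s => Subsingleton.elim _ _⟩
    have h2 : KK.mk A = KK.mk A + KK.mk A := by
      rw [← KK.mk_add]
      exact KK.mk_eq_of_iso h1
    exact left_eq_add.1 h2
  have h3 : (LinearMap.id : GG I σ R →ₗ[ℚ] GG I σ R) = 0 :=
    KK.lin_ext fun r A => by
      rw [LinearMap.id_apply, LinearMap.zero_apply]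
      exact hk r A
  exact LinearMap.congr_fun h3 x

variable {T : Type} {K : T → Type} [∀ t, Field (K t)] {d : ℕ} {a : Fin d → ℕ}
  {Y : ∀ t, Crv (K t) d a} {C : Type} [CommRing C] {h : ∀ t, C →+* (Y t).O}
  {J J' : ∀ t, Ideal (Y t).O} {N : ℕ}

/-- The auxiliary data at one point. -/
private theorem icle_aux {k : Type} [Field k] {Z : Crv k d a} {𝔞 𝔞' : Ideal Z.O} (h𝔞 : Z.Col 𝔞 N)
    (h𝔞' : Z.Col 𝔞' N) (e : Crv.Eqv 𝔞 𝔞') {A m : ℕ} (hA : A = ∑ l, a l)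
    (hm : m = N + 3 * A + 2) :
    ∃ (f f' : Z.O) (𝔟 : Ideal Z.O), Z.Nrm m f ∧ Z.Nrm m f' ∧
      Z.Col 𝔟 (m * d - (N + (A + 1) * d)) ∧ N + (A + 1) * d + (m * d - (N + (A + 1) * d)) = m * d ∧
      𝔞 * Ideal.span {Z.t} ^ (A + 1) * 𝔟 = Ideal.span {f} ∧
      𝔞' * Ideal.span {Z.t} ^ (A + 1) * 𝔟 = Ideal.span {f'} := by
  have hd : 0 < d := Crv.d_pos Z
  have h1 : Z.Col (𝔞 * Ideal.span {Z.t} ^ (A + 1)) (N + (A + 1) * d) :=
    Crv.col_mul h𝔞 (Crv.col_t (A + 1))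
  have h1' : Z.Col (𝔞' * Ideal.span {Z.t} ^ (A + 1)) (N + (A + 1) * d) :=
    Crv.col_mul h𝔞' (Crv.col_t (A + 1))
  obtain ⟨f, hfm, hf⟩ : ∃ f ∈ 𝔞 * Ideal.span {Z.t} ^ (A + 1), Z.Nrm m f := by
    refine Crv.exists_nrm h1 ?_ ?_ ?_
    · rw [← hA]
      nlinarith
    · rw [← hA, hm]
      omega
    · rw [← hA, hm]
      nlinarith [Nat.mul_le_mul hd (le_refl N), Nat.mul_le_mul hd (le_refl A)]
  obtain ⟨𝔟, h𝔟⟩ := Crv.exists_compl hfm (Crv.nrm_ne_zero hf)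
  have hne : 𝔞 * Ideal.span {Z.t} ^ (A + 1) * 𝔟 ≠ ⊥ := by
    rw [h𝔟]
    intro h0
    exact Crv.nrm_ne_zero hf (Ideal.span_singleton_eq_bot.1 h0)
  have hne1 : 𝔞 * Ideal.span {Z.t} ^ (A + 1) ≠ ⊥ := by
    intro h0
    apply hne
    rw [h0, Ideal.bot_mul]
  have hne2 : 𝔟 ≠ ⊥ := by
    intro h0
    apply hne
    rw [h0, Ideal.mul_bot]
  obtain ⟨M, M', hM, hM', hMM⟩ := Crv.col_of_mul hne1 hne2 (h𝔟 ▸ Crv.nrm_col hf)
  have hMN : M = N + (A + 1) * d := Crv.col_unique hM h1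
  have hM2 : M' = m * d - (N + (A + 1) * d) := by omega
  rw [hM2] at hM'
  have hsum : N + (A + 1) * d + (m * d - (N + (A + 1) * d)) = m * d := by omega
  have he : Crv.Eqv (𝔞' * Ideal.span {Z.t} ^ (A + 1) * 𝔟) ⊤ := by
    refine Crv.Eqv.trans (Crv.Eqv.mul (Crv.Eqv.mul e.symm (Crv.Eqv.refl _)) (Crv.Eqv.refl 𝔟)) ?_
    rw [h𝔟]
    exact Crv.eqv_nrm hf
  obtain ⟨f', hf', hff⟩ := Crv.eqv_principal he (hsum ▸ Crv.col_mul h1' hM')
  exact ⟨f, f', 𝔟, hf, hf', hM', hsum, h𝔟, hff⟩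

theorem icl_eqv (hb : HBdd h) (hJ : ∀ t, (Y t).Col (J t) N) (hJ' : ∀ t, (Y t).Col (J' t) N)
    (e : ∀ t, Crv.Eqv (J t) (J' t)) {z : GG I σ C} (hz : Cub z) :
    Nul (icl h hJ z - icl h hJ' z) := by
  rcases isEmpty_or_nonempty T with hT | hT
  · have h0 : icl h hJ z - icl h hJ' z = 0 := gg_eq_zero_of_subsingleton _
    rw [h0]
    exact BdOn.zero _ _
  obtain ⟨t₀⟩ := id hT
  set A : ℕ := ∑ l, a l with hA
  obtain ⟨m, hm⟩ : ∃ m, m = N + 3 * A + 2 := ⟨_, rfl⟩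
  choose f f' 𝔟 hf hf' h𝔟 hsum hp hp' using fun t => icle_aux (hJ t) (hJ' t) (e t) hA hm
  have hs := hsum t₀
  have hT1 : ∀ t, (Y t).Col (Ideal.span {(Y t).t} ^ (A + 1)) ((A + 1) * d) := fun t =>
    Crv.col_t (A + 1)
  have h1 : ∀ t, (Y t).Col (J t * Ideal.span {(Y t).t} ^ (A + 1)) (N + (A + 1) * d) := fun t =>
    Crv.col_mul (hJ t) (hT1 t)
  have h1' : ∀ t, (Y t).Col (J' t * Ideal.span {(Y t).t} ^ (A + 1)) (N + (A + 1) * d) := fun t =>
    Crv.col_mul (hJ' t) (hT1 t)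
  have h2 : ∀ t, (Y t).Col (J t * Ideal.span {(Y t).t} ^ (A + 1) * 𝔟 t)
      (N + (A + 1) * d + (m * d - (N + (A + 1) * d))) := fun t => Crv.col_mul (h1 t) (h𝔟 t)
  have h2' : ∀ t, (Y t).Col (J' t * Ideal.span {(Y t).t} ^ (A + 1) * 𝔟 t)
      (N + (A + 1) * d + (m * d - (N + (A + 1) * d))) := fun t => Crv.col_mul (h1' t) (h𝔟 t)
  have hF : ∀ t, (Y t).Col (Ideal.span {f t}) (m * d) := fun t => Crv.nrm_col (hf t)
  have hF' : ∀ t, (Y t).Col (Ideal.span {f' t}) (m * d) := fun t => Crv.nrm_col (hf' t)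
  have hFt : ∀ t, (Y t).Col (Ideal.span {(Y t).t ^ m}) (m * d) := fun t => Crv.nrm_col Crv.nrm_t
  have e1 := icl_mul (h := h) (hJ) hT1 h1 hz
  have e2 := icl_mul (h := h) h1 h𝔟 h2 hz
  have e1' := icl_mul (h := h) (hJ') hT1 h1' hz
  have e2' := icl_mul (h := h) h1' h𝔟 h2' hz
  have e3 := icl_nrm hb hf hF hFt hz
  have e3' := icl_nrm hb hf' hF' hFt hz
  have e4 : icl h h2 z = icl h hF z := icl_congr h2 hF hp z
  have e4' : icl h h2' z = icl h hF' z := icl_congr h2' hF' hp' z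
  rw [e4] at e2
  rw [e4'] at e2'
  have e5 := ((((e1'.add e2').sub (e1.add e2)).add e3).sub e3')
  have e6 : icl h h1' z - (icl h hJ' z + icl h hT1 z) + (icl h hF' z - (icl h h1' z + icl h h𝔟 z)) -
      (icl h h1 z - (icl h hJ z + icl h hT1 z) + (icl h hF z - (icl h h1 z + icl h h𝔟 z))) +
      (icl h hF z - icl h hFt z) - (icl h hF' z - icl h hFt z) = icl h hJ z - icl h hJ' z := by
    abel
  rw [e6] at e5
  exact e5

end Pool.Agent.LGF
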