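import Pool.Agent.LGF.Wgt

/-!
# Normalised elements
-/

noncomputable section

namespace Pool.Agent.LGF

open Polynomial Module Matrix

namespace Crv

variable {k : Type} [Field k] {d : ℕ} {a : Fin d → ℕ} {Y : Crv k d a} {x y f g : Y.O} {m n j : ℕ}

private theorem nrm_lt_le (h : Y.Lt x n) : Y.Le x n := fun l => (h l).imp_right Nat.le_of_lt

theorem nrm_t : Y.Nrm m (Y.t ^ m) := by
  unfold Nrm
  rw [sub_self]
  exact lt_mono (Nat.zero_le m) (lt_zero_iff.2 rfl)

theorem nrm_le (hf : Y.Nrm m f) : Y.Le f m := by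
  have h := le_add (nrm_lt_le hf) (le_t (Y := Y) (m := m))
  rwa [sub_add_cancel] at h

theorem nrm_mul (hf : Y.Nrm m f) (hg : Y.Nrm n g) : Y.Nrm (m + n) (f * g) := by
  unfold Nrm
  have h1 : f * g - Y.t ^ (m + n) = g * (f - Y.t ^ m) + Y.t ^ m * (g - Y.t ^ n) := by ring
  have h2 : Y.Lt (g * (f - Y.t ^ m)) (m + n) := by
    rw [Nat.add_comm m n]
    exact lt_mul (nrm_le hg) hf
  rw [h1]
  exact lt_add h2 (lt_mul le_t hg)

theorem nrm_ne_zero (hf : Y.Nrm m f) : f ≠ 0 := by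
  rintro rfl
  have h := lt_neg hf
  rw [zero_sub, neg_neg] at h
  exact not_lt_t h

private theorem nrm_w (q : Fin d → k[X]) (l : Fin d) :
    Y.ω.repr (Y.ω.equivFun.symm q) l = q l := by
  rw [← Basis.equivFun_apply, LinearEquiv.apply_symm_apply]

private theorem nrm_mulVec (z : Y.O) (q : Fin d → k[X]) :
    Y.ω.equivFun.symm (Y.mat z *ᵥ q) = z * Y.ω.equivFun.symm q := by
  rw [LinearEquiv.symm_apply_eq]
  have h := Algebra.leftMulMatrix_mulVec_repr Y.ω z (Y.ω.equivFun.symm q)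
  have h1 : (Y.ω.repr (Y.ω.equivFun.symm q) : Fin d → k[X]) = q := by
    funext l
    exact nrm_w q l
  rw [h1] at h
  exact h

private theorem nrm_smulT (q : Fin d → k[X]) :
    Y.ω.equivFun.symm ((X : k[X]) ^ m • q) = Y.t ^ m * Y.ω.equivFun.symm q := by
  rw [map_smul, Algebra.smul_def, map_pow]
  rfl

private theorem nrm_key (q : Fin d → k[X]) :
    Y.ω.equivFun.symm ((X : k[X]) ^ m • q - Y.mat (Y.t ^ m - f) *ᵥ q) =
      f * Y.ω.equivFun.symm q := by
  rw [map_sub, nrm_smulT, nrm_mulVec]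
  ring

private theorem nrm_wtM (hf : Y.Nrm m f) : WtM a m (Y.mat (Y.t ^ m - f)) := by
  apply wtM_mat
  have h := lt_neg hf
  rw [neg_sub] at h
  exact h

private def nrmP (c : Fin d × Fin m → k) (l : Fin d) : k[X] :=
  ∑ j : Fin m, C (c (l, j)) * X ^ (j : ℕ)

private theorem nrmP_deg (c : Fin d × Fin m → k) (l : Fin d) : (nrmP c l).degree < m := by
  unfold nrmP
  refine lt_of_le_of_lt (degree_sum_le _ _) ?_
  refine (Finset.sup_lt_iff (WithBot.bot_lt_coe m)).2 fun j _ => ?_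
  exact lt_of_le_of_lt (degree_C_mul_X_pow_le _ _) (WithBot.coe_lt_coe.2 j.2)

private theorem nrmP_coeff (c : Fin d × Fin m → k) (l : Fin d) (j : Fin m) :
    (nrmP c l).coeff j = c (l, j) := by
  unfold nrmP
  rw [finsetSum_coeff, Finset.sum_eq_single j]
  · rw [coeff_C_mul_X_pow, if_pos rfl]
  · intro i _ hi
    rw [coeff_C_mul_X_pow, if_neg]
    intro h
    exact hi (Fin.ext h.symm)
  · intro h
    exact absurd (Finset.mem_univ _) h

private theorem nrmP_sum (c : Fin d × Fin m → k) :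
    Y.ω.equivFun.symm (nrmP c) = ∑ s, c s • ((X : k[X]) ^ (s.2 : ℕ) • Y.ω s.1) := by
  rw [Basis.equivFun_symm_apply, Fintype.sum_prod_type]
  refine Finset.sum_congr rfl fun l _ => ?_
  unfold nrmP
  rw [Finset.sum_smul]
  refine Finset.sum_congr rfl fun j _ => ?_
  rw [mul_smul, Algebra.smul_def (C (c (l, j))), Algebra.smul_def (c (l, j)),
    IsScalarTower.algebraMap_apply k k[X] Y.O]
  rfl

/-- `O / (f)` has the basis `X ^ j ω l`, `j < m`. -/
theorem nrm_basis (hf : Y.Nrm m f) : ∃ b : Basis (Fin d × Fin m) k (Y.O ⧸ Ideal.span {f}),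
    ∀ s, b s = Ideal.Quotient.mk _ ((X : k[X]) ^ (s.2 : ℕ) • Y.ω s.1) := by
  have hmk : ∀ c : Fin d × Fin m → k,
      ∑ s, c s • (Ideal.Quotient.mk (Ideal.span {f}) ((X : k[X]) ^ (s.2 : ℕ) • Y.ω s.1)) =
        Ideal.Quotient.mk (Ideal.span {f}) (Y.ω.equivFun.symm (nrmP c)) := by
    intro c
    rw [nrmP_sum, map_sum]
    rfl
  have hli : LinearIndependent k (fun s : Fin d × Fin m =>
      Ideal.Quotient.mk (Ideal.span {f}) ((X : k[X]) ^ (s.2 : ℕ) • Y.ω s.1)) := by
    rw [Fintype.linearIndependent_iff]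
    intro c hc s
    rw [hmk, Ideal.Quotient.eq_zero_iff_mem, Ideal.mem_span_singleton] at hc
    obtain ⟨z, hz⟩ := hc
    have h1 : (X : k[X]) ^ m • (Y.ω.equivFun z) - Y.mat (Y.t ^ m - f) *ᵥ (Y.ω.equivFun z) +
        -(nrmP c) = 0 := by
      apply Y.ω.equivFun.symm.injective
      rw [map_add, nrm_key, map_neg, hz, LinearEquiv.symm_apply_apply, map_zero, add_neg_cancel]
    have h2 := (div_unique (nrm_wtM hf) h1 fun l => by
      rw [Pi.neg_apply, degree_neg]
      exact nrmP_deg c l).2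
    have h3 : nrmP c s.1 = 0 := by
      have := congrFun h2 s.1
      rw [Pi.neg_apply, Pi.zero_apply, neg_eq_zero] at this
      exact this
    have h4 := nrmP_coeff c s.1 s.2
    rw [h3, coeff_zero] at h4
    exact h4.symm
  have hsp : ⊤ ≤ Submodule.span k (Set.range (fun s : Fin d × Fin m =>
      Ideal.Quotient.mk (Ideal.span {f}) ((X : k[X]) ^ (s.2 : ℕ) • Y.ω s.1))) := by
    rintro z -
    obtain ⟨x, rfl⟩ := Ideal.Quotient.mk_surjective z
    obtain ⟨q, r, h1, h2⟩ := div_exists (nrm_wtM hf) (Y.ω.equivFun x)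
    have h3 : r = nrmP (fun s : Fin d × Fin m => (r s.1).coeff s.2) := by
      funext l
      ext i
      by_cases hi : i < m
      · exact (nrmP_coeff (fun s : Fin d × Fin m => (r s.1).coeff s.2) l ⟨i, hi⟩).symm
      · have hi' : ((m : ℕ) : WithBot ℕ) ≤ ((i : ℕ) : WithBot ℕ) := by
          exact_mod_cast (not_lt.1 hi)
        rw [coeff_eq_zero_of_degree_lt ((h2 l).trans_le hi'),
          coeff_eq_zero_of_degree_lt ((nrmP_deg _ l).trans_le hi')]
    have h4 : x = f * Y.ω.equivFun.symm q + Y.ω.equivFun.symm r := by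
      apply Y.ω.equivFun.injective
      rw [h1, map_add, LinearEquiv.apply_symm_apply, ← nrm_key, LinearEquiv.apply_symm_apply]
    have h5 : Ideal.Quotient.mk (Ideal.span {f}) x =
        Ideal.Quotient.mk (Ideal.span {f}) (Y.ω.equivFun.symm r) := by
      rw [Ideal.Quotient.eq, Ideal.mem_span_singleton]
      exact ⟨Y.ω.equivFun.symm q, by rw [h4]; ring⟩
    rw [h5, h3, ← hmk]
    exact Submodule.sum_mem _ fun s _ => Submodule.smul_mem _ _ (Submodule.subset_span ⟨s, rfl⟩)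
  exact ⟨Basis.mk hli hsp, fun s => Basis.mk_apply hli hsp s⟩

theorem nrm_col (hf : Y.Nrm m f) : Y.Col (Ideal.span {f}) (m * d) := by
  obtain ⟨b, -⟩ := nrm_basis hf
  refine ⟨Module.Finite.of_basis b, ?_⟩
  rw [finrank_eq_card_basis b, Fintype.card_prod, Fintype.card_fin, Fintype.card_fin, mul_comm]

theorem nrm_of_mul (hf : Y.Nrm m f) (h : Y.Nrm n (f * g)) : m ≤ n ∧ Y.Nrm (n - m) g := by
  classical
  have hg : g ≠ 0 := by
    rintro rfl
    exact nrm_ne_zero h (mul_zero f)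
  obtain ⟨e, he, hne⟩ : ∃ e, Y.Le g e ∧ ¬ Y.Lt g e := by
    have hex := exists_le g
    refine ⟨Nat.find hex, Nat.find_spec hex, fun hlt => ?_⟩
    rcases Nat.eq_zero_or_pos (Nat.find hex) with h0 | h0
    · rw [h0] at hlt
      exact hg (lt_zero_iff.1 hlt)
    · obtain ⟨e', he'⟩ : ∃ e', Nat.find hex = e' + 1 := ⟨Nat.find hex - 1, by omega⟩
      rw [he', ← le_iff_lt] at hlt
      exact Nat.find_min hex (by omega) hlt
  have a1 : Y.Lt (g * (Y.t ^ m - f)) (e + m) := by
    refine lt_mul he ?_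
    have := lt_neg hf
    rw [neg_sub] at this
    exact this
  have a2 : ¬ Y.Lt (f * g) (e + m) := by
    intro h1
    have h2 := lt_add h1 a1
    have h3 : f * g + g * (Y.t ^ m - f) = Y.t ^ m * g := by ring
    rw [h3, lt_t_mul] at h2
    exact hne h2
  have a3 : Y.Le (f * g) (m + e) := le_mul (nrm_le hf) he
  have a4 : ¬ Y.Lt (f * g) n := by
    intro h1
    have h2 := lt_add h1 (lt_neg h)
    have h3 : f * g + -(f * g - Y.t ^ n) = Y.t ^ n := by ring
    rw [h3] at h2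
    exact not_lt_t h2
  have a5 : n = e + m := by
    rcases Nat.lt_trichotomy n (e + m) with h1 | h1 | h1
    · exfalso
      exact a2 (lt_mono h1 (le_iff_lt.1 (nrm_le h)))
    · exact h1
    · exfalso
      rw [Nat.add_comm m e] at a3
      exact a4 (lt_mono h1 (le_iff_lt.1 a3))
  subst a5
  refine ⟨Nat.le_add_left m e, ?_⟩
  rw [Nat.add_sub_cancel]
  unfold Nrm
  rw [← lt_t_mul (j := m)]
  have h3 : Y.t ^ m * (g - Y.t ^ e) = (f * g - Y.t ^ (e + m)) + g * (Y.t ^ m - f) := by ring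
  rw [h3]
  exact lt_add h a1

end Crv

end Pool.Agent.LGF
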