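import Pool.Agent.LGF.Icl
import Pool.Agent.LGF.DivRep
import Pool.Agent.LGF.Nrm

/-!
# Normalised functions give homotopic classes

MODULE LGF-IclN. PLAN. Let `A = ∏ K t`. By `hb` the matrices `lam t c = mat (h t c)` have bounded degrees
(column `l` of `mat x` is `x ω l`, of weight `≤ D + a l`, so degree `≤ D + ∑ a`), so `exists_asmX` gives
`Λ : C → Matrix A[X]`. Let `ℓ t = t ^ m - f t` (weight `< m`), `M t = mat (ℓ t)` (`wtM_mat`);
`exists_asmX_mat` gives `M'` over `A[X]`, with `WtM a m M'`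
(the coefficients of `M' l' l` vanish at all `n` with `m + a l ≤ n + a l'`; use the second clause) and `Λ c`
commutes with `M'` (componentwise). `exists_rep` gives `ρ` (for `M'`) and `ρ₀` (for `0`), and `rep_homotopy`
`Nul (corr ρ z - corr ρ₀ z)`. Identify `corr ρ z = icl h (f) z`: for each `t`, the image of `ρ` over
`K t` (`IsRep.map` for `Pi.evalRingHom K t`) is the matrix of the action of `C` on `O / (f t)` in the
basis `nrm_basis` (the defining identity says
`h c * (emb w) = f * q + emb (ρ c w)` in `O`); so `ρ = famMat b _` by `asm_ext`, and `icl_basis`. The same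
for `ρ₀` and `f = t ^ m`.
-/

noncomputable section

namespace Pool.Agent.LGF

open Pool.Agent.GSM Module Polynomial

variable {T : Type} {K : T → Type} [∀ t, Field (K t)] {d : ℕ} {a : Fin d → ℕ}
  {Y : ∀ t, Crv (K t) d a} {C : Type} [CommRing C] {h : ∀ t, C →+* (Y t).O}
variable {I σ : Type} [DecidableEq I] [DecidableEq σ]

/-- The homomorphisms have bounded weights. -/
def HBdd (h : ∀ t, C →+* (Y t).O) : Prop := ∀ c, ∃ D, ∀ t, (Y t).Le (h t c) D

private theorem mulVec_repr {k : Type} [Field k] (Z : Crv k d a) (x : Z.O) (v : Fin d → k[X]) :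
    Z.ω.equivFun.symm (Matrix.mulVec (Z.mat x) v) = x * Z.ω.equivFun.symm v := by
  apply Z.ω.equivFun.injective
  rw [LinearEquiv.apply_symm_apply]
  have h1 := Algebra.leftMulMatrix_mulVec_repr Z.ω x (Z.ω.equivFun.symm v)
  have h2 : (Z.ω.repr (Z.ω.equivFun.symm v) : Fin d → k[X]) = v := by
    rw [← Basis.equivFun_apply, LinearEquiv.apply_symm_apply]
  rw [h2] at h1
  rw [Basis.equivFun_apply, ← h1]
  rfl

private theorem mk_emb {k : Type} [Field k] (Z : Crv k d a) (J : Ideal Z.O) {m : ℕ}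
    (b : Fin d × Fin m → Z.O ⧸ J)
    (hb : ∀ s, b s = Ideal.Quotient.mk J ((X : k[X]) ^ (s.2 : ℕ) • Z.ω s.1))
    (w : Fin d × Fin m → k) :
    Ideal.Quotient.mk J (Z.ω.equivFun.symm (emb w)) = ∑ s, w s • b s := by
  rw [Basis.equivFun_symm_apply, Fintype.sum_prod_type, map_sum]
  refine Finset.sum_congr rfl fun l _ => ?_
  unfold emb
  rw [Finset.sum_smul, map_sum]
  refine Finset.sum_congr rfl fun j _ => ?_
  rw [hb, mul_smul]
  have h1 : (C (w (l, j)) : k[X]) • ((X : k[X]) ^ (j : ℕ) • Z.ω l) =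
      w (l, j) • ((X : k[X]) ^ (j : ℕ) • Z.ω l) := algebraMap_smul k[X] (w (l, j)) _
  rw [h1]
  exact map_smul (Ideal.Quotient.mkₐ k J) _ _

private theorem rep_quot {k : Type} [Field k] (Z : Crv k d a) {m : ℕ} (f : Z.O)
    (b : Basis (Fin d × Fin m) k (Z.O ⧸ Ideal.span {f}))
    (hb : ∀ s, b s = Ideal.Quotient.mk _ ((X : k[X]) ^ (s.2 : ℕ) • Z.ω s.1))
    (g : C →+* Z.O) (ρ : C →+* Matrix (Fin d × Fin m) (Fin d × Fin m) k)
    (hρ : IsRep (Z.mat (Z.t ^ m - f)) ((Algebra.leftMulMatrix Z.ω).toRingHom.comp g) ρ) :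
    ρ = (LinearMap.toMatrixAlgEquiv b).toRingEquiv.toRingHom.comp (iclρ g (Ideal.span {f})) := by
  refine RingHom.ext fun c => ?_
  ext s' s
  obtain ⟨q, hq⟩ := hρ c (Pi.single s 1)
  have h0 : (((Algebra.leftMulMatrix Z.ω).toRingHom.comp g) c) = Z.mat (g c) := rfl
  rw [h0] at hq
  have h1 := congrArg (fun v => Ideal.Quotient.mk (Ideal.span {f}) (Z.ω.equivFun.symm v)) hq
  simp only [map_add, map_sub, map_smul, mulVec_repr] at h1
  have h2 : (X : k[X]) ^ m • Z.ω.equivFun.symm q = Z.t ^ m * Z.ω.equivFun.symm q := by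
    rw [Algebra.smul_def, map_pow]
    rfl
  rw [h2, map_mul, mk_emb Z (Ideal.span {f}) b hb, mk_emb Z (Ideal.span {f}) b hb] at h1
  have h3 : Ideal.Quotient.mk (Ideal.span {f}) (Z.t ^ m * Z.ω.equivFun.symm q) -
      Ideal.Quotient.mk (Ideal.span {f}) ((Z.t ^ m - f) * Z.ω.equivFun.symm q) = 0 := by
    rw [← map_sub, Ideal.Quotient.eq_zero_iff_mem]
    have h4 : Z.t ^ m * Z.ω.equivFun.symm q - (Z.t ^ m - f) * Z.ω.equivFun.symm q =
        f * Z.ω.equivFun.symm q := by ring
    rw [h4]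
    exact Ideal.mul_mem_right _ _ (Ideal.subset_span (Set.mem_singleton f))
  rw [h3, zero_add] at h1
  have h5 : ∑ r, (Pi.single s (1 : k) : Fin d × Fin m → k) r • b r = b s := by
    rw [Finset.sum_eq_single s]
    · rw [Pi.single_eq_same, one_smul]
    · intro r _ hr
      rw [Pi.single_eq_of_ne hr, zero_smul]
    · intro hs
      exact absurd (Finset.mem_univ s) hs
  rw [h5] at h1
  have h6 : iclρ g (Ideal.span {f}) c (b s) = Ideal.Quotient.mk (Ideal.span {f}) (g c) * b s := by
    rw [hb, iclρ_apply, map_mul]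
  have h7 : (((LinearMap.toMatrixAlgEquiv b).toRingEquiv.toRingHom.comp
      (iclρ g (Ideal.span {f}))) c) s' s = b.repr (iclρ g (Ideal.span {f}) c (b s)) s' :=
    LinearMap.toMatrixAlgEquiv_apply b _ s' s
  rw [h7, h6, h1, Basis.repr_sum_self]
  rw [Matrix.mulVec_single_one]
  rfl

private theorem ext_mat {X' Y' : Matrix (Fin d) (Fin d) (∀ t, K t)[X]}
    (hXY : ∀ t, X'.map (Polynomial.map (Pi.evalRingHom K t)) =
      Y'.map (Polynomial.map (Pi.evalRingHom K t))) : X' = Y' := by
  ext i j n t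
  have h1 := congrFun (congrFun (hXY t) i) j
  rw [Matrix.map_apply, Matrix.map_apply] at h1
  have h2 := congrArg (fun p => Polynomial.coeff p n) h1
  simp only [coeff_map] at h2
  exact h2

private theorem le_sum (a : Fin d → ℕ) (l : Fin d) : a l ≤ ∑ i, a i :=
  Finset.single_le_sum (fun _ _ => Nat.zero_le _) (Finset.mem_univ l)

theorem icl_nrm (hb : HBdd h) {m : ℕ} {f : ∀ t, (Y t).O} (hf : ∀ t, (Y t).Nrm m (f t))
    (hJ : ∀ t, (Y t).Col (Ideal.span {f t}) (m * d))
    (hJt : ∀ t, (Y t).Col (Ideal.span {(Y t).t ^ m}) (m * d)) {z : GG I σ C} (hz : Cub z) :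
    Nul (icl h hJ z - icl h hJt z) := by
  classical
  -- the multiplication matrices
  obtain ⟨Λ, hΛ⟩ := exists_asmX
    (fun t => (Algebra.leftMulMatrix (Y t).ω).toRingHom.comp (h t)) (by
      intro c
      obtain ⟨D, hD⟩ := hb c
      refine ⟨D + ∑ i, a i, fun t i j => ?_⟩
      have h1 : ((Algebra.leftMulMatrix (Y t).ω).toRingHom.comp (h t)) c i j =
          (Y t).ω.repr (h t c * (Y t).ω j) i := Algebra.leftMulMatrix_eq_repr_mul (Y t).ω _ i j
      rw [h1]
      rcases Crv.le_mul (hD t) (Crv.le_basis (Y := Y t) j) i with h2 | h2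
      · rw [h2, natDegree_zero]
        exact Nat.zero_le _
      · have := le_sum a j
        omega)
  have hW : ∀ t, WtM a m ((Y t).mat ((Y t).t ^ m - f t)) := by
    intro t
    apply Crv.wtM_mat
    have h1 := Crv.lt_neg (hf t)
    rwa [neg_sub] at h1
  obtain ⟨M', hM', hM'0⟩ := exists_asmX_mat (fun t => (Y t).mat ((Y t).t ^ m - f t))
    (m + ∑ i, a i) (by
      intro t i j
      rcases hW t i j with h1 | h1
      · rw [h1, natDegree_zero]
        exact Nat.zero_le _
      · have := le_sum a j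
        omega)
  have hWM : WtM a m M' := by
    intro l' l
    by_cases h0 : M' l' l = 0
    · exact Or.inl h0
    · right
      by_contra hcon
      push Not at hcon
      have h1 : (M' l' l).coeff (M' l' l).natDegree = 0 := by
        apply hM'0
        intro t
        rcases hW t l' l with h2 | h2
        · rw [h2, coeff_zero]
        · apply coeff_eq_zero_of_natDegree_lt
          omega
      exact h0 (leadingCoeff_eq_zero.1 h1)
  have hΛ' : ∀ t c, (Λ c).map (Polynomial.map (Pi.evalRingHom K t)) = (Y t).mat (h t c) :=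
    fun t c => congrFun (congrArg DFunLike.coe (hΛ t)) c
  have hcomm : ∀ c, Commute (Λ c) M' := by
    intro c
    show Λ c * M' = M' * Λ c
    apply ext_mat
    intro t
    have h1 : ∀ P Q : Matrix (Fin d) (Fin d) (∀ t, K t)[X],
        (P * Q).map (Polynomial.map (Pi.evalRingHom K t)) =
        P.map (Polynomial.map (Pi.evalRingHom K t)) *
          Q.map (Polynomial.map (Pi.evalRingHom K t)) := fun P Q =>
      Matrix.map_mul (f := Polynomial.mapRingHom (Pi.evalRingHom K t))
    rw [h1, h1, hM', hΛ']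
    show Algebra.leftMulMatrix (Y t).ω _ * Algebra.leftMulMatrix (Y t).ω _ =
      Algebra.leftMulMatrix (Y t).ω _ * Algebra.leftMulMatrix (Y t).ω _
    rw [← map_mul, ← map_mul, mul_comm]
  obtain ⟨ρ, hρ⟩ := exists_rep hWM Λ hcomm
  have hW0 : WtM a m (0 : Matrix (Fin d) (Fin d) (∀ t, K t)[X]) := fun _ _ => Or.inl rfl
  obtain ⟨ρ₀, hρ₀⟩ := exists_rep hW0 Λ (fun c => Commute.zero_right _)
  have hmain := rep_homotopy hWM Λ hcomm hρ hρ₀ hz
  choose b hbb using fun t => Crv.nrm_basis (hf t)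
  choose b0 hbb0 using fun t => Crv.nrm_basis (Crv.nrm_t (Y := Y t) (m := m))
  have hev : ∀ (t : T) (g : ∀ t, C →+* Matrix (Fin d × Fin m) (Fin d × Fin m) (K t)),
      ((Pi.evalRingHom K t).mapMatrix).comp (asm g) = g t := by
    intro t g
    refine RingHom.ext fun c => ?_
    ext i j
    rfl
  have e1 : ρ = famMat b (fun t => iclρ (h t) (Ideal.span {f t})) := by
    apply asm_ext
    intro t
    unfold famMat
    rw [hev]
    have h1 := hρ.map (Pi.evalRingHom K t)
    rw [hM' t, hΛ t] at h1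
    exact rep_quot (Y t) (f t) (b t) (hbb t) (h t) _ h1
  have e2 : ρ₀ = famMat b0 (fun t => iclρ (h t) (Ideal.span {(Y t).t ^ m})) := by
    apply asm_ext
    intro t
    unfold famMat
    rw [hev]
    have h1 := hρ₀.map (Pi.evalRingHom K t)
    have h2 : (0 : Matrix (Fin d) (Fin d) (∀ t, K t)[X]).map
        (Polynomial.map (Pi.evalRingHom K t)) = (Y t).mat ((Y t).t ^ m - (Y t).t ^ m) := by
      rw [sub_self]
      show _ = Algebra.leftMulMatrix (Y t).ω 0
      rw [map_zero]
      ext i j : 2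
      rw [Matrix.map_apply, Matrix.zero_apply, Matrix.zero_apply, Polynomial.map_zero]
    rw [h2, hΛ t] at h1
    exact rep_quot (Y t) ((Y t).t ^ m) (b0 t) (hbb0 t) (h t) _ h1
  rw [icl_basis hJ b, icl_basis hJt b0]
  unfold famCls
  rw [← e1, ← e2]
  exact hmain

end Pool.Agent.LGF
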