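import Pool.Agent.LGF.CNul
import Pool.Agent.LGF.CD

/-!
# Classes over number fields, and change of the ultraproduct

MODULE LGF-IndA. PLAN.
* `nul_of_algebraic`: let `F ⊆ UP k U` be the subfield of elements algebraic over `ℚ` (or the intermediate
  field generated by the image of `φ = toUP ∘ a`). `base φ z` comes from the class `z_F = base (R → F) z`;
  `F` is algebraic over `ℚ`, so there is `F → AlgebraicClosure ℚ` (`IsAlgClosed.lift`), algebraic;
  `Nul` of `z_F` over `AlgebraicClosure ℚ` by `hQ`, so `Nul z_F` (`bd_of_algebraic`, GSM/Desc.lean), so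
  `Nul (base (toUP) (base a z))`; conclude with `nul_of_UP` for `x = base a z`.
* `upRes`: for `J ∈ U` the restriction `∏_ι k → ∏_J k` induces `UP k U → UP (k|_J) (U|_J)`
  (`Ideal.quotientMap` or `Ideal.Quotient.lift`; `x` vanishes `U`-almost everywhere implies its restriction
  vanishes almost everywhere for `U.comap`).
* `charZero_comap`: the hypothesis on characteristics is inherited.
-/

noncomputable section

namespace Pool.Agent.LGF

open Pool.Agent.GSM Filter

variable {ι : Type} (k : ι → Type) [∀ i, Field (k i)] (U : Ultrafilter ι)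

/-- The restriction of an ultrafilter to one of its members. -/
def ures {J : Set ι} (hJ : J ∈ U) : Ultrafilter J :=
  U.comap Subtype.val_injective (by rw [Subtype.range_coe]; exact hJ)

theorem mem_ures {J : Set ι} (hJ : J ∈ U) {J' : Set J} :
    J' ∈ ures U hJ ↔ (Subtype.val '' J' : Set ι) ∈ U := by
  unfold ures
  exact Ultrafilter.mem_comap _ _ _

theorem eventually_ures {J : Set ι} (hJ : J ∈ U) {p : ι → Prop}
    (h : ∀ᶠ i in (U : Filter ι), p i) : ∀ᶠ i : J in (ures U hJ : Filter J), p i := by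
  unfold ures
  rw [Ultrafilter.coe_comap]
  exact h.comap _

theorem exists_upRes {J : Set ι} (hJ : J ∈ U) :
    ∃ r : UP k U →+* UP (fun i : J => k i) (ures U hJ),
      ∀ x, r (toUP k U x) = toUP (fun i : J => k i) (ures U hJ) (res k (Subtype.val : J → ι) x) := by
  refine ⟨Ideal.Quotient.lift (uIdeal k U)
    ((toUP (fun i : J => k i) (ures U hJ)).comp (res k (Subtype.val : J → ι))) ?_, ?_⟩
  · intro x hx
    have hx' : ∀ᶠ i in (U : Filter ι), x i = 0 := hx
    rw [RingHom.comp_apply]
    exact (toUP_eq_zero (fun i : J => k i) (ures U hJ)).2 (eventually_ures U hJ hx')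
  · intro x
    exact Ideal.Quotient.lift_mk _ _ _

variable {I σ : Type} [Finite I] [DecidableEq I] [Finite σ] [DecidableEq σ]

private theorem ia_field {K : Type} [Field K] [CharZero K]
    (hQ : ∀ x : GG I σ (AlgebraicClosure ℚ), Cub x → Nul x) {R : Type} [CommRing R]
    {z : GG I σ R} (hz : Cub z) (φ : R →+* K) (hφ : ∀ r, IsAlgebraic ℚ (φ r)) :
    Nul (GG.base φ z) := by
  have hF : ∀ r, φ r ∈ IntermediateField.adjoin ℚ (Set.range φ) := fun r =>
    IntermediateField.subset_adjoin ℚ _ ⟨r, rfl⟩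
  have halg : Algebra.IsAlgebraic ℚ (IntermediateField.adjoin ℚ (Set.range φ)) := by
    refine IntermediateField.isAlgebraic_adjoin ?_
    rintro x ⟨r, rfl⟩
    exact (hφ r).isIntegral
  let j : IntermediateField.adjoin ℚ (Set.range φ) →ₐ[ℚ] AlgebraicClosure ℚ := IsAlgClosed.lift
  letI : Algebra (IntermediateField.adjoin ℚ (Set.range φ)) (AlgebraicClosure ℚ) := j.toRingHom.toAlgebra
  haveI : IsScalarTower ℚ (IntermediateField.adjoin ℚ (Set.range φ)) (AlgebraicClosure ℚ) :=
    IsScalarTower.of_algebraMap_eq fun q => (j.commutes q).symm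
  have hA : Algebra.IsAlgebraic ℚ (AlgebraicClosure ℚ) := by
    have h := AlgebraicClosure.isAlgebraic ℚ
    convert h
    · rfl
    · exact Subsingleton.elim _ _
  haveI : Algebra.IsAlgebraic (IntermediateField.adjoin ℚ (Set.range φ)) (AlgebraicClosure ℚ) :=
    Algebra.IsAlgebraic.tower_top (K := ℚ) _
  have h1 : Nul (GG.base (φ.codRestrict (IntermediateField.adjoin ℚ (Set.range φ)) hF) z) := by
    refine bd_of_algebraic (Ω := AlgebraicClosure ℚ) _ ?_
    exact hQ _ ((hz.base _).base _)
  have h2 := BdOn.base (algebraMap (IntermediateField.adjoin ℚ (Set.range φ)) K) h1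
  rw [GG.base_base] at h2
  have h3 : (algebraMap (IntermediateField.adjoin ℚ (Set.range φ)) K).comp
      (φ.codRestrict (IntermediateField.adjoin ℚ (Set.range φ)) hF) = φ := by
    ext r
    rfl
  rwa [h3] at h2

theorem nul_of_algebraic (hU : ∀ N : ℕ, ∀ᶠ i in (U : Filter ι), N < ringChar (k i))
    (hQ : ∀ x : GG I σ (AlgebraicClosure ℚ), Cub x → Nul x) {R : Type} [CommRing R]
    {z : GG I σ R} (hz : Cub z) (a : R →+* ∀ i, k i)
    (ha : haveI := charZero_UP k U hU; ∀ r, IsAlgebraic ℚ (toUP k U (a r))) :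
    ∃ J ∈ U, Nul (GG.base ((res k (Subtype.val : J → ι)).comp a) z) := by
  haveI := charZero_UP k U hU
  have h1 := ia_field hQ hz ((toUP k U).comp a) ha
  rw [← GG.base_base] at h1
  obtain ⟨J, hJ, h2⟩ := nul_of_UP k U (hz.base a) h1
  refine ⟨J, hJ, ?_⟩
  rw [GG.base_base] at h2
  exact h2

end Pool.Agent.LGF
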