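import Pool.Agent.LGF.Ult

/-!
# Homomorphisms from finitely generated rings to an ultraproduct lift

MODULE LGF-Lift. Finitely many equations between representatives hold almost everywhere.
-/

noncomputable section

namespace Pool.Agent.LGF

open Pool.Agent.GSM Filter

variable {ι : Type} (k : ι → Type) [∀ i, Field (k i)] (U : Ultrafilter ι)

/-- `ρ : R → ∏_{i ∈ J} k i` represents `φ : R → UP k U`. -/
def Lifts {R : Type} [CommRing R] (φ : R →+* UP k U) (J : Set ι) (ρ : R →+* ∀ i : J, k i) : Prop :=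
  ∀ (r : R) (a : ∀ i, k i), (∀ i : J, a i = ρ r i) → toUP k U a = φ r

private theorem lift_core {R : Type} [CommRing R] [Algebra.FiniteType ℤ R] (φ : R →+* UP k U) :
    ∃ J ∈ U, ∃ ρ : R →+* ∀ i : J, k i, Lifts k U φ J ρ := by
  classical
  obtain ⟨n, π, hπ⟩ := (Algebra.FiniteType.iff_quotient_mvPolynomial'' (R := ℤ) (S := R)).1 inferInstance
  have hπ' : Function.Surjective (π : MvPolynomial (Fin n) ℤ →+* R) := hπ
  have hex : ∀ l : Fin n, ∃ a : ∀ i, k i, toUP k U a = φ (π (MvPolynomial.X l)) := fun l =>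
    toUP_surjective k U _
  choose a ha using hex
  let ev : MvPolynomial (Fin n) ℤ →+* ∀ i, k i := MvPolynomial.eval₂Hom (Int.castRingHom _) a
  have hev : (toUP k U).comp ev = φ.comp (π : MvPolynomial (Fin n) ℤ →+* R) := by
    apply MvPolynomial.ringHom_ext
    · intro z
      rw [eq_intCast (MvPolynomial.C : ℤ →+* MvPolynomial (Fin n) ℤ) z, map_intCast, map_intCast]
    · intro l
      show toUP k U (ev (MvPolynomial.X l)) = φ (π (MvPolynomial.X l))
      have h1 : ev (MvPolynomial.X l) = a l := MvPolynomial.eval₂Hom_X' _ _ _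
      rw [h1, ha l]
  obtain ⟨s, hs⟩ := (IsNoetherian.noetherian (RingHom.ker (π : MvPolynomial (Fin n) ℤ →+* R)))
  refine ⟨{i | ∀ f ∈ s, ev f i = 0}, ?_, ?_⟩
  · have h1 : ∀ᶠ i in (U : Filter ι), ∀ f ∈ s, ev f i = 0 := by
      rw [Filter.eventually_all_finset]
      intro f hf
      have h2 : f ∈ RingHom.ker (π : MvPolynomial (Fin n) ℤ →+* R) := by
        rw [← hs]
        exact Submodule.subset_span hf
      have h3 : toUP k U (ev f) = 0 := by
        have h4 : toUP k U (ev f) = φ ((π : MvPolynomial (Fin n) ℤ →+* R) f) := RingHom.congr_fun hev f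
        rw [h4, (RingHom.mem_ker).1 h2, map_zero]
      exact (toUP_eq_zero k U).1 h3
    exact h1
  · let ρ₀ : MvPolynomial (Fin n) ℤ →+* ∀ i : {i | ∀ f ∈ s, ev f i = 0}, k i :=
      (res k (Subtype.val : {i | ∀ f ∈ s, ev f i = 0} → ι)).comp ev
    have hker : RingHom.ker (π : MvPolynomial (Fin n) ℤ →+* R) ≤ RingHom.ker ρ₀ := by
      rw [← hs]
      apply Submodule.span_le.2
      intro f hf
      show f ∈ RingHom.ker ρ₀
      rw [RingHom.mem_ker]
      funext i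
      exact i.2 f hf
    refine ⟨(π : MvPolynomial (Fin n) ℤ →+* R).liftOfSurjective hπ' ⟨ρ₀, hker⟩, ?_⟩
    intro r b hb
    obtain ⟨q, hq⟩ := hπ r
    have h1 : (π : MvPolynomial (Fin n) ℤ →+* R).liftOfSurjective hπ' ⟨ρ₀, hker⟩ r = ρ₀ q := by
      rw [← hq]
      exact RingHom.liftOfRightInverse_comp_apply _ _ _ _ q
    have h2 : toUP k U b = toUP k U (ev q) := by
      rw [toUP_eq]
      have h3 : ∀ᶠ i in (U : Filter ι), ∀ f ∈ s, ev f i = 0 := by
        rw [Filter.eventually_all_finset]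
        intro f hf
        have h2 : f ∈ RingHom.ker (π : MvPolynomial (Fin n) ℤ →+* R) := by
          rw [← hs]
          exact Submodule.subset_span hf
        have h3 : toUP k U (ev f) = 0 := by
          have h4 : toUP k U (ev f) = φ ((π : MvPolynomial (Fin n) ℤ →+* R) f) := RingHom.congr_fun hev f
          rw [h4, (RingHom.mem_ker).1 h2, map_zero]
        exact (toUP_eq_zero k U).1 h3
      filter_upwards [h3] with i hi
      have h4 := hb ⟨i, hi⟩
      rw [h1] at h4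
      exact h4
    have h5 : toUP k U (ev q) = φ ((π : MvPolynomial (Fin n) ℤ →+* R) q) := RingHom.congr_fun hev q
    rw [h2, h5]
    exact congrArg φ hq

/-- extension by zero -/
private theorem lift_ext {R : Type} [CommRing R] {φ : R →+* UP k U} {J : Set ι}
    {ρ : R →+* ∀ i : J, k i} (h : Lifts k U φ J ρ) (r : R) :
    ∃ b : ∀ i, k i, (∀ i : J, b i = ρ r i) ∧ toUP k U b = φ r := by
  classical
  have h1 : ∀ i : J, (fun i : ι => if h : i ∈ J then ρ r ⟨i, h⟩ else (0 : k i)) i = ρ r i := by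
    intro i
    show (if h : (i : ι) ∈ J then ρ r ⟨i, h⟩ else (0 : k i)) = ρ r i
    rw [dif_pos i.2]
  exact ⟨fun i => if h : i ∈ J then ρ r ⟨i, h⟩ else 0, h1, h r _ h1⟩

private theorem lift_mono {R : Type} [CommRing R] {φ : R →+* UP k U} {J J' : Set ι} (hJ' : J' ∈ U)
    (hJ : J' ⊆ J) {ρ : R →+* ∀ i : J, k i} (h : Lifts k U φ J ρ) :
    Lifts k U φ J' ((res (fun i : J => k i) (fun i : J' => ⟨i, hJ i.2⟩)).comp ρ) := by
  intro r a ha
  obtain ⟨b, hb, hb'⟩ := lift_ext k U h r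
  rw [← hb', toUP_eq]
  have h1 : ∀ᶠ i in (U : Filter ι), i ∈ J' := hJ'
  filter_upwards [h1] with i hi
  have h2 : b i = ρ r ⟨i, hJ hi⟩ := hb ⟨i, hJ hi⟩
  rw [h2]
  exact ha ⟨i, hi⟩

theorem exists_lift {R : Type} [CommRing R] [Algebra.FiniteType ℤ R] (φ : R →+* UP k U) :
    ∃ J ∈ U, ∃ ρ : R →+* ∀ i : J, k i, Lifts k U φ J ρ :=
  lift_core k U φ

theorem exists_lift_over {R₀ R : Type} [CommRing R₀] [Algebra.FiniteType ℤ R₀] [CommRing R]
    [Algebra.FiniteType ℤ R] (g : R₀ →+* R) (φ : R →+* UP k U) (a₀ : R₀ →+* ∀ i, k i)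
    (h : (toUP k U).comp a₀ = φ.comp g) :
    ∃ J ∈ U, ∃ ρ : R →+* ∀ i : J, k i, Lifts k U φ J ρ ∧
      ρ.comp g = (res k (Subtype.val : J → ι)).comp a₀ := by
  classical
  obtain ⟨J, hJ, ρ, hρ⟩ := lift_core k U φ
  obtain ⟨n, π, hπ⟩ := (Algebra.FiniteType.iff_quotient_mvPolynomial'' (R := ℤ) (S := R₀)).1 inferInstance
  have hex : ∀ l : Fin n, ∃ b : ∀ i, k i, (∀ i : J, b i = ρ (g (π (MvPolynomial.X l))) i) ∧
      toUP k U b = φ (g (π (MvPolynomial.X l))) := fun l => lift_ext k U hρ _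
  choose b hb hb' using hex
  have h1 : ∀ᶠ i in (U : Filter ι), ∀ l, b l i = a₀ (π (MvPolynomial.X l)) i := by
    rw [Filter.eventually_all]
    intro l
    rw [← toUP_eq, hb' l]
    exact (RingHom.congr_fun h (π (MvPolynomial.X l))).symm
  let J' : Set ι := J ∩ {i | ∀ l, b l i = a₀ (π (MvPolynomial.X l)) i}
  have hJ'U : J' ∈ U := Filter.inter_mem hJ h1
  have hJ' : J' ⊆ J := Set.inter_subset_left
  refine ⟨J', hJ'U, (res (fun i : J => k i) (fun i : J' => ⟨i, hJ' i.2⟩)).comp ρ, lift_mono k U hJ'U hJ' hρ, ?_⟩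
  have h2 : ((((res (fun i : J => k i) (fun i : J' => ⟨i, hJ' i.2⟩)).comp ρ).comp g).comp
      (π : MvPolynomial (Fin n) ℤ →+* R₀)) =
      (((res k (Subtype.val : J' → ι)).comp a₀).comp (π : MvPolynomial (Fin n) ℤ →+* R₀)) := by
    apply MvPolynomial.ringHom_ext
    · intro z
      rw [eq_intCast (MvPolynomial.C : ℤ →+* MvPolynomial (Fin n) ℤ) z, map_intCast, map_intCast]
    · intro l
      funext i
      show ρ (g (π (MvPolynomial.X l))) ⟨i, hJ' i.2⟩ = a₀ (π (MvPolynomial.X l)) i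
      rw [← hb l ⟨i, hJ' i.2⟩]
      exact i.2.2 l
  have hπ' : Function.Surjective (π : MvPolynomial (Fin n) ℤ →+* R₀) := hπ
  exact (RingHom.cancel_right hπ').1 h2

/-- Restriction of a lift to a smaller set. -/
theorem Lifts.mono {R : Type} [CommRing R] {φ : R →+* UP k U} {J J' : Set ι} (hJ' : J' ∈ U)
    (hJ : J' ⊆ J) {ρ : R →+* ∀ i : J, k i} (h : Lifts k U φ J ρ) :
    Lifts k U φ J' ((res (fun i : J => k i) (fun i : J' => ⟨i, hJ i.2⟩)).comp ρ) :=
  lift_mono k U hJ' hJ h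

/-- A property of finitely many values: `φ r = 0` implies `ρ r i = 0` almost everywhere, and
`φ r ≠ 0` implies `ρ r i ≠ 0` almost everywhere. -/
theorem Lifts.eventually_eq_zero {R : Type} [CommRing R] {φ : R →+* UP k U} {J : Set ι}
    (hJ : J ∈ U) {ρ : R →+* ∀ i : J, k i} (h : Lifts k U φ J ρ) (r : R) :
    (φ r = 0 ↔ ∃ J' ∈ U, ∀ i : J, (i : ι) ∈ J' → ρ r i = 0) ∧
    (φ r ≠ 0 ↔ ∃ J' ∈ U, ∀ i : J, (i : ι) ∈ J' → ρ r i ≠ 0) := by
  obtain ⟨b, hb, hb'⟩ := lift_ext k U h r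
  have h1 : ∀ᶠ i in (U : Filter ι), i ∈ J := hJ
  constructor
  · rw [← hb', toUP_eq_zero]
    constructor
    · intro h2
      refine ⟨{i | b i = 0}, h2, ?_⟩
      intro i hi
      rw [← hb i]
      exact hi
    · rintro ⟨J', hJ', h2⟩
      have h3 : ∀ᶠ i in (U : Filter ι), i ∈ J' := hJ'
      filter_upwards [h1, h3] with i hi hi'
      have h4 : b i = ρ r ⟨i, hi⟩ := hb ⟨i, hi⟩
      rw [h4]
      exact h2 ⟨i, hi⟩ hi'
  · rw [Ne, ← hb', toUP_eq_zero, ← Ultrafilter.eventually_not]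
    constructor
    · intro h2
      refine ⟨{i | ¬ b i = 0}, h2, ?_⟩
      intro i hi
      rw [← hb i]
      exact hi
    · rintro ⟨J', hJ', h2⟩
      have h3 : ∀ᶠ i in (U : Filter ι), i ∈ J' := hJ'
      filter_upwards [h1, h3] with i hi hi'
      have h4 : b i = ρ r ⟨i, hi⟩ := hb ⟨i, hi⟩
      rw [h4]
      exact h2 ⟨i, hi⟩ hi'

end Pool.Agent.LGF
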