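import Pool.Agent.LGF.Sgl
import Pool.Agent.LGF.IclN
import Pool.Agent.LGF.Lift

/-!
# A uniform family of curves

MODULE LGF-IndB. PLAN. `exists_single D` gives `B`, `w`. The set `J₁` of `i ∈ J` with `B < ringChar (k i)`
and `ρ_i (δ(t)) ≠ 0` is in `U` (`hU`, `Lifts.eventually_eq_zero`, `D.δ_ne`). For `i ∈ J₁` choose the data.
The tuple `(d, a, Np, Nq)` takes finitely many values (`d ≤ B`, `a l ≤ B`, `Np, Nq ≤ B`): on a set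
`J' ∈ U` it is constant (finite union of sets in an ultrafilter: e.g. map `U` to a finite type,
`Ultrafilter` on a finite type is principal; or `Ultrafilter.finite_biUnion_mem_iff`). Transport the data
(`subst`).
-/

noncomputable section

namespace Pool.Agent.LGF

open Pool.Agent.GSM Filter Polynomial

/-- the data of one curve -/
private def PP {K : Type} [Field K] [CharZero K] {C : Subring K} {m : ℕ} (D : CD C m) (w : C → ℕ)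
    {κ : Type} [Field κ] (ρ : C →+* κ) (d : ℕ) (a : Fin d → ℕ) (Np Nq : ℕ) : Prop :=
  ∃ (Y : Crv κ d a) (h : C →+* Y.O) (𝔭 𝔮 : Ideal Y.O),
    (∀ c, Y.Le (h c) (w c)) ∧
    (∀ c, h c - algebraMap κ Y.O (ρ c) ∈ 𝔭) ∧ 𝔮.IsMaximal ∧ Y.t ∈ 𝔮 ∧
    Y.Col 𝔭 Np ∧ 0 < Np ∧ Y.Col 𝔮 Nq ∧ 0 < Nq ∧
    (∀ s : D.S, h (Subring.inclusion D.le s) =
      algebraMap κ Y.O (ρ (Subring.inclusion D.le s))) ∧
    ∀ c (χ : D.S[X][X]), ev2 (Subring.inclusion D.le) D.t c χ = 0 →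
      (χ.map (Polynomial.constantCoeff)).eval₂ (h.comp (Subring.inclusion D.le)) (h c) ∈ 𝔮

variable {ι : Type} (k : ι → Type) [∀ i, Field (k i)] (U : Ultrafilter ι)

theorem uniform_curve (hU : ∀ N : ℕ, ∀ᶠ i in (U : Filter ι), N < ringChar (k i))
    [CharZero (UP k U)] {C : Subring (UP k U)} {m : ℕ} (D : CD C m) {J : Set ι} (hJ : J ∈ U)
    (ρ : C →+* ∀ i : J, k i) (hρ : Lifts k U C.subtype J ρ) :
    ∃ (J' : Set ι) (_ : J' ∈ U) (hJ' : J' ⊆ J) (d : ℕ) (a : Fin d → ℕ) (Np Nq : ℕ)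
      (Y : ∀ i : J', Crv (k i) d a) (h : ∀ i : J', C →+* (Y i).O)
      (𝔭 𝔮 : ∀ i : J', Ideal (Y i).O),
      HBdd h ∧
      (∀ i c, h i c - algebraMap (k i) (Y i).O (ρ c ⟨i, hJ' i.2⟩) ∈ 𝔭 i) ∧
      (∀ i, (𝔮 i).IsMaximal) ∧ (∀ i, (Y i).t ∈ 𝔮 i) ∧
      (∀ i, (Y i).Col (𝔭 i) Np) ∧ (∀ i, (Y i).Col (𝔮 i) Nq) ∧ 0 < Np ∧ 0 < Nq ∧
      (∀ i, ∀ s : D.S, h i (Subring.inclusion D.le s) =
          algebraMap (k i) (Y i).O (ρ (Subring.inclusion D.le s) ⟨i, hJ' i.2⟩)) ∧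
      ∀ i, ∀ c (χ : D.S[X][X]), ev2 (Subring.inclusion D.le) D.t c χ = 0 →
        (χ.map (Polynomial.constantCoeff)).eval₂ ((h i).comp (Subring.inclusion D.le)) (h i c) ∈
          𝔮 i := by
  classical
  obtain ⟨B, w, hB, hs⟩ := exists_single D
  set r : C := D.δ.eval₂ (Subring.inclusion D.le) D.t with hr
  have hr0 : C.subtype r ≠ 0 := fun h => D.δ_ne (Subtype.ext h)
  obtain ⟨J₀, hJ₀, hne⟩ := (Lifts.eventually_eq_zero k U hJ hρ r).2.1 hr0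
  let T : Type := Σ d : Fin (B + 1), (Fin d → Fin (B + 1)) × Fin (B + 1) × Fin (B + 1)
  let P : T → ι → Prop := fun τ i => ∃ hi : i ∈ J,
    PP D w ((Pi.evalRingHom (fun i : J => k i) ⟨i, hi⟩).comp ρ) τ.1 (fun l => (τ.2.1 l : ℕ)) τ.2.2.1 τ.2.2.2
  have hev : ∀ᶠ i in (U : Filter ι), ∃ τ : T, P τ i := by
    filter_upwards [hU B, hJ, hJ₀] with i h1 h2 h3
    obtain ⟨d, a, Y, h, 𝔭, 𝔮, Np, Nq, hd, ha, c1, c2, c3, c4, c5, c6, c7, c8, c9, c10, c11, c12⟩ :=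
      hs (k i) ((Pi.evalRingHom (fun i : J => k i) ⟨i, h2⟩).comp ρ) (hne ⟨i, h2⟩ h3) (Or.inr h1)
    exact ⟨⟨⟨d, by omega⟩, fun l => ⟨a l, by have := ha l; omega⟩, ⟨Np, by omega⟩, ⟨Nq, by omega⟩⟩, h2,
      Y, h, 𝔭, 𝔮, c1, c2, c3, c4, c5, c6, c8, c9, c11, c12⟩
  obtain ⟨τ, hτ⟩ := Ultrafilter.eventually_exists_iff.1 hev
  have hJ' : {i | P τ i} ⊆ J := fun i hi => hi.1
  have hdat : ∀ i : {i | P τ i}, PP D w ((Pi.evalRingHom (fun i : J => k i) ⟨i, hJ' i.2⟩).comp ρ) τ.1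
      (fun l => (τ.2.1 l : ℕ)) τ.2.2.1 τ.2.2.2 := fun i => i.2.2
  choose Y h 𝔭 𝔮 c1 c2 c3 c4 c5 c6 c7 c8 c9 c10 using hdat
  obtain ⟨i0, hi0⟩ := U.nonempty_of_mem hτ
  exact ⟨{i | P τ i}, hτ, hJ', τ.1, fun l => (τ.2.1 l : ℕ), τ.2.2.1, τ.2.2.2, Y, h, 𝔭, 𝔮,
    fun c => ⟨w c, fun t => c1 t c⟩, c2, c3, c4, c5, c7, c6 ⟨i0, hi0⟩, c8 ⟨i0, hi0⟩, c9, c10⟩

end Pool.Agent.LGF
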