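import Pool.Agent.LGF.CD
import Pool.Agent.LGF.IndA

/-!
# The transcendence degree drops at the second point

MODULE LGF-IndC. PLAN. `g i : k i → κ i` induce `G : UP k U → UP κ U` with `G ∘ toUP k U = toUP κ U ∘ pmap g`.
`G` is injective and maps `ℚ(x_1..x_m)` into `ℚ(G x_1..G x_m)`. For `s : S`: `toUP κ (Q (incl s)) =
G (toUP k (ρ s))` is algebraic over `ℚ(G x)` by `hS`. For `c : C` the polynomial `χ₀ : S[X]`, monic, has
`χ₀(c) = 0` in every `κ i`, so in `UP κ U`: `toUP κ (Q c)` is integral over the image of `S`, whose elements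
are algebraic over `ℚ(G x)`; so it is algebraic (the relative algebraic closure of
`ℚ(G x)` in `UP κ U` is algebraically closed in it: `IsAlgebraic`/`integralClosure` transitivity).
`algLE_upRes`: apply the embedding `exists_upRes` to `AlgLE`.
-/

noncomputable section

namespace Pool.Agent.LGF

open Pool.Agent.GSM Filter Polynomial

theorem AlgLE.map {K K' : Type} [Field K] [CharZero K] [Field K'] [CharZero K'] {R : Type}
    [CommRing R] {φ : R →+* K} {m : ℕ} (h : AlgLE φ m) (f : K →+* K') : AlgLE (f.comp φ) m := by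
  obtain ⟨x, hx⟩ := h
  refine ⟨fun i => f (x i), fun r => ?_⟩
  have hmem : ∀ y ∈ IntermediateField.adjoin ℚ (Set.range x),
      f y ∈ IntermediateField.adjoin ℚ (Set.range fun i => f (x i)) := by
    intro y hy
    have h1 : IntermediateField.adjoin ℚ (Set.range x) ≤
        (IntermediateField.adjoin ℚ (Set.range fun i => f (x i))).comap f.toRatAlgHom := by
      rw [IntermediateField.adjoin_le_iff]
      rintro _ ⟨i, rfl⟩
      exact IntermediateField.subset_adjoin _ _ ⟨i, rfl⟩
    exact h1 hy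
  let g : IntermediateField.adjoin ℚ (Set.range x) →+*
      IntermediateField.adjoin ℚ (Set.range fun i => f (x i)) :=
    (f.comp (algebraMap (IntermediateField.adjoin ℚ (Set.range x)) K)).codRestrict _
      (fun y => hmem y y.2)
  exact IsAlgebraic.ringHom_of_comp_eq g f (hx r) g.injective rfl

theorem algLE_of_integral {K : Type} [Field K] [CharZero K] {S C : Type} [CommRing S] [CommRing C]
    (f : S →+* C) (φ : C →+* K) {m : ℕ} (h : AlgLE (φ.comp f) m)
    (hint : ∀ c, ∃ χ : S[X], χ.Monic ∧ χ.eval₂ (φ.comp f) (φ c) = 0) : AlgLE φ m := by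
  obtain ⟨x, hx⟩ := h
  refine ⟨x, fun c => ?_⟩
  obtain ⟨χ, h1, h2⟩ := hint c
  obtain ⟨F, hF⟩ : ∃ F : IntermediateField ℚ K, F = IntermediateField.adjoin ℚ (Set.range x) := ⟨_, rfl⟩
  rw [← hF] at hx ⊢
  have hmem : ∀ s, (φ.comp f) s ∈ algebraicClosure F K := fun s =>
    mem_algebraicClosure_iff.2 (hx s)
  let g : S →+* algebraicClosure F K := (φ.comp f).codRestrict _ hmem
  have h3 : IsAlgebraic (algebraicClosure F K) (φ c) := by
    refine ⟨χ.map g, (h1.map g).ne_zero, ?_⟩
    rw [Polynomial.aeval_def, Polynomial.eval₂_map]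
    exact h2
  exact h3.restrictScalars F

variable {ι : Type} {k κ : ι → Type} [∀ i, Field (k i)] [∀ i, Field (κ i)] (U : Ultrafilter ι)

theorem exists_upMap (g : ∀ i, k i →+* κ i) :
    ∃ G : UP k U →+* UP κ U, ∀ x, G (toUP k U x) = toUP κ U (pmap k g x) := by
  refine ⟨Ideal.Quotient.lift (uIdeal k U) ((toUP κ U).comp (pmap k g)) ?_, fun x => rfl⟩
  intro a ha
  have h1 : ∀ᶠ i in (U : Filter ι), a i = 0 := ha
  rw [RingHom.comp_apply, toUP_eq_zero]
  filter_upwards [h1] with i hi
  rw [pmap_apply, hi, map_zero]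

theorem algLE_second [CharZero (UP k U)] [CharZero (UP κ U)] (g : ∀ i, k i →+* κ i) {S C : Type}
    [CommRing S] [CommRing C] (f : S →+* C) (ρ : S →+* ∀ i, k i) (Q : C →+* ∀ i, κ i)
    (hQρ : ∀ s i, Q (f s) i = g i (ρ s i))
    (hint : ∀ c, ∃ χ : S[X], χ.Monic ∧ ∀ i, χ.eval₂ ((Pi.evalRingHom κ i).comp (Q.comp f)) (Q c i) = 0)
    {m : ℕ} (h : AlgLE ((toUP k U).comp ρ) m) : AlgLE ((toUP κ U).comp Q) m := by
  obtain ⟨G, hG⟩ := exists_upMap U g
  refine algLE_of_integral f _ (m := m) ?_ ?_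
  · have h1 := h.map G
    have h2 : G.comp ((toUP k U).comp ρ) = ((toUP κ U).comp Q).comp f := by
      refine RingHom.ext fun s => ?_
      rw [RingHom.comp_apply, RingHom.comp_apply, hG, RingHom.comp_apply, RingHom.comp_apply]
      congr 1
      funext i
      rw [pmap_apply, hQρ]
    rw [h2] at h1
    exact h1
  · intro c
    obtain ⟨χ, h1, h2⟩ := hint c
    refine ⟨χ, h1, ?_⟩
    have h3 : χ.eval₂ (Q.comp f) (Q c) = 0 := by
      funext i
      have h4 := Polynomial.hom_eval₂ χ (Q.comp f) (Pi.evalRingHom κ i) (Q c)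
      exact h4.trans (h2 i)
    have h5 := Polynomial.hom_eval₂ χ (Q.comp f) (toUP κ U) (Q c)
    rw [h3, map_zero] at h5
    exact h5.symm

end Pool.Agent.LGF
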