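import Pool.Agent.LGF.Tam1
import Pool.Agent.LGF.Asm

/-!
# Transfer of tame classes

MODULE LGF-Tam3. PLAN. `m` is unchanged; the new family is the transfer
`corr (asm fun s : ι × ℕ => (lam s.1) ∘ eval s)` of the family `y` over `∏_{ι × ℕ} κ s.1`. All reindexings
commute with `asm` (`map_asm`, `asm_ext`; `GG.base_corr`, `GG.corr_base`), use `BdOn.corr`. Finally
`m i ≤ card (κ i) ^ c ≤ card (k i) ^ (s * c)`.
-/

noncomputable section

namespace Pool.Agent.LGF

open Pool.Agent.GSM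

variable {ι : Type} {k κ : ι → Type} [∀ i, CommRing (k i)] [∀ i, CommRing (κ i)] {I σ : Type} [DecidableEq I] [DecidableEq σ] {c : ℕ}
  {δ : Type} [Fintype δ] [DecidableEq δ]

/-- The transfer along a family of representations `κ i → Matrix δ δ (k i)`. -/
def trf (lam : ∀ i, κ i →+* Matrix δ δ (k i)) : (∀ i, κ i) →+* Matrix δ δ (∀ i, k i) :=
  asm fun i => (lam i).comp (Pi.evalRingHom κ i)

/-- The transfer of families over `ι × A`. -/
private def t3_trf (A : Type) (lam : ∀ i, κ i →+* Matrix δ δ (k i)) :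
    (∀ s : ι × A, κ s.1) →+* Matrix δ δ (∀ s : ι × A, k s.1) :=
  trf (ι := ι × A) (k := fun s => k s.1) (κ := fun s => κ s.1) fun s => lam s.1

private theorem t3_at {A : Type} (lam : ∀ i, κ i →+* Matrix δ δ (k i)) (φ : ι → A) :
    ((at_ k φ).mapMatrix).comp (t3_trf A lam) = (trf lam).comp (at_ κ φ) := by
  ext z i j t
  rfl

private theorem t3_rr {A B : Type} (lam : ∀ i, κ i →+* Matrix δ δ (k i)) (φ : ι → B → A) :
    ((rr k φ).mapMatrix).comp (t3_trf A lam) = (t3_trf B lam).comp (rr κ φ) := by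
  ext z i j t
  rfl

omit [DecidableEq I] [DecidableEq σ] in
private theorem t3_corr_at {A : Type} (lam : ∀ i, κ i →+* Matrix δ δ (k i)) (φ : ι → A)
    (y : GG I σ (∀ s : ι × A, κ s.1)) :
    GG.base (at_ k φ) (GG.corr (t3_trf A lam) y) = GG.corr (trf lam) (GG.base (at_ κ φ) y) := by
  rw [GG.base_corr, GG.corr_base, t3_at]

omit [DecidableEq I] [DecidableEq σ] in
private theorem t3_corr_rr {A B : Type} (lam : ∀ i, κ i →+* Matrix δ δ (k i)) (φ : ι → B → A)
    (y : GG I σ (∀ s : ι × A, κ s.1)) :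
    GG.base (rr k φ) (GG.corr (t3_trf A lam) y) = GG.corr (t3_trf B lam) (GG.base (rr κ φ) y) := by
  rw [GG.base_corr, GG.corr_base, t3_rr]

theorem IsTame.trf {x : GG I σ (∀ i, κ i)} (lam : ∀ i, κ i →+* Matrix δ δ (k i)) {s : ℕ}
    (hs : ∀ i, Nat.card (κ i) ≤ Nat.card (k i) ^ s) (h : IsTame κ c x) :
    IsTame k (s * c) (GG.corr (trf lam) x) := by
  obtain ⟨m, hm, y, hy1, hy2, hy3, hy4⟩ := h
  refine ⟨m, fun i => ⟨(hm i).1, ?_⟩, GG.corr (t3_trf ℕ lam) y, IsCubeOn.corr _ hy1, ?_, ?_, ?_⟩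
  · refine (hm i).2.trans ?_
    rw [pow_mul]
    exact Nat.pow_le_pow_left (hs i) c
  · rw [t3_corr_at, ← map_sub]
    exact BdOn.corr _ hy2
  · rw [t3_corr_rr, t3_corr_rr, t3_corr_rr, ← map_sub, ← map_sub]
    exact BdOn.corr _ hy3
  · rw [t3_corr_rr]
    exact BdOn.corr _ hy4

end Pool.Agent.LGF
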