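import Pool.Agent.LGF.Jac
import Pool.Agent.LGF.Tam3

/-!
# Two points of a curve differ by a tame class

MODULE LGF-Jac2. The divisor `Nq • 𝔭 + Np • 𝔮'`, `𝔮'` complementary to `𝔮`, has degree `Np * d`.
-/

noncomputable section

namespace Pool.Agent.LGF

open Pool.Agent.GSM Module Polynomial

variable {ι : Type} {k : ι → Type} [∀ i, Field (k i)] [∀ i, Finite (k i)] {d : ℕ} {a : Fin d → ℕ}
  {Y : ∀ i, Crv (k i) d a} {C : Type} [CommRing C] {h : ∀ i, C →+* (Y i).O}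
  {𝔭 𝔮 : ∀ i, Ideal (Y i).O} {Np Nq : ℕ}
variable {I σ : Type} [DecidableEq I] [DecidableEq σ]

omit [∀ i, Finite (k i)] in
/-- the complement of `𝔮` in `(t)` -/
private theorem jac2_compl {K : Type} [Field K] {Z : Crv K d a} {𝔯 : Ideal Z.O} (hr : Z.Col 𝔯 Nq) (ht : Z.t ∈ 𝔯) :
    Nq ≤ d ∧ ∃ 𝔯' : Ideal Z.O, 𝔯 * 𝔯' = Ideal.span {Z.t} ∧ Z.Col 𝔯' (d - Nq) := by
  have h1 : Z.Col (Ideal.span {Z.t}) d := by
    have h2 := Crv.col_t (Y := Z) 1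
    rw [pow_one, one_mul] at h2
    exact h2
  have h0 : Z.t ≠ 0 := by
    have h2 := Crv.nrm_ne_zero (Crv.nrm_t (Y := Z) (m := 1))
    rw [pow_one] at h2
    exact h2
  obtain ⟨𝔯', hr'⟩ := Crv.exists_compl ht h0
  have hne : 𝔯 * 𝔯' ≠ ⊥ := by
    rw [hr']
    intro h
    exact h0 (Ideal.span_singleton_eq_bot.1 h)
  have hne1 : 𝔯 ≠ ⊥ := by
    rintro rfl
    exact hne (Ideal.bot_mul _)
  have hne2 : 𝔯' ≠ ⊥ := by
    rintro rfl
    exact hne (Ideal.mul_bot _)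
  obtain ⟨M, M', hM, hM', hs⟩ := Crv.col_of_mul hne1 hne2 (hr' ▸ h1)
  have h3 : M = Nq := Crv.col_unique hM hr
  have h4 : M' = d - Nq := by omega
  exact ⟨by omega, 𝔯', hr', h4 ▸ hM'⟩

/-- the class of `𝔮` is tame -/
private theorem jac2_q (hq : ∀ i, (Y i).Col (𝔮 i) Nq) {z : GG I σ C} {c : ℕ}
    (hQ : IsTame (fun i => (Y i).O ⧸ 𝔮 i) c
      (GG.base (RingHom.pi fun i => (Ideal.Quotient.mk (𝔮 i)).comp (h i)) z)) :
    IsTame k (Nq * c) (icl h hq z) := by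
  have h1 := famCls_trf (κ := fun i => (Y i).O ⧸ 𝔮 i) (fun i => iclB (hq i)) (fun i => iclρ (h i) (𝔮 i))
    (fun i => (Algebra.lmul (k i) ((Y i).O ⧸ 𝔮 i)).toRingHom) (fun i => (Ideal.Quotient.mk (𝔮 i)).comp (h i))
    (fun i c => rfl) z
  have h2 : icl h hq z = GG.corr (trf fun i =>
      (LinearMap.toMatrixAlgEquiv (iclB (hq i))).toRingEquiv.toRingHom.comp
        ((Algebra.lmul (k i) ((Y i).O ⧸ 𝔮 i)).toRingHom))
      (GG.base (RingHom.pi fun i => (Ideal.Quotient.mk (𝔮 i)).comp (h i)) z) := h1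
  rw [h2]
  refine IsTame.trf _ (fun i => ?_) hQ
  have := (hq i).1
  rw [Module.natCard_eq_pow_finrank (K := k i) (V := (Y i).O ⧸ 𝔮 i), (hq i).2]

theorem tame_point (hb : HBdd h) (hp : ∀ i, (Y i).Col (𝔭 i) Np) (hq : ∀ i, (Y i).Col (𝔮 i) Nq)
    (hNp : 0 < Np) (hNq : 0 < Nq) (htq : ∀ i, (Y i).t ∈ 𝔮 i) (P : ∀ i, C →+* k i)
    (hP : ∀ i c, h i c - algebraMap (k i) (Y i).O (P i c) ∈ 𝔭 i)
    {z : GG I σ C} (hz : Cub z) {c : ℕ}
    (hQ : IsTame (fun i => (Y i).O ⧸ 𝔮 i) c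
      (GG.base (RingHom.pi fun i => (Ideal.Quotient.mk (𝔮 i)).comp (h i)) z)) :
    ∃ c', IsTame k c' (GG.base (RingHom.pi P) z) := by
  rcases isEmpty_or_nonempty ι with hι | hι
  · have h0 : GG.base (RingHom.pi P) z = 0 := gg_eq_zero_of_subsingleton _
    rw [h0]
    exact ⟨0, isTame_of_nul (BdOn.zero _ _)⟩
  obtain ⟨i₀⟩ := id hι
  have hNqd : Nq ≤ d := (jac2_compl (hq i₀) (htq i₀)).1
  choose 𝔮' hqq hq' using fun i => (jac2_compl (hq i) (htq i)).2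
  have ht : ∀ i, (Y i).Col (Ideal.span {(Y i).t}) d := by
    intro i
    have h2 := Crv.col_t (Y := Y i) 1
    rw [pow_one, one_mul] at h2
    exact h2
  have hpN : ∀ i, (Y i).Col (𝔭 i ^ Nq) (Nq * Np) := fun i => Crv.col_pow (hp i) Nq
  have hqN : ∀ i, (Y i).Col (𝔮' i ^ Np) (Np * (d - Nq)) := fun i => Crv.col_pow (hq' i) Np
  have hm : ∀ i, (Y i).Col (𝔭 i ^ Nq * 𝔮' i ^ Np) (Nq * Np + Np * (d - Nq)) := fun i =>
    Crv.col_mul (hpN i) (hqN i)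
  have hN : Nq * Np + Np * (d - Nq) = Np * d := by
    rw [mul_comm Nq Np, ← mul_add, Nat.add_sub_cancel' hNqd]
  have ha : ∀ i, (Y i).Col (𝔭 i ^ Nq * 𝔮' i ^ Np) (Np * d) := fun i => hN ▸ hm i
  have hqq' : ∀ i, (Y i).Col (𝔮 i * 𝔮' i) (Nq + (d - Nq)) := fun i => Crv.col_mul (hq i) (hq' i)
  have e1 := icl_pow (h := h) Nq hp hpN hz
  have e2 := icl_pow (h := h) Np hq' hqN hz
  have e3 := icl_mul (h := h) hpN hqN hm hz
  have e4 := icl_mul (h := h) hq hq' hqq' hz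
  have e5 : icl h hm z = icl h ha z := icl_congr hm ha (fun _ => rfl) z
  have e6 : icl h hqq' z = icl h ht z := icl_congr hqq' ht hqq z
  rw [e5] at e3
  rw [e6] at e4
  have e7 := ((e3.add e1).add e2).sub (e4.smul (Np : ℚ))
  have e8 : icl h ha z - (icl h hpN z + icl h hqN z) + (icl h hpN z - (Nq : ℚ) • icl h hp z) +
      (icl h hqN z - (Np : ℚ) • icl h hq' z) -
      (Np : ℚ) • (icl h ht z - (icl h hq z + icl h hq' z)) =
      icl h ha z - (Np : ℚ) • icl h ht z - ((Nq : ℚ) • icl h hp z - (Np : ℚ) • icl h hq z) := by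
    rw [smul_sub, smul_add]
    abel
  rw [e8] at e7
  have t1 := (tame_icl hb ha ht hz).congr e7
  have t2 := (jac2_q hq hQ).smul (Np : ℚ)
  have t3 := t1.add t2
  rw [sub_add_cancel, icl_scalar hp P hP z] at t3
  have t4 := t3.smul (((Nq : ℚ) * (Np : ℚ))⁻¹)
  have hne : ((Nq : ℚ) * (Np : ℚ)) ≠ 0 :=
    mul_ne_zero (Nat.cast_ne_zero.2 hNq.ne') (Nat.cast_ne_zero.2 hNp.ne')
  rw [smul_smul (Nq : ℚ), smul_smul, inv_mul_cancel₀ hne, one_smul] at t4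
  exact ⟨_, t4⟩

end Pool.Agent.LGF
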