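import Pool.Agent.LGF.IndB
import Pool.Agent.LGF.IndC
import Pool.Agent.LGF.Jac2
import Pool.Agent.LGF.ExCD

/-!
# The main induction

MODULE LGF-IndD. PLAN. Strong induction on `m`. Let `K = UP k U` (characteristic zero by `charZero_UP`),
`φ = toUP ∘ a`. `exists_CD φ` : (1) all values algebraic over `ℚ`: `nul_of_algebraic` and `isTame_of_nul`.
(2) `m' < m`, `C ≤ K`, `φ.range ≤ C`, `D : CD C m'`. Let `φ' : R → C`. `exists_lift_over` with
`g = φ'`, `φ = C.subtype`, `a₀ = a` gives `J ∈ U`, `ρ : C → ∏_J k`, `Lifts`, `ρ ∘ φ' = res ∘ a`.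
`uniform_curve` gives `J'` and the family of curves over `J'`. Let `ι' = J'`, `U' = ures U hJ'`,
`κ i = O / 𝔮 i` with the field structure `Ideal.Quotient.field (𝔮 i)`, finite (`Col`, `k i` finite).
`Q i = mk ∘ h i`. The induction hypothesis for `m'`, `(ι', κ, U')`, the ring `C`, the class
`z' = base φ' z` and `Q : C → ∏ κ`: the characteristics of `κ i` and `k i` agree (`algebraMap k κ`);
`AlgLE` by `algLE_second` with `S = D.S`, `ρ|_S` restricted to `J'`, `g i = algebraMap`, and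
`AlgLE (toUP ∘ ρ|_S) m'` which follows from `D.alg`, `exists_upRes` and `Lifts` (`AlgLE.map`). It gives
`J'' ∈ U'` and tameness of `base (res ∘ Q) z'` over `J''`. Restrict the curves to `J''` and apply
`tame_point` (`P i = ρ_i`) to get `IsTame (k|_{J''}) c' (base (pi P) z')`, where
`base (pi P) z' = base (res ∘ a) z`. Finally replace `J'' : Set J'` by `Subtype.val '' J'' : Set ι`
(`mem_ures`; `IsTame.res` along the bijection `(Subtype.val '' J'') → J''`).
Universe and instance remark: the induction must quantify over all `ι`, `k`, `U`, `R`, `z`, `a`.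
-/

noncomputable section

namespace Pool.Agent.LGF

open Pool.Agent.GSM Filter Polynomial

variable {I σ : Type} [Finite I] [DecidableEq I] [Finite σ] [DecidableEq σ]

theorem main_ind (hQ : ∀ x : GG I σ (AlgebraicClosure ℚ), Cub x → Nul x) (m : ℕ) :
    ∀ (ι : Type) (k : ι → Type) [∀ i, Field (k i)] [∀ i, Finite (k i)] (U : Ultrafilter ι)
      (hU : ∀ N : ℕ, ∀ᶠ i in (U : Filter ι), N < ringChar (k i)) (R : Type) [CommRing R]
      [Algebra.FiniteType ℤ R] (z : GG I σ R) (_ : Cub z) (a : R →+* ∀ i, k i)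
      (_ : haveI := charZero_UP k U hU; AlgLE ((toUP k U).comp a) m),
      ∃ J ∈ U, ∃ c, IsTame (fun i : J => k i) c
        (GG.base ((res k (Subtype.val : J → ι)).comp a) z) := by
  classical
  induction m using Nat.strong_induction_on with
  | _ m ih =>
  intro ι k _ _ U hU R _ _ z hz a ha
  haveI := charZero_UP k U hU
  rcases exists_CD ((toUP k U).comp a) ha with halg | ⟨m', C, hm', hle, hCft, ⟨D⟩⟩
  · obtain ⟨J, hJ, hn⟩ := nul_of_algebraic k U hU hQ hz a halg
    exact ⟨J, hJ, 0, isTame_of_nul hn⟩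
  -- the lift
  let φ' : R →+* C := ((toUP k U).comp a).codRestrict C (fun x => hle ⟨x, rfl⟩)
  obtain ⟨J, hJ, ρ, hρ, hρa⟩ := exists_lift_over k U φ' C.subtype a rfl
  obtain ⟨J', hJ'U, hJ'J, d, a', Np, Nq, Y, h, 𝔭, 𝔮, hb, hP, hmax, ht, hCp, hCq, hNp, hNq, hS, hχ⟩ :=
    uniform_curve k U hU D hJ ρ hρ
  let κ : J' → Type := fun i => (Y i).O ⧸ 𝔮 i
  letI hfield : ∀ i, Field (κ i) := fun i => by
    haveI := hmax i
    exact Ideal.Quotient.field (𝔮 i)
  haveI hfin : ∀ i, Finite (κ i) := fun i => by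
    haveI := (hCq i).1
    exact Module.finite_of_finite (k i)
  let U' : Ultrafilter J' := ures U hJ'U
  have hUk : ∀ N : ℕ, ∀ᶠ i : J' in (U' : Filter J'), N < ringChar (k i) := fun N =>
    eventually_ures U hJ'U (hU N)
  have hchar : ∀ i : J', ringChar (k i) = ringChar (κ i) := fun i =>
    Algebra.ringChar_eq (k i) (κ i)
  have hUκ : ∀ N : ℕ, ∀ᶠ i : J' in (U' : Filter J'), N < ringChar (κ i) := fun N => by
    filter_upwards [hUk N] with i hi
    rw [← hchar i]
    exact hi
  haveI c1 := charZero_UP (fun i : J' => k i) U' hUk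
  haveI c2 := charZero_UP κ U' hUκ
  let Q : C →+* ∀ i, κ i := RingHom.pi fun i => (Ideal.Quotient.mk (𝔮 i)).comp (h i)
  let ρ' : C →+* ∀ i : J', k i := (res (fun i : J => k i) (fun i : J' => ⟨i, hJ'J i.2⟩)).comp ρ
  have halgS : AlgLE ((toUP (fun i : J' => k i) U').comp (ρ'.comp (Subring.inclusion D.le))) m' := by
    obtain ⟨r, hr⟩ := exists_upRes k U hJ'U
    have h1 := AlgLE.map D.alg r
    have h2 : r.comp D.S.subtype =
        (toUP (fun i : J' => k i) U').comp (ρ'.comp (Subring.inclusion D.le)) := by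
      ext s
      let b : ∀ i, k i := fun i => if hi : i ∈ J then ρ (Subring.inclusion D.le s) ⟨i, hi⟩ else 0
      have hb1 : toUP k U b = C.subtype (Subring.inclusion D.le s) :=
        hρ _ b (fun i => dif_pos i.2)
      have hb2 : r (toUP k U b) = r (D.S.subtype s) := by
        rw [hb1]
        rfl
      refine (hb2.symm.trans (hr b)).trans ?_
      refine congrArg (toUP (fun i : J' => k i) U') (funext fun i => ?_)
      exact dif_pos (hJ'J i.2)
    rw [← h2]
    exact h1
  have halgQ : AlgLE ((toUP κ U').comp Q) m' := by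
    refine algLE_second U' (fun i : J' => algebraMap (k i) (κ i)) (Subring.inclusion D.le)
      (ρ'.comp (Subring.inclusion D.le)) Q ?_ ?_ halgS
    · intro s i
      show Ideal.Quotient.mk (𝔮 i) (h i (Subring.inclusion D.le s)) = _
      rw [hS i s]
      rfl
    · intro c
      obtain ⟨χ, hm, h0⟩ := D.int c
      refine ⟨χ.map Polynomial.constantCoeff, hm.map _, fun i => ?_⟩
      have h1 := Ideal.Quotient.eq_zero_iff_mem.2 (hχ i c χ h0)
      rw [Polynomial.hom_eval₂] at h1
      exact h1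
  obtain ⟨J'', hJ''U, c, htame⟩ := ih m' hm' J' κ U' hUκ C (GG.base φ' z) (IsCubeOn.base φ' hz) Q halgQ
  have htame' : IsTame (fun i : J'' => (Y i).O ⧸ 𝔮 i) c
      (GG.base (RingHom.pi fun i : J'' => (Ideal.Quotient.mk (𝔮 i)).comp (h i)) (GG.base φ' z)) := htame
  obtain ⟨c', hc'⟩ := tame_point (ι := J'') (k := fun i : J'' => k i) (Y := fun i : J'' => Y i)
    (h := fun i : J'' => h i) (𝔭 := fun i : J'' => 𝔭 i) (𝔮 := fun i : J'' => 𝔮 i)
    (fun c => by
      obtain ⟨D', hD'⟩ := hb c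
      exact ⟨D', fun t => hD' t⟩)
    (fun i => hCp i) (fun i => hCq i) hNp hNq (fun i => ht i)
    (fun i : J'' => (Pi.evalRingHom (fun i : J => k i) ⟨i, hJ'J i.1.2⟩).comp ρ)
    (fun i c => hP i c) (IsCubeOn.base φ' hz) htame'
  have hJ3 : (Subtype.val '' J'' : Set ι) ∈ U := (mem_ures U hJ'U).1 hJ''U
  have hψ : ∀ j : (Subtype.val '' J'' : Set ι), ∃ h1 : (j : ι) ∈ J', (⟨j, h1⟩ : J') ∈ J'' := by
    rintro ⟨j, x, hx, rfl⟩
    exact ⟨x.2, hx⟩
  refine ⟨Subtype.val '' J'', hJ3, c', ?_⟩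
  have h3 := IsTame.res (fun j : (Subtype.val '' J'' : Set ι) =>
    (⟨⟨j, (hψ j).1⟩, (hψ j).2⟩ : J'')) hc'
  have h4 : GG.base ((res k (Subtype.val : (Subtype.val '' J'' : Set ι) → ι)).comp a) z =
      GG.base (res (fun i : J'' => k i) (fun j : (Subtype.val '' J'' : Set ι) =>
        (⟨⟨j, (hψ j).1⟩, (hψ j).2⟩ : J''))) (GG.base (RingHom.pi fun i : J'' =>
          (Pi.evalRingHom (fun i : J => k i) ⟨i, hJ'J i.1.2⟩).comp ρ) (GG.base φ' z)) := by
    rw [GG.base_base, GG.base_base]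
    refine congrArg (fun f => GG.base f z) (RingHom.ext fun r => funext fun j => ?_)
    exact (congrFun (RingHom.congr_fun hρa r) ⟨j, hJ'J (hψ j).1⟩).symm
  rw [h4]
  exact h3

end Pool.Agent.LGF
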