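import Pool.Agent.LGF.Base

/-!
# Tame classes: formal properties

MODULE LGF-Tam1. PLAN. Unfold `IsTame`, `IsCyc`.
* `congr`: the same data.
* `of_nul`: `m = 1`, `y = 0`.
* `smul`: the same `m`, `q • y` (`BdOn.smul`, `map_smul`).
* `add`: `m i * m' i`, `y + y'`; for the period: `rr (fun i a => m i * m' i * a)` is
  `rr (fun i a => m i * a)` followed by `rr (fun i a => m' i * a)` (ring homomorphisms agree by `rfl`/
  `ext`; associativity of multiplication in the index: `RingHom.ext fun x => funext fun s => ...`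
  with `congrArg`), then `BdOn.base`; similarly for `y'` with the roles exchanged.
  `m * m' ≤ card ^ c * card ^ c' = card ^ (c + c')`.
* `mono`: `1 ≤ card`.
* `res`: for `φ : ι' → ι` pull back `m` and `y` (along `(j, a) ↦ (φ j, a)`); all squares of
  reindexings commute by `rfl` (`RingHom.ext`, `GG.base_base`), use `BdOn.base`.
-/


noncomputable section

namespace Pool.Agent.LGF

open Pool.Agent.GSM

variable {ι : Type} {k : ι → Type} [∀ i, Field (k i)] [∀ i, Finite (k i)]
variable {I σ : Type} [DecidableEq I] [DecidableEq σ] {c c' : ℕ} {x x' : GG I σ (∀ i, k i)}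

theorem one_lt_card (i : ι) : 1 < Nat.card (k i) := Finite.one_lt_card

theorem IsTame.congr (h : IsTame k c x) (h' : Nul (x - x')) : IsTame k c x' := by
  obtain ⟨m, hm, y, hy, h1, h2, h3⟩ := h
  refine ⟨m, hm, y, hy, ?_, h2, h3⟩
  have h4 := BdOn.add h1 h'
  rwa [sub_add_sub_cancel] at h4

theorem isTame_of_nul (h : Nul x) : IsTame k c x := by
  refine ⟨fun _ => 1, fun i => ⟨Nat.one_pos, Nat.one_le_pow _ _ (by have := one_lt_card (k := k) i; omega)⟩,
    0, IsCubeOn.zero _ _, ?_, ?_, ?_⟩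
  · rw [map_zero, zero_sub]
    exact h.neg
  · rw [map_zero, map_zero, map_zero, sub_zero, sub_zero]
    exact BdOn.zero _ _
  · rw [map_zero]
    exact BdOn.zero _ _

theorem IsTame.smul (q : ℚ) (h : IsTame k c x) : IsTame k c (q • x) := by
  obtain ⟨m, hm, y, hy, h1, h2, h3⟩ := h
  refine ⟨m, hm, q • y, hy.smul q, ?_, ?_, ?_⟩
  · rw [map_smul, ← smul_sub]
    exact BdOn.smul q h1
  · rw [map_smul, map_smul, map_smul, ← smul_sub, ← smul_sub]
    exact BdOn.smul q h2
  · rw [map_smul]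
    exact BdOn.smul q h3

theorem IsTame.add (h : IsTame k c x) (h' : IsTame k c' x') : IsTame k (c + c') (x + x') := by
  obtain ⟨m, hm, y, hy, h1, h2, h3⟩ := h
  obtain ⟨m', hm', y', hy', h1', h2', h3'⟩ := h'
  refine ⟨fun i => m i * m' i, fun i => ⟨Nat.mul_pos (hm i).1 (hm' i).1, ?_⟩, y + y', hy.add hy', ?_, ?_, ?_⟩
  · rw [pow_add]
    exact Nat.mul_le_mul (hm i).2 (hm' i).2
  · have h4 := BdOn.add h1 h1'
    rw [map_add, add_sub_add_comm]
    exact h4
  · have h4 := BdOn.add h2 h2'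
    rw [map_add, map_add, map_add, add_sub_add_comm, add_sub_add_comm]
    exact h4
  · rw [map_add]
    have e1 : (fun (i : ι) (a : ℕ) => m i * m' i * a) = fun i a => m i * (m' i * a) := by
      funext i a
      ring
    have e2 : (fun (i : ι) (a : ℕ) => m i * m' i * a) = fun i a => m' i * (m i * a) := by
      funext i a
      ring
    refine BdOn.add ?_ ?_
    · rw [e1]
      have h4 := BdOn.base (rr k fun (i : ι) (a : ℕ) => m' i * a) h3
      rw [GG.base_base] at h4
      exact h4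
    · rw [e2]
      have h4 := BdOn.base (rr k fun (i : ι) (a : ℕ) => m i * a) h3'
      rw [GG.base_base] at h4
      exact h4

theorem IsTame.mono (h : IsTame k c x) (hc : c ≤ c') : IsTame k c' x := by
  obtain ⟨m, hm, hy⟩ := h
  refine ⟨m, fun i => ⟨(hm i).1, (hm i).2.trans (Nat.pow_le_pow_right ?_ hc)⟩, hy⟩
  have := one_lt_card (k := k) i
  omega

private theorem tm_r1 {ι' : Type} (φ : ι' → ι) :
    (at_ (fun j => k (φ j)) fun _ => (1 : ℕ)).comp
      (res (fun s : ι × ℕ => k s.1) (fun s : ι' × ℕ => (φ s.1, s.2))) = (res k φ).comp (at_ k fun _ => (1 : ℕ)) := rfl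

private theorem tm_r2 {ι' : Type} (φ : ι' → ι) (f : ℕ × ℕ → ℕ) :
    (rr (fun j => k (φ j)) fun _ (s : ℕ × ℕ) => f s).comp
      (res (fun s : ι × ℕ => k s.1) (fun s : ι' × ℕ => (φ s.1, s.2))) =
      (res (fun s : ι × (ℕ × ℕ) => k s.1) (fun s : ι' × (ℕ × ℕ) => (φ s.1, s.2))).comp
        (rr k fun _ (s : ℕ × ℕ) => f s) := rfl

private theorem tm_r3 {ι' : Type} (φ : ι' → ι) (m : ι → ℕ) :
    (rr (fun j => k (φ j)) fun j (a : ℕ) => m (φ j) * a).comp
      (res (fun s : ι × ℕ => k s.1) (fun s : ι' × ℕ => (φ s.1, s.2))) =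
      (res (fun s : ι × ℕ => k s.1) (fun s : ι' × ℕ => (φ s.1, s.2))).comp
        (rr k fun i (a : ℕ) => m i * a) := rfl

private theorem tm_res {ι' : Type} (φ : ι' → ι) (h : IsTame k c x) :
    IsTame (fun j => k (φ j)) c (GG.base (res k φ) x) := by
  obtain ⟨m, hm, y, hy, h1, h2, h3⟩ := h
  refine ⟨fun j => m (φ j), fun j => hm (φ j),
    GG.base (res (fun s : ι × ℕ => k s.1) (fun s : ι' × ℕ => (φ s.1, s.2))) y, hy.base _, ?_, ?_, ?_⟩
  · have h4 := BdOn.base (res k φ) h1
    rw [map_sub, GG.base_base, ← tm_r1] at h4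
    rw [GG.base_base]
    exact h4
  · have h4 := BdOn.base (res (fun s : ι × (ℕ × ℕ) => k s.1) (fun s : ι' × (ℕ × ℕ) => (φ s.1, s.2))) h2
    rw [map_sub, map_sub, GG.base_base, GG.base_base, GG.base_base, ← tm_r2 φ (fun s => s.1 + s.2),
      ← tm_r2 φ (fun s => s.1), ← tm_r2 φ (fun s => s.2)] at h4
    rw [GG.base_base, GG.base_base, GG.base_base]
    exact h4
  · have h4 := BdOn.base (res (fun s : ι × ℕ => k s.1) (fun s : ι' × ℕ => (φ s.1, s.2))) h3
    rw [GG.base_base, ← tm_r3] at h4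
    rw [GG.base_base]
    exact h4

theorem IsTame.res {ι' : Type} (φ : ι' → ι) (h : IsTame k c x) :
    IsTame (fun j => k (φ j)) c (GG.base (res k φ) x) := tm_res φ h

end Pool.Agent.LGF
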