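import Pool.Agent.LGF.IclE
import Pool.Agent.LGF.Cnt
import Pool.Agent.LGF.Tam1

/-!
# Divisors of degree zero are tame

MODULE LGF-Jac. PLAN. Let `A = ∑ a l`, `r = 2 A`. For `(i, n) ∈ ι × ℕ` choose (`exists_ideal`, since
`Col (𝔞 i ^ n) ((n * s) * d)`) an ideal `J (i, n)` with `Col (r * d)` and `Eqv (J (i, n)) (𝔞 i ^ n)`. Let
`Φ = icl J z - r • pb (icl (t) z)`, a cube over `∏_{ι × ℕ}`. `m i` = the period (`exists_period`).
(1) at `n = 1` (index set `ι`): `J (i, 1) * (t)^s` and `𝔞 i * (t)^r` are equivalent (`eqv_t`, `Eqv.mul`) of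
the same colength `(r + s) d`, so `icl_eqv`, `icl_mul`, `icl_pow` give
`icl J_1 + s • icl (t) ≈ icl 𝔞 + r • icl (t)`.
(2) additivity (index set `ι × (ℕ × ℕ)`): `J (i, n + n') * (t)^r` and `J (i, n) * J (i, n')` are
equivalent (both to `𝔞 ^ (n + n')`) of colength `2 r d`.
(3) period (index set `ι × ℕ`): `J (i, m i * n)` is equivalent to `(𝔞 i ^ (m i)) ^ n`, so to `⊤`, so to
`(t)^r`, of the same colength `r d`: `icl J ≈ icl (t)^r ≈ r • icl (t)`.
Reindexings of `icl` are `icl` (`icl_res`): `at_`, `rr`, `pb` are `res`-type homomorphisms with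
definitionally equal values (state small lemmas `icl_at`, `icl_rr`, `icl_pb` proved like `icl_res`).
The bound: `m i ≤ card ^ c` with `c = (d * (2 * A * d + A + 1)) ^ 2`.
-/

noncomputable section

namespace Pool.Agent.LGF

open Pool.Agent.GSM Module Polynomial

variable {ι : Type} {k : ι → Type} [∀ i, Field (k i)] [∀ i, Finite (k i)] {d : ℕ} {a : Fin d → ℕ}
  {Y : ∀ i, Crv (k i) d a} {C : Type} [CommRing C] {h : ∀ i, C →+* (Y i).O}
  {𝔞 : ∀ i, Ideal (Y i).O} {s : ℕ}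
variable {I σ : Type} [DecidableEq I] [DecidableEq σ]

section aux

variable {T : Type} {K : T → Type} [∀ t, Field (K t)] {Y' : ∀ t, Crv (K t) d a} {h' : ∀ t, C →+* (Y' t).O}
  {J J' J'' : ∀ t, Ideal (Y' t).O} {N N' r : ℕ} {z : GG I σ C}

omit [DecidableEq I] [DecidableEq σ] in
private theorem icl_N (e : N = N') (hJ : ∀ t, (Y' t).Col (J t) N) (hJ' : ∀ t, (Y' t).Col (J t) N') :
    icl h' hJ z = icl h' hJ' z := by
  subst e
  rfl

private theorem nul_t (r : ℕ) (hJ : ∀ t, (Y' t).Col (J t) N) (ht : ∀ t, (Y' t).Col (Ideal.span {(Y' t).t}) d)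
    (hJt : ∀ t, (Y' t).Col (J t * Ideal.span {(Y' t).t} ^ r) (N + r * d)) (hz : Cub z) :
    Nul (icl h' hJt z - (icl h' hJ z + (r : ℚ) • icl h' ht z)) := by
  have h1 := icl_mul (h := h') hJ (fun t => Crv.col_t r) hJt hz
  have h2 := icl_pow (h := h') r ht (fun t => Crv.col_t r) hz
  have h3 := h1.add h2
  have e : icl h' hJt z - (icl h' hJ z + icl h' (fun t => Crv.col_t r) z) +
      (icl h' (fun t => Crv.col_t (Y := Y' t) r) z - (r : ℚ) • icl h' ht z) =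
      icl h' hJt z - (icl h' hJ z + (r : ℚ) • icl h' ht z) := by
    abel
  rwa [e] at h3

private theorem key3 (hb : HBdd h') (hJ : ∀ t, (Y' t).Col (J t) (r * d))
    (ht : ∀ t, (Y' t).Col (Ideal.span {(Y' t).t}) d) (e : ∀ t, Crv.Eqv (J t) ⊤) (hz : Cub z) :
    Nul (icl h' hJ z - (r : ℚ) • icl h' ht z) := by
  have h1 := icl_eqv hb hJ (fun t => Crv.col_t r) (fun t => (e t).trans (Crv.eqv_t r).symm) hz
  have h2 := icl_pow (h := h') r ht (fun t => Crv.col_t r) hz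
  have h3 := h1.add h2
  rwa [sub_add_sub_cancel] at h3

private theorem key1 {s : ℕ} (hb : HBdd h') (hJ : ∀ t, (Y' t).Col (J t) (r * d))
    (hJ' : ∀ t, (Y' t).Col (J' t) (s * d)) (ht : ∀ t, (Y' t).Col (Ideal.span {(Y' t).t}) d)
    (e : ∀ t, Crv.Eqv (J t) (J' t)) (hz : Cub z) :
    Nul ((icl h' hJ z - (r : ℚ) • icl h' ht z) - (icl h' hJ' z - (s : ℚ) • icl h' ht z)) := by
  have hA : ∀ t, (Y' t).Col (J t * Ideal.span {(Y' t).t} ^ s) (r * d + s * d) := fun t =>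
    Crv.col_mul (hJ t) (Crv.col_t s)
  have hB : ∀ t, (Y' t).Col (J' t * Ideal.span {(Y' t).t} ^ r) (s * d + r * d) := fun t =>
    Crv.col_mul (hJ' t) (Crv.col_t r)
  have hB' : ∀ t, (Y' t).Col (J' t * Ideal.span {(Y' t).t} ^ r) (r * d + s * d) := fun t => by
    rw [add_comm]
    exact hB t
  have h1 := nul_t s hJ ht hA hz (h' := h')
  have h2 := nul_t r hJ' ht hB hz (h' := h')
  have h3 := icl_eqv hb hA hB' (fun t => (e t).mul ((Crv.eqv_t s).trans (Crv.eqv_t r).symm)) hz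
  rw [icl_N (add_comm _ _) hB hB'] at h2
  have h4 := (h3.sub h1).add h2
  have e1 : icl h' hA z - icl h' hB' z - (icl h' hA z - (icl h' hJ z + (s : ℚ) • icl h' ht z)) +
      (icl h' hB' z - (icl h' hJ' z + (r : ℚ) • icl h' ht z)) =
      (icl h' hJ z - (r : ℚ) • icl h' ht z) - (icl h' hJ' z - (s : ℚ) • icl h' ht z) := by
    abel
  rwa [e1] at h4

private theorem key2 (hb : HBdd h') (hJ : ∀ t, (Y' t).Col (J t) (r * d))
    (hJ' : ∀ t, (Y' t).Col (J' t) (r * d)) (hJ'' : ∀ t, (Y' t).Col (J'' t) (r * d))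
    (ht : ∀ t, (Y' t).Col (Ideal.span {(Y' t).t}) d)
    (e : ∀ t, Crv.Eqv (J'' t) (J t * J' t)) (hz : Cub z) :
    Nul ((icl h' hJ'' z - (r : ℚ) • icl h' ht z) - (icl h' hJ z - (r : ℚ) • icl h' ht z) -
      (icl h' hJ' z - (r : ℚ) • icl h' ht z)) := by
  have hA : ∀ t, (Y' t).Col (J'' t * Ideal.span {(Y' t).t} ^ r) (r * d + r * d) := fun t =>
    Crv.col_mul (hJ'' t) (Crv.col_t r)
  have hB : ∀ t, (Y' t).Col (J t * J' t) (r * d + r * d) := fun t => Crv.col_mul (hJ t) (hJ' t)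
  have h1 := nul_t r hJ'' ht hA hz (h' := h')
  have h2 := icl_mul (h := h') hJ hJ' hB hz
  have h3 := icl_eqv hb hA hB (fun t => by
    have h5 := (e t).mul (Crv.eqv_t (Y := Y' t) r)
    rwa [Ideal.mul_top] at h5) hz
  have h4 := (h3.sub h1).add h2
  have e1 : icl h' hA z - icl h' hB z - (icl h' hA z - (icl h' hJ'' z + (r : ℚ) • icl h' ht z)) +
      (icl h' hB z - (icl h' hJ z + icl h' hJ' z)) =
      (icl h' hJ'' z - (r : ℚ) • icl h' ht z) - (icl h' hJ z - (r : ℚ) • icl h' ht z) -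
      (icl h' hJ' z - (r : ℚ) • icl h' ht z) := by
    abel
  rwa [e1] at h4

end aux

theorem tame_icl (hb : HBdd h) (ha : ∀ i, (Y i).Col (𝔞 i) (s * d))
    (ht : ∀ i, (Y i).Col (Ideal.span {(Y i).t}) d) {z : GG I σ C} (hz : Cub z) :
    IsTame k ((d * (2 * (∑ l, a l) * d + (∑ l, a l) + 1)) ^ 2)
      (icl h ha z - (s : ℚ) • icl h ht z) := by
  choose m hm0 hm1 hm2 using fun i => Crv.exists_period (ha i)
  have hex : ∀ s' : ι × ℕ, ∃ J' : Ideal (Y s'.1).O, (Y s'.1).Col J' (2 * (∑ l, a l) * d) ∧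
      Crv.Eqv J' (𝔞 s'.1 ^ s'.2) := fun s' => by
    have h1 := Crv.col_pow (ha s'.1) s'.2
    rw [← mul_assoc] at h1
    exact Crv.exists_ideal h1
  choose J hJ eJ using hex
  refine ⟨m, fun i => ⟨hm0 i, hm1 i⟩, ?_⟩
  have hbp : ∀ {B : Type} (f : B → ι), HBdd (K := fun s' : B => k (f s')) (Y := fun s' => Y (f s'))
      (fun s' => h (f s')) := fun f c => by
    obtain ⟨D, hD⟩ := hb c
    exact ⟨D, fun t => hD (f t)⟩
  refine ⟨icl (K := fun s' : ι × ℕ => k s'.1) (Y := fun s' => Y s'.1) (fun s' => h s'.1) hJ z -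
    ((2 * ∑ l, a l : ℕ) : ℚ) • icl (K := fun s' : ι × ℕ => k s'.1) (Y := fun s' => Y s'.1) (fun s' => h s'.1)
      (fun s' => ht s'.1) z, (icl_cub hJ hz).sub ((icl_cub _ hz).smul _), ?_, ?_, ?_⟩
  · rw [map_sub, map_smul]
    have e1 : GG.base (at_ k fun _ => 1) (icl (K := fun s' : ι × ℕ => k s'.1) (Y := fun s' => Y s'.1)
        (fun s' => h s'.1) hJ z) = icl (K := k) (Y := Y) h (J := fun i => J (i, 1)) (fun i => hJ (i, 1)) z :=
      icl_res (T' := ι) (fun i => (i, 1)) hJ z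
    have e2 : GG.base (at_ k fun _ => 1) (icl (K := fun s' : ι × ℕ => k s'.1) (Y := fun s' => Y s'.1)
        (fun s' => h s'.1) (fun s' => ht s'.1) z) = icl (K := k) (Y := Y) h ht z :=
      icl_res (K := fun s' : ι × ℕ => k s'.1) (Y := fun s' => Y s'.1) (h := fun s' => h s'.1)
        (T' := ι) (fun i => (i, 1)) (fun s' => ht s'.1) z
    rw [e1, e2]
    refine key1 hb (fun i => hJ (i, 1)) ha ht (fun i => ?_) hz
    have h1 := eJ (i, 1)
    rwa [pow_one] at h1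
  · have eJ1 : ∀ (φ : ℕ × ℕ → ℕ), GG.base (rr k fun _ (u : ℕ × ℕ) => φ u)
        (icl (K := fun s' : ι × ℕ => k s'.1) (Y := fun s' => Y s'.1) (fun s' => h s'.1) hJ z) =
        icl (K := fun s' : ι × (ℕ × ℕ) => k s'.1) (Y := fun s' => Y s'.1) (fun s' => h s'.1)
          (J := fun s' => J (s'.1, φ s'.2)) (fun s' => hJ (s'.1, φ s'.2)) z := fun φ =>
      icl_res (T' := ι × (ℕ × ℕ)) (fun s' => (s'.1, φ s'.2)) hJ z
    have eT1 : ∀ (φ : ℕ × ℕ → ℕ), GG.base (rr k fun _ (u : ℕ × ℕ) => φ u)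
        (icl (K := fun s' : ι × ℕ => k s'.1) (Y := fun s' => Y s'.1) (fun s' => h s'.1) (fun s' => ht s'.1) z) =
        icl (K := fun s' : ι × (ℕ × ℕ) => k s'.1) (Y := fun s' => Y s'.1) (fun s' => h s'.1)
          (fun s' => ht s'.1) z := fun φ =>
      icl_res (K := fun s' : ι × ℕ => k s'.1) (Y := fun s' => Y s'.1) (h := fun s' => h s'.1)
        (T' := ι × (ℕ × ℕ)) (fun s' => (s'.1, φ s'.2)) (fun s' => ht s'.1) z
    rw [map_sub, map_smul, map_sub, map_smul, map_sub, map_smul, eJ1 (fun u => u.1 + u.2), eJ1 (fun u => u.1),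
      eJ1 (fun u => u.2), eT1 (fun u => u.1 + u.2), eT1 (fun u => u.1), eT1 (fun u => u.2)]
    refine key2 (hbp _) (fun s' : ι × (ℕ × ℕ) => hJ (s'.1, s'.2.1)) (fun s' => hJ (s'.1, s'.2.2))
      (fun s' => hJ (s'.1, s'.2.1 + s'.2.2)) (fun s' => ht s'.1) (fun s' => ?_) hz
    have h1 := eJ (s'.1, s'.2.1 + s'.2.2)
    have h2 := (eJ (s'.1, s'.2.1)).mul (eJ (s'.1, s'.2.2))
    rw [← pow_add] at h2
    exact h1.trans h2.symm
  · have eJ1 : GG.base (rr k fun i n => m i * n)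
        (icl (K := fun s' : ι × ℕ => k s'.1) (Y := fun s' => Y s'.1) (fun s' => h s'.1) hJ z) =
        icl (K := fun s' : ι × ℕ => k s'.1) (Y := fun s' => Y s'.1) (fun s' => h s'.1)
          (J := fun s' => J (s'.1, m s'.1 * s'.2)) (fun s' => hJ (s'.1, m s'.1 * s'.2)) z :=
      icl_res (T' := ι × ℕ) (fun s' => (s'.1, m s'.1 * s'.2)) hJ z
    have eT1 : GG.base (rr k fun i n => m i * n)
        (icl (K := fun s' : ι × ℕ => k s'.1) (Y := fun s' => Y s'.1) (fun s' => h s'.1) (fun s' => ht s'.1) z) =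
        icl (K := fun s' : ι × ℕ => k s'.1) (Y := fun s' => Y s'.1) (fun s' => h s'.1)
          (fun s' => ht s'.1) z :=
      icl_res (K := fun s' : ι × ℕ => k s'.1) (Y := fun s' => Y s'.1) (h := fun s' => h s'.1)
        (T' := ι × ℕ) (fun s' => (s'.1, m s'.1 * s'.2)) (fun s' => ht s'.1) z
    rw [map_sub, map_smul, eJ1, eT1]
    refine key3 (hbp _) (fun s' : ι × ℕ => hJ (s'.1, m s'.1 * s'.2)) (fun s' => ht s'.1) (fun s' => ?_) hz
    have h1 := eJ (s'.1, m s'.1 * s'.2)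
    have h2 := (hm2 s'.1).pow s'.2
    rw [← pow_mul, Ideal.top_pow] at h2
    exact h1.trans h2

end Pool.Agent.LGF
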