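import Mathlib

/-!
# Points of a finitely generated domain over finite fields

MODULE LGF-LArith. Noether normalisation over the rational numbers with cleared denominators, then
lying over after inversion of one integer.
-/

noncomputable section

namespace Pool.Agent.LGF

open MvPolynomial

section Lift

variable {B R : Type} [CommRing B] [CommRing R]

private theorem ar_elem_map {A A' C : Type} [CommRing A] [CommRing A'] [CommRing C] (u : A →+* A') (v : A' →+* C)
    {c : C} (h : (v.comp u).IsIntegralElem c) : v.IsIntegralElem c := by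
  obtain ⟨F, hF, hF0⟩ := h
  refine ⟨F.map u, hF.map u, ?_⟩
  rw [Polynomial.eval₂_map]
  exact hF0

private theorem ar_elem_inj {A C C' : Type} [CommRing A] [CommRing C] [CommRing C'] (u : A →+* C) (v : C →+* C')
    (hv : Function.Injective v) {c : C} (h : (v.comp u).IsIntegralElem (v c)) : u.IsIntegralElem c := by
  obtain ⟨F, hF, hF0⟩ := h
  refine ⟨F, hF, hv ?_⟩
  rw [map_zero, Polynomial.hom_eval₂]
  exact hF0

/-- points by lying over -/
private theorem ar_lift (K : Type) [Field K] (ι : R →+* K) (hιinj : Function.Injective ι) (i : B →+* R) (hi : Function.Injective i) (D : B) (hD : D ≠ 0) (s : Finset R)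
    (hs : Algebra.adjoin ℤ (s : Set R) = ⊤) (hint : ∀ r ∈ s, i.IsIntegralElem (i D * r)) :
    ∃ f : ℕ, ∀ (k : Type) [Field k] [Finite k] (φ : B →+* k), Function.Surjective φ → φ D ≠ 0 →
      ∃ 𝔪 : Ideal R, 𝔪.IsMaximal ∧ Finite (R ⧸ 𝔪) ∧ Nat.card (R ⧸ 𝔪) ≤ (Nat.card k) ^ f ∧
        ∀ b, φ b = 0 → i b ∈ 𝔪 := by
  classical
  set B' := Localization.Away D with hB'
  have hDK : IsUnit ((ι.comp i) D) := by
    rw [isUnit_iff_ne_zero]
    intro h
    apply hD
    apply hi
    apply hιinj
    rw [map_zero, map_zero]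
    exact h
  set j : B' →+* K := IsLocalization.Away.lift D hDK with hj
  have hjB : ∀ b : B, j (algebraMap B B' b) = ι (i b) := fun b => IsLocalization.Away.lift_eq D hDK b
  have hjinj : Function.Injective j := by
    rw [injective_iff_map_eq_zero]
    intro b' hb'
    obtain ⟨n, b, hbn⟩ := IsLocalization.Away.surj D b'
    have h1 : j (algebraMap B B' b) = 0 := by
      rw [← hbn, map_mul, hb', zero_mul]
    rw [hjB] at h1
    have h2 : b = 0 := hi (hιinj (by rw [h1, map_zero, map_zero]))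
    rw [h2, map_zero] at hbn
    have h3 : IsUnit (algebraMap B B' D ^ n) := (IsLocalization.Away.algebraMap_isUnit D).pow n
    exact (h3.mul_left_eq_zero).1 hbn
  letI : Algebra B' K := j.toAlgebra
  have hjalg : algebraMap B' K = j := rfl
  set S : Subalgebra B' K := Algebra.adjoin B' (ι '' (s : Set R)) with hS
  have hfg : (Subalgebra.toSubmodule S).FG := by
    refine fg_adjoin_of_finite ((Finset.finite_toSet s).image ι) ?_
    rintro _ ⟨r, hr, rfl⟩
    have h1 : IsIntegral B' (ι (i D * r)) := by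
      have h2 : (ι.comp i).IsIntegralElem (ι (i D * r)) := by
        obtain ⟨F, hF, hF0⟩ := hint r hr
        refine ⟨F, hF, ?_⟩
        rw [← Polynomial.hom_eval₂, hF0, map_zero]
      have h3 : ι.comp i = j.comp (algebraMap B B') := by
        ext b
        exact (hjB b).symm
      rw [h3] at h2
      exact ar_elem_map _ _ h2
    obtain ⟨u, hu⟩ := IsLocalization.Away.algebraMap_isUnit (S := B') D
    have h4 : ι r = algebraMap B' K (↑u⁻¹ : B') * ι (i D * r) := by
      rw [map_mul, ← hjB, ← hu, hjalg, ← mul_assoc, ← map_mul, Units.inv_mul, map_one, one_mul]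
    rw [h4]
    exact isIntegral_algebraMap.mul h1
  haveI hfin : Module.Finite B' S := Module.Finite.iff_fg.2 hfg
  haveI hinteg : Algebra.IsIntegral B' S := Algebra.IsIntegral.of_finite B' S
  have hιS : ∀ r : R, ι r ∈ S := by
    intro r
    have h1 : r ∈ Algebra.adjoin ℤ (s : Set R) := by
      rw [hs]; exact Algebra.mem_top
    induction h1 using Algebra.adjoin_induction with
    | mem x hx => exact Algebra.subset_adjoin ⟨x, hx, rfl⟩
    | algebraMap z =>
      have : ι (algebraMap ℤ R z) = algebraMap B' K (z : B') := by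
        rw [map_intCast, eq_intCast, map_intCast]
      rw [this]
      exact S.algebraMap_mem _
    | add x y _ _ hx hy => rw [map_add]; exact S.add_mem hx hy
    | mul x y _ _ hx hy => rw [map_mul]; exact S.mul_mem hx hy
  set ρ0 : R →+* S := ι.codRestrict S hιS with hρ0
  obtain ⟨f, L, hL⟩ := Module.Finite.exists_fin' B' S
  refine ⟨f, ?_⟩
  intro k _ _ φ hφ hφD
  have hDk : IsUnit (φ D) := isUnit_iff_ne_zero.2 hφD
  set φ' : B' →+* k := IsLocalization.Away.lift D hDk with hφ'
  have hφB : ∀ b : B, φ' (algebraMap B B' b) = φ b := fun b => IsLocalization.Away.lift_eq D hDk b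
  have hφs : Function.Surjective φ' := fun c => by
    obtain ⟨b, hb⟩ := hφ c
    exact ⟨algebraMap B B' b, by rw [hφB, hb]⟩
  haveI hPmax : (RingHom.ker φ').IsMaximal := RingHom.ker_isMaximal_of_surjective φ' hφs
  have hker : RingHom.ker (algebraMap B' S) ≤ RingHom.ker φ' := by
    have h1 : Function.Injective (algebraMap B' S) := by
      intro a b hab
      apply hjinj
      have h2 := congrArg (fun z : S => (z : K)) hab
      exact h2
    rw [(RingHom.injective_iff_ker_eq_bot _).1 h1]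
    exact bot_le
  obtain ⟨Q, hQmax, hQ⟩ := Ideal.exists_ideal_over_maximal_of_isIntegral (RingHom.ker φ') hker
  have hQmem : ∀ b : B', φ' b = 0 → algebraMap B' S b ∈ Q := by
    intro b hb
    have h1 : b ∈ Ideal.comap (algebraMap B' S) Q := by
      rw [hQ]; exact hb
    exact h1
  -- the finite residue ring
  choose sec hsec using hφs
  have hsurj : Function.Surjective (fun v : Fin f → k => Ideal.Quotient.mk Q (L (fun l => sec (v l)))) := by
    intro c
    obtain ⟨r, rfl⟩ := Ideal.Quotient.mk_surjective c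
    obtain ⟨b, rfl⟩ := hL r
    refine ⟨fun l => φ' (b l), ?_⟩
    show Ideal.Quotient.mk Q (L (fun l => sec (φ' (b l)))) = Ideal.Quotient.mk Q (L b)
    rw [Ideal.Quotient.eq, ← map_sub]
    have h1 : ((fun l => sec (φ' (b l))) - b : Fin f → B') =
        ∑ l, (sec (φ' (b l)) - b l) • (Pi.single l (1 : B') : Fin f → B') := by
      ext l
      simp [Finset.sum_apply, Pi.single_apply]
    rw [h1, map_sum]
    refine Ideal.sum_mem _ fun l _ => ?_
    rw [map_smul, Algebra.smul_def]
    refine Ideal.mul_mem_right _ _ (hQmem _ ?_)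
    rw [map_sub, hsec, sub_self]
  haveI hfinQ : Finite (S ⧸ Q) := Finite.of_surjective _ hsurj
  have hcard : Nat.card (S ⧸ Q) ≤ (Nat.card k) ^ f := by
    have h1 := Nat.card_le_card_of_surjective _ hsurj
    rwa [Nat.card_fun, Nat.card_fin] at h1
  set ρ : R →+* S ⧸ Q := (Ideal.Quotient.mk Q).comp ρ0 with hρ
  have hkinj : Function.Injective (RingHom.kerLift ρ) := RingHom.kerLift_injective ρ
  haveI hfinR : Finite (R ⧸ RingHom.ker ρ) := Finite.of_injective _ hkinj
  haveI : Q.IsPrime := hQmax.isPrime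
  haveI hprime : (RingHom.ker ρ).IsPrime := RingHom.ker_isPrime ρ
  haveI : IsDomain (R ⧸ RingHom.ker ρ) := Ideal.Quotient.isDomain _
  refine ⟨RingHom.ker ρ, ?_, hfinR, ?_, ?_⟩
  · exact Ideal.Quotient.maximal_of_isField _ (Finite.isField_of_domain _)
  · exact (Nat.card_le_card_of_injective _ hkinj).trans hcard
  · intro b hb
    rw [RingHom.mem_ker]
    show Ideal.Quotient.mk Q (ρ0 (i b)) = 0
    rw [Ideal.Quotient.eq_zero_iff_mem]
    have h1 : ρ0 (i b) = algebraMap B' S (algebraMap B B' b) := by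
      apply Subtype.ext
      exact (hjB b).symm
    rw [h1]
    exact hQmem _ (by rw [hφB, hb])

end Lift

section Noether

variable (R : Type) [CommRing R] [CharZero R]

private theorem ar_noether (K : Type) [Field K] (ι : R →+* K) (hιinj : Function.Injective ι) (s : Finset R) (hs : Algebra.adjoin ℤ (s : Set R) = ⊤) :
    ∃ (m : ℕ) (x : Fin m → R), AlgebraicIndependent ℤ x ∧
      ∀ r : R, ∃ z : ℤ, z ≠ 0 ∧ (aeval x : MvPolynomial (Fin m) ℤ →ₐ[ℤ] R).toRingHom.IsIntegralElem ((z : R) * r) := by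
  classical
  haveI : CharZero K := ⟨fun a b hab => by
    have h1 : ι (a : R) = ι (b : R) := by rw [map_natCast, map_natCast]; exact hab
    exact Nat.cast_injective (hιinj h1)⟩
  set A : Subalgebra ℚ K := Algebra.adjoin ℚ (ι '' (s : Set R)) with hA
  haveI : Algebra.FiniteType ℚ A := by
    rw [← Subalgebra.fg_iff_finiteType]
    refine ⟨s.image ι, ?_⟩
    rw [Finset.coe_image]
  obtain ⟨m, g, ginj, gint⟩ := exists_integral_inj_algHom_of_fg ℚ A
  have hden : ∀ a ∈ A, ∃ z : ℤ, z ≠ 0 ∧ ∃ r : R, (z : K) * a = ι r := by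
    intro a ha
    induction ha using Algebra.adjoin_induction with
    | mem x hx =>
      obtain ⟨r, -, rfl⟩ := hx
      exact ⟨1, one_ne_zero, r, by rw [Int.cast_one, one_mul]⟩
    | algebraMap q =>
      refine ⟨q.den, by exact_mod_cast q.den_ne_zero, (q.num : R), ?_⟩
      rw [map_intCast, eq_ratCast]
      push_cast
      rw [mul_comm]
      exact_mod_cast congrArg (fun t : ℚ => (t : K)) (Rat.mul_den_eq_num q)
    | add a b _ _ ha hb =>
      obtain ⟨z, hz, r, hr⟩ := ha
      obtain ⟨z', hz', r', hr'⟩ := hb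
      refine ⟨z * z', mul_ne_zero hz hz', (z' : R) * r + (z : R) * r', ?_⟩
      rw [map_add, map_mul, map_mul, ← hr, ← hr', map_intCast, map_intCast]
      push_cast
      ring
    | mul a b _ _ ha hb =>
      obtain ⟨z, hz, r, hr⟩ := ha
      obtain ⟨z', hz', r', hr'⟩ := hb
      refine ⟨z * z', mul_ne_zero hz hz', r * r', ?_⟩
      rw [map_mul, ← hr, ← hr']
      push_cast
      ring
  choose d hd x hx using fun l : Fin m => hden (g (X l) : K) (g (X l)).2
  have hdQ : ∀ l, (d l : ℚ) ≠ 0 := fun l => by exact_mod_cast hd l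
  have hdK : ∀ l, (d l : K) ≠ 0 := fun l => by exact_mod_cast hd l
  set h : MvPolynomial (Fin m) ℚ →ₐ[ℚ] K := aeval (fun l => ι (x l)) with hh
  set τ : MvPolynomial (Fin m) ℚ →ₐ[ℚ] MvPolynomial (Fin m) ℚ :=
    aeval (fun l => C ((d l : ℚ))⁻¹ * X l) with hτ
  set σ : MvPolynomial (Fin m) ℚ →ₐ[ℚ] MvPolynomial (Fin m) ℚ :=
    aeval (fun l => C (d l : ℚ) * X l) with hσ
  have hhτ : h.comp τ = A.val.comp g := by
    apply MvPolynomial.algHom_ext
    intro l
    rw [AlgHom.comp_apply, AlgHom.comp_apply, hτ, aeval_X, map_mul, hh, aeval_X, ← MvPolynomial.algebraMap_eq,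
      AlgHom.commutes, ← hx l, map_inv₀, map_intCast, inv_mul_cancel_left₀ (hdK l)]
    rfl
  have hτσ : τ.comp σ = AlgHom.id ℚ _ := by
    apply MvPolynomial.algHom_ext
    intro l
    rw [AlgHom.comp_apply, hσ, aeval_X, map_mul, hτ, aeval_X, ← MvPolynomial.algebraMap_eq,
      AlgHom.commutes, MvPolynomial.algebraMap_eq, ← mul_assoc, ← C_mul, mul_inv_cancel₀ (hdQ l), C_1, one_mul]
    rfl
  have hστ : σ.comp τ = AlgHom.id ℚ _ := by
    apply MvPolynomial.algHom_ext
    intro l
    rw [AlgHom.comp_apply, hτ, aeval_X, map_mul, hσ, aeval_X, ← MvPolynomial.algebraMap_eq,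
      AlgHom.commutes, MvPolynomial.algebraMap_eq, ← mul_assoc, ← C_mul, inv_mul_cancel₀ (hdQ l), C_1, one_mul]
    rfl
  have hinj : Function.Injective h := by
    have h1 : h = (A.val.comp g).comp σ := by
      rw [← hhτ, AlgHom.comp_assoc, hτσ, AlgHom.comp_id]
    rw [h1]
    intro a b hab
    have h2 : σ a = σ b := ginj (Subtype.val_injective hab)
    have h3 := congrArg τ h2
    rw [← AlgHom.comp_apply, ← AlgHom.comp_apply, hτσ] at h3
    exact h3
  have hcompZ : ι.comp (aeval x : MvPolynomial (Fin m) ℤ →ₐ[ℤ] R).toRingHom =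
      h.toRingHom.comp (MvPolynomial.map (algebraMap ℤ ℚ)) := by
    apply MvPolynomial.ringHom_ext
    · intro z
      simp
    · intro l
      simp [hh]
  refine ⟨m, x, ?_, ?_⟩
  · show Function.Injective (aeval x : MvPolynomial (Fin m) ℤ →ₐ[ℤ] R)
    have h1 : Function.Injective (ι.comp (aeval x : MvPolynomial (Fin m) ℤ →ₐ[ℤ] R).toRingHom) := by
      rw [hcompZ]
      exact hinj.comp (MvPolynomial.map_injective _ (RingHom.injective_int (algebraMap ℤ ℚ)))
    intro a b hab
    exact h1 (congrArg ι hab)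
  · intro r
    have hrA : ι r ∈ A := by
      have h1 : r ∈ Algebra.adjoin ℤ (s : Set R) := by
        rw [hs]; exact Algebra.mem_top
      induction h1 using Algebra.adjoin_induction with
      | mem x hx => exact Algebra.subset_adjoin ⟨x, hx, rfl⟩
      | algebraMap z =>
        have : ι (algebraMap ℤ R z) = algebraMap ℚ K (z : ℚ) := by
          rw [map_intCast, eq_intCast, map_intCast]
        rw [this]
        exact A.algebraMap_mem _
      | add x y _ _ hx hy => rw [map_add]; exact A.add_mem hx hy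
      | mul x y _ _ hx hy => rw [map_mul]; exact A.mul_mem hx hy
    have h2 : h.toRingHom.IsIntegralElem (ι r) := by
      have h3 : (A.val.comp g).toRingHom.IsIntegralElem (ι r) := by
        obtain ⟨F, hF, hF0⟩ := gint ⟨ι r, hrA⟩
        refine ⟨F, hF, ?_⟩
        have h4 : (A.val.comp g).toRingHom = A.val.toRingHom.comp g.toRingHom := rfl
        have h5 : ι r = A.val.toRingHom ⟨ι r, hrA⟩ := rfl
        rw [h4, h5, ← Polynomial.hom_eval₂]
        have h6 : Polynomial.eval₂ g.toRingHom ⟨ι r, hrA⟩ F = 0 := hF0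
        rw [h6, map_zero]
      rw [← hhτ] at h3
      exact ar_elem_map τ.toRingHom h.toRingHom h3
    letI i1 : Algebra (MvPolynomial (Fin m) ℤ) (MvPolynomial (Fin m) ℚ) := algebraMvPolynomial
    letI i2 : Algebra (MvPolynomial (Fin m) ℚ) K := h.toRingHom.toAlgebra
    letI i3 : Algebra (MvPolynomial (Fin m) ℤ) K :=
      (h.toRingHom.comp (MvPolynomial.map (algebraMap ℤ ℚ))).toAlgebra
    haveI i4 : IsScalarTower (MvPolynomial (Fin m) ℤ) (MvPolynomial (Fin m) ℚ) K :=
      IsScalarTower.of_algebraMap_eq (fun _ => rfl)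
    obtain ⟨⟨c, hc⟩, hcint⟩ := IsIntegral.exists_multiple_integral_of_isLocalization
      ((nonZeroDivisors ℤ).map (C (σ := Fin m))) (Rₘ := MvPolynomial (Fin m) ℚ) (ι r) h2
    obtain ⟨z, hz, rfl⟩ := hc
    refine ⟨z, nonZeroDivisors.ne_zero hz, ar_elem_inj _ ι hιinj ?_⟩
    rw [hcompZ]
    have h7 : ι ((z : R) * r) = (C z : MvPolynomial (Fin m) ℤ) • ι r := by
      rw [Algebra.smul_def, map_mul, map_intCast]
      congr 1
      show (z : K) = h (MvPolynomial.map (algebraMap ℤ ℚ) (C z))
      simp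
    rw [h7]
    exact hcint

end Noether

theorem exists_arith (R : Type) [CommRing R] [IsDomain R] [CharZero R] [Algebra.FiniteType ℤ R] :
    ∃ (m D f : ℕ) (x : Fin m → R), 0 < D ∧ AlgebraicIndependent ℤ x ∧
      Algebra.IsAlgebraic (Algebra.adjoin ℤ (Set.range x)) R ∧
      ∀ p : ℕ, p.Prime → ¬ p ∣ D → ∀ y : Fin m → ZMod p, ∃ 𝔪 : Ideal R, 𝔪.IsMaximal ∧
        ringChar (R ⧸ 𝔪) = p ∧ Finite (R ⧸ 𝔪) ∧ Nat.card (R ⧸ 𝔪) ≤ p ^ f ∧
        ∀ j (n : ℤ), (n : ZMod p) = y j → x j - (n : R) ∈ 𝔪 := by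
  classical
  obtain ⟨s, hs⟩ : (⊤ : Subalgebra ℤ R).FG := Algebra.FiniteType.out
  have hιinj : Function.Injective (algebraMap R (FractionRing R)) := IsFractionRing.injective R _
  obtain ⟨m, x, hx, hz⟩ := ar_noether R (FractionRing R) (algebraMap R (FractionRing R)) hιinj s hs
  choose z hz0 hzint using hz
  set D : ℕ := ∏ r ∈ s, (z r).natAbs with hD
  have hD0 : 0 < D := Finset.prod_pos fun r _ => Int.natAbs_pos.2 (hz0 r)
  have hint : ∀ r ∈ s, (aeval x : MvPolynomial (Fin m) ℤ →ₐ[ℤ] R).toRingHom.IsIntegralElem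
      ((aeval x : MvPolynomial (Fin m) ℤ →ₐ[ℤ] R).toRingHom (D : MvPolynomial (Fin m) ℤ) * r) := by
    intro r hr
    obtain ⟨c, hc⟩ : z r ∣ (D : ℤ) := (Int.dvd_natAbs_self).trans
      (Int.natCast_dvd_natCast.2 (Finset.dvd_prod_of_mem (fun r => (z r).natAbs) hr))
    have h1 : (aeval x : MvPolynomial (Fin m) ℤ →ₐ[ℤ] R).toRingHom (D : MvPolynomial (Fin m) ℤ) * r =
        (aeval x : MvPolynomial (Fin m) ℤ →ₐ[ℤ] R).toRingHom (c : MvPolynomial (Fin m) ℤ) * ((z r : R) * r) := by
      rw [map_natCast, map_intCast]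
      have h2 : (D : R) = (z r : R) * (c : R) := by exact_mod_cast congrArg (fun t : ℤ => (t : R)) hc
      rw [h2]
      ring
    rw [h1]
    exact RingHom.IsIntegralElem.mul _ (RingHom.isIntegralElem_map _) (hzint r)
  have hDne : (D : MvPolynomial (Fin m) ℤ) ≠ 0 := by exact_mod_cast hD0.ne'
  obtain ⟨f, hf⟩ := ar_lift (FractionRing R) (algebraMap R (FractionRing R)) hιinj (aeval x : MvPolynomial (Fin m) ℤ →ₐ[ℤ] R).toRingHom hx
    (D : MvPolynomial (Fin m) ℤ) hDne s hs hint
  refine ⟨m, D, f, x, hD0, hx, ⟨fun r => ?_⟩, ?_⟩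
  · have h1 : IsIntegral (Algebra.adjoin ℤ (Set.range x)) ((z r : R) * r) := by
      have h2 : (aeval x : MvPolynomial (Fin m) ℤ →ₐ[ℤ] R).toRingHom =
          (algebraMap (Algebra.adjoin ℤ (Set.range x)) R).comp
            ((aeval x : MvPolynomial (Fin m) ℤ →ₐ[ℤ] R).toRingHom.codRestrict
              (Algebra.adjoin ℤ (Set.range x)) (fun P => by
                rw [Algebra.adjoin_range_eq_range_aeval]
                exact ⟨P, rfl⟩)) := by
        ext <;> rfl
      have h3 := hzint r
      rw [h2] at h3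
      exact ar_elem_map _ _ h3
    have h4 : (z r : R) ∈ nonZeroDivisors R := by
      rw [mem_nonZeroDivisors_iff_ne_zero]
      exact_mod_cast hz0 r
    refine IsAlgebraic.of_mul h4 ?_ h1.isAlgebraic
    have h5 : (z r : R) = algebraMap (Algebra.adjoin ℤ (Set.range x)) R (z r) := by
      rw [map_intCast]
    rw [h5]
    exact isAlgebraic_algebraMap _
  · intro p hp hpD y
    haveI : Fact p.Prime := ⟨hp⟩
    have hφD : (aeval y : MvPolynomial (Fin m) ℤ →ₐ[ℤ] ZMod p).toRingHom (D : MvPolynomial (Fin m) ℤ) ≠ 0 := by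
      rw [map_natCast]
      rwa [Ne, ZMod.natCast_eq_zero_iff]
    have hφs : Function.Surjective (aeval y : MvPolynomial (Fin m) ℤ →ₐ[ℤ] ZMod p).toRingHom := by
      intro c
      obtain ⟨n, rfl⟩ := ZMod.intCast_surjective c
      exact ⟨(n : MvPolynomial (Fin m) ℤ), by rw [map_intCast]⟩
    obtain ⟨𝔪, h1, h2, h3, h4⟩ := hf (ZMod p) (aeval y : MvPolynomial (Fin m) ℤ →ₐ[ℤ] ZMod p).toRingHom hφs hφD
    refine ⟨𝔪, h1, ?_, h2, ?_, ?_⟩
    · haveI : Nontrivial (R ⧸ 𝔪) := Ideal.Quotient.nontrivial_iff.2 h1.ne_top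
      refine CharP.ringChar_of_prime_eq_zero hp ?_
      have h5 := h4 (p : MvPolynomial (Fin m) ℤ) (by rw [map_natCast]; exact ZMod.natCast_self p)
      rw [map_natCast] at h5
      rw [← map_natCast (Ideal.Quotient.mk 𝔪), Ideal.Quotient.eq_zero_iff_mem]
      exact h5
    · rwa [Nat.card_zmod] at h3
    · intro j n hn
      have h5 := h4 (X j - (n : MvPolynomial (Fin m) ℤ)) (by
        rw [map_sub, map_intCast]
        show (aeval y : MvPolynomial (Fin m) ℤ →ₐ[ℤ] ZMod p) (X j) - _ = 0
        rw [aeval_X, hn, sub_self])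
      rw [map_sub, map_intCast] at h5
      have h6 : (aeval x : MvPolynomial (Fin m) ℤ →ₐ[ℤ] R).toRingHom (X j) = x j := by
        show (aeval x : MvPolynomial (Fin m) ℤ →ₐ[ℤ] R) (X j) = x j
        rw [aeval_X]
      rwa [h6] at h5

end Pool.Agent.LGF
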