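import Mathlib

/-!
# A numerical lemma
-/

noncomputable section

namespace Pool.Agent.LGF

theorem num_small (C : ℕ) (hC : 1 ≤ C) (ε : ℝ) (hε : 0 < ε) : ∃ δ : ℝ, 0 < δ ∧ ∃ N : ℕ, ∀ X : ℕ, N ≤ X →
    ∀ M : ℕ, (M : ℝ) ≤ δ * Real.log X → (((4 * C) ^ (M + 1) : ℕ) : ℝ) ≤ (X : ℝ) ^ ε / 2 := by
  have hC1 : (1 : ℝ) ≤ C := by exact_mod_cast hC
  have h4 : (1 : ℝ) < 4 * C := by linarith
  have ha : 0 < Real.log (4 * C) := Real.log_pos h4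
  obtain ⟨N, hN⟩ := exists_nat_ge ((8 * (C : ℝ)) ^ (2 / ε))
  refine ⟨ε / (2 * Real.log (4 * C)), by positivity, N + 1, fun X hX M hM => ?_⟩
  have hX0 : (N : ℝ) + 1 ≤ X := by exact_mod_cast hX
  have hN0 : (0 : ℝ) ≤ N := Nat.cast_nonneg N
  have hX1 : (0 : ℝ) < X := by linarith
  have h8 : (0 : ℝ) ≤ 8 * C := by linarith
  have h1 : 8 * (C : ℝ) ≤ (X : ℝ) ^ (ε / 2) := by
    have h2 : ((8 * (C : ℝ)) ^ (2 / ε)) ^ (ε / 2) ≤ (X : ℝ) ^ (ε / 2) :=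
      Real.rpow_le_rpow (Real.rpow_nonneg h8 _) (by linarith) (by positivity)
    rw [← Real.rpow_mul h8] at h2
    have h3 : 2 / ε * (ε / 2) = 1 := by field_simp
    rw [h3, Real.rpow_one] at h2
    exact h2
  have h5 : (4 * (C : ℝ)) ^ M ≤ (X : ℝ) ^ (ε / 2) := by
    have h6 : (4 * (C : ℝ)) ^ M = Real.exp (M * Real.log (4 * C)) := by
      rw [Real.exp_nat_mul, Real.exp_log (by linarith)]
    rw [h6, Real.rpow_def_of_pos hX1, Real.exp_le_exp]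
    calc (M : ℝ) * Real.log (4 * C) ≤ ε / (2 * Real.log (4 * C)) * Real.log X * Real.log (4 * C) :=
          mul_le_mul_of_nonneg_right hM ha.le
      _ = Real.log X * (ε / 2) := by field_simp
  have h7 : (X : ℝ) ^ ε = (X : ℝ) ^ (ε / 2) * (X : ℝ) ^ (ε / 2) := by
    rw [← Real.rpow_add hX1]
    congr 1
    ring
  have h9 : 0 ≤ (4 * (C : ℝ)) ^ M := by positivity
  push_cast
  rw [h7, pow_succ]
  nlinarith

end Pool.Agent.LGF
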