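import Pool.Agent.LGF.LCntA

/-!
# Covering an affine space over a prime field

MODULE LGF-LCntC. PLAN. Suppose that no `map (G L e)` with `L ≤ M` vanishes. The sets of zeros of the `G L e` (`L ∈ range (M + 1)`, `e : Fin L → Bool`) cover
`Finset.univ : Finset (Fin m → ZMod p)`, which has `p ^ m` elements; so `p ^ m * p ≤ ∑ L, ∑ e, (number of zeros) * p ≤ ∑ L, 2 ^ L * C ^ (L + 1) * p ^ m ≤
(4 * C) ^ (M + 1) * p ^ m` (`Finset.card_biUnion_le`, `card_zeros`, `Fintype.card_fun`, `sum_words`), contradicting `(4 * C) ^ (M + 1) < p`.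
-/

noncomputable section

namespace Pool.Agent.LGF

open MvPolynomial

theorem exists_bad (p : ℕ) [Fact p.Prime] {m : ℕ} (G : ∀ L : ℕ, (Fin L → Bool) → MvPolynomial (Fin m) ℤ) (C M : ℕ)
    (hC : 1 ≤ C) (hdeg : ∀ L e, (G L e).totalDegree ≤ C ^ (L + 1)) (hp : (4 * C) ^ (M + 1) < p)
    (hcov : ∀ y : Fin m → ZMod p, ∃ L, L ≤ M ∧ ∃ e : Fin L → Bool, eval₂ (Int.castRingHom (ZMod p)) y (G L e) = 0) :
    ∃ L, L ≤ M ∧ ∃ e : Fin L → Bool, MvPolynomial.map (Int.castRingHom (ZMod p)) (G L e) = 0 := by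
  classical
  by_contra hno
  have hne : ∀ L, L ≤ M → ∀ e : Fin L → Bool, MvPolynomial.map (Int.castRingHom (ZMod p)) (G L e) ≠ 0 := by
    intro L hL e h
    exact hno ⟨L, hL, e, h⟩
  have hp0 : 0 < p := (Fact.out : p.Prime).pos
  have hsub : (Finset.univ : Finset (Fin m → ZMod p)) ⊆ (Finset.range (M + 1)).biUnion fun L =>
      (Finset.univ : Finset (Fin L → Bool)).biUnion fun e =>
        Finset.univ.filter fun y : Fin m → ZMod p => eval₂ (Int.castRingHom (ZMod p)) y (G L e) = 0 := by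
    intro y _
    obtain ⟨L, hL, e, he⟩ := hcov y
    exact Finset.mem_biUnion.2 ⟨L, Finset.mem_range.2 (Nat.lt_succ_of_le hL),
      Finset.mem_biUnion.2 ⟨e, Finset.mem_univ _, Finset.mem_filter.2 ⟨Finset.mem_univ _, he⟩⟩⟩
  have h1 : p ^ m ≤ ∑ L ∈ Finset.range (M + 1), ∑ e : Fin L → Bool,
      (Finset.univ.filter fun y : Fin m → ZMod p => eval₂ (Int.castRingHom (ZMod p)) y (G L e) = 0).card := by
    have h2 : (Finset.univ : Finset (Fin m → ZMod p)).card = p ^ m := by
      rw [Finset.card_univ, Fintype.card_fun, ZMod.card, Fintype.card_fin]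
    rw [← h2]
    refine (Finset.card_le_card hsub).trans (Finset.card_biUnion_le.trans ?_)
    exact Finset.sum_le_sum fun L _ => Finset.card_biUnion_le
  have h3 : p ^ m * p ≤ (4 * C) ^ (M + 1) * p ^ m := by
    refine (Nat.mul_le_mul_right p h1).trans ?_
    rw [Finset.sum_mul]
    have h4 : ∀ L ∈ Finset.range (M + 1), (∑ e : Fin L → Bool,
        (Finset.univ.filter fun y : Fin m → ZMod p => eval₂ (Int.castRingHom (ZMod p)) y (G L e) = 0).card) * p ≤
          2 ^ L * C ^ (L + 1) * p ^ m := by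
      intro L hL
      rw [Finset.sum_mul]
      have h5 : ∀ e ∈ (Finset.univ : Finset (Fin L → Bool)),
          (Finset.univ.filter fun y : Fin m → ZMod p =>
            eval₂ (Int.castRingHom (ZMod p)) y (G L e) = 0).card * p ≤ C ^ (L + 1) * p ^ m := fun e _ =>
        card_zeros p (G L e) _ (hdeg L e) (hne L (Nat.le_of_lt_succ (Finset.mem_range.1 hL)) e)
      refine (Finset.sum_le_sum h5).trans (le_of_eq ?_)
      rw [Finset.sum_const, Finset.card_univ, Fintype.card_fun, Fintype.card_bool, Fintype.card_fin, smul_eq_mul,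
        mul_assoc]
    refine (Finset.sum_le_sum h4).trans ?_
    rw [← Finset.sum_mul]
    exact Nat.mul_le_mul_right _ (sum_words C M hC)
  have h6 : (4 * C) ^ (M + 1) * p ^ m < p ^ m * p := by
    rw [mul_comm]
    exact Nat.mul_lt_mul_of_pos_left hp (Nat.pow_pos hp0)
  exact absurd h3 (not_le.2 h6)

end Pool.Agent.LGF
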