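import Pool.Agent.LGF.Defs
import Pool.Agent.LGF.LCntB
import Pool.Agent.LGF.LCntC

/-!
# Thin sets of primes

MODULE LGF-LCnt. A prime `p ∈ S` which is not small lies in one of the finite sets of bad primes of the words of length `≤ δ log p`
(`exists_bad`, `num_small`); there are few words (`sum_words`).
-/

noncomputable section

namespace Pool.Agent.LGF

open MvPolynomial

theorem thin_of_cover (S : Set ℕ) {m : ℕ} (G : ∀ L : ℕ, (Fin L → Bool) → MvPolynomial (Fin m) ℤ) (C : ℕ) (hC : 1 ≤ C)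
    (hdeg : ∀ L e, (G L e).totalDegree ≤ C ^ (L + 1))
    (hbad : ∀ L e, ∃ s : Finset ℕ, s.card ≤ C ^ (L + 1) ∧
      ∀ p : ℕ, p.Prime → MvPolynomial.map (Int.castRingHom (ZMod p)) (G L e) = 0 → p ∈ s)
    (hcov : ∀ δ : ℝ, 0 < δ → ∃ N : ℕ, ∀ p ∈ S, p.Prime → N < p → ∀ y : Fin m → ZMod p,
      ∃ (L : ℕ) (e : Fin L → Bool), (L : ℝ) ≤ δ * Real.log p ∧
        eval₂ (Int.castRingHom (ZMod p)) y (G L e) = 0) :
    Plain.Thin S := by
  classical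
  choose s hs1 hs2 using hbad
  intro ε hε
  have hε1 : 0 < min ε 1 := lt_min hε one_pos
  set ε₁ : ℝ := min ε 1 with hε₁
  obtain ⟨δ, hδ, N₁, hN₁⟩ := num_small C hC ε₁ hε1
  obtain ⟨N₂, hN₂⟩ := hcov δ hδ
  set N₃ : ℕ := max N₁ N₂ + 2 with hN₃
  refine ⟨max N₁ (⌈(2 * (N₃ : ℝ)) ^ (1 / ε₁)⌉₊ + 1), fun X hX => ?_⟩
  have hX1 : N₁ ≤ X := (le_max_left _ _).trans hX
  have hX2 : ⌈(2 * (N₃ : ℝ)) ^ (1 / ε₁)⌉₊ + 1 ≤ X := (le_max_right _ _).trans hX
  have hX0 : 1 ≤ X := le_trans (Nat.le_add_left 1 _) hX2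
  have hX0' : (1 : ℝ) ≤ (X : ℝ) := by exact_mod_cast hX0
  have hlogX : 0 ≤ Real.log X := Real.log_nonneg hX0'
  set M : ℕ := ⌊δ * Real.log X⌋₊ with hM
  have hMle : (M : ℝ) ≤ δ * Real.log X := Nat.floor_le (mul_nonneg hδ.le hlogX)
  set F : Finset ℕ := (Finset.range (M + 1)).biUnion fun L =>
    (Finset.univ : Finset (Fin L → Bool)).biUnion fun e => s L e with hF
  have hFcard : F.card ≤ (4 * C) ^ (M + 1) := by
    refine (Finset.card_biUnion_le).trans (le_trans (Finset.sum_le_sum fun L _ => ?_) (sum_words C M hC))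
    refine (Finset.card_biUnion_le).trans ((Finset.sum_le_sum fun e _ => hs1 L e).trans ?_)
    rw [Finset.sum_const, Finset.card_univ, Fintype.card_fun, Fintype.card_bool, Fintype.card_fin, smul_eq_mul]
  have hsub : {p : ℕ | p ∈ S ∧ p.Prime ∧ p ≤ X} ⊆ ((Finset.range N₃ ∪ F : Finset ℕ) : Set ℕ) := by
    rintro p ⟨hpS, hp, hpX⟩
    rw [Finset.mem_coe, Finset.mem_union, Finset.mem_range]
    by_cases hp3 : p < N₃
    · exact Or.inl hp3
    right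
    rw [not_lt] at hp3
    have hpN1 : N₁ ≤ p := (le_max_left _ _).trans (le_trans (Nat.le_add_right _ _) hp3)
    have hpN2 : N₂ < p := by
      have := le_max_right N₁ N₂
      omega
    have hp1 : (1 : ℝ) ≤ (p : ℝ) := by exact_mod_cast hp.one_le
    have hlogp : 0 ≤ Real.log p := Real.log_nonneg hp1
    have hMp : ((⌊δ * Real.log p⌋₊ : ℕ) : ℝ) ≤ δ * Real.log p := Nat.floor_le (mul_nonneg hδ.le hlogp)
    have h1 : (4 * C) ^ (⌊δ * Real.log p⌋₊ + 1) < p := by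
      have h2 := hN₁ p hpN1 _ hMp
      have h3 : (p : ℝ) ^ ε₁ ≤ (p : ℝ) := by
        have h4 := Real.rpow_le_rpow_of_exponent_le hp1 (min_le_right ε 1)
        rwa [Real.rpow_one] at h4
      have h5 : (((4 * C) ^ (⌊δ * Real.log p⌋₊ + 1) : ℕ) : ℝ) < (p : ℝ) := by linarith
      exact_mod_cast h5
    have : Fact p.Prime := ⟨hp⟩
    obtain ⟨L, hL, e, he⟩ := exists_bad p G C _ hC hdeg h1 (fun y => by
      obtain ⟨L, e, h2, h3⟩ := hN₂ p hpS hp hpN2 y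
      exact ⟨L, Nat.le_floor h2, e, h3⟩)
    have hlog : Real.log p ≤ Real.log X := Real.log_le_log (by linarith) (by exact_mod_cast hpX)
    have hMM : ⌊δ * Real.log p⌋₊ ≤ M := Nat.floor_le_floor (mul_le_mul_of_nonneg_left hlog hδ.le)
    rw [hF, Finset.mem_biUnion]
    refine ⟨L, Finset.mem_range.2 (by omega), ?_⟩
    rw [Finset.mem_biUnion]
    exact ⟨e, Finset.mem_univ _, hs2 L e p hp he⟩
  have hcard : {p : ℕ | p ∈ S ∧ p.Prime ∧ p ≤ X}.ncard ≤ N₃ + (4 * C) ^ (M + 1) := by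
    refine (Set.ncard_le_ncard hsub (Finset.finite_toSet _)).trans ?_
    rw [Set.ncard_coe_finset]
    refine (Finset.card_union_le _ _).trans ?_
    rw [Finset.card_range]
    omega
  have hcard' : ({p : ℕ | p ∈ S ∧ p.Prime ∧ p ≤ X}.ncard : ℝ) ≤ (N₃ : ℝ) + (((4 * C) ^ (M + 1) : ℕ) : ℝ) := by
    exact_mod_cast hcard
  have h6 := hN₁ X hX1 M hMle
  have h7 : 2 * (N₃ : ℝ) ≤ (X : ℝ) ^ ε₁ := by
    have h8 : (2 * (N₃ : ℝ)) ^ (1 / ε₁) ≤ (X : ℝ) := by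
      refine (Nat.le_ceil _).trans ?_
      have : ⌈(2 * (N₃ : ℝ)) ^ (1 / ε₁)⌉₊ ≤ X := by omega
      exact_mod_cast this
    have h9 : 0 ≤ 2 * (N₃ : ℝ) := by positivity
    calc 2 * (N₃ : ℝ) = ((2 * (N₃ : ℝ)) ^ (1 / ε₁)) ^ ε₁ := by
          rw [← Real.rpow_mul h9, one_div, inv_mul_cancel₀ hε1.ne', Real.rpow_one]
      _ ≤ (X : ℝ) ^ ε₁ := Real.rpow_le_rpow (Real.rpow_nonneg h9 _) h8 hε1.le
  have h10 : (X : ℝ) ^ ε₁ ≤ (X : ℝ) ^ ε := Real.rpow_le_rpow_of_exponent_le hX0' (min_le_left ε 1)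
  linarith

end Pool.Agent.LGF
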