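import Mathlib

/-!
# Counting zeros

MODULE LGF-LCntA. PLAN. `card_zeros`: `MvPolynomial.schwartz_zippel_totalDegree` for `MvPolynomial.map (Int.castRingHom (ZMod p)) G` and
`S = Finset.univ : Finset (ZMod p)` (`Fintype.piFinset_univ`, `ZMod.card`), `MvPolynomial.eval_map`, `totalDegree_map_le` (or `MvPolynomial.totalDegree_mono`
with `support_map_subset`); clear denominators in `ℚ≥0` (`div_le_div_iff`, cast back to `ℕ`; multiply both sides by `p ^ m * p`, both are positive).
`sum_words`: each term is at most `(2 * C) ^ (M + 1)` (`L + 1 ≤ M + 1`, `1 ≤ 2 * C`), there are `M + 1 ≤ 2 ^ (M + 1)` of them (`Nat.lt_two_pow_self`).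
-/

noncomputable section

namespace Pool.Agent.LGF

open MvPolynomial

theorem card_zeros (p : ℕ) [Fact p.Prime] {m : ℕ} (G : MvPolynomial (Fin m) ℤ) (D : ℕ) (hD : G.totalDegree ≤ D)
    (hG : MvPolynomial.map (Int.castRingHom (ZMod p)) G ≠ 0) :
    (Finset.univ.filter fun y : Fin m → ZMod p => eval₂ (Int.castRingHom (ZMod p)) y G = 0).card * p ≤
      D * p ^ m := by
  have hp : 0 < p := (Fact.out : p.Prime).pos
  have h := schwartz_zippel_totalDegree hG (Finset.univ : Finset (ZMod p))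
  rw [Fintype.piFinset_univ, Finset.card_univ, ZMod.card] at h
  have h1 : (MvPolynomial.map (Int.castRingHom (ZMod p)) G).totalDegree ≤ D :=
    (Finset.sup_mono (support_map_subset _ _)).trans hD
  have h2 : (Finset.univ.filter fun y : Fin m → ZMod p =>
      eval₂ (Int.castRingHom (ZMod p)) y G = 0) =
      Finset.univ.filter fun y : Fin m → ZMod p =>
        eval y (MvPolynomial.map (Int.castRingHom (ZMod p)) G) = 0 := by
    refine Finset.filter_congr fun y _ => ?_
    rw [eval_map]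
  rw [h2]
  have hp1 : (0 : ℚ≥0) < (p : ℚ≥0) := by exact_mod_cast hp
  have hp2 : (0 : ℚ≥0) < (p : ℚ≥0) ^ m := pow_pos hp1 m
  rw [div_le_div_iff₀ hp2 hp1] at h
  have h3 : (Finset.univ.filter fun y : Fin m → ZMod p =>
      eval y (MvPolynomial.map (Int.castRingHom (ZMod p)) G) = 0).card * p ≤
      (MvPolynomial.map (Int.castRingHom (ZMod p)) G).totalDegree * p ^ m := by
    exact_mod_cast h
  exact h3.trans (Nat.mul_le_mul_right _ h1)

theorem sum_words (C M : ℕ) (hC : 1 ≤ C) :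
    ∑ L ∈ Finset.range (M + 1), 2 ^ L * C ^ (L + 1) ≤ (4 * C) ^ (M + 1) := by
  have h1 : ∀ L ∈ Finset.range (M + 1), 2 ^ L * C ^ (L + 1) ≤ (2 * C) ^ (M + 1) := by
    intro L hL
    rw [Finset.mem_range] at hL
    calc 2 ^ L * C ^ (L + 1) ≤ 2 ^ (L + 1) * C ^ (L + 1) :=
          Nat.mul_le_mul_right _ (Nat.pow_le_pow_right (by norm_num) (Nat.le_succ L))
      _ = (2 * C) ^ (L + 1) := (mul_pow _ _ _).symm
      _ ≤ (2 * C) ^ (M + 1) := Nat.pow_le_pow_right (by omega) (by omega)
  refine (Finset.sum_le_sum h1).trans ?_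
  rw [Finset.sum_const, Finset.card_range, smul_eq_mul]
  have h2 : M + 1 ≤ 2 ^ (M + 1) := Nat.lt_two_pow_self.le
  calc (M + 1) * (2 * C) ^ (M + 1) ≤ 2 ^ (M + 1) * (2 * C) ^ (M + 1) :=
        Nat.mul_le_mul_right _ h2
    _ = (4 * C) ^ (M + 1) := by
        rw [← mul_pow]
        congr 1
        ring

end Pool.Agent.LGF
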