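import Pool.Agent.LGF.Base
import Pool.Agent.LGF.Glue

/-!
# Extraction of finitely generated rings from a program

Every relation is defined over a finitely generated subring of the product ring (`extr`). For the indices without a
constraint the relation `y_L = 0` (or `y_0 - 2 y_L = z`) is added as a second factor (`nul_glue`), so that all points exist.
-/

noncomputable section

namespace Pool.Agent.LGF

open Pool.Agent.GSM

variable {I σ : Type} [Finite I] [DecidableEq I] [Finite σ] [DecidableEq σ]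

private theorem ft_surj {A B : Type} [CommRing A] [CommRing B] [Algebra ℤ A] [Algebra.FiniteType ℤ A]
    (f : A →+* B) (hf : Function.Surjective f) : Algebra.FiniteType ℤ B := by
  have hcomm : ∀ r : ℤ, f (algebraMap ℤ A r) = algebraMap ℤ B r := fun r => by
    rw [eq_intCast (algebraMap ℤ A) r, eq_intCast (algebraMap ℤ B) r, map_intCast]
  obtain ⟨F, hF⟩ : ∃ F : A →ₐ[ℤ] B, ∀ x, F x = f x :=
    ⟨{ f with commutes' := hcomm }, fun _ => rfl⟩
  refine Algebra.FiniteType.of_surjective F fun b => ?_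
  obtain ⟨x, hx⟩ := hf b
  exact ⟨x, (hF x).trans hx⟩

/-- generated by a finite set -/
private theorem ft_closure {K : Type} [CommRing K] {F : Set K} (hF : F.Finite) (S : Subring K)
    (hS : S = Subring.closure F) : Algebra.FiniteType ℤ S := by
  have hfin : Finite F := hF
  have hm : ∀ c : F, (c : K) ∈ S := fun c => by
    rw [hS]
    exact Subring.subset_closure c.2
  obtain ⟨f, hfdef⟩ : ∃ f : MvPolynomial F ℤ →+* S,
      f = MvPolynomial.eval₂Hom (Int.castRingHom S) (fun c : F => (⟨(c : K), hm c⟩ : S)) := ⟨_, rfl⟩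
  have hf : Function.Surjective f := by
    have h1 : S ≤ (S.subtype.comp f).range := by
      conv_lhs => rw [hS]
      rw [Subring.closure_le]
      intro c hc
      refine ⟨MvPolynomial.X ⟨c, hc⟩, ?_⟩
      rw [hfdef, RingHom.comp_apply, MvPolynomial.eval₂Hom_X']
      rfl
    rintro ⟨s, hs⟩
    obtain ⟨p, hp⟩ := h1 hs
    exact ⟨p, Subtype.ext hp⟩
  exact ft_surj f hf

private theorem range_fg {A K : Type} [CommRing A] [CommRing K] [Algebra.FiniteType ℤ A] (f : A →+* K) :
    ∃ F : Set K, F.Finite ∧ ∀ x, f x ∈ Subring.closure F := by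
  obtain ⟨n, g, hg⟩ := Algebra.FiniteType.iff_quotient_mvPolynomial''.mp
    (inferInstance : Algebra.FiniteType ℤ A)
  refine ⟨Set.range (fun i : Fin n => f (g (MvPolynomial.X i))), Set.finite_range _, fun x => ?_⟩
  obtain ⟨p, rfl⟩ := hg x
  induction p using MvPolynomial.induction_on with
  | C a =>
    have h1 : g (MvPolynomial.C a) = (a : A) := by
      have h2 : (MvPolynomial.C a : MvPolynomial (Fin n) ℤ) = ((a : ℤ) : MvPolynomial (Fin n) ℤ) := by
        exact (eq_intCast MvPolynomial.C a)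
      rw [h2, map_intCast]
    rw [h1, map_intCast]
    exact intCast_mem _ a
  | add p q hp hq =>
    rw [map_add, map_add]
    exact add_mem hp hq
  | mul_X p i hp =>
    rw [map_mul, map_mul]
    exact mul_mem hp (Subring.subset_closure ⟨i, rfl⟩)

private theorem extr {E R K : Type} [CommRing E] [CommRing R] [CommRing K] [Algebra.FiniteType ℤ E]
    [Algebra.FiniteType ℤ R] (f₁ f₂ : E →+* K) (f₃ : R →+* K) (y : GG I σ E) (z : GG I σ R) (α β γ : ℚ)
    (h : Nul (α • GG.base f₁ y + β • GG.base f₂ y + γ • GG.base f₃ z)) :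
    ∃ (W : Type) (_ : CommRing W) (_ : Algebra.FiniteType ℤ W) (w₁ w₂ : E →+* W) (w₃ : R →+* W)
      (g : W →+* K), g.comp w₁ = f₁ ∧ g.comp w₂ = f₂ ∧ g.comp w₃ = f₃ ∧
      Nul (α • GG.base w₁ y + β • GG.base w₂ y + γ • GG.base w₃ z) := by
  obtain ⟨F₁, hF₁, h₁⟩ := range_fg f₁
  obtain ⟨F₂, hF₂, h₂⟩ := range_fg f₂
  obtain ⟨F₃, hF₃, h₃⟩ := range_fg f₃
  obtain ⟨S, hS⟩ : ∃ S : Subring K, S = Subring.closure (F₁ ∪ (F₂ ∪ F₃)) := ⟨_, rfl⟩
  have m₁ : ∀ x, f₁ x ∈ S := fun x => by
    rw [hS]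
    exact Subring.closure_mono (fun c hc => Or.inl hc) (h₁ x)
  have m₂ : ∀ x, f₂ x ∈ S := fun x => by
    rw [hS]
    exact Subring.closure_mono (fun c hc => Or.inr (Or.inl hc)) (h₂ x)
  have m₃ : ∀ x, f₃ x ∈ S := fun x => by
    rw [hS]
    exact Subring.closure_mono (fun c hc => Or.inr (Or.inr hc)) (h₃ x)
  have c₁ : S.subtype.comp (f₁.codRestrict S m₁) = f₁ := rfl
  have c₂ : S.subtype.comp (f₂.codRestrict S m₂) = f₂ := rfl
  have c₃ : S.subtype.comp (f₃.codRestrict S m₃) = f₃ := rfl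
  have e : GG.base S.subtype (α • GG.base (f₁.codRestrict S m₁) y + β • GG.base (f₂.codRestrict S m₂) y +
      γ • GG.base (f₃.codRestrict S m₃) z) =
      α • GG.base f₁ y + β • GG.base f₂ y + γ • GG.base f₃ z := by
    rw [map_add, map_add, map_smul, map_smul, map_smul, GG.base_base, GG.base_base, GG.base_base,
      c₁, c₂, c₃]
  rw [← e] at h
  obtain ⟨F₄, hF₄, h₄⟩ := bd_descend.{0, 0, 0} S.subtype _ h
  obtain ⟨S', hS'⟩ : ∃ S' : Subring K, S' = Subring.closure ((F₁ ∪ (F₂ ∪ F₃)) ∪ F₄) := ⟨_, rfl⟩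
  have hle : S ≤ S' := by
    rw [hS, hS']
    exact Subring.closure_mono (fun c hc => Or.inl hc)
  have h5 := h₄ (Subring.inclusion hle) S'.subtype rfl Subtype.val_injective (by
    intro c hc
    refine ⟨⟨c, ?_⟩, rfl⟩
    rw [hS']
    exact Subring.subset_closure (Or.inr hc))
  rw [map_add, map_add, map_smul, map_smul, map_smul, GG.base_base, GG.base_base, GG.base_base] at h5
  have hft : Algebra.FiniteType ℤ S' :=
    ft_closure ((hF₁.union (hF₂.union hF₃)).union hF₄) S' hS'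
  exact ⟨S', inferInstance, hft, (Subring.inclusion hle).comp (f₁.codRestrict S m₁),
    (Subring.inclusion hle).comp (f₂.codRestrict S m₂), (Subring.inclusion hle).comp (f₃.codRestrict S m₃),
    S'.subtype, rfl, rfl, rfl, h5⟩

/-- without matrices all homotopies are constant -/
private theorem base_empty {I' σ' : Type} [IsEmpty σ'] {T T' : Type} [CommRing T] [CommRing T']
    (f g : T →+* T') (x : GG I' σ' T) : GG.base f x = GG.base g x := by
  have h : (KK.map (MvPolynomial.map (σ := I') f)).toLinearMap =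
      ((KK.map (MvPolynomial.map (σ := I') g)).toLinearMap :
        KK σ' (MvPolynomial I' T) →ₗ[ℚ] KK σ' (MvPolynomial I' T')) := by
    refine KK.lin_ext fun r A => ?_
    show KK.map (MvPolynomial.map (σ := I') f) (KK.mk A) = KK.map (MvPolynomial.map (σ := I') g) (KK.mk A)
    rw [KK.map_mk, KK.map_mk]
    congr 1
    refine Tup.ext ?_
    funext s
    exact isEmptyElim s
  exact congrArg (fun F => F x) h

private theorem nul_glue' {T T₁ T₂ : Type} [CommRing T] [CommRing T₁] [CommRing T₂] {f₁ : T →+* T₁}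
    {f₂ : T →+* T₂} {I' σ' : Type} [DecidableEq I'] [DecidableEq σ'] (h : IsProd f₁ f₂) {x : GG I' σ' T}
    (h₁ : Nul (GG.base f₁ x)) (h₂ : Nul (GG.base f₂ x)) : Nul x := by
  rcases isEmpty_or_nonempty σ' with hσ | hσ
  · obtain ⟨y₁, _, e₁⟩ := h₁
    obtain ⟨y₂, _, e₂⟩ := h₂
    rw [base_empty (ev T₁ true) (ev T₁ false), sub_self] at e₁
    rw [base_empty (ev T₂ true) (ev T₂ false), sub_self] at e₂
    have h3 : x = 0 := gg_inj_prod h x e₁.symm e₂.symm
    rw [h3]
    exact BdOn.zero _ _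
  · exact nul_glue h h₁ h₂

private theorem isProd_fst (A B : Type) [CommRing A] [CommRing B] :
    IsProd (RingHom.fst A B) (RingHom.snd A B) := by
  refine ⟨fun x y h => h, fun x => ⟨x, rfl⟩⟩

omit [Finite I] [Finite σ] in
private theorem nul_prod {E R K K' : Type} [CommRing E] [CommRing R] [CommRing K] [CommRing K']
    (f₁ f₂ : E →+* K) (f₃ : R →+* K) (f₁' f₂' : E →+* K') (f₃' : R →+* K') (y : GG I σ E) (z : GG I σ R)
    (α β γ : ℚ) (h : Nul (α • GG.base f₁ y + β • GG.base f₂ y + γ • GG.base f₃ z))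
    (h' : Nul (α • GG.base f₁' y + β • GG.base f₂' y + γ • GG.base f₃' z)) :
    Nul (α • GG.base (f₁.prod f₁') y + β • GG.base (f₂.prod f₂') y + γ • GG.base (f₃.prod f₃') z) := by
  refine nul_glue' (isProd_fst K K') ?_ ?_
  · rw [map_add, map_add, map_smul, map_smul, map_smul, GG.base_base, GG.base_base, GG.base_base,
      RingHom.fst_comp_prod, RingHom.fst_comp_prod, RingHom.fst_comp_prod]
    exact h
  · rw [map_add, map_add, map_smul, map_smul, map_smul, GG.base_base, GG.base_base, GG.base_base,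
      RingHom.snd_comp_prod, RingHom.snd_comp_prod, RingHom.snd_comp_prod]
    exact h'

/-- Finitely generated rings describing a program for `z`. -/
structure Rings {R : Type} [CommRing R] (z : GG I σ R) where
  E : Type
  Wi : Type
  Ws : Bool → Type
  Wf : Type
  [cE : CommRing E] [cWi : CommRing Wi] [cWs : ∀ b, CommRing (Ws b)] [cWf : CommRing Wf]
  [fE : Algebra.FiniteType ℤ E] [fWi : Algebra.FiniteType ℤ Wi]
  [fWs : ∀ b, Algebra.FiniteType ℤ (Ws b)] [fWf : Algebra.FiniteType ℤ Wf]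
  yE : GG I σ E
  ei : E →+* Wi
  ri : R →+* Wi
  e0 : ∀ b, E →+* Ws b
  e1 : ∀ b, E →+* Ws b
  rs : ∀ b, R →+* Ws b
  ef : E →+* Wf
  init : Nul (GG.base ei yE - GG.base ri z)
  step : ∀ b, Nul (GG.base (e1 b) yE - (2 : ℚ) • GG.base (e0 b) yE -
    (if b then 1 else 0 : ℚ) • GG.base (rs b) z)
  final : Nul (GG.base ef yE)

attribute [instance] Rings.cE Rings.cWi Rings.cWs Rings.cWf Rings.fE Rings.fWi Rings.fWs Rings.fWf

theorem exists_rings {R : Type} [CommRing R] [Algebra.FiniteType ℤ R] {z : GG I σ R} (hz : Cub z)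
    {ι : Type} (k : ι → Type) [∀ i, Field (k i)] (a : R →+* ∀ i, k i) (L : ι → ℕ)
    (h : Die k L (GG.base a z)) :
    ∃ P : Rings z, ∀ i, ∃ (e : ℕ → Bool) (pE : ℕ → (P.E →+* k i)) (pi : P.Wi →+* k i)
      (ps : ∀ b, ℕ → (P.Ws b →+* k i)) (pf : P.Wf →+* k i),
      pi.comp P.ei = pE 0 ∧ pi.comp P.ri = (Pi.evalRingHom k i).comp a ∧
      pf.comp P.ef = pE (L i) ∧
      ∀ j < L i, (ps (e j) j).comp (P.e0 (e j)) = pE j ∧ (ps (e j) j).comp (P.e1 (e j)) = pE (j + 1) ∧
        (ps (e j) j).comp (P.rs (e j)) = (Pi.evalRingHom k i).comp a := by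
  classical
  obtain ⟨e, y, hy, hinit, hfin, hstep⟩ := h
  obtain ⟨F, hF, hcube⟩ := exists_cube.{0, 0} hy
  obtain ⟨S, hS⟩ : ∃ S : Subring (∀ s : ι × ℕ, k s.1), S = Subring.closure F := ⟨_, rfl⟩
  have hSft : Algebra.FiniteType ℤ S := ft_closure hF S hS
  obtain ⟨yE, _, hyE⟩ := hcube S.subtype Subtype.val_injective (by
    intro c hc
    refine ⟨⟨c, ?_⟩, rfl⟩
    rw [hS]
    exact Subring.subset_closure hc)
  rw [← hyE] at hinit hfin hstep
  -- the initial relation
  have hinit' : Nul ((1 : ℚ) • GG.base ((at_ k fun _ => 0).comp S.subtype) yE +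
      (0 : ℚ) • GG.base ((at_ k fun _ => 0).comp S.subtype) yE + (-1 : ℚ) • GG.base a z) := by
    rw [one_smul, zero_smul, add_zero, neg_smul, one_smul, ← sub_eq_add_neg, ← GG.base_base]
    exact hinit
  obtain ⟨Wi, cWi, fWi, ei, _, ri, gi, i1, _, i3, i4⟩ := extr _ _ _ _ _ _ _ _ hinit'
  rw [one_smul, zero_smul, add_zero, neg_smul, one_smul, ← sub_eq_add_neg] at i4
  -- the final relation
  have hfin' : Nul ((1 : ℚ) • GG.base ((at_ k L).comp S.subtype) yE +
      (0 : ℚ) • GG.base ((at_ k L).comp S.subtype) yE + (0 : ℚ) • GG.base a z) := by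
    rw [one_smul, zero_smul, add_zero, zero_smul, add_zero, ← GG.base_base]
    exact hfin
  obtain ⟨Wf, cWf, fWf, ef, _, _, gf, j1, _, _, j4⟩ := extr _ _ _ _ _ _ _ _ hfin'
  rw [one_smul, zero_smul, add_zero, zero_smul, add_zero] at j4
  -- the steps
  have hex : ∀ b : Bool, ∃ (W : Type) (_ : CommRing W) (_ : Algebra.FiniteType ℤ W) (w₁ w₂ : S →+* W)
      (w₃ : R →+* W) (g : W →+* (∀ s : {s : ι × ℕ // s.2 < L s.1 ∧ e s.1 s.2 = b}, k s.1.1) × ∀ i, k i),
      (RingHom.fst _ _).comp (g.comp w₁) = (res (fun s : ι × ℕ => k s.1)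
        (Subtype.val : {s : ι × ℕ // s.2 < L s.1 ∧ e s.1 s.2 = b} → ι × ℕ)).comp S.subtype ∧
      (RingHom.fst _ _).comp (g.comp w₂) = ((res (fun s : ι × ℕ => k s.1)
        (Subtype.val : {s : ι × ℕ // s.2 < L s.1 ∧ e s.1 s.2 = b} → ι × ℕ)).comp
          (rr k fun _ j => j + 1)).comp S.subtype ∧
      (RingHom.fst _ _).comp (g.comp w₃) = ((res (fun s : ι × ℕ => k s.1)
        (Subtype.val : {s : ι × ℕ // s.2 < L s.1 ∧ e s.1 s.2 = b} → ι × ℕ)).comp (pb k ℕ)).comp a ∧
      Nul (GG.base w₂ yE - (2 : ℚ) • GG.base w₁ yE - (if b then 1 else 0 : ℚ) • GG.base w₃ z) := by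
    intro b
    have r1 : Nul ((-2 : ℚ) • GG.base ((res (fun s : ι × ℕ => k s.1)
        (Subtype.val : {s : ι × ℕ // s.2 < L s.1 ∧ e s.1 s.2 = b} → ι × ℕ)).comp S.subtype) yE +
        (1 : ℚ) • GG.base (((res (fun s : ι × ℕ => k s.1)
        (Subtype.val : {s : ι × ℕ // s.2 < L s.1 ∧ e s.1 s.2 = b} → ι × ℕ)).comp
          (rr k fun _ j => j + 1)).comp S.subtype) yE +
        (-(if b then 1 else 0 : ℚ)) • GG.base (((res (fun s : ι × ℕ => k s.1)
        (Subtype.val : {s : ι × ℕ // s.2 < L s.1 ∧ e s.1 s.2 = b} → ι × ℕ)).comp (pb k ℕ)).comp a) z) := by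
      have h1 := hstep b
      rw [map_sub, map_sub, map_smul, map_smul] at h1
      simp only [GG.base_base] at h1
      rw [RingHom.comp_assoc, RingHom.comp_assoc, one_smul, neg_smul, neg_smul]
      have h2 : ∀ p q r : GG I σ (∀ s : {s : ι × ℕ // s.2 < L s.1 ∧ e s.1 s.2 = b}, k s.1.1),
          -p + q + -r = q - p - r := fun p q r => by abel
      rw [h2]
      exact h1
    obtain ⟨u, hu⟩ : ∃ u : ι → ℕ, u = if b then fun _ => 0 else L := ⟨_, rfl⟩
    have r2 : Nul ((-2 : ℚ) • GG.base ((at_ k L).comp S.subtype) yE +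
        (1 : ℚ) • GG.base ((at_ k u).comp S.subtype) yE +
        (-(if b then 1 else 0 : ℚ)) • GG.base a z) := by
      have h1 : Nul (GG.base ((at_ k L).comp S.subtype) yE) := by
        rw [← GG.base_base]
        exact hfin
      cases b
      · have h2 : u = L := by rw [hu]; rfl
        rw [h2, ← add_smul]
        have h3 : (-(if false = true then (1 : ℚ) else 0)) = 0 := by norm_num
        rw [h3, zero_smul, add_zero]
        exact h1.smul _
      · have h2 : u = fun _ => 0 := by rw [hu]; rfl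
        have h3 : (-(if true = true then (1 : ℚ) else 0)) = -1 := by norm_num
        rw [h2, h3, one_smul, add_assoc, neg_smul 1, one_smul, ← sub_eq_add_neg]
        refine (h1.smul _).add ?_
        rw [← GG.base_base]
        exact hinit
    obtain ⟨W, cW, fW, w₁, w₂, w₃, g, g1, g2, g3, g4⟩ :=
      extr _ _ _ _ _ _ _ _ (nul_prod _ _ _ _ _ _ _ _ _ _ _ r1 r2)
    refine ⟨W, cW, fW, w₁, w₂, w₃, g, ?_, ?_, ?_, ?_⟩
    · rw [g1, RingHom.fst_comp_prod]
    · rw [g2, RingHom.fst_comp_prod]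
    · rw [g3, RingHom.fst_comp_prod]
    · rw [one_smul, neg_smul, neg_smul] at g4
      have h2 : ∀ p q r : GG I σ W, -p + q + -r = q - p - r := fun p q r => by abel
      rw [h2] at g4
      exact g4
  choose Ws cWs fWs e0 e1 rs gs s1 s2 s3 s4 using hex
  refine ⟨{
    E := S
    Wi := Wi
    Ws := Ws
    Wf := Wf
    cE := inferInstance
    cWi := cWi
    cWs := cWs
    cWf := cWf
    fE := hSft
    fWi := fWi
    fWs := fWs
    fWf := fWf
    yE := yE
    ei := ei
    ri := ri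
    e0 := e0
    e1 := e1
    rs := rs
    ef := ef
    init := i4
    step := s4
    final := j4 }, fun i => ?_⟩
  obtain ⟨ps, hps⟩ : ∃ ps : ∀ b : Bool, ℕ → (Ws b →+* k i), ∀ (j : ℕ) (hj : j < L i),
      ps (e i j) j = (Pi.evalRingHom (fun s : {s : ι × ℕ // s.2 < L s.1 ∧ e s.1 s.2 = e i j} => k s.1.1)
        ⟨(i, j), ⟨hj, rfl⟩⟩).comp ((RingHom.fst _ _).comp (gs (e i j))) :=
    ⟨fun b j => if hbj : j < L i ∧ e i j = b then
      (Pi.evalRingHom (fun s : {s : ι × ℕ // s.2 < L s.1 ∧ e s.1 s.2 = b} => k s.1.1)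
        ⟨(i, j), hbj⟩).comp ((RingHom.fst _ _).comp (gs b))
      else (Pi.evalRingHom k i).comp ((RingHom.snd _ _).comp (gs b)), fun j hj => dif_pos ⟨hj, rfl⟩⟩
  refine ⟨e i, fun j => (Pi.evalRingHom (fun s : ι × ℕ => k s.1) (i, j)).comp S.subtype,
    (Pi.evalRingHom k i).comp gi, ps, (Pi.evalRingHom k i).comp gf, ?_, ?_, ?_, ?_⟩
  · show ((Pi.evalRingHom k i).comp gi).comp ei = _
    rw [RingHom.comp_assoc, i1]
    rfl
  · show ((Pi.evalRingHom k i).comp gi).comp ri = _
    rw [RingHom.comp_assoc, i3]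
  · show ((Pi.evalRingHom k i).comp gf).comp ef = _
    rw [RingHom.comp_assoc, j1]
    rfl
  · intro j hj
    refine ⟨?_, ?_, ?_⟩
    · show (ps (e i j) j).comp (e0 (e i j)) = _
      rw [hps j hj, RingHom.comp_assoc, RingHom.comp_assoc, s1]
      rfl
    · show (ps (e i j) j).comp (e1 (e i j)) = _
      rw [hps j hj, RingHom.comp_assoc, RingHom.comp_assoc, s2]
      rfl
    · show (ps (e i j) j).comp (rs (e i j)) = _
      rw [hps j hj, RingHom.comp_assoc, RingHom.comp_assoc, s3]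
      rfl

end Pool.Agent.LGF
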