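import Pool.Agent.LGF.LG
import Pool.Agent.LGF.LCnt
import Pool.Agent.LGF.LArith

/-!
# The lower bound

If the set `S` of primes is not thin and for all families of finite fields with characteristics in `S` the specialisations of the class `z` die in `o(log p)` doubling
steps then `z` is zero over the field of fractions of `R`.
-/

noncomputable section

namespace Pool.Agent.LGF

open Pool.Agent.GSM

private theorem rrun_congr {I σ : Type} [Finite I] [DecidableEq I] [Finite σ] [DecidableEq σ] {R : Type} [CommRing R]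
    {z : GG I σ R} (P : Rings z) {κ : Type} [CommRing κ] (a : R →+* κ) (L : ℕ) (e e' : ℕ → Bool)
    (he : ∀ j < L, e j = e' j) (h : RRun P a L e) : RRun P a L e' := by
  obtain ⟨pE, pi, pf, h1, h2, h3, h4⟩ := h
  refine ⟨pE, pi, pf, h1, h2, h3, fun j hj => ?_⟩
  rw [← he j hj]
  exact h4 j hj

private theorem eval_zmod {p : ℕ} [Fact p.Prime] {κ : Type} [Field κ] [CharP κ p] {m : ℕ} (y : Fin m → ZMod p) (w : Fin m → κ)
    (h : ∀ j (n : ℤ), (n : ZMod p) = y j → w j = (n : κ)) (G : MvPolynomial (Fin m) ℤ)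
    (hG : MvPolynomial.aeval w G = 0) : MvPolynomial.eval₂ (Int.castRingHom (ZMod p)) y G = 0 := by
  have hinj : Function.Injective (ZMod.castHom (dvd_refl p) κ) := RingHom.injective _
  apply hinj
  rw [map_zero, ← hG]
  have hw : w = fun j => ZMod.castHom (dvd_refl p) κ (y j) := by
    funext j
    obtain ⟨n, hn⟩ := ZMod.intCast_surjective (y j)
    rw [h j n hn, ← hn, map_intCast]
  have h1 : (ZMod.castHom (dvd_refl p) κ).comp (MvPolynomial.eval₂Hom (Int.castRingHom (ZMod p)) y) =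
      ((MvPolynomial.aeval w : MvPolynomial (Fin m) ℤ →ₐ[ℤ] κ) : MvPolynomial (Fin m) ℤ →+* κ) := by
    apply MvPolynomial.ringHom_ext
    · intro n
      simp
    · intro j
      rw [hw]
      simp
  exact RingHom.congr_fun h1 G

theorem lower {I σ : Type} [Finite I] [DecidableEq I] [Finite σ] [DecidableEq σ] {S : Set ℕ} (hS : ¬ Plain.Thin S)
    {R : Type} [CommRing R] [IsDomain R] [CharZero R] [Algebra.FiniteType ℤ R] {z : GG I σ R} (hz : Cub z)
    (h : ∀ (ι : Type) (k : ι → Type) [∀ i, Field (k i)], Plain.IsFiniteFamily S k → ∀ a : R →+* ∀ i, k i,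
      ∃ (N : ℕ) (L : ι → ℕ), Plain.SmallO (fun i => ringChar (k i)) L ∧
        Die (fun i : {i // N < ringChar (k i)} => k i) (fun i => L i)
          (GG.base (res k (Subtype.val : {i // N < ringChar (k i)} → ι)) (GG.base a z))) :
    Nul (GG.base (algebraMap R (FractionRing R)) z) := by
  by_contra hnz
  apply hS
  obtain ⟨m, D, f, x, hD, hx, halg, hpt⟩ := exists_arith R
  let ι : Type := {𝔪 : Ideal R // 𝔪.IsMaximal ∧ Finite (R ⧸ 𝔪) ∧ ringChar (R ⧸ 𝔪) ∈ S ∧
    Nat.card (R ⧸ 𝔪) ≤ ringChar (R ⧸ 𝔪) ^ f}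
  let k : ι → Type := fun i => R ⧸ i.1
  let inst : ∀ i, Field (k i) := fun i => by
    haveI := i.2.1
    exact Ideal.Quotient.field i.1
  have hfam : Plain.IsFiniteFamily S k := ⟨fun i => ⟨i.2.2.1, i.2.2.2.1⟩, f, fun i => i.2.2.2.2⟩
  let a : R →+* ∀ i, k i := RingHom.pi fun i => Ideal.Quotient.mk i.1
  obtain ⟨N, L, hL, hDie⟩ := h ι k hfam a
  rw [GG.base_base] at hDie
  obtain ⟨P, hP⟩ := exists_rings hz (fun i : {i // N < ringChar (k i)} => k i)
    ((res k (Subtype.val : {i // N < ringChar (k i)} → ι)).comp a) (fun i => L i) hDie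
  obtain ⟨C, hC⟩ := exists_G P x hx halg hnz
  choose G hGd hGs hGr using hC
  have hC1 : ∀ L : ℕ, C ^ (L + 1) ≤ (C + 1) ^ (L + 1) := fun L => Nat.pow_le_pow_left (Nat.le_succ C) _
  refine thin_of_cover S G (C + 1) (Nat.le_add_left 1 C) (fun L e => (hGd L e).trans (hC1 L)) (fun L e => ?_) ?_
  · obtain ⟨s, hs, hs'⟩ := hGs L e
    exact ⟨s, hs.trans (hC1 L), hs'⟩
  · intro δ hδ
    obtain ⟨N₁, hN₁⟩ := hL δ hδ
    refine ⟨max (max N N₁) D, fun p hpS hp hNp y => ?_⟩
    have hN2 : N < p := lt_of_le_of_lt ((le_max_left N N₁).trans (le_max_left _ D)) hNp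
    have hN3 : N₁ < p := lt_of_le_of_lt ((le_max_right N N₁).trans (le_max_left _ D)) hNp
    have hpD : ¬ p ∣ D := fun hd => absurd (Nat.le_of_dvd hD hd) (not_le.2 (lt_of_le_of_lt (le_max_right _ D) hNp))
    obtain ⟨𝔪, hm, hchar, hfin, hcard, hxy⟩ := hpt p hp hpD y
    let i : ι := ⟨𝔪, hm, hfin, by rw [hchar]; exact hpS, by rw [hchar]; exact hcard⟩
    have hci : ringChar (k i) = p := hchar
    let i' : {i // N < ringChar (k i)} := ⟨i, by rw [hci]; exact hN2⟩
    obtain ⟨e, pE, pi, ps, pf, h1, h2, h3, h4⟩ := hP i'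
    have hr : RRun P (Ideal.Quotient.mk 𝔪 : R →+* k i) (L i) e :=
      ⟨pE, pi, pf, h1, h2, h3, fun j hj => ⟨ps (e j) j, h4 j hj⟩⟩
    refine ⟨L i, fun j => e j, ?_, ?_⟩
    · have h7 : N₁ < ringChar (k i) := by
        rw [hci]
        exact hN3
      have h8 : (L i : ℝ) ≤ δ * Real.log (ringChar (k i)) := hN₁ i h7
      rw [hci] at h8
      exact h8
    · have : Fact p.Prime := ⟨hp⟩
      have : CharP (k i) p := ringChar.of_eq hci
      have hG := hGr (L i) (fun j => e j) (k i) (Ideal.Quotient.mk 𝔪) (rrun_congr P _ _ _ _ (fun j hj => by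
        rw [ext, dif_pos hj]) hr)
      refine eval_zmod (κ := k i) y (fun j => (Ideal.Quotient.mk 𝔪 (x j) : k i)) (fun j n hn => ?_) _ hG
      have h5 := hxy j n hn
      have h6 : (Ideal.Quotient.mk 𝔪 (x j - (n : R))) = 0 := Ideal.Quotient.eq_zero_iff_mem.2 h5
      rw [map_sub, map_intCast, sub_eq_zero] at h6
      exact h6

end Pool.Agent.LGF
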