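import Pool.Agent.LGF.Base

/-!
# The generic point: injectivity, descent from an algebraic extension
-/

noncomputable section

namespace Pool.Agent.LGF

open Pool.Agent.GSM

private theorem lg_comp {R : Type} [CommRing R] {m : ℕ} (x : Fin m → R)
    (a : R →+* AlgebraicClosure (FractionRing (MvPolynomial (Fin m) ℤ)))
    (ha : ∀ i, a (x i) = algebraMap (MvPolynomial (Fin m) ℤ) (AlgebraicClosure (FractionRing (MvPolynomial (Fin m) ℤ)))
      (MvPolynomial.X i)) (F : MvPolynomial (Fin m) ℤ) :
    a (MvPolynomial.aeval x F) =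
      algebraMap (MvPolynomial (Fin m) ℤ) (AlgebraicClosure (FractionRing (MvPolynomial (Fin m) ℤ))) F := by
  have h : a.comp (MvPolynomial.aeval (R := ℤ) x : MvPolynomial (Fin m) ℤ →ₐ[ℤ] R).toRingHom =
      algebraMap (MvPolynomial (Fin m) ℤ) (AlgebraicClosure (FractionRing (MvPolynomial (Fin m) ℤ))) := by
    refine MvPolynomial.ringHom_ext ?_ ?_
    · intro n
      have h1 : (MvPolynomial.C n : MvPolynomial (Fin m) ℤ) = ((n : ℤ) : MvPolynomial (Fin m) ℤ) := by simp
      rw [h1, map_intCast, map_intCast]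
    · intro i
      show a (MvPolynomial.aeval x (MvPolynomial.X i)) = _
      rw [MvPolynomial.aeval_X]
      exact ha i
  exact congrArg (fun f : MvPolynomial (Fin m) ℤ →+*
    AlgebraicClosure (FractionRing (MvPolynomial (Fin m) ℤ)) => f F) h

private theorem lg_inj0 (m : ℕ) : Function.Injective (algebraMap (MvPolynomial (Fin m) ℤ)
    (AlgebraicClosure (FractionRing (MvPolynomial (Fin m) ℤ)))) := by
  rw [IsScalarTower.algebraMap_eq (MvPolynomial (Fin m) ℤ) (FractionRing (MvPolynomial (Fin m) ℤ))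
    (AlgebraicClosure (FractionRing (MvPolynomial (Fin m) ℤ)))]
  exact (algebraMap (FractionRing (MvPolynomial (Fin m) ℤ))
    (AlgebraicClosure (FractionRing (MvPolynomial (Fin m) ℤ)))).injective.comp
    (IsFractionRing.injective (MvPolynomial (Fin m) ℤ) (FractionRing (MvPolynomial (Fin m) ℤ)))

private theorem lg_inj {R : Type} [CommRing R] [IsDomain R] {m : ℕ} (x : Fin m → R)
    (halg : Algebra.IsAlgebraic (Algebra.adjoin ℤ (Set.range x)) R)
    (a : R →+* AlgebraicClosure (FractionRing (MvPolynomial (Fin m) ℤ)))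
    (ha : ∀ i, a (x i) = algebraMap (MvPolynomial (Fin m) ℤ) (AlgebraicClosure (FractionRing (MvPolynomial (Fin m) ℤ)))
      (MvPolynomial.X i)) : Function.Injective a := by
  rw [injective_iff_map_eq_zero]
  intro b hb
  by_contra hne
  have h1 : (RingHom.ker a).comap (algebraMap (Algebra.adjoin ℤ (Set.range x)) R) ≠ ⊥ :=
    Ideal.comap_ne_bot_of_algebraic_mem hne ((RingHom.mem_ker).2 hb) (halg.isAlgebraic b)
  obtain ⟨b₀, hb₀, hne₀⟩ := Submodule.exists_mem_ne_zero_of_ne_bot h1
  have h2 : a (b₀ : R) = 0 := hb₀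
  have h3 : (b₀ : R) ∈ (MvPolynomial.aeval (R := ℤ) x : MvPolynomial (Fin m) ℤ →ₐ[ℤ] R).range := by
    rw [← Algebra.adjoin_range_eq_range_aeval]
    exact b₀.2
  obtain ⟨F, hF⟩ := h3
  have hF' : MvPolynomial.aeval x F = (b₀ : R) := hF
  rw [← hF', lg_comp x a ha, ← map_zero (algebraMap (MvPolynomial (Fin m) ℤ)
    (AlgebraicClosure (FractionRing (MvPolynomial (Fin m) ℤ))))] at h2
  have h4 := lg_inj0 m h2
  apply hne₀
  apply Subtype.ext
  rw [← hF', h4, map_zero]
  rfl

theorem nul_of_generic {I σ : Type} [Finite I] [DecidableEq I] [Finite σ] [DecidableEq σ] {R : Type} [CommRing R] [IsDomain R]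
    [CharZero R] (z : GG I σ R) {m : ℕ} (x : Fin m → R) (hx : AlgebraicIndependent ℤ x)
    (halg : Algebra.IsAlgebraic (Algebra.adjoin ℤ (Set.range x)) R)
    (a : R →+* AlgebraicClosure (FractionRing (MvPolynomial (Fin m) ℤ)))
    (ha : ∀ i, a (x i) = algebraMap (MvPolynomial (Fin m) ℤ) (AlgebraicClosure (FractionRing (MvPolynomial (Fin m) ℤ)))
      (MvPolynomial.X i))
    (h : Nul (GG.base a z)) : Nul (GG.base (algebraMap R (FractionRing R)) z) := by
  have hinj := lg_inj x halg a ha
  let ψ : FractionRing R →+* AlgebraicClosure (FractionRing (MvPolynomial (Fin m) ℤ)) := IsFractionRing.lift hinj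
  have hψ : ∀ b, ψ (algebraMap R (FractionRing R) b) = a b := fun b => IsFractionRing.lift_algebraMap hinj b
  have hj : Function.Injective ((algebraMap R (FractionRing R)).comp
      (MvPolynomial.aeval (R := ℤ) x : MvPolynomial (Fin m) ℤ →ₐ[ℤ] R).toRingHom) :=
    (IsFractionRing.injective R (FractionRing R)).comp hx
  let θ : FractionRing (MvPolynomial (Fin m) ℤ) →+* FractionRing R := IsFractionRing.lift hj
  have hθ : ∀ F, θ (algebraMap _ _ F) = algebraMap R (FractionRing R) (MvPolynomial.aeval x F) :=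
    fun F => IsFractionRing.lift_algebraMap hj F
  let i1 : Algebra (FractionRing R) (AlgebraicClosure (FractionRing (MvPolynomial (Fin m) ℤ))) := ψ.toAlgebra
  let i2 : Algebra (FractionRing (MvPolynomial (Fin m) ℤ)) (FractionRing R) := θ.toAlgebra
  have hcomp : algebraMap (FractionRing (MvPolynomial (Fin m) ℤ))
      (AlgebraicClosure (FractionRing (MvPolynomial (Fin m) ℤ))) = ψ.comp θ := by
    refine IsLocalization.ringHom_ext (nonZeroDivisors (MvPolynomial (Fin m) ℤ)) ?_
    refine RingHom.ext fun F => ?_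
    rw [RingHom.comp_apply, RingHom.comp_apply, RingHom.comp_apply, hθ, hψ, lg_comp x a ha,
      ← IsScalarTower.algebraMap_apply]
  have i3 : IsScalarTower (FractionRing (MvPolynomial (Fin m) ℤ)) (FractionRing R)
      (AlgebraicClosure (FractionRing (MvPolynomial (Fin m) ℤ))) :=
    IsScalarTower.of_algebraMap_eq fun y => congrArg (fun f : FractionRing (MvPolynomial (Fin m) ℤ) →+*
      AlgebraicClosure (FractionRing (MvPolynomial (Fin m) ℤ)) => f y) hcomp
  have i4 : Algebra.IsAlgebraic (FractionRing R) (AlgebraicClosure (FractionRing (MvPolynomial (Fin m) ℤ))) :=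
    Algebra.IsAlgebraic.tower_top (K := FractionRing (MvPolynomial (Fin m) ℤ)) _
  refine bd_of_algebraic (Ω := AlgebraicClosure (FractionRing (MvPolynomial (Fin m) ℤ)))
    (GG.base (algebraMap R (FractionRing R)) z) ?_
  rw [GG.base_base]
  have h5 : (algebraMap (FractionRing R) (AlgebraicClosure (FractionRing (MvPolynomial (Fin m) ℤ)))).comp
      (algebraMap R (FractionRing R)) = a := RingHom.ext hψ
  rw [h5]
  exact h

end Pool.Agent.LGF
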