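import Pool.Agent.LGF.LPat

/-!
# Programs are sound

Telescoping of the doubling steps.
-/

noncomputable section

namespace Pool.Agent.LGF

open Pool.Agent.GSM

theorem nul_of_rrun {I σ : Type} [Finite I] [DecidableEq I] [Finite σ] [DecidableEq σ] {R : Type} [CommRing R]
    {z : GG I σ R} (P : Rings z) {κ : Type} [CommRing κ] (a : R →+* κ) (L : ℕ) (e : ℕ → Bool)
    (h : RRun P a L e) : Nul (GG.base a z) := by
  obtain ⟨pE, pi, pf, h1, h2, h3, h4⟩ := h
  have hi : Nul (GG.base (pE 0) P.yE - GG.base a z) := by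
    have h := P.init.base pi
    rw [map_sub, GG.base_base, GG.base_base, h1, h2] at h
    exact h
  have hf : Nul (GG.base (pE L) P.yE) := by
    have h := P.final.base pf
    rw [GG.base_base, h3] at h
    exact h
  have hs : ∀ j < L, Nul (GG.base (pE (j + 1)) P.yE - (2 : ℚ) • GG.base (pE j) P.yE -
      (if e j then 1 else 0 : ℚ) • GG.base a z) := by
    intro j hj
    obtain ⟨ps, g1, g2, g3⟩ := h4 j hj
    have h := (P.step (e j)).base ps
    rw [map_sub, map_sub, map_smul, map_smul, GG.base_base, GG.base_base, GG.base_base, g1, g2,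
      g3] at h
    exact h
  have hc : ∀ j ≤ L, ∃ c : ℚ, 1 ≤ c ∧ Nul (GG.base (pE j) P.yE - c • GG.base a z) := by
    intro j
    induction j with
    | zero =>
      intro _
      refine ⟨1, le_rfl, ?_⟩
      rw [one_smul]
      exact hi
    | succ j ih =>
      intro hj
      obtain ⟨c, hc1, hc2⟩ := ih (by omega)
      have hd : (0 : ℚ) ≤ (if e j then 1 else 0 : ℚ) := by
        split_ifs
        · exact zero_le_one
        · exact le_rfl
      refine ⟨2 * c + (if e j then 1 else 0 : ℚ), by linarith, ?_⟩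
      have h := (hs j (by omega)).add (BdOn.smul (2 : ℚ) hc2)
      have e1 : GG.base (pE (j + 1)) P.yE - (2 * c + (if e j then 1 else 0 : ℚ)) • GG.base a z =
          GG.base (pE (j + 1)) P.yE - (2 : ℚ) • GG.base (pE j) P.yE -
          (if e j then 1 else 0 : ℚ) • GG.base a z +
          (2 : ℚ) • (GG.base (pE j) P.yE - c • GG.base a z) := by
        rw [add_smul, smul_sub, smul_smul]
        abel
      rw [e1]
      exact h
  obtain ⟨c, hc1, hc2⟩ := hc L le_rfl
  have h5 := BdOn.smul c⁻¹ (hf.sub hc2)
  rw [sub_sub_cancel, smul_smul, inv_mul_cancel₀ (by linarith : c ≠ 0), one_smul] at h5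
  exact h5

end Pool.Agent.LGF
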