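import Pool.Agent.LGF.NDef

/-!
# LGF-NL1: the norm `l1` of integer polynomials
-/

open MvPolynomial

namespace Pool.Agent.LGF.N

variable {ρ τ : Type}

private theorem nl1_eq (f : MvPolynomial ρ ℤ) (T : Finset (ρ →₀ ℕ)) (hT : f.support ⊆ T) :
    l1 f = ∑ s ∈ T, (f.coeff s).natAbs := by
  unfold l1
  refine Finset.sum_subset hT fun s _ hs => ?_
  rw [notMem_support_iff.1 hs]
  rfl

private theorem nl1_monomial (s : ρ →₀ ℕ) (c : ℤ) :
    l1 (monomial s c : MvPolynomial ρ ℤ) ≤ c.natAbs := by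
  classical
  rw [nl1_eq (monomial s c) {s} support_monomial_subset, Finset.sum_singleton, coeff_monomial,
    if_pos rfl]

theorem l1_C (a : ℤ) : l1 (C a : MvPolynomial ρ ℤ) ≤ a.natAbs := nl1_monomial 0 a

theorem l1_X (i : ρ) : l1 (X i : MvPolynomial ρ ℤ) ≤ 1 := nl1_monomial (Finsupp.single i 1) 1

theorem l1_add (f g : MvPolynomial ρ ℤ) : l1 (f + g) ≤ l1 f + l1 g := by
  classical
  rw [nl1_eq (f + g) (f.support ∪ g.support) support_add,
    nl1_eq f (f.support ∪ g.support) Finset.subset_union_left,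
    nl1_eq g (f.support ∪ g.support) Finset.subset_union_right, ← Finset.sum_add_distrib]
  refine Finset.sum_le_sum fun s _ => ?_
  rw [coeff_add]
  exact Int.natAbs_add_le _ _

theorem l1_sum {α : Type} (s : Finset α) (f : α → MvPolynomial ρ ℤ) :
    l1 (∑ a ∈ s, f a) ≤ ∑ a ∈ s, l1 (f a) := by
  classical
  induction s using Finset.induction_on with
  | empty =>
    rw [Finset.sum_empty, Finset.sum_empty]
    unfold l1
    rw [support_zero, Finset.sum_empty]
  | insert a s ha ih =>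
    rw [Finset.sum_insert ha, Finset.sum_insert ha]
    exact (l1_add _ _).trans (Nat.add_le_add_left ih _)

theorem l1_mul (f g : MvPolynomial ρ ℤ) : l1 (f * g) ≤ l1 f * l1 g := by
  have h : f * g = ∑ s ∈ f.support, ∑ t ∈ g.support,
      monomial (s + t) (f.coeff s * g.coeff t) := by
    conv_lhs => rw [as_sum f, as_sum g]
    rw [Finset.sum_mul_sum]
    refine Finset.sum_congr rfl fun s _ => Finset.sum_congr rfl fun t _ => ?_
    rw [monomial_mul]
  rw [h]
  refine (l1_sum _ _).trans ?_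
  have h2 : l1 f * l1 g = ∑ s ∈ f.support, ∑ t ∈ g.support,
      (f.coeff s).natAbs * (g.coeff t).natAbs := by
    unfold l1
    rw [Finset.sum_mul_sum]
  rw [h2]
  refine Finset.sum_le_sum fun s _ => (l1_sum _ _).trans (Finset.sum_le_sum fun t _ => ?_)
  refine (nl1_monomial _ _).trans ?_
  rw [Int.natAbs_mul]

theorem l1_zsmul (a : ℤ) (f : MvPolynomial ρ ℤ) : l1 (a • f) ≤ a.natAbs * l1 f := by
  rw [smul_eq_C_mul]
  exact (l1_mul _ _).trans (Nat.mul_le_mul_right _ (l1_C a))

theorem natAbs_coeff_le (f : MvPolynomial ρ ℤ) (a : ρ →₀ ℕ) : (f.coeff a).natAbs ≤ l1 f := by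
  by_cases h : a ∈ f.support
  · unfold l1
    exact Finset.single_le_sum (f := fun s => (f.coeff s).natAbs) (fun _ _ => Nat.zero_le _) h
  · rw [notMem_support_iff.1 h]
    exact Nat.zero_le _

theorem l1_rename (e : ρ → τ) (f : MvPolynomial ρ ℤ) : l1 (rename e f) ≤ l1 f := by
  have h : rename e f = ∑ s ∈ f.support, monomial (s.mapDomain e) (f.coeff s) := by
    conv_lhs => rw [as_sum f]
    rw [map_sum]
    exact Finset.sum_congr rfl fun s _ => rename_monomial _ _ _
  rw [h]
  exact (l1_sum _ _).trans (Finset.sum_le_sum fun s _ => nl1_monomial _ _)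

private theorem nl1_pow (f : MvPolynomial ρ ℤ) (k : ℕ) : l1 (f ^ k) ≤ l1 f ^ k := by
  induction k with
  | zero =>
    rw [pow_zero, pow_zero]
    exact l1_C (ρ := ρ) 1
  | succ k ih =>
    rw [pow_succ, pow_succ]
    exact (l1_mul _ _).trans (Nat.mul_le_mul_right _ ih)

private theorem nl1_prod {α : Type} (s : Finset α) (f : α → MvPolynomial ρ ℤ) :
    l1 (∏ a ∈ s, f a) ≤ ∏ a ∈ s, l1 (f a) := by
  classical
  induction s using Finset.induction_on with
  | empty =>
    rw [Finset.prod_empty, Finset.prod_empty]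
    exact l1_C (ρ := ρ) 1
  | insert a s ha ih =>
    rw [Finset.prod_insert ha, Finset.prod_insert ha]
    exact (l1_mul _ _).trans (Nat.mul_le_mul_left _ ih)

theorem l1_prod (g : τ → MvPolynomial ρ ℤ) (H : ℕ) (hH : 1 ≤ H) (hg : ∀ t, l1 (g t) ≤ H)
    (a : τ →₀ ℕ) (B : ℕ) (ha : a.degree ≤ B) : l1 (a.prod fun t k => g t ^ k) ≤ H ^ B := by
  unfold Finsupp.prod
  calc l1 (∏ t ∈ a.support, g t ^ a t) ≤ ∏ t ∈ a.support, l1 (g t ^ a t) := nl1_prod _ _
    _ ≤ ∏ t ∈ a.support, H ^ a t :=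
        Finset.prod_le_prod' fun t _ => (nl1_pow _ _).trans (Nat.pow_le_pow_left (hg t) _)
    _ = H ^ (∑ t ∈ a.support, a t) := by rw [Finset.prod_pow_eq_pow_sum]
    _ ≤ H ^ B := by
        refine Nat.pow_le_pow_right hH ?_
        rw [Finsupp.degree_apply] at ha
        exact ha

end Pool.Agent.LGF.N
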