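import Pool.Agent.LGF.LSysD
import Pool.Agent.LGF.NL1

/-!
# The polynomial system of a run: bounds
-/

noncomputable section

namespace Pool.Agent.LGF

open MvPolynomial

private theorem lsb_deg {σ τ : Type} (S : Finset (MvPolynomial σ ℤ)) (f : MvPolynomial σ ℤ)
    (hf : f ∈ S) (e : σ → τ) : (rename e f).totalDegree ≤ S.sup totalDegree :=
  (totalDegree_rename_le e f).trans (Finset.le_sup (f := totalDegree) hf)

private theorem lsb_l1 {σ τ : Type} (S : Finset (MvPolynomial σ ℤ)) (f : MvPolynomial σ ℤ)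
    (hf : f ∈ S) (e : σ → τ) : l1 (rename e f) ≤ S.sup l1 :=
  (N.l1_rename e f).trans (Finset.le_sup (f := l1) hf)

private theorem lsb_bool (f : Bool → ℕ) (b : Bool) : f b ≤ f true + f false := by
  cases b
  · exact Nat.le_add_left _ _
  · exact Nat.le_add_right _ _

theorem sys_bounds {m r g : ℕ} (E : Eqs r g) (Xp : Fin m → MvPolynomial (Fin r) ℤ) :
    ∃ d h c : ℕ, ∀ (L : ℕ) (e : Fin L → Bool),
      Fintype.card (SV r g L) ≤ c * (L + 1) ∧ Fintype.card (SQ m E e) ≤ c * (L + 1) ∧
      (∀ q, (sys E Xp e q).totalDegree ≤ d) ∧ ∀ q, l1 (sys E Xp e q) ≤ h := by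
  refine ⟨E.QR.sup totalDegree + E.Qi.sup totalDegree +
      ((E.Qs true).sup totalDegree + (E.Qs false).sup totalDegree) + E.Qf.sup totalDegree +
      ∑ i, (Xp i).totalDegree + 1,
    E.QR.sup l1 + E.Qi.sup l1 + ((E.Qs true).sup l1 + (E.Qs false).sup l1) + E.Qf.sup l1 +
      ∑ i, l1 (Xp i) + 1,
    r + 4 * g + E.QR.card + E.Qi.card + ((E.Qs true).card + (E.Qs false).card) + E.Qf.card + m,
    fun L e => ⟨?_, ?_, ?_, ?_⟩⟩
  · have h1 : Fintype.card (SV r g L) = r + ((L + 1) * g + (L * g + (g + g))) := by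
      simp only [SV, Fintype.card_sum, Fintype.card_prod, Fintype.card_fin]
    rw [h1]
    nlinarith [Nat.zero_le (r * L), Nat.zero_le (g * L), Nat.zero_le (E.QR.card * (L + 1)),
      Nat.zero_le (E.Qi.card * (L + 1)), Nat.zero_le ((E.Qs true).card * (L + 1)),
      Nat.zero_le ((E.Qs false).card * (L + 1)), Nat.zero_le (E.Qf.card * (L + 1)),
      Nat.zero_le (m * (L + 1))]
  · have h1 : Fintype.card (SQ m E e) = E.QR.card + (E.Qi.card +
        (∑ j : Fin L, (E.Qs (e j)).card + (E.Qf.card + m))) := by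
      simp only [SQ, Fintype.card_sum, Fintype.card_sigma, Fintype.card_coe, Fintype.card_fin]
    have h2 : ∑ j : Fin L, (E.Qs (e j)).card ≤ L * ((E.Qs true).card + (E.Qs false).card) := by
      have h3 := Finset.sum_le_card_nsmul (Finset.univ : Finset (Fin L))
        (fun j => (E.Qs (e j)).card) ((E.Qs true).card + (E.Qs false).card)
        (fun j _ => lsb_bool (fun b => (E.Qs b).card) (e j))
      rw [Finset.card_univ, Fintype.card_fin, smul_eq_mul] at h3
      exact h3
    rw [h1]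
    nlinarith [Nat.zero_le (r * (L + 1)), Nat.zero_le (g * (L + 1)), Nat.zero_le (E.QR.card * L),
      Nat.zero_le (E.Qi.card * L), Nat.zero_le (E.Qf.card * L), Nat.zero_le (m * L)]
  · rintro (f | f | f | f | i)
    · have := lsb_deg E.QR f.1 f.2 (fun l => (Sum.inr (Sum.inl l) : Fin m ⊕ SV r g L))
      simp only [sys, Sum.elim_inl]
      omega
    · have := lsb_deg E.Qi f.1 f.2
        (sv m (L := L) 0 0 fun l => Sum.inr (Sum.inr (Sum.inr (Sum.inl l))))
      simp only [sys, Sum.elim_inl, Sum.elim_inr]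
      omega
    · have h1 := lsb_deg (E.Qs (e f.1)) f.2.1 f.2.2
        (sv m f.1.castSucc f.1.succ fun l => Sum.inr (Sum.inr (Sum.inl (f.1, l))))
      have h2 := lsb_bool (fun b => (E.Qs b).sup totalDegree) (e f.1)
      simp only [sys, Sum.elim_inl, Sum.elim_inr]
      omega
    · have := lsb_deg E.Qf f.1 f.2
        (sv m (Fin.last L) (Fin.last L) fun l => Sum.inr (Sum.inr (Sum.inr (Sum.inr l))))
      simp only [sys, Sum.elim_inl, Sum.elim_inr]
      omega
    · have h1 : (rename (fun l => (Sum.inr (Sum.inl l) : Fin m ⊕ SV r g L)) (Xp i)).totalDegree ≤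
          ∑ i, (Xp i).totalDegree :=
        (totalDegree_rename_le _ _).trans (Finset.single_le_sum
          (f := fun i => (Xp i).totalDegree) (fun _ _ => Nat.zero_le _) (Finset.mem_univ i))
      have h2 : (X (Sum.inl i) : MvPolynomial (Fin m ⊕ SV r g L) ℤ).totalDegree ≤ 1 :=
        (totalDegree_X _).le
      have h3 := totalDegree_sub (rename (fun l => (Sum.inr (Sum.inl l) : Fin m ⊕ SV r g L)) (Xp i))
        (X (Sum.inl i))
      simp only [sys, Sum.elim_inr]
      refine h3.trans (max_le ?_ ?_) <;> omega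
  · rintro (f | f | f | f | i)
    · have := lsb_l1 E.QR f.1 f.2 (fun l => (Sum.inr (Sum.inl l) : Fin m ⊕ SV r g L))
      simp only [sys, Sum.elim_inl]
      omega
    · have := lsb_l1 E.Qi f.1 f.2
        (sv m (L := L) 0 0 fun l => Sum.inr (Sum.inr (Sum.inr (Sum.inl l))))
      simp only [sys, Sum.elim_inl, Sum.elim_inr]
      omega
    · have h1 := lsb_l1 (E.Qs (e f.1)) f.2.1 f.2.2
        (sv m f.1.castSucc f.1.succ fun l => Sum.inr (Sum.inr (Sum.inl (f.1, l))))
      have h2 := lsb_bool (fun b => (E.Qs b).sup l1) (e f.1)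
      simp only [sys, Sum.elim_inl, Sum.elim_inr]
      omega
    · have := lsb_l1 E.Qf f.1 f.2
        (sv m (Fin.last L) (Fin.last L) fun l => Sum.inr (Sum.inr (Sum.inr (Sum.inr l))))
      simp only [sys, Sum.elim_inl, Sum.elim_inr]
      omega
    · have h1 : l1 (rename (fun l => (Sum.inr (Sum.inl l) : Fin m ⊕ SV r g L)) (Xp i)) ≤
          ∑ i, l1 (Xp i) :=
        (N.l1_rename _ _).trans (Finset.single_le_sum
          (f := fun i => l1 (Xp i)) (fun _ _ => Nat.zero_le _) (Finset.mem_univ i))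
      have h2 : l1 (X (Sum.inl i) : MvPolynomial (Fin m ⊕ SV r g L) ℤ) ≤ 1 := N.l1_X _
      have h3 : l1 ((-1 : ℤ) • (X (Sum.inl i) : MvPolynomial (Fin m ⊕ SV r g L) ℤ)) ≤ 1 := by
        refine (N.l1_zsmul _ _).trans ?_
        simpa using h2
      have h4 : rename (fun l => (Sum.inr (Sum.inl l) : Fin m ⊕ SV r g L)) (Xp i) - X (Sum.inl i) =
          rename (fun l => (Sum.inr (Sum.inl l) : Fin m ⊕ SV r g L)) (Xp i) +
            (-1 : ℤ) • (X (Sum.inl i) : MvPolynomial (Fin m ⊕ SV r g L) ℤ) := by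
        rw [neg_one_smul, sub_eq_add_neg]
      simp only [sys, Sum.elim_inr]
      rw [h4]
      refine (N.l1_add _ _).trans ?_
      omega

end Pool.Agent.LGF
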