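import Pool.Agent.LGF.LSysD

/-!
# The polynomial system of a run: solutions

A solution of `sys E Xp e` is the same as a point `α` of `R` with a run (`MvPolynomial.aeval_rename` and the values of
`Sum.elim y u` on the variables of a step).
-/

noncomputable section

namespace Pool.Agent.LGF

open MvPolynomial

theorem ext_apply {L : ℕ} (e : Fin L → Bool) (j : Fin L) : ext e j = e j := by
  unfold ext
  rw [dif_pos j.isLt]

private theorem elim_sv {m r g L : ℕ} {κ : Type} (y : Fin m → κ) (u : SV r g L → κ) (j j' : Fin (L + 1))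
    (w : Fin g → SV r g L) : Sum.elim y u ∘ sv m j j' w =
      Sum.elim (fun l => u (Sum.inl l)) (Sum.elim (fun l => u (Sum.inr (Sum.inl (j, l))))
        (Sum.elim (fun l => u (Sum.inr (Sum.inl (j', l)))) fun l => u (w l))) := by
  funext v
  rcases v with l | l | l | l <;> rfl

private theorem aeval_sv {m r g L : ℕ} {κ : Type} [CommRing κ] (y : Fin m → κ) (u : SV r g L → κ)
    (j j' : Fin (L + 1)) (w : Fin g → SV r g L) (f : MvPolynomial (Var r g) ℤ) :
    aeval (Sum.elim y u) (rename (sv m j j' w) f) =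
      aeval (Sum.elim (fun l => u (Sum.inl l)) (Sum.elim (fun l => u (Sum.inr (Sum.inl (j, l))))
        (Sum.elim (fun l => u (Sum.inr (Sum.inl (j', l)))) fun l => u (w l)))) f := by
  rw [aeval_rename, elim_sv]

private theorem aeval_pt {m r g L : ℕ} {κ : Type} [CommRing κ] (y : Fin m → κ) (u : SV r g L → κ)
    (f : MvPolynomial (Fin r) ℤ) :
    aeval (Sum.elim y u) (rename (fun l => (Sum.inr (Sum.inl l) : Fin m ⊕ SV r g L)) f) =
      aeval (fun l => u (Sum.inl l)) f := by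
  rw [aeval_rename]
  rfl

theorem sys_solution {m r g : ℕ} (E : Eqs r g) (Xp : Fin m → MvPolynomial (Fin r) ℤ) {L : ℕ} (e : Fin L → Bool)
    {κ : Type} [CommRing κ] (y : Fin m → κ) (u : SV r g L → κ)
    (h : ∀ q, aeval (Sum.elim y u) (sys E Xp e q) = 0) :
    ∃ α : Fin r → κ, (∀ f ∈ E.QR, aeval α f = 0) ∧ (∀ i, aeval α (Xp i) = y i) ∧ Run E α L (ext e) := by
  refine ⟨fun l => u (Sum.inl l), ?_, ?_, ?_⟩
  · intro f hf
    have h1 := h (Sum.inl ⟨f, hf⟩)
    rw [← aeval_pt y u f]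
    exact h1
  · intro i
    have h1 : aeval (Sum.elim y u) (rename (fun l => (Sum.inr (Sum.inl l) : Fin m ⊕ SV r g L)) (Xp i) -
        X (Sum.inl i)) = 0 := h (Sum.inr (Sum.inr (Sum.inr (Sum.inr i))))
    rw [map_sub, aeval_pt, aeval_X] at h1
    exact sub_eq_zero.mp h1
  · refine ⟨fun j l => if hj : j < L + 1 then u (Sum.inr (Sum.inl (⟨j, hj⟩, l))) else 0,
      fun j l => if hj : j < L then u (Sum.inr (Sum.inr (Sum.inl (⟨j, hj⟩, l)))) else 0,
      fun l => u (Sum.inr (Sum.inr (Sum.inr (Sum.inl l)))),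
      fun l => u (Sum.inr (Sum.inr (Sum.inr (Sum.inr l)))), ?_, ?_, ?_⟩
    · intro f hf
      have h1 := h (Sum.inr (Sum.inl ⟨f, hf⟩))
      have h2 : aeval (Sum.elim y u) (rename (sv m (0 : Fin (L + 1)) 0
          fun l => Sum.inr (Sum.inr (Sum.inr (Sum.inl l)))) f) = 0 := h1
      rw [aeval_sv] at h2
      have h3 : (fun l : Fin g => if hj : 0 < L + 1 then u (Sum.inr (Sum.inl (⟨0, hj⟩, l))) else 0) =
          fun l => u (Sum.inr (Sum.inl (0, l))) := by
        funext l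
        rw [dif_pos (Nat.succ_pos L)]
        rfl
      beta_reduce
      rw [h3]
      exact h2
    · intro j hj f hf
      have he : ext e j = e ⟨j, hj⟩ := ext_apply e ⟨j, hj⟩
      rw [he] at hf
      have h1 := h (Sum.inr (Sum.inr (Sum.inl ⟨⟨j, hj⟩, ⟨f, hf⟩⟩)))
      have h2 : aeval (Sum.elim y u) (rename (sv m (Fin.castSucc ⟨j, hj⟩) (Fin.succ ⟨j, hj⟩)
          fun l => Sum.inr (Sum.inr (Sum.inl (⟨j, hj⟩, l)))) f) = 0 := h1
      rw [aeval_sv] at h2
      have h3 : (fun l : Fin g => if hj : j < L + 1 then u (Sum.inr (Sum.inl (⟨j, hj⟩, l))) else 0) =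
          fun l => u (Sum.inr (Sum.inl (Fin.castSucc ⟨j, hj⟩, l))) := by
        funext l
        rw [dif_pos (by omega)]
        rfl
      have h4 : (fun l : Fin g => if hj : j + 1 < L + 1 then u (Sum.inr (Sum.inl (⟨j + 1, hj⟩, l))) else 0) =
          fun l => u (Sum.inr (Sum.inl (Fin.succ ⟨j, hj⟩, l))) := by
        funext l
        rw [dif_pos (by omega)]
        rfl
      have h5 : (fun l : Fin g => if hj : j < L then u (Sum.inr (Sum.inr (Sum.inl (⟨j, hj⟩, l)))) else 0) =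
          fun l => u (Sum.inr (Sum.inr (Sum.inl (⟨j, hj⟩, l)))) := by
        funext l
        rw [dif_pos hj]
      beta_reduce
      rw [h3, h4, h5]
      exact h2
    · intro f hf
      have h1 := h (Sum.inr (Sum.inr (Sum.inr (Sum.inl ⟨f, hf⟩))))
      have h2 : aeval (Sum.elim y u) (rename (sv m (Fin.last L) (Fin.last L)
          fun l => Sum.inr (Sum.inr (Sum.inr (Sum.inr l)))) f) = 0 := h1
      rw [aeval_sv] at h2
      have h3 : (fun l : Fin g => if hj : L < L + 1 then u (Sum.inr (Sum.inl (⟨L, hj⟩, l))) else 0) =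
          fun l => u (Sum.inr (Sum.inl (Fin.last L, l))) := by
        funext l
        rw [dif_pos (Nat.lt_succ_self L)]
        rfl
      beta_reduce
      rw [h3]
      exact h2

theorem sys_of_run {m r g : ℕ} (E : Eqs r g) (Xp : Fin m → MvPolynomial (Fin r) ℤ) {L : ℕ} (e : Fin L → Bool)
    {κ : Type} [CommRing κ] (y : Fin m → κ) (α : Fin r → κ) (hR : ∀ f ∈ E.QR, aeval α f = 0)
    (hX : ∀ i, aeval α (Xp i) = y i) (h : Run E α L (ext e)) :
    ∃ u : SV r g L → κ, ∀ q, aeval (Sum.elim y u) (sys E Xp e q) = 0 := by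
  obtain ⟨η, ω, ωi, ωf, h1, h2, h3⟩ := h
  refine ⟨Sum.elim α (Sum.elim (fun p => η p.1 p.2) (Sum.elim (fun p => ω p.1 p.2) (Sum.elim ωi ωf))),
    ?_⟩
  rintro (⟨f, hf⟩ | ⟨f, hf⟩ | ⟨j, f, hf⟩ | ⟨f, hf⟩ | i)
  · exact (aeval_pt y _ f).trans (hR f hf)
  · exact (aeval_sv y _ (0 : Fin (L + 1)) 0 (fun l => Sum.inr (Sum.inr (Sum.inr (Sum.inl l)))) f).trans
      (h1 f hf)
  · have he : ext e j = e j := ext_apply e j
    have h4 := h2 j j.isLt
    rw [he] at h4
    exact (aeval_sv y _ j.castSucc j.succ (fun l => Sum.inr (Sum.inr (Sum.inl (j, l)))) f).trans (h4 f hf)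
  · exact (aeval_sv y _ (Fin.last L) (Fin.last L) (fun l => Sum.inr (Sum.inr (Sum.inr (Sum.inr l)))) f).trans
      (h3 f hf)
  · show aeval _ (rename (fun l => (Sum.inr (Sum.inl l) : Fin m ⊕ SV r g L)) (Xp i) - X (Sum.inl i)) = 0
    rw [map_sub, aeval_pt, aeval_X, sub_eq_zero]
    exact hX i

end Pool.Agent.LGF
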