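import Pool.Agent.LGF.NL1

/-!
# LGF-NBnd: size of the elements `Psi`

Degree and `l1` norm of sums of products, term by term.
-/

open MvPolynomial

namespace Pool.Agent.LGF.N

theorem totalDegree_gen {m : ℕ} {V Q : Type} (f : Q → MvPolynomial (Fin m ⊕ V) ℤ) (d : ℕ)
    (hf : ∀ q, (f q).totalDegree ≤ d) (i : Q ⊕ V) : (gen f i).totalDegree ≤ d + 1 := by
  rcases i with q | v
  · simp only [gen, Sum.elim_inl]
    refine (totalDegree_mul _ _).trans ?_
    rw [totalDegree_X]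
    have h1 := (totalDegree_rename_le (Sum.map id some : Fin m ⊕ V → Fin m ⊕ Option V) (f q)).trans (hf q)
    omega
  · simp only [gen, Sum.elim_inr]
    rw [totalDegree_X]
    omega

theorem totalDegree_Psi {m : ℕ} {V Q J : Type} [Fintype V] [Fintype Q]
    (f : Q → MvPolynomial (Fin m ⊕ V) ℤ) (γ : J → Q ⊕ V → ℤ) (d : ℕ)
    (hf : ∀ q, (f q).totalDegree ≤ d) (j : J) : (Psi f γ j).totalDegree ≤ d + 1 := by
  unfold Psi
  refine (totalDegree_finset_sum _ _).trans ?_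
  refine Finset.sup_le fun i _ => ?_
  exact (totalDegree_smul_le _ _).trans (totalDegree_gen f d hf i)

private theorem nbnd_gen {m : ℕ} {V Q : Type} (f : Q → MvPolynomial (Fin m ⊕ V) ℤ) (h : ℕ)
    (hf : ∀ q, l1 (f q) ≤ h) (i : Q ⊕ V) : l1 (gen f i) ≤ h + 1 := by
  rcases i with q | v
  · simp only [gen, Sum.elim_inl]
    have h1 := l1_mul (X (Sum.inr none) : MvPolynomial (Fin m ⊕ Option V) ℤ)
      (rename (Sum.map id some : Fin m ⊕ V → Fin m ⊕ Option V) (f q))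
    have h2 := (l1_rename (Sum.map id some : Fin m ⊕ V → Fin m ⊕ Option V) (f q)).trans (hf q)
    have h3 := l1_X (Sum.inr none : Fin m ⊕ Option V)
    have h4 := Nat.mul_le_mul h3 h2
    omega
  · simp only [gen, Sum.elim_inr]
    have h3 := l1_X (Sum.inr (some v) : Fin m ⊕ Option V)
    omega

theorem l1_Psi {m : ℕ} {V Q J : Type} [Fintype V] [Fintype Q]
    (f : Q → MvPolynomial (Fin m ⊕ V) ℤ) (γ : J → Q ⊕ V → ℤ) (h Γ : ℕ)
    (hf : ∀ q, l1 (f q) ≤ h) (j : J) (hγ : ∑ i, (γ j i).natAbs ≤ Γ) :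
    l1 (Psi f γ j) ≤ Γ * (h + 1) := by
  unfold Psi
  calc l1 (∑ i, γ j i • gen f i) ≤ ∑ i, l1 (γ j i • gen f i) := l1_sum _ _
    _ ≤ ∑ i, (γ j i).natAbs * (h + 1) := by
        refine Finset.sum_le_sum fun i _ => ?_
        exact (l1_zsmul _ _).trans (Nat.mul_le_mul le_rfl (nbnd_gen f h hf i))
    _ = (∑ i, (γ j i).natAbs) * (h + 1) := by rw [Finset.sum_mul]
    _ ≤ Γ * (h + 1) := Nat.mul_le_mul hγ le_rfl

end Pool.Agent.LGF.N
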