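import Pool.Agent.LGF.NToK

/-!
# LGF-NClr: clearing the denominators of an equation of integral dependence

PLAN. `K = KF m`, `A' = adjoin K (range (toK ∘ Ψ))`. The map
`θ : MvPolynomial J K → A'`, `T_j ↦ toK (Ψ j)` is onto (`Algebra.adjoin_range_eq_range_aeval`).
Lift the monic polynomial over `A'` killing `X none` to a monic `P₁ : (MvPolynomial J K)[X]`
(`Polynomial.lifts_and_natDegree_eq_and_monic`, `Polynomial.mem_lifts`). The finitely many
coefficients in `K` of the finitely many coefficients of `P₁` have a common denominator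
`a : MvPolynomial (Fin m) ℤ`, `a ≠ 0` (`IsLocalization.exist_integer_multiples`), so
`C (C (algebraMap a)) * P₁` is the image of some `P` over `MvPolynomial J (MvPolynomial (Fin m) ℤ)`
with leading coefficient `C a` (the map of coefficients
`MvPolynomial.map (algebraMap _ K)` is injective). `P.eval₂ (phi Ψ) (X (inr none))` is mapped by
the injective map `toK m (Option V)` to `C a * P₁(X none) = 0`: use that
`toK ∘ phi Ψ = (aeval (toK ∘ Ψ)) ∘ map (algebraMap _ K)` (compare on coefficients and variables) and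
`Polynomial.hom_eval₂`.
-/

open MvPolynomial

namespace Pool.Agent.LGF.N

theorem clear {m : ℕ} {V J : Type} (Ψ : J → MvPolynomial (Fin m ⊕ Option V) ℤ)
    (h : IsIntegral (Algebra.adjoin (KF m) (Set.range fun j => toK m (Option V) (Ψ j)))
      (X none : MvPolynomial (Option V) (KF m))) :
    ∃ (a : MvPolynomial (Fin m) ℤ) (P : Polynomial (MvPolynomial J (MvPolynomial (Fin m) ℤ))),
      a ≠ 0 ∧ P.leadingCoeff = C a ∧ P.eval₂ (phi Ψ) (X (Sum.inr none)) = 0 := by
  classical
  set ψ : J → MvPolynomial (Option V) (KF m) := fun j => toK m (Option V) (Ψ j) with hψ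
  set θ : MvPolynomial J (KF m) →ₐ[KF m] MvPolynomial (Option V) (KF m) := aeval ψ with hθ
  -- a monic polynomial over `K[T]`
  have hmon : ∃ P₁ : Polynomial (MvPolynomial J (KF m)), P₁.Monic ∧
      P₁.eval₂ (θ : MvPolynomial J (KF m) →+* MvPolynomial (Option V) (KF m)) (X none) = 0 := by
    obtain ⟨p, hp, hp0⟩ := h
    have hmem : ∀ x : MvPolynomial J (KF m), θ x ∈ Algebra.adjoin (KF m) (Set.range ψ) := by
      intro x
      rw [Algebra.adjoin_range_eq_range_aeval]
      exact ⟨x, rfl⟩
    let θ' : MvPolynomial J (KF m) →ₐ[KF m] Algebra.adjoin (KF m) (Set.range ψ) :=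
      θ.codRestrict _ hmem
    have hsurj : Function.Surjective (θ' : MvPolynomial J (KF m) →+*
        Algebra.adjoin (KF m) (Set.range ψ)) := by
      rintro ⟨y, hy⟩
      have hy' := hy
      rw [Algebra.adjoin_range_eq_range_aeval] at hy'
      obtain ⟨x, hx⟩ := hy'
      exact ⟨x, Subtype.ext hx⟩
    obtain ⟨q, hq, -, hqm⟩ := Polynomial.lifts_and_natDegree_eq_and_monic
      (Polynomial.mem_lifts_of_surjective hsurj p) hp
    refine ⟨q, hqm, ?_⟩
    rw [← hp0, ← hq, Polynomial.eval₂_map]
    rfl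
  obtain ⟨P₁, hP₁, hP0⟩ := hmon
  -- common denominator
  obtain ⟨b, hb⟩ := IsLocalization.exist_integer_multiples_of_finset
    (nonZeroDivisors (MvPolynomial (Fin m) ℤ))
    (P₁.support.biUnion fun i => (P₁.coeff i).support.image fun s => (P₁.coeff i).coeff s)
  have hb' : ∀ i s, ∃ r : MvPolynomial (Fin m) ℤ,
      algebraMap _ (KF m) r = algebraMap _ (KF m) (b : MvPolynomial (Fin m) ℤ) *
        (P₁.coeff i).coeff s := by
    intro i s
    by_cases h0 : (P₁.coeff i).coeff s = 0
    · exact ⟨0, by rw [h0, mul_zero, map_zero]⟩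
    · have hi : P₁.coeff i ≠ 0 := fun hh => h0 (by rw [hh, MvPolynomial.coeff_zero])
      obtain ⟨r, hr⟩ := hb ((P₁.coeff i).coeff s) (by
        rw [Finset.mem_biUnion]
        refine ⟨i, Polynomial.mem_support_iff.2 hi, Finset.mem_image.2 ⟨s, ?_, rfl⟩⟩
        exact MvPolynomial.mem_support_iff.2 h0)
      refine ⟨r, ?_⟩
      rw [hr]
      change (b : MvPolynomial (Fin m) ℤ) • _ = _
      rw [Algebra.smul_def]
  set a : MvPolynomial (Fin m) ℤ := (b : MvPolynomial (Fin m) ℤ) with ha
  have ha0 : a ≠ 0 := nonZeroDivisors.ne_zero b.2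
  set ι : MvPolynomial J (MvPolynomial (Fin m) ℤ) →+* MvPolynomial J (KF m) :=
    MvPolynomial.map (algebraMap _ _) with hι
  have hιinj : Function.Injective ι :=
    MvPolynomial.map_injective _ (IsFractionRing.injective (MvPolynomial (Fin m) ℤ) (KF m))
  have hlift : Polynomial.C (C (algebraMap _ (KF m) a)) * P₁ ∈ Polynomial.lifts ι := by
    rw [Polynomial.lifts_iff_coeff_lifts]
    intro n
    rw [Polynomial.coeff_C_mul]
    choose r hr using hb'
    have : (C (algebraMap _ (KF m) a) * P₁.coeff n : MvPolynomial J (KF m)) ∈ Set.range ι := by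
      rw [hι, MvPolynomial.mem_range_map_iff_coeffs_subset]
      intro x hx
      rw [Finset.mem_coe, MvPolynomial.mem_coeffs_iff] at hx
      obtain ⟨s, hs, rfl⟩ := hx
      rw [MvPolynomial.coeff_C_mul, ← hr n s]
      exact ⟨_, rfl⟩
    exact this
  obtain ⟨P, hP⟩ := (Polynomial.mem_lifts _).1 hlift
  have hCa : (C (algebraMap _ (KF m) a) : MvPolynomial J (KF m)) = ι (C a) := by
    rw [hι, MvPolynomial.map_C]
  refine ⟨a, P, ha0, ?_, ?_⟩
  · apply hιinj
    rw [← Polynomial.leadingCoeff_map_of_injective hιinj, hP, Polynomial.leadingCoeff_mul,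
      Polynomial.leadingCoeff_C, hP₁.leadingCoeff, mul_one, hCa]
  · apply toK_injective m (Option V)
    rw [map_zero]
    have h1 : (toK m (Option V) : MvPolynomial (Fin m ⊕ Option V) ℤ →+* MvPolynomial (Option V) (KF m)).comp (phi Ψ) =
        (θ : MvPolynomial J (KF m) →+* MvPolynomial (Option V) (KF m)).comp ι := by
      ext x
      · simp [phi, toK, hθ, hι]
      · simp [phi, toK, hθ, hι]
      · simp [phi, hθ, hι, hψ]
    have h2 : toK m (Option V) (X (Sum.inr none)) = X none := by simp [toK]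
    have h3 : toK m (Option V) (P.eval₂ (phi Ψ) (X (Sum.inr none))) =
        P.eval₂ ((toK m (Option V) : MvPolynomial (Fin m ⊕ Option V) ℤ →+* MvPolynomial (Option V) (KF m)).comp (phi Ψ))
          (toK m (Option V) (X (Sum.inr none))) :=
      Polynomial.hom_eval₂ P (phi Ψ) (toK m (Option V) : MvPolynomial (Fin m ⊕ Option V) ℤ →+* MvPolynomial (Option V) (KF m)) _
    rw [h3, h1, h2, ← Polynomial.eval₂_map, hP, Polynomial.eval₂_mul, hP0, mul_zero]

end Pool.Agent.LGF.N
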