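import Pool.Agent.LGF.NDef

/-!
# LGF-NGau: the minimal relation over a factorial ring divides all relations

PLAN. `F = FractionRing D`, `E = FractionRing S`; `φ` induces `F → E` (`IsFractionRing.lift` of the
injective map `D → S → E`), an algebra structure. The image `ζ` of `z` in `E` is algebraic over `F`
(the image of `P` is a nonzero polynomial killing it). `q = minpoly F ζ`;
`IsLocalization.integerNormalization` (or `IsLocalization.exist_integer_multiples`) gives a nonzero
`q' : D[X]` with `q'` mapped to `F[X]` associated to `q`; `μ = q'.primPart` (needs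
`NormalizedGCDMonoid D`: `Classical.choice` of `UniqueFactorizationMonoid.toNormalizedGCDMonoid`,
`letI`/`haveI`), primitive, and mapped to `F[X]` associated to `q`. `μ(z) = 0` since it is so in `E`
and `S → E` is injective. If `W(z) = 0` then `q ∣ W` in `F[X]` (`minpoly.dvd`), so `μ ∣ W` in `F[X]`,
so in `D[X]` by Gauss (`Polynomial.IsPrimitive.dvd_of_fraction_map_dvd_fraction_map` with
`W = content * primPart`, or for primitive `μ` the lemma
`Polynomial.IsPrimitive.dvd_primPart_iff_dvd`).
Alternative without fraction fields: take `μ` primitive of minimal degree among the nonzero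
polynomials killing `z` and use pseudo-division.
-/

namespace Pool.Agent.LGF.N

theorem gauss {D S : Type} [CommRing D] [IsDomain D] [UniqueFactorizationMonoid D] [CommRing S]
    [IsDomain S] (φ : D →+* S) (hφ : Function.Injective φ) (z : S) (P : Polynomial D)
    (hP : P ≠ 0) (hz : P.eval₂ φ z = 0) :
    ∃ μ : Polynomial D, μ ≠ 0 ∧ μ.eval₂ φ z = 0 ∧
      ∀ W : Polynomial D, W.eval₂ φ z = 0 → μ ∣ W := by
  classical
  have hex : ∃ n : ℕ, ∃ Q : Polynomial D, Q ≠ 0 ∧ Q.eval₂ φ z = 0 ∧ Q.natDegree = n :=
    ⟨_, P, hP, hz, rfl⟩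
  obtain ⟨Q, hQ, hQz, hQn⟩ := Nat.find_spec hex
  have hmin : ∀ R : Polynomial D, R ≠ 0 → R.eval₂ φ z = 0 → Q.natDegree ≤ R.natDegree := by
    intro R hR hRz
    rw [hQn]
    exact Nat.find_min' hex ⟨R, hR, hRz, rfl⟩
  obtain ⟨f, hf, hfQ⟩ := UniqueFactorizationMonoid.exists_prime_factors Q hQ
  obtain ⟨u, hu⟩ := hfQ
  have h1 : (f.prod).eval₂ φ z = 0 := by
    have h2 : (f.prod * (u : Polynomial D)).eval₂ φ z = 0 := by rw [hu]; exact hQz
    rw [Polynomial.eval₂_mul] at h2
    rcases mul_eq_zero.1 h2 with h3 | h3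
    · exact h3
    · exfalso
      have h4 : IsUnit ((Polynomial.eval₂RingHom φ z) (u : Polynomial D)) := u.isUnit.map _
      rw [Polynomial.coe_eval₂RingHom, h3] at h4
      exact not_isUnit_zero h4
  have h2 : ∃ μ ∈ f, μ.eval₂ φ z = 0 := by
    have h3 : (f.map (Polynomial.eval₂RingHom φ z)).prod = 0 := by
      rw [← map_multiset_prod]
      exact h1
    rw [Multiset.prod_eq_zero_iff, Multiset.mem_map] at h3
    exact h3
  obtain ⟨μ, hμf, hμz⟩ := h2
  have hμp : Prime μ := hf μ hμf
  have hμ0 : μ ≠ 0 := hμp.ne_zero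
  have hμQ : μ ∣ Q := by
    rw [← hu]
    exact (Multiset.dvd_prod hμf).mul_right _
  have hμd : ∀ R : Polynomial D, R ≠ 0 → R.eval₂ φ z = 0 → μ.natDegree ≤ R.natDegree := by
    intro R hR hRz
    exact (Polynomial.natDegree_le_of_dvd hμQ hQ).trans (hmin R hR hRz)
  have hpos : 0 < μ.natDegree := by
    by_contra h0
    have h3 : μ.natDegree = 0 := by omega
    rw [Polynomial.natDegree_eq_zero] at h3
    obtain ⟨c, hc⟩ := h3
    rw [← hc, Polynomial.eval₂_C] at hμz
    have h4 : c = 0 := hφ (by rw [hμz, map_zero])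
    apply hμ0
    rw [← hc, h4, map_zero]
  have hnc : ∀ a : D, a ≠ 0 → ¬ μ ∣ Polynomial.C a := by
    intro a ha h
    have h3 := Polynomial.natDegree_le_of_dvd h (by
      rw [Ne, Polynomial.C_eq_zero]
      exact ha)
    rw [Polynomial.natDegree_C] at h3
    omega
  refine ⟨μ, hμ0, hμz, ?_⟩
  have key : ∀ (n : ℕ) (W : Polynomial D), W.natDegree ≤ n → W.eval₂ φ z = 0 → μ ∣ W := by
    intro n
    induction n with
    | zero =>
      intro W hWn hWz
      by_cases hW : W = 0
      · rw [hW]
        exact dvd_zero _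
      · exfalso
        have := hμd W hW hWz
        omega
    | succ n ih =>
      intro W hWn hWz
      by_cases hW : W = 0
      · rw [hW]
        exact dvd_zero _
      have hd := hμd W hW hWz
      have ha : μ.leadingCoeff ≠ 0 := Polynomial.leadingCoeff_ne_zero.2 hμ0
      have hw : W.leadingCoeff ≠ 0 := Polynomial.leadingCoeff_ne_zero.2 hW
      obtain ⟨p, hp⟩ : ∃ p, p = Polynomial.C μ.leadingCoeff * W := ⟨_, rfl⟩
      obtain ⟨q, hq⟩ : ∃ q, q = Polynomial.C W.leadingCoeff *
        Polynomial.X ^ (W.natDegree - μ.natDegree) * μ := ⟨_, rfl⟩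
      have hp0 : p ≠ 0 := by
        rw [hp]
        exact mul_ne_zero (by rwa [Ne, Polynomial.C_eq_zero]) hW
      have hq0 : q ≠ 0 := by
        rw [hq]
        refine mul_ne_zero (mul_ne_zero (by rwa [Ne, Polynomial.C_eq_zero]) ?_) hμ0
        exact pow_ne_zero _ Polynomial.X_ne_zero
      have hpn : p.natDegree = W.natDegree := by
        rw [hp, Polynomial.natDegree_C_mul ha]
      have hqn : q.natDegree = W.natDegree := by
        rw [hq, mul_assoc, Polynomial.natDegree_C_mul hw,
          Polynomial.natDegree_mul (pow_ne_zero _ Polynomial.X_ne_zero) hμ0, Polynomial.natDegree_X_pow]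
        omega
      have hlc : p.leadingCoeff = q.leadingCoeff := by
        rw [hp, hq, Polynomial.leadingCoeff_mul, Polynomial.leadingCoeff_mul,
          Polynomial.leadingCoeff_mul, Polynomial.leadingCoeff_C, Polynomial.leadingCoeff_C,
          Polynomial.leadingCoeff_X_pow]
        ring
      have hdeg : p.degree = q.degree := by
        rw [Polynomial.degree_eq_natDegree hp0, Polynomial.degree_eq_natDegree hq0, hpn, hqn]
      have hlt := Polynomial.degree_sub_lt hdeg hp0 hlc
      have hz' : (p - q).eval₂ φ z = 0 := by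
        rw [Polynomial.eval₂_sub, hp, hq, Polynomial.eval₂_mul, Polynomial.eval₂_mul, hWz, hμz]
        ring
      have hdvd : μ ∣ p - q := by
        by_cases hpq : p - q = 0
        · rw [hpq]
          exact dvd_zero _
        · apply ih
          · rw [Polynomial.degree_eq_natDegree hpq, Polynomial.degree_eq_natDegree hp0, hpn] at hlt
            have h5 : (p - q).natDegree < W.natDegree := by exact_mod_cast hlt
            omega
          · exact hz'
      have hdp : μ ∣ p := by
        have h5 : μ ∣ q := by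
          rw [hq]
          exact dvd_mul_left _ _
        have h6 := dvd_add hdvd h5
        rwa [sub_add_cancel] at h6
      rw [hp] at hdp
      exact (hμp.dvd_or_dvd hdp).resolve_left (hnc _ ha)
  intro W hW
  exact key W.natDegree W le_rfl hW

end Pool.Agent.LGF.N
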