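import Pool.Agent.LGF.NDef

/-!
# LGF-NInd: generators of a normalisation are algebraically independent
-/

open MvPolynomial

namespace Pool.Agent.LGF.N

theorem algInd {K ρ : Type} [Field K] [Fintype ρ]
    (Ψ : Fin (Fintype.card ρ) → MvPolynomial ρ K)
    (h : Algebra.IsIntegral (Algebra.adjoin K (Set.range Ψ)) (MvPolynomial ρ K)) :
    AlgebraicIndependent K Ψ := by
  have h1 : Algebra.IsAlgebraic (Algebra.adjoin K (Set.range Ψ)) (MvPolynomial ρ K) :=
    Algebra.IsIntegral.isAlgebraic
  have h2 := Algebra.IsAlgebraic.isTranscendenceBasis_of_le_trdeg_of_finite K Ψ (by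
    rw [MvPolynomial.trdeg_of_isDomain]
    simp)
  exact h2.1

end Pool.Agent.LGF.N
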