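import Pool.Agent.LGF.NShi

/-!
# LGF-NInt: one step of the linear normalisation

PLAN. `A' = adjoin K {w_{i+1} - c_i w_0}`, `e = totalDegree F`. Let
`a : Fin (k+1) → A'`, `a = Fin.cons 0 (fun i => ⟨w_{i+1} - c_i w_0, _⟩)` and
`b = algebraMap K A' ∘ Fin.cons 1 c`, `P = aeval (fun i => C (a i) + C (b i) * Y) F : A'[Y]`
(`natDegree_shift`, `coeff_shift`). Its value at `w_0` (`Polynomial.aeval (w 0)`) is
`aeval w F = 0` since `a_i + b_i w_0 = w_i` (`map_aeval`-type lemma, or `MvPolynomial.algHom_ext`).
The coefficient of `Y^e` is the image of the nonzero element `l = eval (Fin.cons 1 c) (top form)` of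
`K`, so `C (l⁻¹) * P` is monic of degree `e` (`Polynomial.monic_of_natDegree_le_of_coeff_eq_one`) and
kills `w_0`.
-/

open MvPolynomial

namespace Pool.Agent.LGF.N

theorem integral_shift {K S : Type} [Field K] [CommRing S] [Algebra K S] {k : ℕ}
    (F : MvPolynomial (Fin (k + 1)) K) (c : Fin k → K)
    (hc : eval (Fin.cons (1 : K) c) (homogeneousComponent F.totalDegree F) ≠ 0)
    (w : Fin (k + 1) → S) (hw : aeval w F = 0) :
    IsIntegral (Algebra.adjoin K (Set.range fun i : Fin k => w i.succ - c i • w 0)) (w 0) := by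
  obtain ⟨A', hA'⟩ : ∃ A', A' = Algebra.adjoin K (Set.range fun i : Fin k => w i.succ - c i • w 0) := ⟨_, rfl⟩
  rw [← hA']
  have hmem : ∀ i : Fin k, w i.succ - c i • w 0 ∈ A' := by
    intro i
    rw [hA']
    exact Algebra.subset_adjoin ⟨i, rfl⟩
  let a : Fin (k + 1) → A' := Fin.cons 0 fun i => ⟨w i.succ - c i • w 0, hmem i⟩
  let b0 : Fin (k + 1) → K := Fin.cons 1 c
  let b : Fin (k + 1) → A' := fun i => algebraMap K A' (b0 i)
  let P : Polynomial A' := aeval (fun i => Polynomial.C (a i) + Polynomial.C (b i) * Polynomial.X) F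
  have hdeg : P.natDegree ≤ F.totalDegree := natDegree_shift F a b
  have hcoef : P.coeff F.totalDegree = algebraMap K A' (eval b0 (homogeneousComponent F.totalDegree F)) := by
    have h1 : P.coeff F.totalDegree = aeval b (homogeneousComponent F.totalDegree F) := coeff_shift F a b
    rw [h1]
    have h2 : (aeval b : MvPolynomial (Fin (k + 1)) K →ₐ[K] A') (homogeneousComponent F.totalDegree F) =
        algebraMap K A' (aeval b0 (homogeneousComponent F.totalDegree F)) :=
      (MvPolynomial.aeval_algebraMap_apply (A := K) A' b0 _)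
    rw [h2]
    rfl
  have hval : Polynomial.aeval (w 0) P = 0 := by
    have h1 : ((Polynomial.aeval (w 0) : Polynomial A' →ₐ[A'] S).restrictScalars K).comp
        (aeval (fun i => Polynomial.C (a i) + Polynomial.C (b i) * Polynomial.X) :
          MvPolynomial (Fin (k + 1)) K →ₐ[K] Polynomial A') = aeval w := by
      apply MvPolynomial.algHom_ext
      intro i
      rw [AlgHom.comp_apply, aeval_X, aeval_X]
      show Polynomial.aeval (w 0) (Polynomial.C (a i) + Polynomial.C (b i) * Polynomial.X) = w i
      rw [map_add, map_mul, Polynomial.aeval_C, Polynomial.aeval_C, Polynomial.aeval_X]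
      refine Fin.cases ?_ (fun j => ?_) i
      · show ((0 : A') : S) + algebraMap K S 1 * w 0 = w 0
        rw [map_one, one_mul]
        simp
      · show (w j.succ - c j • w 0) + algebraMap K S (c j) * w 0 = w j.succ
        rw [Algebra.smul_def]
        ring
    have h2 := congrArg (fun g => g F) h1
    have h3 : Polynomial.aeval (w 0) P = aeval w F := h2
    rw [h3, hw]
  refine ⟨Polynomial.C (algebraMap K A' (eval b0 (homogeneousComponent F.totalDegree F))⁻¹) * P, ?_, ?_⟩
  · apply Polynomial.monic_of_natDegree_le_of_coeff_eq_one F.totalDegree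
    · exact (Polynomial.natDegree_C_mul_le _ _).trans hdeg
    · rw [Polynomial.coeff_C_mul, hcoef, ← map_mul, inv_mul_cancel₀ hc, map_one]
  · rw [← Polynomial.aeval_def, map_mul, hval, mul_zero]

end Pool.Agent.LGF.N
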