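import Pool.Agent.LGF.NDef

/-!
# LGF-NTop: a small point where the top form does not vanish

PLAN. `e = totalDegree F`, `T = homogeneousComponent e F ≠ 0` (its coefficients are those of `F` in
degree `e`; there is a monomial of degree `e` in the support since `F ≠ 0`). Dehomogenise:
`g = aeval (Fin.cons 1 X) T : MvPolynomial (Fin k) K`. `g ≠ 0`: the monomials `s` of `T` have the
same degree `e`, so they are determined by `s ∘ Fin.succ` (`Finsupp.tail`), and the coefficient of
`g` at `tail s` is that of `T` at `s` (e.g. `finSuccEquiv`: `T` homogeneous, or write `g` as the sum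
of `monomial (tail s) (coeff s T)`). `degreeOf i g ≤ totalDegree g ≤ e`. By
`MvPolynomial.eq_zero_of_eval_zero_at_prod_finset` (or `MvPolynomial.funext_set`, Mathlib files
`MvPolynomial/Funext`, `Combinatorics/Nullstellensatz`) with the sets `{0, …, e}` (cast to `K`,
injective in characteristic zero) there is `c` with entries `≤ e` and `eval c g ≠ 0`, and
`eval c g = eval (Fin.cons 1 c) T`. Statement with natural numbers `c i ≤ e`.
-/

open MvPolynomial

namespace Pool.Agent.LGF.N

/-- the top homogeneous component is not zero -/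
private theorem top_ne_zero {K σ : Type} [Field K] (F : MvPolynomial σ K) (hF : F ≠ 0) :
    homogeneousComponent F.totalDegree F ≠ 0 := by
  classical
  have hne : F.support.Nonempty := by
    rw [Finset.nonempty_iff_ne_empty]
    intro h
    exact hF (MvPolynomial.support_eq_empty.1 h)
  obtain ⟨d, hd, hd2⟩ := F.support.exists_mem_eq_sup hne (fun s => s.sum fun _ e => e)
  intro h
  have h1 : coeff d (homogeneousComponent F.totalDegree F) = 0 := by rw [h, coeff_zero]
  rw [coeff_homogeneousComponent, if_pos] at h1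
  · exact (mem_support_iff.1 hd) h1
  · rw [totalDegree, hd2]
    rfl

/-- dehomogenisation -/
private noncomputable def deh {K : Type} [Field K] {k : ℕ} (T : MvPolynomial (Fin (k + 1)) K) :
    MvPolynomial (Fin k) K :=
  aeval (Fin.cons (1 : MvPolynomial (Fin k) K) fun i => X i) T

private theorem eval_deh {K : Type} [Field K] {k : ℕ} (T : MvPolynomial (Fin (k + 1)) K)
    (c : Fin k → K) : eval c (deh T) = eval (Fin.cons (1 : K) c) T := by
  unfold deh
  rw [← coe_aeval_eq_eval, ← coe_aeval_eq_eval, RingHom.coe_coe, RingHom.coe_coe]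
  rw [← AlgHom.comp_apply, comp_aeval]
  congr 1
  congr 1
  funext i
  refine Fin.cases ?_ (fun j => ?_) i
  · simp
  · simp

private theorem sum_eq_of_hom {K σ : Type} [Field K] [Fintype σ] {T : MvPolynomial σ K} {e : ℕ}
    (hT : T.IsHomogeneous e) {d : σ →₀ ℕ} (hd : d ∈ T.support) : ∑ i, d i = e := by
  have h1 : Finsupp.weight 1 d = e := hT (mem_support_iff.1 hd)
  have h2 : d.degree = Finsupp.weight 1 d := by
    have := congrArg (fun f => f d) (Finsupp.degree_eq_weight_one (σ := σ) (R := ℕ))
    exact this
  rw [← Finsupp.degree_eq_sum, h2, h1]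

private theorem deh_degree {K : Type} [Field K] {k : ℕ} (T : MvPolynomial (Fin (k + 1)) K) {e : ℕ}
    (hT : T.IsHomogeneous e) : (deh T).totalDegree ≤ e := by
  classical
  unfold deh
  rw [aeval_def, eval₂_eq']
  refine totalDegree_finsetSum_le fun d hd => ?_
  refine (totalDegree_mul _ _).trans ?_
  rw [algebraMap_eq, totalDegree_C, zero_add]
  refine (totalDegree_finset_prod _ _).trans ?_
  have h1 : ∑ i, d i = e := by
    exact sum_eq_of_hom hT hd
  rw [← h1]
  refine Finset.sum_le_sum fun i _ => ?_
  refine (totalDegree_pow _ _).trans ?_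
  refine (Nat.mul_le_mul_left _ ?_).trans (Nat.mul_one _).le
  refine Fin.cases ?_ (fun j => ?_) i
  · rw [Fin.cons_zero, totalDegree_one]
    exact Nat.zero_le _
  · rw [Fin.cons_succ, totalDegree_X]

/-- homogeneity -/
private theorem eval_scale {K σ : Type} [Field K] [Fintype σ] (T : MvPolynomial σ K) {e : ℕ}
    (hT : T.IsHomogeneous e) (c : K) (x : σ → K) :
    eval (fun i => c * x i) T = c ^ e * eval x T := by
  classical
  rw [eval_eq', eval_eq', Finset.mul_sum]
  refine Finset.sum_congr rfl fun d hd => ?_
  have h1 : ∑ i, d i = e := by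
    exact sum_eq_of_hom hT hd
  have h2 : ∏ i, (c * x i) ^ d i = c ^ e * ∏ i, x i ^ d i := by
    rw [← h1, ← Finset.prod_pow_eq_pow_sum, ← Finset.prod_mul_distrib]
    exact Finset.prod_congr rfl fun i _ => mul_pow _ _ _
  rw [h2]
  ring

private theorem deh_ne_zero {K : Type} [Field K] [CharZero K] {k : ℕ}
    (T : MvPolynomial (Fin (k + 1)) K) {e : ℕ} (hT : T.IsHomogeneous e) (h0 : T ≠ 0) :
    deh T ≠ 0 := by
  intro h
  have h1 : X 0 * T = 0 := by
    apply MvPolynomial.funext
    intro x
    rw [map_mul, eval_X, map_zero]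
    by_cases hx : x 0 = 0
    · rw [hx, zero_mul]
    · have h2 := eval_deh T (fun i => (x 0)⁻¹ * x i.succ)
      rw [h, map_zero] at h2
      have h3 : (Fin.cons (1 : K) fun i => (x 0)⁻¹ * x i.succ : Fin (k + 1) → K) =
          fun i => (x 0)⁻¹ * x i := by
        funext i
        refine Fin.cases ?_ (fun j => ?_) i
        · rw [Fin.cons_zero, inv_mul_cancel₀ hx]
        · rw [Fin.cons_succ]
      rw [h3, eval_scale T hT] at h2
      have h4 : eval x T = 0 := by
        rcases mul_eq_zero.1 h2.symm with h5 | h5
        · exact absurd h5 (pow_ne_zero _ (inv_ne_zero hx))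
        · exact h5
      rw [h4, mul_zero]
  rcases mul_eq_zero.1 h1 with h2 | h2
  · exact X_ne_zero 0 h2
  · exact h0 h2

theorem exists_shift {K : Type} [Field K] [CharZero K] {k : ℕ} (F : MvPolynomial (Fin (k + 1)) K)
    (hF : F ≠ 0) : ∃ c : Fin k → ℕ, (∀ i, c i ≤ F.totalDegree) ∧
      eval (Fin.cons (1 : K) fun i => (c i : K)) (homogeneousComponent F.totalDegree F) ≠ 0 := by
  classical
  obtain ⟨e, he⟩ : ∃ e, e = F.totalDegree := ⟨_, rfl⟩
  obtain ⟨T, hTd⟩ : ∃ T, T = homogeneousComponent F.totalDegree F := ⟨_, rfl⟩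
  have hT : T.IsHomogeneous e := by
    rw [hTd, he]
    exact homogeneousComponent_isHomogeneous _ _
  have hT0 : T ≠ 0 := by
    rw [hTd]
    exact top_ne_zero F hF
  have hg0 := deh_ne_zero T hT hT0
  have hgd := deh_degree T hT
  by_contra hcon
  push Not at hcon
  apply hg0
  have hinj : Function.Injective (fun n : ℕ => (n : K)) := Nat.cast_injective
  refine eq_zero_of_eval_zero_at_prod_finset (deh T)
    (fun _ => (Finset.range (e + 1)).image fun n : ℕ => (n : K)) ?_ ?_
  · intro i
    rw [Finset.card_image_of_injective _ hinj, Finset.card_range]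
    have := (degreeOf_le_totalDegree (deh T) i).trans hgd
    omega
  · intro x hx
    have hx' : ∀ i, ∃ n : ℕ, n ≤ e ∧ (n : K) = x i := by
      intro i
      have := hx i
      rw [Finset.mem_image] at this
      obtain ⟨n, hn, hn2⟩ := this
      exact ⟨n, by rw [Finset.mem_range] at hn; omega, hn2⟩
    choose c hc hc2 using hx'
    have h1 := hcon c (fun i => by rw [← he]; exact hc i)
    rw [← hTd] at h1
    rw [eval_deh, ← h1]
    have h2 : x = fun i => (c i : K) := funext fun i => (hc2 i).symm
    rw [h2]

end Pool.Agent.LGF.N
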