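import Pool.Agent.LGF.NPerK
import Pool.Agent.LGF.NTop
import Pool.Agent.LGF.NInt

/-!
# LGF-NNoe: linear Noether normalisation with small integer coefficients

PLAN. First for index sets `Fin k` with `k = s + card ρ`, by induction on `s` (statement for all
`w : Fin k → MvPolynomial ρ K`). `s = 0`: `γ` = identity matrix along `k = card ρ` (entries `0, 1`,
bound `(1 + B) ^ 0 = 1`). Step, `w : Fin (k + 1) → _`, `k = s + card ρ`, `B = PB (card ρ) D`: the
`card ρ + 1` elements `w ∘ Fin.castLE` satisfy a relation of total degree `≤ B` (`perron_field`);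
rename it to `F : MvPolynomial (Fin (k + 1)) K`, `F ≠ 0` (`rename_injective`), `aeval w F = 0`,
`totalDegree F ≤ B` (`totalDegree_rename_le`). `exists_shift` gives `c i ≤ B`; put
`w' i = w i.succ - c i • w 0`: again of total degree `≤ D`, and `MvPolynomial ρ K` is integral over
`adjoin K (range w')`: `w 0` is integral over it (`integral_shift`), so are all
`w i.succ = w' i + c i • w 0`, hence `adjoin K (range w)`, and integrality is transitive
(`Algebra.IsIntegral.trans`, `isIntegral_trans`, `Algebra.adjoin_le`; use the subalgebra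
`integralClosure (adjoin K (range w')) _`, restricted to scalars `K`, which contains `range w`).
Apply the induction hypothesis to `w'`: `γ'`; then
`∑ i, γ' j i • w' i = ∑ i, γ' j i • w i.succ - (∑ i, γ' j i c i) • w 0`, which must be a single
matrix `γ` with `|γ| ≤ (1 + B) ^ (s + 1)`. CAREFUL: `∑_i |γ' j i| c i` would need a factor `k`; so
use the induction in the other order: apply the step FIRST to get `w'`, and bound the rows of the
product matrix by the `l1` norm: prove the bound `∑ i, |γ j i| ≤ (1 + B) ^ s` for the SUM of each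
row (identity matrix: sum `= 1`; step: `∑_i |γ' j i| + ∑_i |γ' j i| c i ≤ (1 + B) ∑_i |γ' j i|`).
The statement below follows. For general `ι` choose `Fintype.equivFin`.
-/

open MvPolynomial

namespace Pool.Agent.LGF.N

private theorem int_trans {K R : Type} [Field K] [CommRing R] [Algebra K R] (A A' : Subalgebra K R)
    (h1 : ∀ x ∈ A, IsIntegral A' x) (h2 : Algebra.IsIntegral A R) : Algebra.IsIntegral A' R := by
  refine ⟨fun x => ?_⟩
  have hx : IsIntegral A x := h2.isIntegral x
  -- the integral closure of `A'`
  let φ : A →+* integralClosure A' R :=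
    { toFun := fun a => ⟨a.1, h1 a.1 a.2⟩
      map_one' := rfl
      map_mul' := fun _ _ => rfl
      map_zero' := rfl
      map_add' := fun _ _ => rfl }
  have h3 : IsIntegral (integralClosure A' R) x := by
    have h4 := IsIntegral.map_of_comp_eq (R := A) (S := R) (T := integralClosure A' R) (U := R) φ
      (RingHom.id R) (by ext a; rfl) hx
    exact h4
  exact isIntegral_trans (R := A') (A := integralClosure A' R) x h3

private theorem noe_fin {K ρ : Type} [Field K] [CharZero K] [Fintype ρ] (D : ℕ) (hD : 1 ≤ D)
    (s : ℕ) : ∀ (k : ℕ), k = s + Fintype.card ρ → ∀ w : Fin k → MvPolynomial ρ K,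
    (∀ i, (w i).totalDegree ≤ D) →
    Algebra.IsIntegral (Algebra.adjoin K (Set.range w)) (MvPolynomial ρ K) →
    ∃ γ : Fin (Fintype.card ρ) → Fin k → ℤ,
      (∀ j, ∑ i, (γ j i).natAbs ≤ (1 + PB (Fintype.card ρ) D) ^ s) ∧
      Algebra.IsIntegral (Algebra.adjoin K (Set.range fun j => ∑ i, (γ j i) • w i))
        (MvPolynomial ρ K) := by
  induction s with
  | zero =>
    intro k hk w hw hi
    rw [zero_add] at hk
    subst hk
    refine ⟨fun j i => if j = i then 1 else 0, ?_, ?_⟩
    · intro j
      beta_reduce
      rw [pow_zero, Finset.sum_eq_single j]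
      · rw [if_pos rfl]
        exact le_refl _
      · intro i _ hne
        rw [if_neg (Ne.symm hne)]
        rfl
      · intro h
        exact absurd (Finset.mem_univ j) h
    · have h1 : (fun j => ∑ i, (if j = i then (1 : ℤ) else 0) • w i) = w := by
        funext j
        rw [Finset.sum_eq_single j]
        · rw [if_pos rfl, one_smul]
        · intro i _ hne
          rw [if_neg (Ne.symm hne), zero_smul]
        · intro h
          exact absurd (Finset.mem_univ j) h
      rw [h1]
      exact hi
  | succ s ih =>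
    intro k hk w hw hi
    obtain ⟨k', hk'⟩ : ∃ k', k' = s + Fintype.card ρ := ⟨_, rfl⟩
    have hkk : k = k' + 1 := by omega
    subst hkk
    have hle : Fintype.card ρ + 1 ≤ k' + 1 := by omega
    obtain ⟨W, hW0, hWz, hWd⟩ := perron_field (K := K) (ρ := ρ) (τ := Fin (Fintype.card ρ + 1))
      (Fintype.card_fin _) D hD (fun t => w (Fin.castLE hle t)) (fun t => hw _)
    obtain ⟨F, hF⟩ : ∃ F : MvPolynomial (Fin (k' + 1)) K, F = rename (Fin.castLE hle) W :=
      ⟨_, rfl⟩
    have hF0 : F ≠ 0 := by
      intro h
      apply hW0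
      apply rename_injective (Fin.castLE hle) (Fin.castLE_injective hle)
      rw [← hF, h, map_zero]
    have hFz : aeval w F = 0 := by
      rw [hF, aeval_rename]
      exact hWz
    have hFd : F.totalDegree ≤ PB (Fintype.card ρ) D := by
      rw [hF]
      exact (totalDegree_rename_le _ _).trans hWd
    obtain ⟨c, hc, hce⟩ := exists_shift F hF0
    have hcB : ∀ i, c i ≤ PB (Fintype.card ρ) D := fun i => (hc i).trans hFd
    have hint := integral_shift F (fun i => (c i : K)) hce w hFz
    obtain ⟨w', hw'⟩ : ∃ w' : Fin k' → MvPolynomial ρ K,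
      w' = fun i => w i.succ - (c i : K) • w 0 := ⟨_, rfl⟩
    rw [← hw'] at hint
    have hw'd : ∀ i, (w' i).totalDegree ≤ D := by
      intro i
      rw [hw']
      refine (totalDegree_sub _ _).trans (max_le (hw _) ?_)
      exact (totalDegree_smul_le _ _).trans (hw _)
    have hint' : Algebra.IsIntegral (Algebra.adjoin K (Set.range w')) (MvPolynomial ρ K) := by
      refine int_trans (Algebra.adjoin K (Set.range w)) _ ?_ hi
      have hmem : ∀ i, w' i ∈ Algebra.adjoin K (Set.range w') := fun i =>
        Algebra.subset_adjoin ⟨i, rfl⟩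
      have hcl : Algebra.adjoin K (Set.range w) ≤
          (integralClosure (Algebra.adjoin K (Set.range w')) (MvPolynomial ρ K)).restrictScalars
            K := by
        apply Algebra.adjoin_le
        rintro _ ⟨i, rfl⟩
        show IsIntegral _ (w i)
        refine Fin.cases hint (fun i => ?_) i
        have h1 : w i.succ = w' i + (c i : K) • w 0 := by
          rw [hw']
          ring
        rw [h1]
        apply IsIntegral.add
        · exact isIntegral_algebraMap (x := (⟨w' i, hmem i⟩ : Algebra.adjoin K (Set.range w')))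
        · exact hint.smul _
      exact fun x hx => hcl hx
    obtain ⟨γ', hγ1, hγ2⟩ := ih k' hk' w' hw'd hint'
    refine ⟨fun j => Fin.cons (-∑ i, γ' j i * (c i : ℤ)) (γ' j), ?_, ?_⟩
    · intro j
      beta_reduce
      rw [Fin.sum_univ_succ, Fin.cons_zero]
      simp only [Fin.cons_succ]
      have h1 : (-∑ i, γ' j i * (c i : ℤ)).natAbs ≤
          ∑ i, (γ' j i).natAbs * PB (Fintype.card ρ) D := by
        rw [Int.natAbs_neg]
        refine (Int.natAbs_sum_le _ _).trans (Finset.sum_le_sum fun i _ => ?_)
        rw [Int.natAbs_mul, Int.natAbs_natCast]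
        exact Nat.mul_le_mul_left _ (hcB i)
      rw [← Finset.sum_mul] at h1
      have h2 := hγ1 j
      calc (-∑ i, γ' j i * (c i : ℤ)).natAbs + ∑ i, (γ' j i).natAbs
          ≤ (∑ i, (γ' j i).natAbs) * PB (Fintype.card ρ) D + ∑ i, (γ' j i).natAbs :=
            Nat.add_le_add_right h1 _
        _ = (∑ i, (γ' j i).natAbs) * (1 + PB (Fintype.card ρ) D) := by ring
        _ ≤ (1 + PB (Fintype.card ρ) D) ^ s * (1 + PB (Fintype.card ρ) D) :=
            Nat.mul_le_mul_right _ h2
        _ = _ := (pow_succ _ _).symm
    · have h1 : (fun j => ∑ i, (Fin.cons (-∑ i, γ' j i * (c i : ℤ)) (γ' j) :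
          Fin (k' + 1) → ℤ) i • w i) = fun j => ∑ i, γ' j i • w' i := by
        funext j
        rw [Fin.sum_univ_succ, Fin.cons_zero]
        simp only [Fin.cons_succ]
        rw [hw']
        simp only [smul_sub, Finset.sum_sub_distrib]
        have h2 : ∑ i, γ' j i • (c i : K) • w 0 = (∑ i, γ' j i * (c i : ℤ)) • w 0 := by
          rw [Finset.sum_smul]
          apply Finset.sum_congr rfl
          intro i _
          rw [mul_smul]
          congr 1
          rw [Nat.cast_smul_eq_nsmul, natCast_zsmul]
        rw [h2, neg_smul]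
        ring
      rw [h1]
      exact hγ2

theorem noether {K ρ ι : Type} [Field K] [CharZero K] [Fintype ρ] [Fintype ι] (D s : ℕ)
    (hD : 1 ≤ D) (hs : Fintype.card ι = s + Fintype.card ρ) (w : ι → MvPolynomial ρ K)
    (hw : ∀ i, (w i).totalDegree ≤ D)
    (hi : Algebra.IsIntegral (Algebra.adjoin K (Set.range w)) (MvPolynomial ρ K)) :
    ∃ γ : Fin (Fintype.card ρ) → ι → ℤ,
      (∀ j, ∑ i, (γ j i).natAbs ≤ (1 + PB (Fintype.card ρ) D) ^ s) ∧
      Algebra.IsIntegral (Algebra.adjoin K (Set.range fun j => ∑ i, (γ j i) • w i))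
        (MvPolynomial ρ K) := by
  obtain ⟨e⟩ : Nonempty (ι ≃ Fin (Fintype.card ι)) := ⟨Fintype.equivFin ι⟩
  have hr : Set.range (w ∘ e.symm) = Set.range w := by
    rw [Set.range_comp, Equiv.range_eq_univ, Set.image_univ]
  obtain ⟨γ, h1, h2⟩ := noe_fin (K := K) (ρ := ρ) D hD s (Fintype.card ι) hs (w ∘ e.symm)
    (fun i => hw _) (by rw [hr]; exact hi)
  refine ⟨fun j i => γ j (e i), ?_, ?_⟩
  · intro j
    rw [Equiv.sum_comp e (fun i => (γ j i).natAbs)]
    exact h1 j
  · have h3 : (fun j => ∑ i, γ j (e i) • w i) = fun j => ∑ i, γ j i • (w ∘ e.symm) i := by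
      funext j
      rw [← Equiv.sum_comp e (fun i => γ j i • (w ∘ e.symm) i)]
      apply Finset.sum_congr rfl
      intro i _
      rw [Function.comp_apply, Equiv.symm_apply_apply]
    rw [h3]
    exact h2

end Pool.Agent.LGF.N
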