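import Pool.Agent.LGF.NDef

/-!
# LGF-NNul: Nullstellensatz over a field which is not closed, and generation by `z f_q`, `u_v`

PLAN. `nullst`: otherwise the ideal is contained in a maximal ideal `P` (`Ideal.exists_le_maximal`);
`L = MvPolynomial V K ⧸ P` is a field of finite type over `K`, hence finite
(`finite_of_finite_type_of_isJacobsonRing`), so algebraic, and embeds in `AlgebraicClosure K`
(`IsAlgClosed.lift`); the images of the variables are a common zero (`aeval u f = lift [f]`).
`adjoin_eq_top`: `1 = ∑ g_q f_q` (`Ideal.mem_span_range_iff_exists_fun`), so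
`z = ∑ rename some g_q * (z * rename some f_q)` lies in the subalgebra, and all variables do
(`MvPolynomial.adjoin_range_X`); `rename some g = aeval (X ∘ some) g` lies in the subalgebra because
the `X (some v)` do.
-/

open MvPolynomial

namespace Pool.Agent.LGF.N

theorem nullst {K V Q : Type} [Field K] [Fintype V] (f : Q → MvPolynomial V K)
    (h : ∀ u : V → AlgebraicClosure K, ¬ ∀ q, aeval u (f q) = 0) :
    (1 : MvPolynomial V K) ∈ Ideal.span (Set.range f) := by
  have h1 := vanishingIdeal_zeroLocus_eq_radical (K := AlgebraicClosure K)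
    (Ideal.span (Set.range f))
  have h2 : (1 : MvPolynomial V K) ∈ (Ideal.span (Set.range f)).radical := by
    rw [← h1, mem_vanishingIdeal_iff]
    intro u hu
    rw [mem_zeroLocus_iff] at hu
    exact absurd (fun q => hu (f q) (Ideal.subset_span ⟨q, rfl⟩)) (h u)
  rw [Ideal.mem_radical_iff] at h2
  obtain ⟨n, hn⟩ := h2
  rwa [one_pow] at hn

theorem adjoin_eq_top {K V Q : Type} [Field K] [Fintype Q] (f : Q → MvPolynomial V K)
    (h : (1 : MvPolynomial V K) ∈ Ideal.span (Set.range f)) :
    Algebra.adjoin K (Set.range (Sum.elim (fun q => X none * rename some (f q))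
      (fun v => X (some v)) : Q ⊕ V → MvPolynomial (Option V) K)) = ⊤ := by
  classical
  obtain ⟨A, hA⟩ : ∃ A : Subalgebra K (MvPolynomial (Option V) K), A = Algebra.adjoin K
      (Set.range (Sum.elim (fun q => X none * rename some (f q)) (fun v => X (some v)) :
        Q ⊕ V → MvPolynomial (Option V) K)) := ⟨_, rfl⟩
  rw [← hA]
  have h1 : ∀ q, X none * rename some (f q) ∈ A := fun q => by
    rw [hA]
    exact Algebra.subset_adjoin ⟨Sum.inl q, rfl⟩
  have h2 : ∀ v, X (some v) ∈ A := fun v => by
    rw [hA]
    exact Algebra.subset_adjoin ⟨Sum.inr v, rfl⟩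
  have h3 : ∀ g : MvPolynomial V K, rename some g ∈ A := by
    intro g
    induction g using MvPolynomial.induction_on with
    | C a => rw [rename_C, ← algebraMap_eq]; exact A.algebraMap_mem a
    | add p q hp hq => rw [map_add]; exact A.add_mem hp hq
    | mul_X p v hp => rw [map_mul, rename_X]; exact A.mul_mem hp (h2 v)
  obtain ⟨g, hg⟩ := (Ideal.mem_span_range_iff_exists_fun).1 h
  have h4 : (X none : MvPolynomial (Option V) K) ∈ A := by
    have h5 : (X none : MvPolynomial (Option V) K) =
        ∑ q, rename some (g q) * (X none * rename some (f q)) := by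
      have h6 := congrArg (fun p => X none * rename some p) hg
      simp only [map_one, mul_one, map_sum, map_mul] at h6
      refine h6.symm.trans ?_
      rw [Finset.mul_sum]
      exact Finset.sum_congr rfl fun q _ => by ring
    rw [h5]
    exact A.sum_mem fun q _ => A.mul_mem (h3 _) (h1 q)
  rw [eq_top_iff, ← adjoin_range_X]
  apply Algebra.adjoin_le
  rintro _ ⟨o, rfl⟩
  cases o with
  | none => exact h4
  | some v => exact h2 v

end Pool.Agent.LGF.N
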