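import Pool.Agent.LGF.NDef

/-!
# LGF-NNum: all bounds are exponential

PLAN. Put `c' = c + 1`, `n = m + N + 2 ≤ (m + 2) (c + 1) (L + 1) =: a (L + 1)`. Then
`PB (m + (N + 1)) (d + 1) = 2 (m + N + 2) (d + 1) ^ (m + N + 1) ≤ 2 · 2 ^ (a (L + 1)) (d + 1) ^ (a (L + 1))`
`≤ C₁ ^ (L + 1)` (`n ≤ 2 ^ n`). Likewise `PB (N + 1) (d + 1) ≤ C₁ ^ (L + 1)`.
Second bound: for `P, E, X ≥ 1` one has `log 2 (P * X ^ E) ≤ log 2 P + 1 + E (log 2 X + 1)`
(`Nat.log` of products: prove `x < 2 ^ (log 2 x + 1)` and multiply; or avoid logarithms by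
showing `P * X ^ E < 2 ^ (C ^ (L + 1))`, `Nat.log_lt_of_lt_pow`). `P = (B + n).choose n ≤ 2 ^ (B + n)`
(`Nat.choose_le_two_pow`), `B + n ≤ C₂ ^ (L + 1)`; `X = (1 + PB) ^ s (h + 1) + 1 ≤
2 ^ (…)` with `1 + PB ≤ 2 ^ PB`... simply `X ≤ 2 ^ (s * PB (N+1) (d+1) + h + 2)`
(`x + 1 ≤ 2 ^ x`), so `P * X ^ E ≤ 2 ^ (B + n + E (s PB + h + 2))`, and the exponent is at most
`C ^ (L + 1)` for a suitable `C` because each of `B, n, E, s, PB, h + 2` is at most `C₃ ^ (L + 1)`.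
-/

namespace Pool.Agent.LGF.N

private theorem PB_le (n D k : ℕ) (hD : 1 ≤ D) (hn : n + 1 ≤ k) : PB n D ≤ (4 * D) ^ k := by
  unfold PB
  have h1 : 2 ≤ 2 ^ k := by
    calc 2 = 2 ^ 1 := rfl
      _ ≤ 2 ^ k := Nat.pow_le_pow_right (by norm_num) (by omega)
  have h2 : n + 1 ≤ 2 ^ k := hn.trans (Nat.lt_two_pow_self).le
  have h3 : D ^ n ≤ D ^ k := Nat.pow_le_pow_right hD (by omega)
  calc 2 * (n + 1) * D ^ n ≤ 2 ^ k * 2 ^ k * D ^ k :=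
        Nat.mul_le_mul (Nat.mul_le_mul h1 h2) h3
    _ = (4 * D) ^ k := by
      rw [← Nat.mul_pow, ← Nat.mul_pow]

private theorem lin_le (a L : ℕ) : a * (L + 1) ≤ (2 ^ a) ^ (L + 1) := by
  rw [← Nat.pow_mul]
  exact (Nat.lt_two_pow_self).le

theorem num (m d h c : ℕ) : ∃ C : ℕ, ∀ L N s : ℕ, N ≤ c * (L + 1) → s ≤ c * (L + 1) →
    PB (m + (N + 1)) (d + 1) ≤ C ^ (L + 1) ∧
    Nat.log 2 ((PB (m + (N + 1)) (d + 1) + (m + (N + 1 + 1))).choose (m + (N + 1 + 1)) *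
      ((1 + PB (N + 1) (d + 1)) ^ s * (h + 1) + 1) ^ PB (m + (N + 1)) (d + 1)) ≤ C ^ (L + 1) := by
  set a := (m + 2) * (c + 1) with ha
  set C₁ := (4 * (d + 1)) ^ a with hC₁
  set C₃ := C₁ + 2 ^ a + 2 ^ c + (h + 1) with hC₃
  have q1 : C₁ ≤ C₃ := by
    rw [hC₃, Nat.add_assoc, Nat.add_assoc]; exact Nat.le_add_right _ _
  have q2 : 2 ^ a ≤ C₃ := by
    rw [hC₃]
    generalize 2 ^ a = u
    generalize 2 ^ c = v
    omega
  have q3 : 2 ^ c ≤ C₃ := by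
    rw [hC₃]
    generalize 2 ^ a = u
    generalize 2 ^ c = v
    omega
  have q4 : h + 1 ≤ C₃ := by
    rw [hC₃]
    generalize 2 ^ a = u
    generalize 2 ^ c = v
    omega
  refine ⟨4 * C₃ ^ 3, fun L N s hN hs => ?_⟩
  set Z := C₃ ^ (L + 1) with hZ
  have hna : m + (N + 1 + 1) ≤ a * (L + 1) := by
    have e : a * (L + 1) = (m + 2) * c * (L + 1) + (m + 2) * (L + 1) := by
      rw [ha]; ring
    have e1 : c * (L + 1) ≤ (m + 2) * c * (L + 1) := by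
      refine Nat.mul_le_mul_right _ ?_
      exact Nat.le_mul_of_pos_left _ (by omega)
    have e2 : m + 2 ≤ (m + 2) * (L + 1) := Nat.le_mul_of_pos_right _ (by omega)
    omega
  have hB : PB (m + (N + 1)) (d + 1) ≤ Z := by
    refine (PB_le _ _ (a * (L + 1)) (by omega) (by omega)).trans ?_
    rw [Nat.pow_mul, ← hC₁, hZ]
    exact Nat.pow_le_pow_left q1 _
  have hb : PB (N + 1) (d + 1) ≤ Z := by
    refine (PB_le _ _ (a * (L + 1)) (by omega) (by omega)).trans ?_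
    rw [Nat.pow_mul, ← hC₁, hZ]
    exact Nat.pow_le_pow_left q1 _
  have hn : m + (N + 1 + 1) ≤ Z := by
    refine (hna.trans (lin_le a L)).trans ?_
    rw [hZ]
    exact Nat.pow_le_pow_left q2 _
  have hs' : s ≤ Z := by
    refine (hs.trans (lin_le c L)).trans ?_
    rw [hZ]
    exact Nat.pow_le_pow_left q3 _
  have hh : h + 1 ≤ Z := by
    have h1 : h + 1 ≤ (h + 1) ^ (L + 1) := Nat.le_self_pow (by omega) _
    refine h1.trans ?_
    rw [hZ]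
    exact Nat.pow_le_pow_left q4 _
  have hZ1 : 1 ≤ Z := by omega
  have hZZ : 4 * Z ^ 3 ≤ (4 * C₃ ^ 3) ^ (L + 1) := by
    rw [Nat.mul_pow, ← Nat.pow_mul C₃ 3 (L + 1), Nat.mul_comm 3 (L + 1), Nat.pow_mul, ← hZ]
    refine Nat.mul_le_mul_right _ ?_
    exact Nat.le_self_pow (by omega) _
  have hZ2 : Z ≤ Z ^ 2 := Nat.le_self_pow (by omega) _
  have hZ3 : Z ^ 2 ≤ Z ^ 3 := Nat.pow_le_pow_right hZ1 (by omega)
  refine ⟨by omega, ?_⟩
  set B := PB (m + (N + 1)) (d + 1) with hBd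
  set b := PB (N + 1) (d + 1) with hbd
  have k1 : (B + (m + (N + 1 + 1))).choose (m + (N + 1 + 1)) ≤ 2 ^ (B + (m + (N + 1 + 1))) :=
    Nat.choose_le_two_pow _ _
  have k2 : (1 + b) ^ s * (h + 1) + 1 ≤ 2 ^ (b * s + h + 1) := by
    have e1 : 1 + b ≤ 2 ^ b := by
      have := Nat.lt_two_pow_self (n := b)
      omega
    have e2 : (1 + b) ^ s ≤ 2 ^ (b * s) := by
      rw [Nat.pow_mul]
      exact Nat.pow_le_pow_left e1 _
    have e3 : h + 1 ≤ 2 ^ h := Nat.lt_two_pow_self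
    have e4 : (1 + b) ^ s * (h + 1) ≤ 2 ^ (b * s + h) := by
      rw [Nat.pow_add]
      exact Nat.mul_le_mul e2 e3
    have e5 : 1 ≤ 2 ^ (b * s + h) := Nat.one_le_two_pow
    rw [Nat.pow_succ]
    omega
  have k3 : ((1 + b) ^ s * (h + 1) + 1) ^ B ≤ 2 ^ ((b * s + h + 1) * B) := by
    rw [Nat.pow_mul]
    exact Nat.pow_le_pow_left k2 _
  have k4 : (B + (m + (N + 1 + 1))).choose (m + (N + 1 + 1)) *
      ((1 + b) ^ s * (h + 1) + 1) ^ B ≤ 2 ^ ((B + (m + (N + 1 + 1))) + (b * s + h + 1) * B) := by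
    rw [Nat.pow_add 2 (B + (m + (N + 1 + 1)))]
    exact Nat.mul_le_mul k1 k3
  refine (Nat.log_mono_right k4).trans ?_
  rw [Nat.log_pow (by norm_num)]
  refine le_trans ?_ hZZ
  have k5 : b * s ≤ Z ^ 2 := by
    rw [pow_two]
    exact Nat.mul_le_mul hb hs'
  have k6 : (b * s + h + 1) * B ≤ (Z ^ 2 + Z) * Z :=
    Nat.mul_le_mul (by omega) hB
  have k7 : (Z ^ 2 + Z) * Z = Z ^ 3 + Z ^ 2 := by ring
  omega

end Pool.Agent.LGF.N
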