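import Pool.Agent.LGF.NDef

/-!
# LGF-NIte: integer polynomials as iterated polynomials

PLAN. `eval₂_iter`: both sides are ring homomorphisms in `W` (`Polynomial.eval₂RingHom`), compare on
the variables (`MvPolynomial.ringHom_ext` or `MvPolynomial.algHom_ext` over `ℤ`).
`iter_coeff`: for given `l, β, α` let `a` be the exponent with `a (inl i) = α i`, `a (inr none) = l`,
`a (inr (some j)) = β j` (a finsupp on the sum type: `Finsupp.sumElim`, and on `Option`:
`Finsupp.embDomain`/`Finsupp.optionElim`, or `Finsupp.onFinset`, or `α.mapDomain inl +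
single (inr none) l + β.mapDomain (inr ∘ some)`). Both sides of
`(((iter W).coeff l).coeff β).coeff α = W.coeff a` are additive in `W`; for `W = monomial s c`
(`MvPolynomial.induction_on'` or `induction_on` with products by variables) one has
`iter (monomial s c) = C (C (C c)) * ∏ ...`, i.e. the iterated monomial with exponents
`(s (inr none), s ∘ inr ∘ some, s ∘ inl)`, and the three exponents agree with `l, β, α` iff `s = a`.
Put the exact formula in a private theorem; `iter_injective` follows from it: if `iter W = 0` then
`W.coeff s = 0` for every `s` (each `s` is an `a`). `degree α ≤ degree a`: the sum over the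
`inl i` is part of the sum.
-/

open MvPolynomial

namespace Pool.Agent.LGF.N

open scoped Classical in
/-- the exponent `(α, l, β)` -/
private noncomputable def ex {m : ℕ} {J : Type} (l : ℕ) (β : J →₀ ℕ) (α : Fin m →₀ ℕ) :
    (Fin m ⊕ Option J) →₀ ℕ := α.sumElim (β.optionElim l)

private theorem ex_inl {m : ℕ} {J : Type} (l : ℕ) (β : J →₀ ℕ) (α : Fin m →₀ ℕ) (i : Fin m) :
    ex l β α (Sum.inl i) = α i := rfl

private theorem ex_none {m : ℕ} {J : Type} (l : ℕ) (β : J →₀ ℕ) (α : Fin m →₀ ℕ) :
    ex l β α (Sum.inr none) = l := by
  simp [ex, Finsupp.sumElim_apply]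

private theorem ex_some {m : ℕ} {J : Type} (l : ℕ) (β : J →₀ ℕ) (α : Fin m →₀ ℕ) (j : J) :
    ex l β α (Sum.inr (some j)) = β j := by
  simp [ex, Finsupp.sumElim_apply]

private theorem iter_X_inl {m : ℕ} {J : Type} (i : Fin m) :
    iter m J (X (Sum.inl i)) = Polynomial.C (C (X i)) := by
  simp [iter]

private theorem iter_X_none {m : ℕ} {J : Type} :
    iter m J (X (Sum.inr none)) = Polynomial.X := by
  simp [iter]

private theorem iter_X_some {m : ℕ} {J : Type} (j : J) :
    iter m J (X (Sum.inr (some j))) = Polynomial.C (X j) := by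
  simp [iter]

private theorem iter_C {m : ℕ} {J : Type} (a : ℤ) :
    iter m J (C a) = Polynomial.C (C (C a)) := by
  rw [iter, aeval_C]
  rfl

open scoped Classical in
private theorem coeff_iter {m : ℕ} {J : Type} (W : MvPolynomial (Fin m ⊕ Option J) ℤ) :
    ∀ (l : ℕ) (β : J →₀ ℕ) (α : Fin m →₀ ℕ),
      (((iter m J W).coeff l).coeff β).coeff α = W.coeff (ex l β α) := by
  induction W using MvPolynomial.induction_on with
  | C a =>
    intro l β α
    rw [iter_C, Polynomial.coeff_C, MvPolynomial.coeff_C]
    by_cases hl : l = 0
    · rw [if_pos hl, MvPolynomial.coeff_C]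
      by_cases hb : β = 0
      · rw [if_pos hb.symm, MvPolynomial.coeff_C]
        by_cases ha : α = 0
        · rw [if_pos ha.symm, if_pos]
          subst hl hb ha
          ext x
          rcases x with i | _ | j
          · rfl
          · rw [ex_none]; rfl
          · rw [ex_some]; rfl
        · rw [if_neg (fun h => ha h.symm), if_neg]
          intro h
          apply ha
          ext i
          have := DFunLike.congr_fun h (Sum.inl i)
          rw [ex_inl] at this
          exact this.symm
      · rw [if_neg (fun h => hb h.symm), MvPolynomial.coeff_zero, if_neg]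
        intro h
        apply hb
        ext j
        have := DFunLike.congr_fun h (Sum.inr (some j))
        rw [ex_some] at this
        exact this.symm
    · rw [if_neg hl, MvPolynomial.coeff_zero, MvPolynomial.coeff_zero, if_neg]
      intro h
      apply hl
      have := DFunLike.congr_fun h (Sum.inr none)
      rw [ex_none] at this
      exact this.symm
  | add p q hp hq =>
    intro l β α
    rw [map_add, Polynomial.coeff_add, MvPolynomial.coeff_add, MvPolynomial.coeff_add,
      MvPolynomial.coeff_add, hp, hq]
  | mul_X p x hp =>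
    intro l β α
    rw [map_mul, MvPolynomial.coeff_mul_X']
    rcases x with i | _ | j
    · rw [iter_X_inl, Polynomial.coeff_mul_C, mul_comm, MvPolynomial.coeff_C_mul, mul_comm,
        MvPolynomial.coeff_mul_X']
      by_cases h : α i = 0
      · rw [if_neg (by rw [Finsupp.mem_support_iff]; exact not_not.2 h),
          if_neg (by rw [Finsupp.mem_support_iff, ex_inl]; exact not_not.2 h)]
      · rw [if_pos (by rw [Finsupp.mem_support_iff]; exact h),
          if_pos (by rw [Finsupp.mem_support_iff, ex_inl]; exact h), hp]
        congr 1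
        ext x
        rw [Finsupp.tsub_apply]
        rcases x with k | _ | k
        · rw [ex_inl, ex_inl, Finsupp.tsub_apply]
          congr 1
          by_cases hk : k = i
          · subst hk; simp
          · rw [Finsupp.single_eq_of_ne hk, Finsupp.single_eq_of_ne]
            intro hh; exact hk (Sum.inl_injective hh)
        · rw [ex_none, ex_none, Finsupp.single_eq_of_ne (by simp), tsub_zero]
        · rw [ex_some, ex_some, Finsupp.single_eq_of_ne (by simp), tsub_zero]
    · rw [iter_X_none]
      rcases l with _ | l
      · rw [Polynomial.mul_coeff_zero, Polynomial.coeff_X_zero, mul_zero, MvPolynomial.coeff_zero,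
          MvPolynomial.coeff_zero,
          if_neg (by rw [Finsupp.mem_support_iff, ex_none]; exact not_not.2 rfl)]
      · rw [Polynomial.coeff_mul_X,
          if_pos (by rw [Finsupp.mem_support_iff, ex_none]; exact Nat.succ_ne_zero l), hp]
        congr 1
        ext x
        rw [Finsupp.tsub_apply]
        rcases x with k | _ | k
        · rw [ex_inl, ex_inl, Finsupp.single_eq_of_ne (by simp), tsub_zero]
        · rw [ex_none, ex_none, Finsupp.single_eq_same, Nat.add_sub_cancel]
        · rw [ex_some, ex_some, Finsupp.single_eq_of_ne (by simp), tsub_zero]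
    · rw [iter_X_some, Polynomial.coeff_mul_C, MvPolynomial.coeff_mul_X']
      by_cases h : β j = 0
      · rw [if_neg (by rw [Finsupp.mem_support_iff]; exact not_not.2 h), MvPolynomial.coeff_zero,
          if_neg (by rw [Finsupp.mem_support_iff, ex_some]; exact not_not.2 h)]
      · rw [if_pos (by rw [Finsupp.mem_support_iff]; exact h),
          if_pos (by rw [Finsupp.mem_support_iff, ex_some]; exact h), hp]
        congr 1
        ext x
        rw [Finsupp.tsub_apply]
        rcases x with k | _ | k
        · rw [ex_inl, ex_inl, Finsupp.single_eq_of_ne (by simp), tsub_zero]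
        · rw [ex_none, ex_none, Finsupp.single_eq_of_ne (by simp), tsub_zero]
        · rw [ex_some, ex_some, Finsupp.tsub_apply]
          congr 1
          by_cases hk : k = j
          · subst hk; simp
          · rw [Finsupp.single_eq_of_ne hk, Finsupp.single_eq_of_ne]
            intro hh; exact hk (Option.some_injective _ (Sum.inr_injective hh))

private theorem exists_ex {m : ℕ} {J : Type} (s : (Fin m ⊕ Option J) →₀ ℕ) :
    ∃ (l : ℕ) (β : J →₀ ℕ) (α : Fin m →₀ ℕ), s = ex l β α := by
  have h1 : Function.Injective (fun j : J => (Sum.inr (some j) : Fin m ⊕ Option J)) :=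
    fun a b h => Option.some_injective _ (Sum.inr_injective h)
  have h2 : Function.Injective (fun i : Fin m => (Sum.inl i : Fin m ⊕ Option J)) :=
    fun a b h => Sum.inl_injective h
  refine ⟨s (Sum.inr none), s.comapDomain _ h1.injOn, s.comapDomain _ h2.injOn, ?_⟩
  ext x
  rcases x with i | _ | j
  · rw [ex_inl, Finsupp.comapDomain_apply]
  · rw [ex_none]
  · rw [ex_some, Finsupp.comapDomain_apply]

theorem iter_injective (m : ℕ) (J : Type) : Function.Injective (iter m J) := by
  rw [injective_iff_map_eq_zero]
  intro W hW
  ext s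
  obtain ⟨l, β, α, rfl⟩ := exists_ex s
  rw [← coeff_iter, hW, Polynomial.coeff_zero, MvPolynomial.coeff_zero, MvPolynomial.coeff_zero,
    MvPolynomial.coeff_zero]

theorem iter_coeff {m : ℕ} {J : Type} (W : MvPolynomial (Fin m ⊕ Option J) ℤ) (l : ℕ)
    (β : J →₀ ℕ) (α : Fin m →₀ ℕ) : ∃ a : (Fin m ⊕ Option J) →₀ ℕ,
      (((iter m J W).coeff l).coeff β).coeff α = W.coeff a ∧ α.degree ≤ a.degree := by
  refine ⟨ex l β α, coeff_iter W l β α, ?_⟩
  classical
  rw [Finsupp.degree_apply, Finsupp.degree_apply]
  calc ∑ i ∈ α.support, α i = ∑ x ∈ α.support.map ⟨Sum.inl, Sum.inl_injective⟩, ex l β α x := by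
        rw [Finset.sum_map]
        rfl
    _ ≤ ∑ x ∈ (ex l β α).support, ex l β α x := by
        refine Finset.sum_le_sum_of_subset ?_
        intro x hx
        rw [Finset.mem_map] at hx
        obtain ⟨i, hi, rfl⟩ := hx
        rw [Finsupp.mem_support_iff] at hi ⊢
        exact hi

theorem eval₂_iter {m : ℕ} {V J : Type} (Ψ : J → MvPolynomial (Fin m ⊕ Option V) ℤ)
    (W : MvPolynomial (Fin m ⊕ Option J) ℤ) :
    (iter m J W).eval₂ (phi Ψ) (X (Sum.inr none)) =
      aeval (Sum.elim (fun i => X (Sum.inl i)) (fun o : Option J => o.elim (X (Sum.inr none)) Ψ))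
        W := by
  induction W using MvPolynomial.induction_on with
  | C a =>
    rw [iter_C, Polynomial.eval₂_C, aeval_C, phi, coe_eval₂Hom, eval₂_C]
    simp
  | add p q hp hq => rw [map_add, Polynomial.eval₂_add, hp, hq, map_add]
  | mul_X p x hp =>
    rw [map_mul, Polynomial.eval₂_mul, hp, map_mul, aeval_X]
    congr 1
    rcases x with i | _ | j
    · rw [iter_X_inl, Polynomial.eval₂_C, phi, coe_eval₂Hom, eval₂_C]
      simp
    · rw [iter_X_none, Polynomial.eval₂_X]
      rfl
    · rw [iter_X_some, Polynomial.eval₂_C, phi, coe_eval₂Hom, eval₂_X]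
      rfl

end Pool.Agent.LGF.N
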