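import Pool.Agent.LGF.NDiv
import Pool.Agent.LGF.NIte

/-!
# LGF-NRead: degree and bad primes of a divisor of the leading coefficient

PLAN. `λ = (iter W).leadingCoeff = (iter W).coeff l ≠ 0` (`iter_injective`). `C G ∣ λ` means that
`G` divides all coefficients of `λ` (`C_dvd_iff_dvd_coeff`). Choose `β` with `q = λ.coeff β ≠ 0`:
`G ∣ q`, so `G ≠ 0`, `totalDegree G ≤ totalDegree q` (`totalDegree_le_of_dvd`), and every
coefficient of `q` is a coefficient of `W` at an exponent of at least the same degree (`iter_coeff`),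
so `totalDegree q ≤ totalDegree W` (a nonzero coefficient of `W` at `a` gives
`a.degree ≤ totalDegree W`: `le_totalDegree`). Choose `α` with `q.coeff α = c₀ ≠ 0`,
`|c₀| ≤ M`. If `G` vanishes modulo `p` then so does `q` (`q = G * q'`, `map_mul`), so `p ∣ c₀`. Take
`s = c₀.natAbs.primeFactors`; its cardinality is at most `log 2 |c₀| ≤ log 2 M`:
`2 ^ card ≤ ∏ p ∈ primeFactors, p ≤ |c₀|` (`Nat.prod_primeFactors_dvd`, `Finset.pow_card_le_prod`,
or `Nat.primeFactors`/`Nat.card_primeFactors_le_log`; `Nat.le_log_of_pow_le`).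
-/

open MvPolynomial

namespace Pool.Agent.LGF.N

theorem read_bounds {m : ℕ} {J : Type} (W : MvPolynomial (Fin m ⊕ Option J) ℤ) (hW : W ≠ 0)
    (M : ℕ) (hM : ∀ a, (W.coeff a).natAbs ≤ M) (G : MvPolynomial (Fin m) ℤ)
    (hG : C G ∣ (iter m J W).leadingCoeff) :
    G ≠ 0 ∧ G.totalDegree ≤ W.totalDegree ∧ ∃ s : Finset ℕ, s.card ≤ Nat.log 2 M ∧
      ∀ p : ℕ, p.Prime → map (Int.castRingHom (ZMod p)) G = 0 → p ∈ s := by
  have h1 : iter m J W ≠ 0 := by
    intro h
    apply hW
    apply iter_injective m J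
    rw [h, map_zero]
  have h2 : (iter m J W).leadingCoeff ≠ 0 := Polynomial.leadingCoeff_ne_zero.2 h1
  obtain ⟨β, hβ⟩ := MvPolynomial.ne_zero_iff.1 h2
  have hdvd : G ∣ (iter m J W).leadingCoeff.coeff β := C_dvd_iff_dvd_coeff _ _ |>.1 hG β
  have hG0 : G ≠ 0 := by
    rintro rfl
    exact hβ (zero_dvd_iff.1 hdvd)
  obtain ⟨α, hα⟩ := MvPolynomial.ne_zero_iff.1 hβ
  refine ⟨hG0, ?_, ?_⟩
  · refine (totalDegree_le_of_dvd hβ hdvd).trans ?_
    unfold MvPolynomial.totalDegree
    refine Finset.sup_le fun b hb => ?_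
    have hb' : ((iter m J W).leadingCoeff.coeff β).coeff b ≠ 0 := by
      simpa using hb
    obtain ⟨a, ha, hab⟩ := iter_coeff W (iter m J W).natDegree β b
    have ha0 : W.coeff a ≠ 0 := by
      rw [← ha]
      exact hb'
    have h3 := le_totalDegree (p := W) (s := a) (by simpa using ha0)
    have h4 : (b.sum fun _ e => e) = b.degree := rfl
    have h5 : (a.sum fun _ e => e) = a.degree := rfl
    unfold MvPolynomial.totalDegree at h3
    rw [h4]
    rw [h5] at h3
    exact hab.trans h3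
  · obtain ⟨a, ha, -⟩ := iter_coeff W (iter m J W).natDegree β α
    set c₀ := W.coeff a with hc₀
    have hα' : c₀ ≠ 0 := by
      rw [← ha]
      exact hα
    refine ⟨c₀.natAbs.primeFactors, ?_, ?_⟩
    · have hn : c₀.natAbs ≠ 0 := Int.natAbs_ne_zero.2 hα'
      have h6 : 2 ^ c₀.natAbs.primeFactors.card ≤ M := by
        calc 2 ^ c₀.natAbs.primeFactors.card
            ≤ ∏ p ∈ c₀.natAbs.primeFactors, p := by
              refine Finset.pow_card_le_prod _ _ _ fun p hp => ?_
              exact (Nat.prime_of_mem_primeFactors hp).two_le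
          _ ≤ c₀.natAbs := Nat.le_of_dvd (Nat.pos_of_ne_zero hn) (Nat.prod_primeFactors_dvd _)
          _ ≤ M := hM a
      have h7 := (Nat.pow_pos (n := c₀.natAbs.primeFactors.card) (show 0 < 2 by norm_num)).trans_le h6
      exact Nat.le_log_of_pow_le (by norm_num) h6
    · intro p hp hmap
      have hn : c₀.natAbs ≠ 0 := Int.natAbs_ne_zero.2 hα'
      rw [Nat.mem_primeFactors]
      refine ⟨hp, ?_, hn⟩
      obtain ⟨q', hq'⟩ := hdvd
      have h8 : map (Int.castRingHom (ZMod p)) ((iter m J W).leadingCoeff.coeff β) = 0 := by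
        rw [hq', map_mul, hmap, zero_mul]
      have h9 := congrArg (MvPolynomial.coeff α) h8
      rw [coeff_map, coeff_zero] at h9
      have h10 : ((iter m J W).leadingCoeff.coeff β).coeff α = c₀ := ha
      rw [h10] at h9
      have h11 : ((c₀ : ℤ) : ZMod p) = 0 := h9
      rw [ZMod.intCast_zmod_eq_zero_iff_dvd] at h11
      exact Int.natCast_dvd.1 h11

end Pool.Agent.LGF.N
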