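import Pool.Agent.LGF.NDef

/-!
# LGF-NRed: the leading coefficient lies in the ideal

PLAN. `I = span (range f)`, `Q̄ = MvPolynomial (Fin m ⊕ V) ℤ ⧸ I`. Ring homomorphism
`π : MvPolynomial (Fin m ⊕ Option V) ℤ → Q̄[X]`, `inl i ↦ C [X (inl i)]`, `inr none ↦ Polynomial.X`,
`inr (some v) ↦ C [X (inr v)]`. For `g` in `ℤ[x, u]`: `π (rename (Sum.map id some) g) = C [g]`, so
`π (z f_q) = X * C [f_q] = 0` and `π (Psi f γ j) = C (ℓ j)`, `ℓ j = ∑ v, γ j (inr v) • [X (inr v)]`.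
With `θ = eval₂Hom ([·] ∘ rename inl) ℓ : MvPolynomial J (MvPolynomial (Fin m) ℤ) → Q̄` one has
`π ∘ phi (Psi f γ) = C ∘ θ` (compare on coefficients and variables) and so
`0 = π (μ.eval₂ (phi _) z) = μ.map θ` (`Polynomial.hom_eval₂`, `Polynomial.eval₂_eq_eval_map`,
`μ.eval₂ (C.comp θ) X = μ.map θ`: `Polynomial.eval₂_C_X` after `Polynomial.eval₂_map`). Coefficient at
`natDegree μ`: `θ (C G) = [rename inl G] = 0`, i.e. membership (`Ideal.Quotient.eq_zero_iff_mem`).
-/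

open MvPolynomial

namespace Pool.Agent.LGF.N

theorem red {m : ℕ} {V Q J : Type} [Fintype V] [Fintype Q]
    (f : Q → MvPolynomial (Fin m ⊕ V) ℤ) (γ : J → Q ⊕ V → ℤ)
    (μ : Polynomial (MvPolynomial J (MvPolynomial (Fin m) ℤ)))
    (hμ : μ.eval₂ (phi (Psi f γ)) (X (Sum.inr none)) = 0) (G : MvPolynomial (Fin m) ℤ)
    (hG : μ.leadingCoeff = C G) : rename Sum.inl G ∈ Ideal.span (Set.range f) := by
  let mk : MvPolynomial (Fin m ⊕ V) ℤ →+* (MvPolynomial (Fin m ⊕ V) ℤ) ⧸ Ideal.span (Set.range f) :=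
    Ideal.Quotient.mk (Ideal.span (Set.range f))
  let π : MvPolynomial (Fin m ⊕ Option V) ℤ →+*
      Polynomial ((MvPolynomial (Fin m ⊕ V) ℤ) ⧸ Ideal.span (Set.range f)) :=
    eval₂Hom (Int.castRingHom _) (Sum.elim (fun i => Polynomial.C (mk (X (Sum.inl i))))
      (fun o => o.elim Polynomial.X fun v => Polynomial.C (mk (X (Sum.inr v)))))
  have hπX : ∀ i, π (X i) = (Sum.elim (fun i => Polynomial.C (mk (X (Sum.inl i))))
      (fun o => o.elim Polynomial.X fun v => Polynomial.C (mk (X (Sum.inr v))))) i :=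
    fun i => eval₂Hom_X' _ _ _
  have h1' : π.comp ((rename (Sum.map id some) : MvPolynomial (Fin m ⊕ V) ℤ →ₐ[ℤ]
      MvPolynomial (Fin m ⊕ Option V) ℤ) : MvPolynomial (Fin m ⊕ V) ℤ →+* _) =
      Polynomial.C.comp mk := by
    apply MvPolynomial.ringHom_ext'
    · exact RingHom.ext_int _ _
    · intro i
      show π (rename (Sum.map id some) (X i : MvPolynomial (Fin m ⊕ V) ℤ)) = Polynomial.C (mk (X i))
      rw [rename_X, hπX]
      rcases i with i | v
      · rfl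
      · rfl
  have h1 : ∀ g : MvPolynomial (Fin m ⊕ V) ℤ, π (rename (Sum.map id some) g) =
      Polynomial.C (mk g) := fun g => RingHom.congr_fun h1' g
  have hf : ∀ q, mk (f q) = 0 := fun q =>
    Ideal.Quotient.eq_zero_iff_mem.2 (Ideal.subset_span ⟨q, rfl⟩)
  obtain ⟨ℓ, hℓ⟩ : ∃ ℓ : J → (MvPolynomial (Fin m ⊕ V) ℤ) ⧸ Ideal.span (Set.range f),
      ∀ j, ℓ j = ∑ v, γ j (Sum.inr v) • mk (X (Sum.inr v)) := ⟨_, fun _ => rfl⟩
  have h3 : ∀ j, π (Psi f γ j) = Polynomial.C (ℓ j) := by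
    intro j
    unfold Psi
    rw [map_sum, Fintype.sum_sum_type, hℓ, map_sum]
    have e1 : ∑ q, π (γ j (Sum.inl q) • gen f (Sum.inl q)) = 0 := by
      apply Finset.sum_eq_zero
      intro q _
      have e2 : gen f (Sum.inl q) = X (Sum.inr none) * rename (Sum.map id some) (f q) := rfl
      rw [e2, map_zsmul, map_mul, h1, hf, map_zero, mul_zero, smul_zero]
    rw [e1, zero_add]
    apply Finset.sum_congr rfl
    intro v _
    have e2 : gen f (Sum.inr v) = X (Sum.inr (some v)) := rfl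
    rw [e2, map_zsmul, map_zsmul, hπX]
    rfl
  let θ : MvPolynomial J (MvPolynomial (Fin m) ℤ) →+*
      (MvPolynomial (Fin m ⊕ V) ℤ) ⧸ Ideal.span (Set.range f) :=
    eval₂Hom (mk.comp ((rename Sum.inl : MvPolynomial (Fin m) ℤ →ₐ[ℤ]
      MvPolynomial (Fin m ⊕ V) ℤ) : MvPolynomial (Fin m) ℤ →+* _)) ℓ
  have hθC : ∀ r, θ (C r) = mk (rename Sum.inl r) := fun r => eval₂Hom_C _ _ _
  have hθX : ∀ j, θ (X j) = ℓ j := fun j => eval₂Hom_X' _ _ _
  have h4 : π.comp (phi (Psi f γ)) = Polynomial.C.comp θ := by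
    apply MvPolynomial.ringHom_ext
    · intro r
      rw [RingHom.comp_apply, RingHom.comp_apply, hθC]
      have e1 : phi (Psi f γ) (C r) = rename Sum.inl r := eval₂Hom_C _ _ _
      have e2 : (rename Sum.inl r : MvPolynomial (Fin m ⊕ Option V) ℤ) =
          rename (Sum.map id some) (rename Sum.inl r : MvPolynomial (Fin m ⊕ V) ℤ) := by
        rw [rename_rename]
        rfl
      rw [e1, e2, h1]
    · intro j
      rw [RingHom.comp_apply, RingHom.comp_apply, hθX]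
      have e1 : phi (Psi f γ) (X j) = Psi f γ j := eval₂Hom_X' _ _ _
      rw [e1, h3]
  have h5 : μ.map θ = 0 := by
    have e1 := congrArg π hμ
    rw [Polynomial.hom_eval₂, map_zero, h4, hπX] at e1
    exact e1
  have h6 : θ μ.leadingCoeff = 0 := by
    have e1 := congrArg (fun p => Polynomial.coeff p μ.natDegree) h5
    rw [Polynomial.coeff_map, Polynomial.coeff_zero] at e1
    exact e1
  rw [hG, hθC] at h6
  exact Ideal.Quotient.eq_zero_iff_mem.1 h6

end Pool.Agent.LGF.N
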