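import Pool.Agent.LGF.NPer
import Pool.Agent.LGF.NNoe
import Pool.Agent.LGF.NInd
import Pool.Agent.LGF.NGau
import Pool.Agent.LGF.NRead
import Pool.Agent.LGF.NClr
import Pool.Agent.LGF.NRed
import Pool.Agent.LGF.NNul
import Pool.Agent.LGF.NBnd
import Pool.Agent.LGF.NNum

/-!
# Effective elimination with primes counted

A system of polynomial equations in `O(L)` unknowns, of bounded degree and with bounded integer
coefficients, depending on parameters `x`, and without solutions at the generic point of the space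
of parameters, has no solution modulo `p` at the parameters with `G ≠ 0`, for one polynomial `G` of
degree exponential in `L` in the ideal, nonzero modulo all primes with an exponential number of
exceptions. Trick of Jelonek, theorem of Perron by dimension count, lemma of Siegel, lemma of Gauss.
-/

open MvPolynomial

namespace Pool.Agent.LGF

open N

theorem elimination (m d h c : ℕ) : ∃ C : ℕ, ∀ (L : ℕ) (V Q : Type) [Fintype V] [Fintype Q],
    Fintype.card V ≤ c * (L + 1) → Fintype.card Q ≤ c * (L + 1) →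
    ∀ f : Q → MvPolynomial (Fin m ⊕ V) ℤ, (∀ q, (f q).totalDegree ≤ d) → (∀ q, l1 (f q) ≤ h) →
    (∀ u : V → AlgebraicClosure (FractionRing (MvPolynomial (Fin m) ℤ)),
      ¬ ∀ q, MvPolynomial.aeval (Sum.elim
        (fun i => algebraMap (MvPolynomial (Fin m) ℤ) _ (MvPolynomial.X i)) u) (f q) = 0) →
    ∃ G : MvPolynomial (Fin m) ℤ, G ≠ 0 ∧ G.totalDegree ≤ C ^ (L + 1) ∧
      (∃ s : Finset ℕ, s.card ≤ C ^ (L + 1) ∧
        ∀ p : ℕ, p.Prime → MvPolynomial.map (Int.castRingHom (ZMod p)) G = 0 → p ∈ s) ∧
      MvPolynomial.rename Sum.inl G ∈ Ideal.span (Set.range f) := by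
  classical
  obtain ⟨C₀, hC₀⟩ := num m d h c
  refine ⟨C₀, fun L V Q _ _ hV hQ f hf hl hno => ?_⟩
  obtain ⟨hnum1, hnum2⟩ := hC₀ L (Fintype.card V) (Fintype.card Q) hV hQ
  -- there is an equation
  have hQne : Nonempty Q := by
    by_contra hne
    rw [not_nonempty_iff] at hne
    exact hno (fun _ => 0) fun q => (hne.false q).elim
  -- Nullstellensatz
  have h1 : (1 : MvPolynomial V (KF m)) ∈
      Ideal.span (Set.range fun q => toK m V (f q)) := by
    refine nullst _ fun u hu => hno u fun q => ?_
    rw [← aeval_toK]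
    exact hu q
  -- normalisation
  let w : Q ⊕ V → MvPolynomial (Option V) (KF m) := fun i => toK m (Option V) (gen f i)
  have hw : w = Sum.elim (fun q => X none * rename some (toK m V (f q)))
      (fun v => X (some v)) := by
    funext i
    exact toK_gen f i
  have htop : Algebra.adjoin (KF m) (Set.range w) = ⊤ := by
    rw [hw]
    exact adjoin_eq_top (fun q => toK m V (f q)) h1
  have hint : Algebra.IsIntegral (Algebra.adjoin (KF m) (Set.range w))
      (MvPolynomial (Option V) (KF m)) := by
    rw [htop]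
    refine ⟨fun y => ?_⟩
    exact isIntegral_algebraMap (R := (⊤ : Subalgebra (KF m) (MvPolynomial (Option V) (KF m))))
      (x := ⟨y, trivial⟩)
  have hcard : Fintype.card (Q ⊕ V) = (Fintype.card Q - 1) + Fintype.card (Option V) := by
    have := Fintype.card_pos (α := Q)
    rw [Fintype.card_sum, Fintype.card_option]
    omega
  obtain ⟨γ, hγ, hγi⟩ := noether (d + 1) (Fintype.card Q - 1) (by omega) hcard w
    (fun i => (totalDegree_toK _).trans (totalDegree_gen f d hf i)) hint
  let J : Type := Fin (Fintype.card (Option V))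
  let Ψ : J → MvPolynomial (Fin m ⊕ Option V) ℤ := Psi f γ
  have hΨ : (fun j => ∑ i, γ j i • w i) = fun j => toK m (Option V) (Ψ j) := by
    funext j
    simp only [Ψ, Psi, w, map_sum, map_zsmul]
  rw [hΨ] at hγi
  have hind : AlgebraicIndependent (KF m) fun j => toK m (Option V) (Ψ j) := algInd _ hγi
  have hφ : Function.Injective (phi Ψ) := phi_injective Ψ hind
  -- the relation with small coefficients
  set Γ : ℕ := (1 + PB (Fintype.card V + 1) (d + 1)) ^ Fintype.card Q with hΓdef
  have hΓ : ∀ j, ∑ i, (γ j i).natAbs ≤ Γ := by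
    intro j
    refine (hγ j).trans ?_
    rw [Fintype.card_option, hΓdef]
    exact Nat.pow_le_pow_right (by omega) (Nat.sub_le _ _)
  let g : Fin m ⊕ Option J → MvPolynomial (Fin m ⊕ Option V) ℤ :=
    Sum.elim (fun i => X (Sum.inl i)) (fun o : Option J => o.elim (X (Sum.inr none)) Ψ)
  have hgd : ∀ t, (g t).totalDegree ≤ d + 1 := by
    rintro (i | _ | j)
    · exact (totalDegree_X _).le.trans (by omega)
    · exact (totalDegree_X _).le.trans (by omega)
    · exact totalDegree_Psi f γ d hf j
  have hgl : ∀ t, l1 (g t) ≤ Γ * (h + 1) + 1 := by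
    rintro (i | _ | j)
    · exact (l1_X _).trans (by omega)
    · exact (l1_X _).trans (by omega)
    · exact (l1_Psi f γ h Γ hl j (hΓ j)).trans (by omega)
  have hc2 : Fintype.card (Fin m ⊕ Option J) = Fintype.card (Fin m ⊕ Option V) + 1 := by
    simp only [J, Fintype.card_sum, Fintype.card_option, Fintype.card_fin]
    omega
  obtain ⟨W, hW0, hWg, hWd, hWc⟩ := perron_int hc2 (d + 1) (Γ * (h + 1) + 1) (by omega) (by omega)
    g hgd hgl
  have e1 : Fintype.card (Fin m ⊕ Option V) = m + (Fintype.card V + 1) := by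
    simp only [Fintype.card_sum, Fintype.card_option, Fintype.card_fin]
  have e2 : Fintype.card (Fin m ⊕ Option J) = m + (Fintype.card V + 1 + 1) := by
    rw [hc2, e1]
    omega
  rw [e1] at hWd hWc
  rw [e2] at hWc
  -- the integral relation and the minimal relation
  obtain ⟨a, P, ha, hPl, hP⟩ := clear Ψ (hγi.isIntegral (X none))
  have hP0 : P ≠ 0 := by
    intro hP0
    rw [hP0, Polynomial.leadingCoeff_zero] at hPl
    exact ha ((C_eq_zero).1 hPl.symm)
  obtain ⟨μ, hμ0, hμ, hμd⟩ := gauss (phi Ψ) hφ (X (Sum.inr none)) P hP0 hP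
  have hμP : μ ∣ P := hμd P hP
  have hμW : μ ∣ iter m J W := by
    refine hμd _ ?_
    rw [eval₂_iter]
    exact hWg
  obtain ⟨G, hG⟩ := eq_C_of_dvd_C ha (hPl ▸ Polynomial.leadingCoeff_dvd_leadingCoeff hμP)
  have hGW : C G ∣ (iter m J W).leadingCoeff := hG ▸ Polynomial.leadingCoeff_dvd_leadingCoeff hμW
  obtain ⟨hG0, hGd, s, hs, hsp⟩ := read_bounds W hW0 _ hWc G hGW
  exact ⟨G, hG0, hGd.trans (hWd.trans hnum1), ⟨s, hs.trans hnum2, hsp⟩, red f γ μ hμ G hG⟩

end Pool.Agent.LGF
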