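import Pool.Agent.LGF.LPatEx
import Pool.Agent.LGF.LSnd
import Pool.Agent.LGF.LSysB
import Pool.Agent.LGF.LSysS
import Pool.Agent.LGF.LGen
import Pool.Agent.LGF.NElim

/-!
# The hypersurface of a program

For every word of digits there is a polynomial of degree at most `C ^ (L + 1)`, with at most `C ^ (L + 1)` bad primes, which vanishes at all points where the
program has a run with these digits.
-/

noncomputable section

namespace Pool.Agent.LGF

open Pool.Agent.GSM

private theorem aeval_comp {R κ : Type} [CommRing R] [CommRing κ] (a : R →+* κ) {r : ℕ} (α : Fin r → R)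
    (F : MvPolynomial (Fin r) ℤ) : MvPolynomial.aeval (fun j => a (α j)) F = a (MvPolynomial.aeval α F) := by
  have h : ((MvPolynomial.aeval (fun j => a (α j)) : MvPolynomial (Fin r) ℤ →ₐ[ℤ] κ) : MvPolynomial (Fin r) ℤ →+* κ) =
      a.comp ((MvPolynomial.aeval α : MvPolynomial (Fin r) ℤ →ₐ[ℤ] R) : MvPolynomial (Fin r) ℤ →+* R) := by
    apply MvPolynomial.ringHom_ext
    · intro n
      simp
    · intro i
      simp
  exact RingHom.congr_fun h F

private theorem aeval_inst {Ω τ : Type} [CommRing Ω] (i₁ i₂ : Algebra ℤ Ω) (u : τ → Ω) (F : MvPolynomial τ ℤ) :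
    (@MvPolynomial.aeval ℤ Ω τ _ _ i₁ u) F = (@MvPolynomial.aeval ℤ Ω τ _ _ i₂ u) F := by
  rw [Subsingleton.elim i₁ i₂]

theorem exists_G {I σ : Type} [Finite I] [DecidableEq I] [Finite σ] [DecidableEq σ] {R : Type} [CommRing R] [IsDomain R]
    [CharZero R] [Algebra.FiniteType ℤ R] {z : GG I σ R} (P : Rings z) {m : ℕ} (x : Fin m → R)
    (hx : AlgebraicIndependent ℤ x) (halg : Algebra.IsAlgebraic (Algebra.adjoin ℤ (Set.range x)) R)
    (hz : ¬ Nul (GG.base (algebraMap R (FractionRing R)) z)) :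
    ∃ C : ℕ, ∀ (L : ℕ) (e : Fin L → Bool), ∃ G : MvPolynomial (Fin m) ℤ, G.totalDegree ≤ C ^ (L + 1) ∧
      (∃ s : Finset ℕ, s.card ≤ C ^ (L + 1) ∧
        ∀ p : ℕ, p.Prime → MvPolynomial.map (Int.castRingHom (ZMod p)) G = 0 → p ∈ s) ∧
      ∀ (κ : Type) [Field κ] (a : R →+* κ), RRun P a L (ext e) → MvPolynomial.aeval (fun i => a (x i)) G = 0 := by
  obtain ⟨r, g, E, α, hα, hQR, hrun⟩ := exists_pat P
  have hX : ∀ i, ∃ F : MvPolynomial (Fin r) ℤ, MvPolynomial.aeval α F = x i := by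
    intro i
    have h1 : x i ∈ Algebra.adjoin ℤ (Set.range α) := by
      rw [hα]
      exact Algebra.mem_top
    rw [Algebra.adjoin_range_eq_range_aeval] at h1
    exact h1
  choose Xp hXp using hX
  obtain ⟨d, h, c, hb⟩ := sys_bounds E Xp
  obtain ⟨C, hC⟩ := elimination m d h c
  refine ⟨C, fun L e => ?_⟩
  obtain ⟨h1, h2, h3, h4⟩ := hb L e
  have hno : ∀ u : SV r g L → AlgebraicClosure (FractionRing (MvPolynomial (Fin m) ℤ)), ¬ ∀ q : SQ m E e,
      MvPolynomial.aeval (Sum.elim (fun i => algebraMap (MvPolynomial (Fin m) ℤ)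
        (AlgebraicClosure (FractionRing (MvPolynomial (Fin m) ℤ))) (MvPolynomial.X i)) u) (sys E Xp e q) = 0 := by
    intro u hu
    obtain ⟨α', hα1, hα2, hα3⟩ := sys_solution E Xp e (fun i => algebraMap (MvPolynomial (Fin m) ℤ)
      (AlgebraicClosure (FractionRing (MvPolynomial (Fin m) ℤ))) (MvPolynomial.X i)) u
      (fun q => (aeval_inst _ _ _ _).trans (hu q))
    obtain ⟨a, ha⟩ := (hQR _ α').1 hα1
    have hα' : α' = fun j => a (α j) := funext (fun j => (ha j).symm)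
    have hr : RRun P a L (ext e) := (hrun _ a L _).1 (hα' ▸ hα3)
    refine hz (nul_of_generic z x hx halg a (fun i => ?_) (nul_of_rrun P a L _ hr))
    rw [← hXp i, ← aeval_comp, ← hα']
    exact hα2 i
  obtain ⟨G, hG0, hGd, hGs, hGI⟩ := hC L (SV r g L) (SQ m E e) h1 h2 (sys E Xp e) h3 h4 hno
  refine ⟨G, hGd, hGs, ?_⟩
  intro κ _ a ha
  have hr : Run E (fun j => a (α j)) L (ext e) := (hrun κ a L (ext e)).2 ha
  obtain ⟨u, hu⟩ := sys_of_run E Xp e (fun i => a (x i)) (fun j => a (α j))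
    ((hQR κ _).2 ⟨a, fun j => rfl⟩) (fun i => by rw [aeval_comp, hXp i]) hr
  have hspan : Ideal.span (Set.range (sys E Xp e)) ≤
      RingHom.ker (MvPolynomial.aeval (Sum.elim (fun i => a (x i)) u) : MvPolynomial (Fin m ⊕ SV r g L) ℤ →ₐ[ℤ] κ) := by
    rw [Ideal.span_le]
    rintro _ ⟨q, rfl⟩
    exact hu q
  have h5 : MvPolynomial.aeval (Sum.elim (fun i => a (x i)) u) (MvPolynomial.rename Sum.inl G) = 0 := hspan hGI
  rw [MvPolynomial.aeval_rename] at h5
  exact h5

end Pool.Agent.LGF
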