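import Pool.Agent.LGF.LExt

/-!
# Patterns of programs (definitions)

`RRun P a L e`: the program `P` has a run of length `L` with digits `e` over the point `a` of `R`.
`Sat Q α η η' ω`: the polynomials in `Q` vanish at `(α, η, η', ω)`. `Eqs`: the equations `QR` of the point of `R`
and of the initial, middle and final steps. `Run`: a solution of these equations.
-/

noncomputable section

namespace Pool.Agent.LGF

open Pool.Agent.GSM

/-- The program `P` has a run of length `L` with digits `e` over the point `a` of `R`. -/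
def RRun {I σ : Type} [Finite I] [DecidableEq I] [Finite σ] [DecidableEq σ] {R : Type} [CommRing R]
    {z : GG I σ R} (P : Rings z) {κ : Type} [CommRing κ] (a : R →+* κ) (L : ℕ) (e : ℕ → Bool) : Prop :=
  ∃ (pE : ℕ → (P.E →+* κ)) (pi : P.Wi →+* κ) (pf : P.Wf →+* κ),
    pi.comp P.ei = pE 0 ∧ pi.comp P.ri = a ∧ pf.comp P.ef = pE L ∧
    ∀ j < L, ∃ ps : P.Ws (e j) →+* κ, ps.comp (P.e0 (e j)) = pE j ∧ ps.comp (P.e1 (e j)) = pE (j + 1) ∧
      ps.comp (P.rs (e j)) = a

/-- The variables of one step. -/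
abbrev Var (r g : ℕ) : Type := Fin r ⊕ Fin g ⊕ Fin g ⊕ Fin g

/-- The polynomials in `Q` vanish at `(α, η, η', ω)`. -/
def Sat {r g : ℕ} (Q : Finset (MvPolynomial (Var r g) ℤ)) {κ : Type} [CommRing κ] (α : Fin r → κ)
    (η η' ω : Fin g → κ) : Prop :=
  ∀ f ∈ Q, MvPolynomial.aeval (Sum.elim α (Sum.elim η (Sum.elim η' ω))) f = 0

/-- The equations of the steps. -/
structure Eqs (r g : ℕ) where
  QR : Finset (MvPolynomial (Fin r) ℤ)
  Qi : Finset (MvPolynomial (Var r g) ℤ)
  Qs : Bool → Finset (MvPolynomial (Var r g) ℤ)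
  Qf : Finset (MvPolynomial (Var r g) ℤ)

/-- A solution of the equations of a run of length `L` with digits `e`. -/
def Run {r g : ℕ} (E : Eqs r g) {κ : Type} [CommRing κ] (α : Fin r → κ) (L : ℕ) (e : ℕ → Bool) : Prop :=
  ∃ (η ω : ℕ → Fin g → κ) (ωi ωf : Fin g → κ), Sat E.Qi α (η 0) (η 0) ωi ∧
    (∀ j < L, Sat (E.Qs (e j)) α (η j) (η (j + 1)) (ω j)) ∧ Sat E.Qf α (η L) (η L) ωf

end Pool.Agent.LGF
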