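import Mathlib

/-!
# Presentations of finitely generated rings

MODULE LGF-LPres. PLAN.
* `exists_pres`: `Algebra.FiniteType.iff_quotient_mvPolynomial''` (or `Algebra.FiniteType.iff_quotient_mvPolynomial`) gives `n₀` and a surjection
  `MvPolynomial (Fin n₀) ℤ → A`. For `n ≥ n₀` use `MvPolynomial.eval₂Hom (Int.castRingHom A) (fun l => if h : l < n₀ then generator else 0)`:
  it is surjective since it restricts to the old one along `rename (Fin.castLE _)`. The kernel is finitely generated: `MvPolynomial (Fin n) ℤ` is a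
  Noetherian ring (`IsNoetherian.noetherian (RingHom.ker π)`, an `Ideal.FG`).
* `co_sat`: `aeval (P.co p) f = p (P.π f)` (ring homomorphisms out of `MvPolynomial (Fin n) ℤ` which agree on `X l`: `MvPolynomial.ringHom_ext'` /
  `RingHom.ext_int`), and `P.π f = 0` as `f ∈ K ⊆ ker`.
* `exists_point`: `ker π = span K ≤ ker (aeval u)`; `RingHom.liftOfSurjective` (or `Ideal.Quotient.lift` composed with
  `RingHom.quotientKerEquivOfSurjective.symm`).
* `co_inj`: two homomorphisms which agree on `π (X l)` agree on the image of `π`, that is on `A`.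
* `exists_lift`: choose `F l` with `PB.π (F l) = φ (PA.π (X l))`; then `aeval (PB.co q) (F l) = q (PB.π (F l))` as in `co_sat`.
-/

noncomputable section

namespace Pool.Agent.LGF

open MvPolynomial

/-- A presentation of the ring `A` with `n` generators. -/
structure Pres (A : Type) [CommRing A] (n : ℕ) where
  π : MvPolynomial (Fin n) ℤ →+* A
  surj : Function.Surjective π
  K : Finset (MvPolynomial (Fin n) ℤ)
  span : Ideal.span (K : Set (MvPolynomial (Fin n) ℤ)) = RingHom.ker π

/-- The coordinates of a point. -/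
def Pres.co {A : Type} [CommRing A] {n : ℕ} (P : Pres A n) {κ : Type} [CommRing κ] (p : A →+* κ) : Fin n → κ :=
  fun l => p (P.π (X l))

theorem exists_pres (A : Type) [CommRing A] [Algebra.FiniteType ℤ A] :
    ∃ n₀ : ℕ, ∀ n, n₀ ≤ n → Nonempty (Pres A n) := by
  obtain ⟨n₀, f, hf⟩ := Algebra.FiniteType.iff_quotient_mvPolynomial''.mp
    (inferInstance : Algebra.FiniteType ℤ A)
  refine ⟨n₀, fun n hn => ?_⟩
  obtain ⟨g, hg⟩ : ∃ g : MvPolynomial (Fin n) ℤ →ₐ[ℤ] A,
    g = aeval (fun l : Fin n => if h : (l : ℕ) < n₀ then f (X ⟨l, h⟩) else 0) := ⟨_, rfl⟩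
  have hs : Function.Surjective (g : MvPolynomial (Fin n) ℤ →+* A) := by
    intro a
    obtain ⟨x, hx⟩ := hf a
    refine ⟨rename (Fin.castLE hn) x, ?_⟩
    have h1 : g (rename (Fin.castLE hn) x) = f x := by
      rw [hg, aeval_rename]
      have h2 : ((fun l : Fin n => if h : (l : ℕ) < n₀ then f (X ⟨l, h⟩) else 0) ∘ Fin.castLE hn) =
          f ∘ X := by
        funext l
        show (if h : (l : ℕ) < n₀ then f (X ⟨l, h⟩) else 0) = f (X l)
        rw [dif_pos l.2]
      rw [h2, ← aeval_unique f]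
    exact h1.trans hx
  obtain ⟨K, hK⟩ : (RingHom.ker (g : MvPolynomial (Fin n) ℤ →+* A)).FG := IsNoetherian.noetherian _
  exact ⟨⟨(g : MvPolynomial (Fin n) ℤ →+* A), hs, K, hK⟩⟩

variable {A B : Type} [CommRing A] [CommRing B] {n n' : ℕ} {κ : Type} [CommRing κ]

private theorem lpres_aev (P : Pres A n) (p : A →+* κ) (f : MvPolynomial (Fin n) ℤ) :
    aeval (P.co p) f = p (P.π f) := by
  have h : ((aeval (P.co p) : MvPolynomial (Fin n) ℤ →ₐ[ℤ] κ) : MvPolynomial (Fin n) ℤ →+* κ) =
      p.comp P.π := by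
    apply MvPolynomial.ringHom_ext
    · intro r
      simp
    · intro i
      simp [Pres.co]
  exact congrArg (fun g : MvPolynomial (Fin n) ℤ →+* κ => g f) h

theorem Pres.co_sat (P : Pres A n) (p : A →+* κ) : ∀ f ∈ P.K, aeval (P.co p) f = 0 := by
  intro f hf
  have h1 : f ∈ RingHom.ker P.π := by
    rw [← P.span]
    exact Ideal.subset_span hf
  rw [lpres_aev, (RingHom.mem_ker).mp h1, map_zero]

theorem Pres.exists_point (P : Pres A n) (u : Fin n → κ) (h : ∀ f ∈ P.K, aeval u f = 0) :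
    ∃ p : A →+* κ, P.co p = u := by
  have hk : RingHom.ker P.π ≤ RingHom.ker ((aeval u : MvPolynomial (Fin n) ℤ →ₐ[ℤ] κ) :
      MvPolynomial (Fin n) ℤ →+* κ) := by
    rw [← P.span, Ideal.span_le]
    intro f hf
    exact h f hf
  refine ⟨RingHom.liftOfRightInverse P.π (Function.surjInv P.surj) (Function.rightInverse_surjInv P.surj)
    ⟨((aeval u : MvPolynomial (Fin n) ℤ →ₐ[ℤ] κ) : MvPolynomial (Fin n) ℤ →+* κ), hk⟩, ?_⟩
  funext l
  unfold Pres.co
  rw [RingHom.liftOfRightInverse_comp_apply]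
  exact aeval_X u l

theorem Pres.co_inj (P : Pres A n) (p q : A →+* κ) (h : P.co p = P.co q) : p = q := by
  ext a
  obtain ⟨f, rfl⟩ := P.surj a
  rw [← lpres_aev, ← lpres_aev, h]

theorem Pres.exists_lift (PA : Pres A n) (PB : Pres B n') (φ : A →+* B) :
    ∃ F : Fin n → MvPolynomial (Fin n') ℤ, ∀ (κ : Type) [CommRing κ] (q : B →+* κ) (l : Fin n),
      aeval (PB.co q) (F l) = PA.co (q.comp φ) l := by
  choose F hF using fun l : Fin n => PB.surj (φ (PA.π (X l)))
  refine ⟨F, fun κ _ q l => ?_⟩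
  rw [lpres_aev, hF]
  rfl

end Pool.Agent.LGF
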