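import Pool.Agent.LGF.LPat
import Pool.Agent.LGF.LPres

/-!
# The equations of a program

The equations of a program from presentations of its rings.
-/

noncomputable section

namespace Pool.Agent.LGF

open Pool.Agent.GSM

section sat

variable {r g : ℕ} {κ : Type} [CommRing κ] {α : Fin r → κ} {η η' ω : Fin g → κ}

private theorem sat_union [DecidableEq (MvPolynomial (Var r g) ℤ)] (Q Q' : Finset (MvPolynomial (Var r g) ℤ)) :
    Sat (Q ∪ Q') α η η' ω ↔ Sat Q α η η' ω ∧ Sat Q' α η η' ω := by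
  constructor
  · intro h
    exact ⟨fun f hf => h f (Finset.mem_union_left _ hf), fun f hf => h f (Finset.mem_union_right _ hf)⟩
  · rintro ⟨h, h'⟩ f hf
    exact (Finset.mem_union.1 hf).elim (h f) (h' f)

private theorem sat_image [DecidableEq (MvPolynomial (Var r g) ℤ)] {n : ℕ} (K : Finset (MvPolynomial (Fin n) ℤ))
    (v : Fin n → Var r g) (w : Fin n → κ) (hw : (Sum.elim α (Sum.elim η (Sum.elim η' ω))) ∘ v = w) :
    Sat (K.image (MvPolynomial.rename v)) α η η' ω ↔ ∀ f ∈ K, MvPolynomial.aeval w f = 0 := by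
  unfold Sat
  rw [Finset.forall_mem_image]
  refine forall₂_congr fun f _ => ?_
  rw [MvPolynomial.aeval_rename, hw]

private theorem sat_lift [DecidableEq (MvPolynomial (Var r g) ℤ)] {n m : ℕ} (F : Fin n → MvPolynomial (Fin m) ℤ)
    (vω : Fin m → Var r g) (v : Fin n → Var r g) (wω : Fin m → κ) (w : Fin n → κ)
    (h1 : (Sum.elim α (Sum.elim η (Sum.elim η' ω))) ∘ vω = wω)
    (h2 : (Sum.elim α (Sum.elim η (Sum.elim η' ω))) ∘ v = w) :
    Sat (Finset.univ.image fun l => MvPolynomial.rename vω (F l) - MvPolynomial.X (v l)) α η η' ω ↔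
      ∀ l, MvPolynomial.aeval wω (F l) = w l := by
  unfold Sat
  rw [Finset.forall_mem_image]
  have key : ∀ l, MvPolynomial.aeval (Sum.elim α (Sum.elim η (Sum.elim η' ω)))
      (MvPolynomial.rename vω (F l) - MvPolynomial.X (v l)) = MvPolynomial.aeval wω (F l) - w l := by
    intro l
    rw [map_sub, MvPolynomial.aeval_rename, MvPolynomial.aeval_X, h1, ← h2]
    rfl
  constructor
  · intro h l
    have h3 := h (Finset.mem_univ l)
    rw [key, sub_eq_zero] at h3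
    exact h3
  · intro h l _
    rw [key, h l, sub_self]

end sat

private theorem adjoin_pres {R : Type} [CommRing R] {r : ℕ} (Pr : Pres R r) :
    Algebra.adjoin ℤ (Set.range fun l => Pr.π (MvPolynomial.X l)) = ⊤ := by
  rw [eq_top_iff]
  rintro x -
  obtain ⟨p, rfl⟩ := Pr.surj x
  induction p using MvPolynomial.induction_on with
  | C a =>
    have h1 : Pr.π (MvPolynomial.C a) = (a : R) := by
      have h2 : (MvPolynomial.C a : MvPolynomial (Fin r) ℤ) = ((a : ℤ) : MvPolynomial (Fin r) ℤ) := by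
        exact (eq_intCast MvPolynomial.C a)
      rw [h2, map_intCast]
    rw [h1]
    exact intCast_mem _ a
  | add p q hp hq =>
    rw [map_add]
    exact add_mem hp hq
  | mul_X p i hp =>
    rw [map_mul]
    exact mul_mem hp (Algebra.subset_adjoin ⟨i, rfl⟩)

theorem exists_pat {I σ : Type} [Finite I] [DecidableEq I] [Finite σ] [DecidableEq σ] {R : Type} [CommRing R]
    [Algebra.FiniteType ℤ R] {z : GG I σ R} (P : Rings z) :
    ∃ (r g : ℕ) (E : Eqs r g) (α : Fin r → R), Algebra.adjoin ℤ (Set.range α) = ⊤ ∧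
      (∀ (κ : Type) [Field κ] (u : Fin r → κ), (∀ f ∈ E.QR, MvPolynomial.aeval u f = 0) ↔
        ∃ a : R →+* κ, ∀ j, a (α j) = u j) ∧
      ∀ (κ : Type) [Field κ] (a : R →+* κ) (L : ℕ) (e : ℕ → Bool),
        Run E (fun j => a (α j)) L e ↔ RRun P a L e := by
  classical
  obtain ⟨r, hr⟩ := exists_pres R
  obtain ⟨Pr⟩ := hr r le_rfl
  obtain ⟨n1, h1⟩ := exists_pres P.E
  obtain ⟨n2, h2⟩ := exists_pres P.Wi
  obtain ⟨n3, h3⟩ := exists_pres (P.Ws true)
  obtain ⟨n4, h4⟩ := exists_pres (P.Ws false)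
  obtain ⟨n5, h5⟩ := exists_pres P.Wf
  obtain ⟨g, hg⟩ : ∃ g, g = n1 + n2 + n3 + n4 + n5 := ⟨_, rfl⟩
  obtain ⟨PE⟩ := h1 g (by omega)
  obtain ⟨PWi⟩ := h2 g (by omega)
  have hWs : ∀ b, Nonempty (Pres (P.Ws b) g) := fun b => by
    cases b
    · exact h4 g (by omega)
    · exact h3 g (by omega)
  obtain ⟨PWf⟩ := h5 g (by omega)
  obtain ⟨PWs⟩ : Nonempty (∀ b, Pres (P.Ws b) g) := ⟨fun b => (hWs b).some⟩
  obtain ⟨Fei, hFei⟩ := PE.exists_lift PWi P.ei
  obtain ⟨Fri, hFri⟩ := Pr.exists_lift PWi P.ri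
  obtain ⟨Fef, hFef⟩ := PE.exists_lift PWf P.ef
  choose F0 hF0 using fun b => PE.exists_lift (PWs b) (P.e0 b)
  choose F1 hF1 using fun b => PE.exists_lift (PWs b) (P.e1 b)
  choose Frs hFrs using fun b => Pr.exists_lift (PWs b) (P.rs b)
  obtain ⟨vα, hvα⟩ : ∃ v : Fin r → Var r g, v = Sum.inl := ⟨_, rfl⟩
  obtain ⟨vη, hvη⟩ : ∃ v : Fin g → Var r g, v = fun l => Sum.inr (Sum.inl l) := ⟨_, rfl⟩
  obtain ⟨vη', hvη'⟩ : ∃ v : Fin g → Var r g, v = fun l => Sum.inr (Sum.inr (Sum.inl l)) := ⟨_, rfl⟩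
  obtain ⟨vω, hvω⟩ : ∃ v : Fin g → Var r g, v = fun l => Sum.inr (Sum.inr (Sum.inr l)) := ⟨_, rfl⟩
  have eα : ∀ {κ : Type} (α : Fin r → κ) (η η' ω : Fin g → κ),
      (Sum.elim α (Sum.elim η (Sum.elim η' ω))) ∘ vα = α := fun α η η' ω => by rw [hvα]; rfl
  have eη : ∀ {κ : Type} (α : Fin r → κ) (η η' ω : Fin g → κ),
      (Sum.elim α (Sum.elim η (Sum.elim η' ω))) ∘ vη = η := fun α η η' ω => by rw [hvη]; rfl
  have eη' : ∀ {κ : Type} (α : Fin r → κ) (η η' ω : Fin g → κ),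
      (Sum.elim α (Sum.elim η (Sum.elim η' ω))) ∘ vη' = η' := fun α η η' ω => by rw [hvη']; rfl
  have eω : ∀ {κ : Type} (α : Fin r → κ) (η η' ω : Fin g → κ),
      (Sum.elim α (Sum.elim η (Sum.elim η' ω))) ∘ vω = ω := fun α η η' ω => by rw [hvω]; rfl
  obtain ⟨Qi, hQi⟩ : ∃ Q : Finset (MvPolynomial (Var r g) ℤ), ∀ (κ : Type) [CommRing κ] (α : Fin r → κ)
      (η η' ω : Fin g → κ), Sat Q α η η' ω ↔ (∀ f ∈ PE.K, MvPolynomial.aeval η f = 0) ∧
        (∀ f ∈ PWi.K, MvPolynomial.aeval ω f = 0) ∧ (∀ l, MvPolynomial.aeval ω (Fei l) = η l) ∧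
        ∀ l, MvPolynomial.aeval ω (Fri l) = α l :=
    ⟨PE.K.image (MvPolynomial.rename vη) ∪ (PWi.K.image (MvPolynomial.rename vω) ∪
      ((Finset.univ.image fun l => MvPolynomial.rename vω (Fei l) - MvPolynomial.X (vη l)) ∪
        (Finset.univ.image fun l => MvPolynomial.rename vω (Fri l) - MvPolynomial.X (vα l)))),
      fun κ _ α η η' ω => by
        rw [sat_union, sat_union, sat_union, sat_image _ _ _ (eη α η η' ω), sat_image _ _ _ (eω α η η' ω),
          sat_lift _ _ _ _ _ (eω α η η' ω) (eη α η η' ω), sat_lift _ _ _ _ _ (eω α η η' ω) (eα α η η' ω)]⟩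
  obtain ⟨Qs, hQs⟩ : ∃ Q : Bool → Finset (MvPolynomial (Var r g) ℤ), ∀ (b : Bool) (κ : Type) [CommRing κ]
      (α : Fin r → κ) (η η' ω : Fin g → κ), Sat (Q b) α η η' ω ↔ (∀ f ∈ PE.K, MvPolynomial.aeval η f = 0) ∧
        (∀ f ∈ PE.K, MvPolynomial.aeval η' f = 0) ∧
        (∀ f ∈ (PWs b).K, MvPolynomial.aeval ω f = 0) ∧ (∀ l, MvPolynomial.aeval ω (F0 b l) = η l) ∧
        (∀ l, MvPolynomial.aeval ω (F1 b l) = η' l) ∧
        ∀ l, MvPolynomial.aeval ω (Frs b l) = α l :=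
    ⟨fun b => PE.K.image (MvPolynomial.rename vη) ∪ (PE.K.image (MvPolynomial.rename vη') ∪
      ((PWs b).K.image (MvPolynomial.rename vω) ∪
      ((Finset.univ.image fun l => MvPolynomial.rename vω (F0 b l) - MvPolynomial.X (vη l)) ∪
      ((Finset.univ.image fun l => MvPolynomial.rename vω (F1 b l) - MvPolynomial.X (vη' l)) ∪
        (Finset.univ.image fun l => MvPolynomial.rename vω (Frs b l) - MvPolynomial.X (vα l)))))),
      fun b κ _ α η η' ω => by
        rw [sat_union, sat_union, sat_union, sat_union, sat_union, sat_image _ _ _ (eη α η η' ω),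
          sat_image _ _ _ (eη' α η η' ω), sat_image _ _ _ (eω α η η' ω),
          sat_lift _ _ _ _ _ (eω α η η' ω) (eη α η η' ω), sat_lift _ _ _ _ _ (eω α η η' ω) (eη' α η η' ω),
          sat_lift _ _ _ _ _ (eω α η η' ω) (eα α η η' ω)]⟩
  obtain ⟨Qf, hQf⟩ : ∃ Q : Finset (MvPolynomial (Var r g) ℤ), ∀ (κ : Type) [CommRing κ] (α : Fin r → κ)
      (η η' ω : Fin g → κ), Sat Q α η η' ω ↔ (∀ f ∈ PE.K, MvPolynomial.aeval η f = 0) ∧
        (∀ f ∈ PWf.K, MvPolynomial.aeval ω f = 0) ∧ ∀ l, MvPolynomial.aeval ω (Fef l) = η l :=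
    ⟨PE.K.image (MvPolynomial.rename vη) ∪ (PWf.K.image (MvPolynomial.rename vω) ∪
      (Finset.univ.image fun l => MvPolynomial.rename vω (Fef l) - MvPolynomial.X (vη l))),
      fun κ _ α η η' ω => by
        rw [sat_union, sat_union, sat_image _ _ _ (eη α η η' ω), sat_image _ _ _ (eω α η η' ω),
          sat_lift _ _ _ _ _ (eω α η η' ω) (eη α η η' ω)]⟩
  refine ⟨r, g, ⟨Pr.K, Qi, Qs, Qf⟩, fun l => Pr.π (MvPolynomial.X l), adjoin_pres Pr, ?_, ?_⟩
  · intro κ _ u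
    constructor
    · intro h
      obtain ⟨p, hp⟩ := Pr.exists_point u h
      exact ⟨p, fun j => congrFun hp j⟩
    · rintro ⟨a, ha⟩
      have h : Pr.co a = u := funext ha
      rw [← h]
      exact Pr.co_sat a
  · intro κ _ a L e
    constructor
    · rintro ⟨η, ω, ωi, ωf, hi, hs, hf⟩
      obtain ⟨i1, i2, i3, i4⟩ := (hQi κ _ _ _ _).1 hi
      obtain ⟨f1, f2, f3⟩ := (hQf κ _ _ _ _).1 hf
      have hp : ∀ j, ∃ p : P.E →+* κ, j ≤ L → PE.co p = η j := by
        intro j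
        rcases lt_trichotomy j L with hj | hj | hj
        · obtain ⟨p, hp⟩ := PE.exists_point (η j) ((hQs _ κ _ _ _ _).1 (hs j hj)).1
          exact ⟨p, fun _ => hp⟩
        · obtain ⟨p, hp⟩ := PE.exists_point (η L) f1
          exact ⟨p, fun _ => by rw [hp, hj]⟩
        · obtain ⟨p, hp⟩ := PE.exists_point (η 0) i1
          exact ⟨p, fun h => absurd h (not_le.2 hj)⟩
      choose pE hpE using hp
      obtain ⟨pi, hpi⟩ := PWi.exists_point ωi i2
      obtain ⟨pf, hpf⟩ := PWf.exists_point ωf f2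
      refine ⟨pE, pi, pf, PE.co_inj _ _ (funext fun l => ?_), Pr.co_inj _ _ (funext fun l => ?_),
        PE.co_inj _ _ (funext fun l => ?_), fun j hj => ?_⟩
      · rw [← hFei κ pi l, hpi, i3 l, hpE 0 (Nat.zero_le _)]
      · rw [← hFri κ pi l, hpi, i4 l]
        rfl
      · rw [← hFef κ pf l, hpf, f3 l, hpE L le_rfl]
      · obtain ⟨_, _, s3, s4, s5, s6⟩ := (hQs _ κ _ _ _ _).1 (hs j hj)
        obtain ⟨ps, hps⟩ := (PWs (e j)).exists_point (ω j) s3
        refine ⟨ps, PE.co_inj _ _ (funext fun l => ?_), PE.co_inj _ _ (funext fun l => ?_),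
          Pr.co_inj _ _ (funext fun l => ?_)⟩
        · rw [← hF0 (e j) κ ps l, hps, s4 l, hpE j hj.le]
        · rw [← hF1 (e j) κ ps l, hps, s5 l, hpE (j + 1) hj]
        · rw [← hFrs (e j) κ ps l, hps, s6 l]
          rfl
    · rintro ⟨pE, pi, pf, h6, h7, h8, h9⟩
      have hw : ∀ j, ∃ w : Fin g → κ, j < L → ∃ ps : P.Ws (e j) →+* κ, (PWs (e j)).co ps = w ∧
          ps.comp (P.e0 (e j)) = pE j ∧ ps.comp (P.e1 (e j)) = pE (j + 1) ∧ ps.comp (P.rs (e j)) = a := by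
        intro j
        by_cases hj : j < L
        · obtain ⟨ps, hps⟩ := h9 j hj
          exact ⟨_, fun _ => ⟨ps, rfl, hps⟩⟩
        · exact ⟨0, fun h => absurd h hj⟩
      choose ω hω using hw
      refine ⟨fun j => PE.co (pE j), ω, PWi.co pi, PWf.co pf, (hQi κ _ _ _ _).2 ⟨PE.co_sat _, PWi.co_sat _,
        fun l => ?_, fun l => ?_⟩, fun j hj => ?_, (hQf κ _ _ _ _).2 ⟨PE.co_sat _, PWf.co_sat _, fun l => ?_⟩⟩
      · rw [hFei κ pi l, h6]
      · rw [hFri κ pi l, h7]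
        rfl
      · obtain ⟨ps, hps, k1, k2, k3⟩ := hω j hj
        refine (hQs (e j) κ _ _ _ _).2 ⟨PE.co_sat _, PE.co_sat _, ?_, fun l => ?_, fun l => ?_, fun l => ?_⟩
        · rw [← hps]
          exact (PWs (e j)).co_sat ps
        · rw [← hps, hF0 (e j) κ ps l, k1]
        · rw [← hps, hF1 (e j) κ ps l, k2]
        · rw [← hps, hFrs (e j) κ ps l, k3]
          rfl
      · rw [hFef κ pf l, h8]

end Pool.Agent.LGF
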