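import Mathlib

/-!
# Effective elimination: definitions

`l1` is the sum of the absolute values of the coefficients of an integer polynomial. Variables:
`x_i` (`i : Fin m`) parameters, `u_v` (`v : V`) unknowns, `z` (`none : Option V`) the additional
variable of the trick of Jelonek, `T_j` (`j : J`) and `Y` the variables of the relations.
-/

open MvPolynomial

namespace Pool.Agent.LGF

noncomputable section

/-- The sum of the absolute values of the coefficients. -/
def l1 {ρ : Type} (f : MvPolynomial ρ ℤ) : ℕ := ∑ s ∈ f.support, (f.coeff s).natAbs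

namespace N

/-- The degree bound in the theorem of Perron: `n` variables, `n + 1` polynomials of degree `≤ D`. -/
def PB (n D : ℕ) : ℕ := 2 * (n + 1) * D ^ n

/-- The field of fractions of `ℤ[x_1, …, x_m]`. -/
abbrev KF (m : ℕ) : Type := FractionRing (MvPolynomial (Fin m) ℤ)

/-- `ℤ[x, u] → K[u]`. -/
def toK (m : ℕ) (V : Type) : MvPolynomial (Fin m ⊕ V) ℤ →ₐ[ℤ] MvPolynomial V (KF m) :=
  aeval (Sum.elim (fun i => C (algebraMap (MvPolynomial (Fin m) ℤ) (KF m) (X i))) X)

/-- `ℤ[x, Y, T] → ℤ[x][T][Y]`. -/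
def iter (m : ℕ) (J : Type) :
    MvPolynomial (Fin m ⊕ Option J) ℤ →ₐ[ℤ] Polynomial (MvPolynomial J (MvPolynomial (Fin m) ℤ)) :=
  aeval (Sum.elim (fun i => Polynomial.C (C (X i)))
    (fun o => o.elim Polynomial.X fun j => Polynomial.C (X j)))

/-- `ℤ[x][T] → ℤ[x, z, u]`, `T_j ↦ Ψ_j`. -/
def phi {m : ℕ} {V J : Type} (Ψ : J → MvPolynomial (Fin m ⊕ Option V) ℤ) :
    MvPolynomial J (MvPolynomial (Fin m) ℤ) →+* MvPolynomial (Fin m ⊕ Option V) ℤ :=
  eval₂Hom ((rename Sum.inl : MvPolynomial (Fin m) ℤ →ₐ[ℤ]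
    MvPolynomial (Fin m ⊕ Option V) ℤ) : MvPolynomial (Fin m) ℤ →+* _) Ψ

/-- The elements `z f_q` and `u_v`. -/
def gen {m : ℕ} {V Q : Type} (f : Q → MvPolynomial (Fin m ⊕ V) ℤ) :
    Q ⊕ V → MvPolynomial (Fin m ⊕ Option V) ℤ :=
  Sum.elim (fun q => X (Sum.inr none) * rename (Sum.map id some) (f q))
    (fun v => X (Sum.inr (some v)))

/-- Linear combinations of the elements `z f_q` and `u_v`. -/
def Psi {m : ℕ} {V Q J : Type} [Fintype V] [Fintype Q] (f : Q → MvPolynomial (Fin m ⊕ V) ℤ)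
    (γ : J → Q ⊕ V → ℤ) (j : J) : MvPolynomial (Fin m ⊕ Option V) ℤ :=
  ∑ i, γ j i • gen f i

end N

end

end Pool.Agent.LGF
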