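import Pool.Agent.LGF.LPat
import Pool.Agent.LGF.NDef

/-!
# The polynomial system of a run (definitions)

Variables: the values `y i` (`Fin m`), the point `α` of `R`, the states `η j` (`j ≤ L`), `ω j` (`j < L`), `ωi`, `ωf`.
-/

noncomputable section

namespace Pool.Agent.LGF

open MvPolynomial

/-- The unknowns of a run of length `L`. -/
abbrev SV (r g L : ℕ) : Type := Fin r ⊕ (Fin (L + 1) × Fin g) ⊕ (Fin L × Fin g) ⊕ Fin g ⊕ Fin g

variable {r g : ℕ} (m : ℕ)

/-- The variables of a step in a run: states number `j` and `j'`, auxiliary variables `w`. -/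
def sv {L : ℕ} (j j' : Fin (L + 1)) (w : Fin g → SV r g L) : Var r g → Fin m ⊕ SV r g L :=
  Sum.elim (fun l => Sum.inr (Sum.inl l)) (Sum.elim (fun l => Sum.inr (Sum.inr (Sum.inl (j, l))))
    (Sum.elim (fun l => Sum.inr (Sum.inr (Sum.inl (j', l)))) fun l => Sum.inr (w l)))

variable {m}

/-- The indices of the equations of a run with digits `e`. -/
abbrev SQ (m : ℕ) (E : Eqs r g) {L : ℕ} (e : Fin L → Bool) : Type :=
  {f // f ∈ E.QR} ⊕ {f // f ∈ E.Qi} ⊕ (Σ j : Fin L, {f // f ∈ E.Qs (e j)}) ⊕ {f // f ∈ E.Qf} ⊕ Fin m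

/-- The equations of a run with digits `e` and with `Xp i (α) = y i`. -/
def sys (E : Eqs r g) (Xp : Fin m → MvPolynomial (Fin r) ℤ) {L : ℕ} (e : Fin L → Bool) :
    SQ m E e → MvPolynomial (Fin m ⊕ SV r g L) ℤ :=
  Sum.elim (fun f => rename (fun l => Sum.inr (Sum.inl l)) f.1)
    (Sum.elim (fun f => rename (sv m 0 0 fun l => Sum.inr (Sum.inr (Sum.inr (Sum.inl l)))) f.1)
      (Sum.elim (fun f => rename (sv m f.1.castSucc f.1.succ fun l => Sum.inr (Sum.inr (Sum.inl (f.1, l)))) f.2.1)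
        (Sum.elim (fun f => rename (sv m (Fin.last L) (Fin.last L)
            fun l => Sum.inr (Sum.inr (Sum.inr (Sum.inr l)))) f.1)
          fun i => rename (fun l => Sum.inr (Sum.inl l)) (Xp i) - X (Sum.inl i))))

/-- Digits extended by `false`. -/
def ext {L : ℕ} (e : Fin L → Bool) : ℕ → Bool := fun j => if h : j < L then e ⟨j, h⟩ else false

end Pool.Agent.LGF
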