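import Pool.Agent.LGF.Upper
import Pool.Agent.LGF.LFin
import Pool.Agent.LGF.Defs2
import Pool.Agent.GSM.PlainEq

/-!
# The main theorem

Translation of `tame_tail`, `nul_tail`, `lower` to the plain definitions.
-/

noncomputable section

namespace Pool.Agent.LGF

open Pool.Agent.GSM Pool.Agent.GSM.Plain

universe u v

section plain

variable {n w : ℕ} {ι : Type} (k : ι → Type) [∀ i, Field (k i)]

private theorem cub_iff {n w : ℕ} {R : Type u} [CommRing R] {x : F (Fin w) (MvPolynomial (Fin n) R)} :
    Plain.IsCube x ↔ Cub (toKK x : GG (Fin n) (Fin w) R) :=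
  Plain.isCube_iff.trans isCubeOn_univ.symm

private theorem toKK_sub {R : Type u} [CommRing R] {x y : F (Fin w) (MvPolynomial (Fin n) R)} :
    (toKK (x - y) : GG (Fin n) (Fin w) R) = (toKK x : GG (Fin n) (Fin w) R) - toKK y := map_sub _ _ _

private theorem toKK_smul {R : Type u} [CommRing R] (q : ℚ) {x : F (Fin w) (MvPolynomial (Fin n) R)} :
    (toKK (q • x) : GG (Fin n) (Fin w) R) = q • (toKK x : GG (Fin n) (Fin w) R) := map_smul _ _ _

private theorem toKK_bc {n w : ℕ} {R R' : Type} [CommRing R] [CommRing R'] (f : R →+* R')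
    (x : Plain.Cls n w R) : (toKK (Plain.bc f x) : GG (Fin n) (Fin w) R') =
      GG.base f (toKK x : GG (Fin n) (Fin w) R) := by
  rw [Plain.bc, toKK_base]

theorem cyclic_iff {m : ι → ℕ} {x : Plain.Fml n w k} :
    Plain.Cyclic k m x ↔ IsCyc k m (toKK x : GG (Fin n) (Fin w) (∀ i, k i)) := by
  constructor
  · rintro ⟨y, h0, h1, h2, h3⟩
    refine ⟨toKK y, cub_iff.1 h0, ?_, ?_, ?_⟩
    · have := Plain.isBd_iff.1 h1
      rwa [toKK_sub, Plain.value, toKK_bc] at this
    · have := Plain.isBd_iff.1 h2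
      rwa [toKK_sub, toKK_sub, Plain.reindex, toKK_bc, Plain.reindex, toKK_bc, Plain.reindex,
        toKK_bc] at this
    · have := Plain.isBd_iff.1 h3
      rwa [Plain.reindex, toKK_bc] at this
  · rintro ⟨y, h0, h1, h2, h3⟩
    obtain ⟨y, rfl⟩ := toKK_surjective y
    refine ⟨y, cub_iff.2 h0, ?_, ?_, ?_⟩
    · rw [Plain.isBd_iff, toKK_sub, Plain.value, toKK_bc]
      exact h1
    · rw [Plain.isBd_iff, toKK_sub, toKK_sub, Plain.reindex, toKK_bc, Plain.reindex, toKK_bc,
        Plain.reindex, toKK_bc]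
      exact h2
    · rw [Plain.isBd_iff, Plain.reindex, toKK_bc]
      exact h3

theorem dies_iff {L : ι → ℕ} {x : Plain.Fml n w k} :
    Plain.Dies k L x ↔ Die k L (toKK x : GG (Fin n) (Fin w) (∀ i, k i)) := by
  constructor
  · rintro ⟨e, y, h0, h1, h2, h3⟩
    refine ⟨e, toKK y, cub_iff.1 h0, ?_, ?_, fun b => ?_⟩
    · have := Plain.isBd_iff.1 h1
      rwa [toKK_sub, Plain.value, toKK_bc] at this
    · have := Plain.isBd_iff.1 h2
      rwa [Plain.value, toKK_bc] at this
    · have := Plain.isBd_iff.1 (h3 b)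
      rwa [Plain.sub, toKK_bc, Plain.step, toKK_sub, toKK_sub, Plain.reindex, toKK_bc, toKK_smul,
        toKK_smul, Plain.const, toKK_bc] at this
  · rintro ⟨e, y, h0, h1, h2, h3⟩
    obtain ⟨y, rfl⟩ := toKK_surjective y
    refine ⟨e, y, cub_iff.2 h0, ?_, ?_, fun b => ?_⟩
    · rw [Plain.isBd_iff, toKK_sub, Plain.value, toKK_bc]
      exact h1
    · rw [Plain.isBd_iff, Plain.value, toKK_bc]
      exact h2
    · rw [Plain.isBd_iff, Plain.sub, toKK_bc, Plain.step, toKK_sub, toKK_sub, Plain.reindex,
        toKK_bc, toKK_smul, toKK_smul, Plain.const, toKK_bc]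
      exact h3 b

theorem toKK_above {N : ℕ} {x : Plain.Fml n w k} :
    (toKK (Plain.above k N x) : GG (Fin n) (Fin w) (∀ i : {i // N < ringChar (k i)}, k i)) =
      GG.base (res k (Subtype.val : {i // N < ringChar (k i)} → ι))
        (toKK x : GG (Fin n) (Fin w) (∀ i, k i)) := by
  rw [Plain.above, toKK_bc]

theorem cyclicAbove_iff {N : ℕ} {m : ι → ℕ} {x : Plain.Fml n w k} : Plain.CyclicAbove k N m x ↔
    IsCyc (fun i : {i // N < ringChar (k i)} => k i) (fun i => m i)
      (GG.base (res k (Subtype.val : {i // N < ringChar (k i)} → ι))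
        (toKK x : GG (Fin n) (Fin w) (∀ i, k i))) := by
  rw [Plain.CyclicAbove, cyclic_iff, toKK_above]

theorem diesAbove_iff {N : ℕ} {m : ι → ℕ} {x : Plain.Fml n w k} : Plain.DiesAbove k N m x ↔
    Die (fun i : {i // N < ringChar (k i)} => k i) (fun i => m i)
      (GG.base (res k (Subtype.val : {i // N < ringChar (k i)} → ι))
        (toKK x : GG (Fin n) (Fin w) (∀ i, k i))) := by
  rw [Plain.DiesAbove, dies_iff, toKK_above]

theorem vanishes_iff {n w : ℕ} {R : Type} [CommRing R] :
    Plain.Vanishes n w R ↔ ∀ x : GG (Fin n) (Fin w) R, Cub x → Nul x := by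
  constructor
  · intro h x hx
    obtain ⟨x, rfl⟩ := toKK_surjective x
    exact Plain.isBd_iff.1 (h x (cub_iff.2 hx))
  · intro h x hx
    exact Plain.isBd_iff.2 (h _ (cub_iff.1 hx))

/-- log fillings -/
theorem main1 (hw : 0 < w) (h : Plain.Vanishes n w (AlgebraicClosure ℚ)) :
    Plain.LogFillings n w := by
  classical
  intro ι k _ _ x hx
  have : Nonempty (Fin w) := ⟨⟨0, hw⟩⟩
  obtain ⟨N, c, hc⟩ := tame_tail k (vanishes_iff.1 h) (cub_iff.1 hx)
  obtain ⟨L, hL, hD⟩ := hc.die
  obtain ⟨m, hm, hC⟩ := hc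
  refine ⟨N, 2 * c, ⟨fun i => if h : N < ringChar (k i) then m ⟨i, h⟩ else 1, fun i => ?_, ?_⟩,
    fun i => if h : N < ringChar (k i) then L ⟨i, h⟩ else 0, fun i => ?_, ?_⟩
  · by_cases h : N < ringChar (k i)
    · simp only [h, dif_pos]
      exact ⟨(hm ⟨i, h⟩).1, (hm ⟨i, h⟩).2.trans (Nat.pow_le_pow_right (Nat.card_pos) (by omega))⟩
    · simp only [h, dif_neg, not_false_eq_true]
      exact ⟨one_pos, Nat.one_le_pow _ _ Nat.card_pos⟩
  · have e : (fun i : {i // N < ringChar (k i)} =>
        if h : N < ringChar (k i) then m ⟨i, h⟩ else 1) = m := by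
      funext i
      rw [dif_pos i.2]
    rw [cyclicAbove_iff, e]
    exact hC
  · by_cases h : N < ringChar (k i)
    · simp only [h, dif_pos]
      exact hL ⟨i, h⟩
    · simp only [h, dif_neg, not_false_eq_true, Nat.cast_zero]
      exact mul_nonneg (Nat.cast_nonneg _) (Real.log_natCast_nonneg _)
  · have e : (fun i : {i // N < ringChar (k i)} =>
        if h : N < ringChar (k i) then L ⟨i, h⟩ else 0) = L := by
      funext i
      rw [dif_pos i.2]
    rw [diesAbove_iff, e]
    exact hD

/-- vanishing for the tail of a family of fields -/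
theorem main2 (hw : 0 < w) (h : ∀ (F : Type) [Field F] [CharZero F], Plain.Vanishes n w F) :
    Plain.FamiliesVanish n w := by
  intro ι k _ x hx
  have : Nonempty (Fin w) := ⟨⟨0, hw⟩⟩
  obtain ⟨N, hN⟩ := nul_tail k (fun F _ _ => vanishes_iff.1 (h F)) (cub_iff.1 hx)
  refine ⟨N, ?_⟩
  rw [Plain.BdAbove, Plain.isBd_iff, toKK_above]
  exact hN

end plain

section loc

variable {I σ : Type} [Finite I] [DecidableEq I] [Finite σ] [DecidableEq σ]

variable {R : Type} [CommRing R] [IsDomain R]

/-- `R[1/f] → Frac R` -/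
def toFrac {f : R} (hf : f ≠ 0) : Localization.Away f →+* FractionRing R :=
  IsLocalization.lift (M := Submonoid.powers f) (g := algebraMap R (FractionRing R)) (by
    rintro ⟨_, j, rfl⟩
    rw [map_pow]
    exact (IsUnit.mk0 _ (by simpa using hf)).pow j)

theorem toFrac_comp {f : R} (hf : f ≠ 0) :
    (toFrac hf).comp (algebraMap R (Localization.Away f)) = algebraMap R (FractionRing R) :=
  IsLocalization.lift_comp _

theorem toFrac_injective {f : R} (hf : f ≠ 0) : Function.Injective (toFrac hf) := by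
  rw [toFrac, IsLocalization.lift_injective_iff]
  intro x y
  have hpow : Submonoid.powers f ≤ nonZeroDivisors R := powers_le_nonZeroDivisors_of_noZeroDivisors hf
  rw [(IsLocalization.injective (Localization.Away f) hpow).eq_iff,
    (IsFractionRing.injective R (FractionRing R)).eq_iff]

/-- a class over a domain which dies over the fraction field dies over a localisation -/
theorem exists_den {z : GG I σ R} (h : Nul (GG.base (algebraMap R (FractionRing R)) z)) :
    ∃ f : R, f ≠ 0 ∧ Nul (GG.base (algebraMap R (Localization.Away f)) z) := by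
  classical
  obtain ⟨F, hF, h1⟩ := bd_descend.{0, 0, 0} (algebraMap R (FractionRing R)) z h
  obtain ⟨b, hb⟩ := IsLocalization.exist_integer_multiples_of_finset (nonZeroDivisors R)
    hF.toFinset
  have hb0 : (b : R) ≠ 0 := nonZeroDivisors.coe_ne_zero b
  refine ⟨b, hb0, h1 (algebraMap R (Localization.Away (b : R))) (toFrac hb0) (toFrac_comp hb0)
    (toFrac_injective hb0) fun c hc => ?_⟩
  obtain ⟨r, hr⟩ := hb c (hF.mem_toFinset.2 hc)
  refine ⟨IsLocalization.mk' _ r (⟨b, 1, by simp⟩ : Submonoid.powers (b : R)), ?_⟩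
  rw [toFrac, IsLocalization.lift_mk'_spec]
  simp only
  rw [hr, Algebra.smul_def]

omit [Finite I] [Finite σ] in
theorem nul_of_frac {K : Type} [Field K] (j : R →+* K) (hj : Function.Injective j)
    {z : GG I σ R} (h : Nul (GG.base (algebraMap R (FractionRing R)) z)) : Nul (GG.base j z) := by
  have h1 := BdOn.base (IsFractionRing.lift hj : FractionRing R →+* K) h
  rw [GG.base_base] at h1
  have h2 : (IsFractionRing.lift hj : FractionRing R →+* K).comp
      (algebraMap R (FractionRing R)) = j := RingHom.ext fun c => IsFractionRing.lift_algebraMap hj c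
  rw [h2] at h1
  exact h1

omit [Finite I] [Finite σ] in
/-- the generic vanishing follows from the vanishing of the base change to a localisation -/
theorem nul_frac {f : R} (hf : f ≠ 0) {z : GG I σ R}
    (h : Nul (GG.base (algebraMap (Localization.Away f) (FractionRing (Localization.Away f)))
      (GG.base (algebraMap R (Localization.Away f)) z))) :
    Nul (GG.base (algebraMap R (FractionRing R)) z) := by
  have hd : IsDomain (Localization.Away f) := IsLocalization.isDomain_localization
    (powers_le_nonZeroDivisors_of_noZeroDivisors hf)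
  have h1 := nul_of_frac _ (toFrac_injective hf) h
  rwa [GG.base_base, toFrac_comp] at h1

theorem lower_away {S : Set ℕ} (hS : ¬ Plain.Thin S) [CharZero R] [Algebra.FiniteType ℤ R]
    {z : GG I σ R} (hz : Cub z) {f : R} (hf : f ≠ 0)
    (h : ∀ (ι : Type) (k : ι → Type) [∀ i, Field (k i)], Plain.IsFiniteFamily S k →
      ∀ a : R →+* ∀ i, k i, (∀ i, a f i ≠ 0) →
      ∃ (N : ℕ) (L : ι → ℕ), Plain.SmallO (fun i => ringChar (k i)) L ∧
        Die (fun i : {i // N < ringChar (k i)} => k i) (fun i => L i)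
          (GG.base (res k (Subtype.val : {i // N < ringChar (k i)} → ι)) (GG.base a z))) :
    Nul (GG.base (algebraMap R (FractionRing R)) z) := by
  have hM : Submonoid.powers f ≤ nonZeroDivisors R :=
    powers_le_nonZeroDivisors_of_noZeroDivisors hf
  have hd : IsDomain (Localization.Away f) := IsLocalization.isDomain_localization hM
  have hinj : Function.Injective (algebraMap R (Localization.Away f)) :=
    IsLocalization.injective _ hM
  have hc : CharZero (Localization.Away f) := charZero_of_injective_algebraMap hinj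
  have hft : Algebra.FiniteType R (Localization.Away f) :=
    IsLocalization.finiteType_of_monoid_fg (Submonoid.powers f) _
  have hft' : @Algebra.FiniteType ℤ (Localization.Away f) _ _ (Ring.toIntAlgebra _) := by
    have h1 : ((algebraMap R (Localization.Away f)).comp (algebraMap ℤ R)).FiniteType :=
      RingHom.FiniteType.comp (RingHom.finiteType_algebraMap.2 hft)
        (RingHom.finiteType_algebraMap.2 inferInstance)
    refine (@RingHom.finiteType_algebraMap ℤ (Localization.Away f) _ _ (Ring.toIntAlgebra _)).1 ?_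
    rw [Subsingleton.elim (@algebraMap ℤ (Localization.Away f) _ _ (Ring.toIntAlgebra _))
      ((algebraMap R (Localization.Away f)).comp (algebraMap ℤ R))]
    exact h1
  refine nul_frac hf (@lower I σ _ _ _ _ S hS (Localization.Away f) _ hd hc hft' _ (hz.base _)
    fun ι k _ hk a => ?_)
  have h1 := h ι k hk (a.comp (algebraMap R (Localization.Away f))) fun i => ?_
  · obtain ⟨N, L, hL, hD⟩ := h1
    refine ⟨N, L, hL, ?_⟩
    rw [← GG.base_base] at hD
    exact hD
  · have h2 : IsUnit (a (algebraMap R (Localization.Away f) f)) :=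
      (IsLocalization.Away.algebraMap_isUnit f).map a
    exact ((Pi.isUnit_iff.1 h2) i).ne_zero

end loc

section final

variable {n w : ℕ}

/-- the case of one class over a finitely generated domain -/
theorem main3 {S : Set ℕ} (hS : ¬ Plain.Thin S) {R : Type} [CommRing R] [IsDomain R] [CharZero R]
    [Algebra.FiniteType ℤ R] {z : Plain.Cls n w R} (hz : Plain.IsCube z) :
    List.TFAE [
      Plain.GenericallyZero z,
      ∃ f : R, f ≠ 0 ∧ Plain.PointsVanish f z,
      ∃ f : R, f ≠ 0 ∧ Plain.PointsSmallDies S f z] := by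
  tfae_have 1 → 2 := by
    intro h
    rw [Plain.GenericallyZero, Plain.isBd_iff, toKK_bc] at h
    obtain ⟨f, hf, hN⟩ := exists_den h
    refine ⟨f, hf, fun ι k _ a ha => ?_⟩
    have hu : ∀ y : Submonoid.powers f, IsUnit (a y) := by
      rintro ⟨_, j, rfl⟩
      rw [map_pow]
      exact (Pi.isUnit_iff.2 fun i => IsUnit.mk0 _ (ha i)).pow j
    have h1 := BdOn.base (IsLocalization.lift hu : Localization.Away f →+* ∀ i, k i) hN
    rw [GG.base_base, IsLocalization.lift_comp] at h1
    rw [Plain.isBd_iff, toKK_bc]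
    exact h1
  tfae_have 2 → 3 := by
    rintro ⟨f, hf, h⟩
    refine ⟨f, hf, fun ι k _ hk a ha => ⟨0, fun _ => 0, fun δ hδ => ⟨0, fun i hi => ?_⟩, ?_⟩⟩
    · have h1 : 1 ≤ ringChar (k i) := hi
      rw [Nat.cast_zero]
      exact mul_nonneg hδ.le (Real.log_nonneg (by exact_mod_cast h1))
    · have h1 := h ι k a ha
      rw [Plain.isBd_iff, toKK_bc] at h1
      rw [diesAbove_iff, toKK_bc]
      exact die_of_nul (((cub_iff.1 hz).base _).base _) (h1.base _)
  tfae_have 3 → 1 := by
    rintro ⟨f, hf, h⟩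
    rw [Plain.GenericallyZero, Plain.isBd_iff, toKK_bc]
    refine lower_away hS (cub_iff.1 hz) hf fun ι k _ hk a ha => ?_
    obtain ⟨N, L, hL, hD⟩ := h ι k hk a ha
    refine ⟨N, L, hL, ?_⟩
    rw [diesAbove_iff, toKK_bc] at hD
    exact hD
  tfae_finish

/-- vanishing for all fields from few steps for all finite fields over `S` -/
theorem main4 {S : Set ℕ} (hS : ¬ Plain.Thin S) (h : Plain.SmallDies n w S)
    (K : Type) [Field K] [CharZero K] : Plain.Vanishes n w K := by
  rw [vanishes_iff]
  intro x hx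
  obtain ⟨F₀, hF, h1⟩ := exists_cube.{0, 0} hx
  obtain ⟨z, hz, hzx⟩ := h1 (algebraMap (Algebra.adjoin ℤ F₀) K) Subtype.val_injective
    fun c hc => ⟨⟨c, Algebra.subset_adjoin hc⟩, rfl⟩
  have hft : Algebra.FiniteType ℤ (Algebra.adjoin ℤ F₀) :=
    (Subalgebra.fg_iff_finiteType _).mp
      (by rw [← hF.coe_toFinset]; exact Subalgebra.fg_adjoin_finset _)
  rw [← hzx]
  refine nul_of_frac _ Subtype.val_injective (lower hS hz fun ι k _ hk a => ?_)
  obtain ⟨z, rfl⟩ := toKK_surjective z
  obtain ⟨N, L, hL, hD⟩ := h ι k hk (Plain.bc a z) (by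
    rw [cub_iff, toKK_bc]
    exact hz.base _)
  refine ⟨N, L, hL, ?_⟩
  rw [diesAbove_iff, toKK_bc] at hD
  exact hD

/-- the threshold -/
theorem main5 (hw : 0 < w) {S : Set ℕ} (hS : ¬ Plain.Thin S) : List.TFAE [
    ∀ (K : Type) [Field K] [CharZero K], Plain.Vanishes n w K,
    Plain.FamiliesVanish n w,
    Plain.SmallCyclic n w S,
    Plain.SmallDies n w S] := by
  tfae_have 1 → 2 := fun h => main2 hw h
  tfae_have 2 → 3 := by
    intro h ι k _ hk x hx
    obtain ⟨N, hN⟩ := h ι k x hx
    refine ⟨N, fun _ => 1, fun _ => one_pos, fun δ hδ => ⟨0, fun i hi => ?_⟩, ?_⟩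
    · have h1 : 1 ≤ ringChar (k i) := hi
      simp only [Nat.log_one_right, Nat.cast_zero]
      exact mul_nonneg hδ.le (Real.log_nonneg (by exact_mod_cast h1))
    · rw [cyclicAbove_iff]
      rw [Plain.BdAbove, Plain.isBd_iff, toKK_above] at hN
      have hfin : ∀ i : {i // N < ringChar (k i)}, Finite (k i) := fun i => (hk.1 i).1
      obtain ⟨m, hm, hC⟩ := isTame_of_nul (c := 0) hN
      have hm1 : m = fun _ => 1 := funext fun i => by
        have := hm i
        rw [pow_zero] at this
        omega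
      rw [hm1] at hC
      exact hC
  tfae_have 3 → 4 := by
    intro h ι k _ hk x hx
    obtain ⟨N, m, hm, hL, hC⟩ := h ι k hk x hx
    refine ⟨N, _, hL, ?_⟩
    rw [cyclicAbove_iff] at hC
    rw [diesAbove_iff]
    exact hC.die fun i => hm i
  tfae_have 4 → 1 := fun h K _ _ => main4 hS h K
  tfae_finish

end final

end Pool.Agent.LGF
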