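import Mathlib

/-!
# The function field and the integral closure

MODULE LGF-MkA. PLAN. `L = AdjoinRoot (Ψ.map (algebraMap k[X] (RatFunc k)))`, a field by Gauss's lemma
(`Polynomial.Monic.irreducible_iff_irreducible_map_fraction_map`), with power basis
(`AdjoinRoot.powerBasis'` for a monic polynomial, `Monic.natDegree_map`); separable: the irreducible
polynomial has nonzero derivative, as its degree is positive and smaller than the characteristic or the
characteristic is `0` (leading coefficient of the derivative is `natDegree ≠ 0` in `k`);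
`Polynomial.separable_iff_derivative_ne_zero`, then the generator is separable and
`IntermediateField`/`Algebra.IsSeparable` of `AdjoinRoot` (`AdjoinRoot` is `k(X)⟮root⟯`;
`IntermediateField.isSeparable_adjoin_simple_iff_isSeparable`, or `Algebra.IsSeparable` via
`PowerBasis`). `O = integralClosure k[X] L`: `integralClosure.isDedekindDomain`, free and finite over
the PID `k[X]` (`IsIntegralClosure.module_free`, `IsIntegralClosure.finite`), rank `= finrank`
(`IsIntegralClosure.rank`), its basis is a basis of `L` (`Basis.localizationLocalization` or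
linear independence + cardinality). Model: `GSM/Reg.lean`, `GSM/Curve.lean`.
-/

noncomputable section

namespace Pool.Agent.LGF

open Polynomial Module

/-- A Dedekind domain `O` in a field `L` over `k(X)` generated by a root `θ` of `Ψ`. -/
structure LF (k : Type) [Field k] (Ψ : k[X][X]) where
  L : Type
  O : Type
  [fL : Field L]
  [aL : Algebra (RatFunc k) L]
  [cr : CommRing O]
  [ded : IsDedekindDomain O]
  [alg : Algebra k O]
  [algX : Algebra k[X] O]
  [tow : IsScalarTower k k[X] O]
  emb : O →+* L
  emb_inj : Function.Injective emb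
  emb_alg : ∀ p : k[X], emb (algebraMap k[X] O p) = algebraMap (RatFunc k) L (algebraMap k[X] _ p)
  int : ∀ x : O, IsIntegral k[X] x
  θ : O
  root : aeval θ Ψ = 0
  b : Basis (Fin Ψ.natDegree) (RatFunc k) L
  hb : ∀ l, b l = emb θ ^ (l : ℕ)
  u : Basis (Fin Ψ.natDegree) k[X] O
  u' : Basis (Fin Ψ.natDegree) (RatFunc k) L
  hu : ∀ l, u' l = emb (u l)

attribute [instance] LF.fL LF.aL LF.cr LF.ded LF.alg LF.algX LF.tow

theorem exists_LF {k : Type} [Field k] (Ψ : k[X][X]) (hm : Ψ.Monic) (hirr : Irreducible Ψ)
    (h0 : 0 < Ψ.natDegree) (hp : ringChar k = 0 ∨ Ψ.natDegree < ringChar k) :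
    Nonempty (LF k Ψ) := by
  classical
  set F : (RatFunc k)[X] := Ψ.map (algebraMap k[X] (RatFunc k)) with hF
  have hFm : F.Monic := hm.map _
  have hFi : Irreducible F := (Polynomial.Monic.irreducible_iff_irreducible_map_fraction_map
    (K := RatFunc k) hm).1 hirr
  have hFd : F.natDegree = Ψ.natDegree := hm.natDegree_map _
  haveI : Fact (Irreducible F) := ⟨hFi⟩
  have hder : derivative F ≠ 0 := by
    intro h
    have h1 : (derivative F).coeff (F.natDegree - 1) = 0 := by rw [h, coeff_zero]
    rw [coeff_derivative, Nat.sub_add_cancel (by omega), hFm.coeff_natDegree, one_mul] at h1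
    have h2 : ((F.natDegree : ℕ) : RatFunc k) = 0 := by
      have : ((F.natDegree - 1 : ℕ) : RatFunc k) + 1 = ((F.natDegree - 1 + 1 : ℕ) : RatFunc k) := by
        push_cast; ring
      rw [this, Nat.sub_add_cancel (by omega)] at h1
      exact h1
    have h3 : ((F.natDegree : ℕ) : k) = 0 := by
      have h4 : algebraMap k (RatFunc k) ((F.natDegree : ℕ) : k) = 0 := by
        rw [map_natCast]; exact h2
      exact (algebraMap k (RatFunc k)).injective (by rw [h4, map_zero])
    have h5 : ringChar k ∣ F.natDegree := (ringChar.spec k _).1 h3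
    rcases hp with hp | hp
    · rw [hp, zero_dvd_iff] at h5; omega
    · exact absurd (Nat.le_of_dvd (by omega) h5) (by omega)
  have hsepF : F.Separable := (separable_iff_derivative_ne_zero hFi).2 hder
  let L := AdjoinRoot F
  haveI : FiniteDimensional (RatFunc k) L := (AdjoinRoot.powerBasis' hFm).finite
  haveI : Algebra.IsSeparable (RatFunc k) L := by
    have h1 : IsSeparable (RatFunc k) (AdjoinRoot.root F) := by
      unfold IsSeparable
      rw [AdjoinRoot.minpoly_root hFi.ne_zero, hFm.leadingCoeff, inv_one, C_1, mul_one]
      exact hsepF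
    have h2 := IntermediateField.isSeparable_adjoin_simple_iff_isSeparable
      (F := RatFunc k) (E := L) (x := AdjoinRoot.root F)
    have h3 := h2.2 h1
    have h4 : IntermediateField.adjoin (RatFunc k) {AdjoinRoot.root F} = (⊤ : IntermediateField (RatFunc k) L) :=
      IntermediateField.adjoin_root_eq_top F
    rw [h4] at h3
    exact AlgEquiv.Algebra.isSeparable IntermediateField.topEquiv
  have hfin : finrank (RatFunc k) L = Ψ.natDegree := by
    rw [(AdjoinRoot.powerBasis' hFm).finrank, AdjoinRoot.powerBasis'_dim, hFd]
  haveI htf : Module.IsTorsionFree k[X] L := by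
    rw [Module.isTorsionFree_iff_algebraMap_injective,
      IsScalarTower.algebraMap_eq k[X] (RatFunc k) L]
    exact (algebraMap (RatFunc k) L).injective.comp (IsFractionRing.injective k[X] (RatFunc k))
  haveI hded : IsDedekindDomain (integralClosure k[X] L) :=
    integralClosure.isDedekindDomain k[X] (RatFunc k) L
  haveI hfree : Module.Free k[X] (integralClosure k[X] L) :=
    IsIntegralClosure.module_free k[X] (RatFunc k) L (integralClosure k[X] L)
  haveI hfinm : Module.Finite k[X] (integralClosure k[X] L) :=
    IsIntegralClosure.finite k[X] (RatFunc k) L (integralClosure k[X] L)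
  have hrank : finrank k[X] (integralClosure k[X] L) = Ψ.natDegree := by
    rw [IsIntegralClosure.rank k[X] (RatFunc k) L (integralClosure k[X] L), hfin]
  haveI hloc : IsLocalization (Algebra.algebraMapSubmonoid (integralClosure k[X] L)
      (nonZeroDivisors k[X])) L :=
    IsIntegralClosure.isLocalization k[X] (RatFunc k) L (integralClosure k[X] L)
  have hroot : aeval (AdjoinRoot.root F) Ψ = 0 := by
    have h1 : aeval (AdjoinRoot.root F) F = 0 := by
      rw [AdjoinRoot.aeval_eq, AdjoinRoot.mk_self]
    have h2 := aeval_map_algebraMap (RatFunc k) (AdjoinRoot.root F) Ψ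
    rw [← h2]
    exact h1
  have hint : IsIntegral k[X] (AdjoinRoot.root F) := ⟨Ψ, hm, by
    rw [← aeval_def]; exact hroot⟩
  let u : Basis (Fin Ψ.natDegree) k[X] (integralClosure k[X] L) :=
    Module.finBasisOfFinrankEq k[X] _ hrank
  exact ⟨{
    L := L
    O := integralClosure k[X] L
    emb := (algebraMap (integralClosure k[X] L) L)
    emb_inj := Subtype.val_injective
    emb_alg := fun p => by
      rw [← IsScalarTower.algebraMap_apply k[X] (integralClosure k[X] L) L,
        ← IsScalarTower.algebraMap_apply k[X] (RatFunc k) L]
    int := fun x => (IsIntegralClosure.isIntegral k[X] L x)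
    θ := ⟨AdjoinRoot.root F, hint⟩
    root := by
      apply Subtype.val_injective
      have h1 := aeval_algebraMap_apply L (⟨AdjoinRoot.root F, hint⟩ : integralClosure k[X] L) Ψ
      have h2 : algebraMap (integralClosure k[X] L) L ⟨AdjoinRoot.root F, hint⟩ =
        AdjoinRoot.root F := rfl
      rw [h2, hroot] at h1
      exact h1.symm
    b := (AdjoinRoot.powerBasis' hFm).basis.reindex (finCongr (by
      rw [AdjoinRoot.powerBasis'_dim, hFd]))
    hb := fun l => by
      rw [Basis.reindex_apply, PowerBasis.basis_eq_pow]
      rfl
    u := u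
    u' := u.localizationLocalization (RatFunc k) (nonZeroDivisors k[X]) L
    hu := fun l => by
      rw [Basis.localizationLocalization_apply] }⟩

end Pool.Agent.LGF
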