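import Pool.Agent.LGF.MkA
import Pool.Agent.LGF.Bg2
import Pool.Agent.LGF.Crv

/-!
# A curve from a lattice at infinity

The reduced basis of `exists_reduced` is a basis of `O`; its weights are between `0` and `n₀ + 1`.
-/

noncomputable section

namespace Pool.Agent.LGF

open Polynomial Pool.Agent.GSM Module

private theorem X_deg {k : Type} [Field k] : (RatFunc.X : RatFunc k) ∈ degLE k 1 := by
  have h := (poly_degLE (k := k) (p := Polynomial.X) (n := 1)).2
    (Or.inr (by rw [natDegree_X]; norm_num))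
  rwa [RatFunc.algebraMap_X] at h

private theorem Xinv_deg {k : Type} [Field k] : (RatFunc.X : RatFunc k)⁻¹ ∈ degLE k (-1) := by
  rw [mem_degLE]
  right
  rw [RatFunc.intDegree_inv, RatFunc.intDegree_X]

private theorem Xinv_not {k : Type} [Field k] {p : k[X]} {n : ℤ} (hn : n ≤ -2) :
    (RatFunc.X : RatFunc k)⁻¹ - algebraMap k[X] (RatFunc k) p ∉ degLE k n := by
  intro h
  have h1 : (RatFunc.X : RatFunc k)⁻¹ - algebraMap k[X] (RatFunc k) p ∈ degLE k (-2) :=
    degLE_mono hn h
  have h2 : algebraMap k[X] (RatFunc k) p ∈ degLE k (-1) := by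
    have h3 := (degLE k (-1)).sub_mem Xinv_deg (degLE_mono (by norm_num : (-2 : ℤ) ≤ -1) h1)
    rwa [sub_sub_cancel] at h3
  have h3 : p = 0 := by
    rcases poly_degLE.1 h2 with h4 | h4
    · exact h4
    · have : (0 : ℤ) ≤ p.natDegree := Int.natCast_nonneg _
      omega
  rw [h3, map_zero, sub_zero] at h1
  have h4 := degLE_mul X_deg h1
  rw [mul_inv_cancel₀ RatFunc.X_ne_zero, ← map_one (algebraMap k[X] (RatFunc k))] at h4
  rcases poly_degLE.1 h4 with h5 | h5
  · exact one_ne_zero h5
  · rw [natDegree_one] at h5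
    norm_num at h5

theorem mk_crv {k L O : Type} [Field k] [Field L] [Algebra (RatFunc k) L] [CommRing O]
    [IsDedekindDomain O] [Algebra k O] [Algebra k[X] O] [IsScalarTower k k[X] O] {d : ℕ}
    (hd : 0 < d) (emb : O →+* L) (hinj : Function.Injective emb)
    (halg : ∀ p : k[X], emb (algebraMap k[X] O p) = algebraMap (RatFunc k) L (algebraMap k[X] _ p))
    (u : Basis (Fin d) k[X] O) (u' : Basis (Fin d) (RatFunc k) L) (hu : ∀ l, u' l = emb (u l))
    (v : Basis (Fin d) (RatFunc k) L) (h1 : DLE v 1 0)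
    (hmul : ∀ x y m n, DLE v x m → DLE v y n → DLE v (x * y) (m + n)) (n₀ : ℕ)
    (hdec : ∀ y : L, ∃ (o : O) (w : L), y = emb o + w ∧ DLE v w n₀) :
    ∃ (a : Fin d → ℕ) (Y : Crv k d a) (e : Y.O ≃+* O), (∀ l, a l ≤ n₀ + 1) ∧
      (∀ p : k[X], e (algebraMap k[X] Y.O p) = algebraMap k[X] O p) ∧
      (∀ c : k, e (algebraMap k Y.O c) = algebraMap k O c) ∧
      ∀ (x : Y.O) (n : ℕ), Y.Le x n ↔ DLE v (emb (e x)) n := by
  classical
  obtain ⟨ω, P, Q, a, hP, hQ, hred⟩ := exists_reduced v u'
  have hsm : ∀ (p : k[X]) (x : O), emb (p • x) = algebraMap k[X] (RatFunc k) p • emb x := by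
    intro p x
    rw [Algebra.smul_def, map_mul, halg, Algebra.smul_def]
  -- the basis of `O`
  let ωO : Fin d → O := fun i => ∑ j, P i j • u j
  have hωO : ∀ i, emb (ωO i) = ω i := by
    intro i
    rw [hP i, map_sum]
    refine Finset.sum_congr rfl fun j _ => ?_
    rw [hsm, hu]
  have hQP : Q * P = 1 := by
    refine Matrix.ext fun i m => ?_
    have h3 : ∑ m, algebraMap k[X] (RatFunc k) ((Q * P) i m) • u' m = u' i := by
      conv_rhs => rw [hQ i]
      have h4 : ∀ j, ω j = ∑ m, algebraMap k[X] (RatFunc k) (P j m) • u' m := hP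
      simp_rw [h4, Finset.smul_sum, smul_smul, Matrix.mul_apply, map_sum, Finset.sum_smul, map_mul]
      rw [Finset.sum_comm]
    have h5 : (u'.repr (∑ m, algebraMap k[X] (RatFunc k) ((Q * P) i m) • u' m)) m =
        u'.repr (u' i) m := by rw [h3]
    rw [Basis.repr_sum_self, Basis.repr_self_apply] at h5
    rw [Matrix.one_apply]
    apply RatFunc.algebraMap_injective k
    rw [h5]
    by_cases him : i = m
    · rw [if_pos him, if_pos him, map_one]
    · rw [if_neg him, if_neg him, map_zero]
  have hPQ : P * Q = 1 := mul_eq_one_comm.1 hQP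
  have hli : LinearIndependent k[X] ωO := by
    rw [Fintype.linearIndependent_iff]
    intro g hg
    have h3 : ∑ j, (∑ i, g i * P i j) • u j = 0 := by
      rw [← hg]
      show ∑ j, (∑ i, g i * P i j) • u j = ∑ i, g i • ∑ j, P i j • u j
      simp_rw [Finset.smul_sum, Finset.sum_smul, smul_smul]
      rw [Finset.sum_comm]
    have h4 : Matrix.vecMul g P = 0 := by
      funext j
      exact (Fintype.linearIndependent_iff.1 u.linearIndependent) _ h3 j
    have h5 : g = 0 := by
      have h6 : Matrix.vecMul (Matrix.vecMul g P) Q = g := by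
        rw [Matrix.vecMul_vecMul, hPQ, Matrix.vecMul_one]
      rw [← h6, h4, Matrix.zero_vecMul]
    intro i
    rw [h5]
    rfl
  have hsp : ⊤ ≤ Submodule.span k[X] (Set.range ωO) := by
    rw [← u.span_eq, Submodule.span_le]
    rintro _ ⟨i, rfl⟩
    have h3 : u i = ∑ j, Q i j • ωO j := by
      apply hinj
      rw [map_sum, ← hu i]
      conv_lhs => rw [hQ i]
      refine Finset.sum_congr rfl fun j _ => ?_
      rw [hsm, hωO]
    rw [SetLike.mem_coe, h3]
    exact Submodule.sum_mem _ fun j _ => Submodule.smul_mem _ _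
      (Submodule.subset_span ⟨j, rfl⟩)
  let bO : Basis (Fin d) k[X] O := Basis.mk hli hsp
  have hbO : ∀ l, emb (bO l) = ω l := fun l => by
    rw [Basis.mk_apply, hωO]
  have hemb : ∀ x : O, emb x = ∑ l, algebraMap k[X] (RatFunc k) (bO.repr x l) • ω l := by
    intro x
    conv_lhs => rw [← bO.sum_repr x]
    rw [map_sum]
    refine Finset.sum_congr rfl fun l _ => ?_
    rw [hsm, hbO]
  have hD : ∀ (x : O) (n : ℤ), DLE v (emb x) n ↔
      ∀ l, bO.repr x l = 0 ∨ ((bO.repr x l).natDegree : ℤ) ≤ n - a l := by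
    intro x n
    rw [hemb x, hred]
    exact forall_congr' fun l => poly_degLE
  -- the upper bound
  have hup : ∀ l, a l ≤ n₀ + 1 := by
    intro l
    obtain ⟨o, w, how, hw⟩ := hdec ((RatFunc.X : RatFunc k)⁻¹ • ω l)
    have h3 : w = ∑ l', ((if l' = l then (RatFunc.X : RatFunc k)⁻¹ else 0) -
        algebraMap k[X] (RatFunc k) (bO.repr o l')) • ω l' := by
      simp_rw [sub_smul]
      rw [Finset.sum_sub_distrib, ← hemb o]
      simp only [ite_smul, zero_smul, Finset.sum_ite_eq', Finset.mem_univ, if_true]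
      rw [how]
      ring
    rw [h3, hred] at hw
    have h4 := hw l
    rw [if_pos rfl] at h4
    by_contra h5
    exact Xinv_not (by omega) h4
  -- the lower bound
  have hlo : ∀ l, 0 ≤ a l := by
    intro l
    by_contra hneg
    push Not at hneg
    have h3 : DLE v (emb (bO l)) (a l) := by
      rw [hD]
      intro l'
      rw [Basis.repr_self_apply]
      by_cases h : l = l'
      · right
        rw [if_pos h, natDegree_one, h]
        simp
      · left
        rw [if_neg h]
    have h4 : DLE v (emb (bO l)) (-1) := h3.mono (by omega)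
    have h5 : ∀ N : ℕ, DLE v (emb (bO l ^ N)) (-(N : ℤ)) := by
      intro N
      induction N with
      | zero =>
        rw [pow_zero, map_one]
        simpa using h1
      | succ N ih =>
        rw [pow_succ, map_mul]
        have h6 := hmul _ _ _ _ ih h4
        have h7 : -((N : ℤ)) + -1 = -((N + 1 : ℕ) : ℤ) := by
          push_cast
          ring
        rwa [h7] at h6
    have hne : bO l ≠ 0 := bO.ne_zero l
    set N : ℕ := 1 + ∑ l', (a l').natAbs with hN
    have h6 : bO l ^ N ≠ 0 := pow_ne_zero _ hne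
    obtain ⟨l', hl'⟩ : ∃ l', bO.repr (bO l ^ N) l' ≠ 0 := by
      by_contra hcon
      push Not at hcon
      apply h6
      apply bO.ext_elem
      intro i
      rw [hcon i, map_zero, Finsupp.zero_apply]
    have h7 := ((hD _ _).1 (h5 N) l').resolve_left hl'
    have h8 : (a l').natAbs ≤ ∑ l', (a l').natAbs :=
      Finset.single_le_sum (f := fun l' => (a l').natAbs) (fun _ _ => Nat.zero_le _)
        (Finset.mem_univ l')
    omega
  have hcast : ∀ l, (((a l).toNat : ℕ) : ℤ) = a l := fun l => Int.toNat_of_nonneg (hlo l)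
  have hN : ∀ (x : O) (n : ℕ), DLE v (emb x) n ↔
      ∀ l, bO.repr x l = 0 ∨ (bO.repr x l).natDegree + (a l).toNat ≤ n := by
    intro x n
    rw [hD]
    refine forall_congr' fun l => or_congr_right ?_
    have := hcast l
    omega
  let Y : Crv k d (fun l => (a l).toNat) :=
    { O := O
      ω := bO
      one_le := by
        have h3 := (hN 1 0).1 (by rw [map_one]; exact_mod_cast h1)
        exact h3
      mul_le := by
        intro x y m n hx hy
        refine (hN (x * y) (m + n)).1 ?_
        rw [map_mul]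
        push_cast
        exact hmul _ _ _ _ ((hN x m).2 hx) ((hN y n).2 hy) }
  refine ⟨fun l => (a l).toNat, Y, RingEquiv.refl O, ?_, fun _ => rfl, fun _ => rfl, ?_⟩
  · intro l
    have h3 := hup l
    have h4 := hcast l
    show (a l).toNat ≤ n₀ + 1
    omega
  · intro x n
    exact (hN x n).symm

end Pool.Agent.LGF
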