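import Pool.Agent.LGF.Bg1

/-!
# The basis `(X^{-e} θ)^l`, `l < d`

MODULE LGF-Pow. PLAN. `L` is a field over `k(X)` of degree `d`, generated by `θ` with
`θ^d + ∑_{j<d} ψ_j θ^j = 0`, `natDegree ψ_j ≤ e (d - j)`, and the powers `θ^l`, `l < d`, form a basis
`b`. Let `η = X^{-e} θ`, `v l = η^l = X^{-e l} θ^l` (`Basis.unitsSMul` or `Basis.isUnitSMul`).
* `pow_dle`: all powers `η^n` satisfy `DLE v (η^n) 0`: induction; for `n + 1`: `η * η^n`,
  `η^n = ∑ c_l v_l` with `c_l ∈ degLE 0`, `η v_l = v_(l+1)` for `l + 1 < d` and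
  `η v_(d-1) = η^d = - ∑_j X^{-e(d-j)} ψ_j v_j` with coefficients in `degLE 0`.
* `mul_dle`: `x y = ∑ x_l y_l' η^(l+l')`.
* `one_dle`: `1 = v 0` (`d > 0`).
* `theta_dle`: `θ = X^e η`.
* `decomp`: every `y : L` is `o + u` with `o` in the `k[X]`-span of the powers of `θ` and
  `DLE v u (e * d)`: coordinates of `y` in the basis `θ^l` are decomposed as polynomial plus
  `degLE (-1)` (`exists_decomp 0`), and `θ^l = X^{e l} v_l`.
-/

noncomputable section

namespace Pool.Agent.LGF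

open Polynomial Pool.Agent.GSM Module

variable {k : Type} [Field k] {L : Type} [Field L] [Algebra (RatFunc k) L] {d : ℕ}

/-- `θ` generates `L` and satisfies a monic equation of degree `d` with coefficients of weight
`≤ e (d - j)`. -/
structure Gen (b : Basis (Fin d) (RatFunc k) L) (θ : L) (e : ℕ) (ψ : ℕ → k[X]) : Prop where
  pos : 0 < d
  pow : ∀ l, b l = θ ^ (l : ℕ)
  deg : ∀ j, (ψ j).natDegree ≤ e * (d - j)
  eq : θ ^ d + ∑ j ∈ Finset.range d, algebraMap (RatFunc k) L (algebraMap k[X] (RatFunc k) (ψ j)) *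
    θ ^ j = 0

variable {b : Basis (Fin d) (RatFunc k) L} {θ : L} {e : ℕ} {ψ : ℕ → k[X]}

private theorem one_mem : (1 : RatFunc k) ∈ degLE k 0 := by
  right
  rw [RatFunc.intDegree_one]

private theorem zpow_mem (n : ℤ) : (RatFunc.X : RatFunc k) ^ n ∈ degLE k n := by
  have hX : (RatFunc.X : RatFunc k) ∈ degLE k 1 := Or.inr (le_of_eq RatFunc.intDegree_X)
  have hX' : (RatFunc.X : RatFunc k)⁻¹ ∈ degLE k (-1) := by
    right
    rw [RatFunc.intDegree_inv, RatFunc.intDegree_X]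
  induction n using Int.induction_on with
  | zero =>
    rw [zpow_zero]
    exact one_mem
  | succ i ih =>
    rw [zpow_add_one₀ RatFunc.X_ne_zero]
    exact degLE_mul ih hX
  | pred i ih =>
    rw [zpow_sub_one₀ RatFunc.X_ne_zero]
    exact degLE_mul ih hX'

private theorem dle_self (v : Basis (Fin d) (RatFunc k) L) (l : Fin d) : DLE v (v l) 0 := by
  intro j
  rw [Basis.repr_self, Finsupp.single_apply]
  split_ifs
  · exact one_mem
  · exact Submodule.zero_mem _

private theorem dle_sum (v : Basis (Fin d) (RatFunc k) L) {c : Fin d → RatFunc k} {x : Fin d → L} {m n : ℤ}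
    (hc : ∀ l, c l ∈ degLE k m) (hx : ∀ l, DLE v (x l) n) : DLE v (∑ l, c l • x l) (m + n) :=
  DLE.sum _ (fun l _ => DLE.smul (hc l) (hx l))

/-- the element `η` -/
private def et (θ : L) (e : ℕ) : L := ((RatFunc.X : RatFunc k) ^ (-(e : ℤ))) • θ

private theorem et_pow (θ : L) (e n : ℕ) : (et (k := k) θ e) ^ n =
    ((RatFunc.X : RatFunc k) ^ (-(e * n : ℤ))) • θ ^ n := by
  rw [et, _root_.smul_pow, ← zpow_natCast, ← zpow_mul, neg_mul]

private theorem eq_et_pow (θ : L) (e n : ℕ) : θ ^ n =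
    ((RatFunc.X : RatFunc k) ^ (e * n : ℤ)) • (et (k := k) θ e) ^ n := by
  rw [et_pow, smul_smul, ← zpow_add₀ RatFunc.X_ne_zero, add_neg_cancel, zpow_zero, one_smul]

private theorem et_d (h : Gen b θ e ψ) : (et (k := k) θ e) ^ d =
    ∑ j ∈ Finset.range d, (-(((RatFunc.X : RatFunc k) ^ (-(e * (d - j : ℕ) : ℤ))) *
      algebraMap k[X] (RatFunc k) (ψ j))) • (et (k := k) θ e) ^ j := by
  have h1 : θ ^ d = - ∑ j ∈ Finset.range d, (algebraMap k[X] (RatFunc k) (ψ j)) • θ ^ j := by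
    rw [eq_neg_iff_add_eq_zero, ← h.eq]
    congr 1
    refine Finset.sum_congr rfl (fun j _ => ?_)
    rw [Algebra.smul_def]
  rw [et_pow, h1, smul_neg, Finset.smul_sum, ← Finset.sum_neg_distrib]
  refine Finset.sum_congr rfl (fun j hj => ?_)
  have hj' : j < d := Finset.mem_range.mp hj
  rw [eq_et_pow (k := k) θ e j, smul_smul, smul_smul, neg_smul]
  congr 2
  have h2 : (RatFunc.X : RatFunc k) ^ (-(e * (d - j : ℕ) : ℤ)) =
      (RatFunc.X : RatFunc k) ^ (-(e * d : ℤ)) * (RatFunc.X : RatFunc k) ^ (e * j : ℤ) := by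
    rw [← zpow_add₀ RatFunc.X_ne_zero]
    congr 1
    rw [Nat.cast_sub hj'.le]
    ring
  rw [h2]
  ring

theorem Gen.exists_basis (h : Gen b θ e ψ) : ∃ v : Basis (Fin d) (RatFunc k) L,
    (∀ l, v l = ((RatFunc.X : RatFunc k) ^ (-(e * (l : ℕ) : ℤ))) • θ ^ (l : ℕ)) ∧
    DLE v 1 0 ∧ DLE v θ e ∧
    (∀ x y m n, DLE v x m → DLE v y n → DLE v (x * y) (m + n)) ∧
    ∀ y : L, ∃ (p : Fin d → k[X]) (u : L),
      y = ∑ l, algebraMap (RatFunc k) L (algebraMap k[X] (RatFunc k) (p l)) * θ ^ (l : ℕ) + u ∧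
        DLE v u (e * d) := by
  let w : Fin d → (RatFunc k)ˣ := fun l =>
    Units.mk0 ((RatFunc.X : RatFunc k) ^ (-(e * (l : ℕ) : ℤ))) (zpow_ne_zero _ RatFunc.X_ne_zero)
  let v : Basis (Fin d) (RatFunc k) L := b.unitsSMul w
  have hv : ∀ l, v l = ((RatFunc.X : RatFunc k) ^ (-(e * (l : ℕ) : ℤ))) • θ ^ (l : ℕ) := by
    intro l
    show b.unitsSMul w l = _
    rw [Basis.unitsSMul_apply, h.pow l, Units.smul_def]
    rfl
  have hve : ∀ l : Fin d, v l = (et (k := k) θ e) ^ (l : ℕ) := fun l => by rw [hv, et_pow]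
  have hd : DLE v ((et (k := k) θ e) ^ d) 0 := by
    rw [et_d h]
    refine DLE.sum _ (fun j hj => ?_)
    have hj' : j < d := Finset.mem_range.mp hj
    have h1 : (et (k := k) θ e) ^ j = v ⟨j, hj'⟩ := (hve ⟨j, hj'⟩).symm
    rw [h1]
    have h2 : -(((RatFunc.X : RatFunc k) ^ (-(e * (d - j : ℕ) : ℤ))) *
        algebraMap k[X] (RatFunc k) (ψ j)) ∈ degLE k 0 := by
      refine Submodule.neg_mem _ ?_
      have h3 := degLE_mul (zpow_mem (k := k) (-(e * (d - j : ℕ) : ℤ))) (poly_mem_degLE (ψ j))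
      refine degLE_mono ?_ h3
      have h4 : ((ψ j).natDegree : ℤ) ≤ (e * (d - j : ℕ) : ℤ) := by exact_mod_cast h.deg j
      linarith
    have h5 := DLE.smul h2 (dle_self v ⟨j, hj'⟩)
    rwa [add_zero] at h5
  have hsucc : ∀ l : Fin d, DLE v ((et (k := k) θ e) * v l) 0 := by
    intro l
    rw [hve, ← pow_succ']
    rcases Nat.lt_or_ge ((l : ℕ) + 1) d with h1 | h1
    · have h2 : (et (k := k) θ e) ^ ((l : ℕ) + 1) = v ⟨(l : ℕ) + 1, h1⟩ := (hve ⟨(l : ℕ) + 1, h1⟩).symm
      rw [h2]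
      exact dle_self v _
    · have h2 : (l : ℕ) + 1 = d := le_antisymm l.2 h1
      rw [h2]
      exact hd
  have hmul1 : ∀ (x : L) (n : ℤ), DLE v x n → DLE v ((et (k := k) θ e) * x) n := by
    intro x n hx
    have h1 : (et (k := k) θ e) * x = ∑ l, v.repr x l • ((et (k := k) θ e) * v l) := by
      conv_lhs => rw [← v.sum_repr x]
      rw [Finset.mul_sum]
      refine Finset.sum_congr rfl (fun l _ => ?_)
      rw [mul_smul_comm]
    rw [h1]
    have h2 := dle_sum v (m := n) (n := 0) hx hsucc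
    rwa [add_zero] at h2
  have hmulj : ∀ (j : ℕ) (x : L) (n : ℤ), DLE v x n → DLE v ((et (k := k) θ e) ^ j * x) n := by
    intro j
    induction j with
    | zero =>
      intro x n hx
      rwa [pow_zero, one_mul]
    | succ j ih =>
      intro x n hx
      rw [pow_succ', mul_assoc]
      exact hmul1 _ _ (ih x n hx)
  have h1 : DLE v 1 0 := by
    have h2 : (1 : L) = v ⟨0, h.pos⟩ := by
      rw [hve]
      simp
    rw [h2]
    exact dle_self v _
  refine ⟨v, hv, h1, ?_, ?_, ?_⟩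
  · have h2 := hmul1 1 0 h1
    rw [mul_one] at h2
    have h3 := DLE.smul (zpow_mem (k := k) (e : ℤ)) h2
    have h4 : ((RatFunc.X : RatFunc k) ^ (e : ℤ)) • (et (k := k) θ e) = θ := by
      rw [et, smul_smul, ← zpow_add₀ RatFunc.X_ne_zero, add_neg_cancel, zpow_zero, one_smul]
    rwa [h4, add_zero] at h3
  · intro x y m n hx hy
    have h2 : x * y = ∑ l, v.repr x l • ((et (k := k) θ e) ^ (l : ℕ) * y) := by
      conv_lhs => rw [← v.sum_repr x]
      rw [Finset.sum_mul]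
      refine Finset.sum_congr rfl (fun l _ => ?_)
      rw [smul_mul_assoc, hve]
    rw [h2]
    exact dle_sum v hx (fun l => hmulj _ y n hy)
  · intro y
    have hdec : ∀ l : Fin d, ∃ (p : k[X]) (r : RatFunc k), r ∈ degLE k (-1) ∧
        b.repr y l = algebraMap k[X] (RatFunc k) p + r := by
      intro l
      obtain ⟨p, c, r, hr, he⟩ := exists_decomp 0 (b.repr y l)
      refine ⟨p, r, ?_, ?_⟩
      · simpa using hr
      · simpa using he
    choose p r hr hpr using hdec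
    refine ⟨p, ∑ l, r l • θ ^ (l : ℕ), ?_, ?_⟩
    · conv_lhs => rw [← b.sum_repr y]
      rw [← Finset.sum_add_distrib]
      refine Finset.sum_congr rfl (fun l _ => ?_)
      rw [hpr l, add_smul, h.pow l, Algebra.smul_def]
    · refine DLE.sum _ (fun l _ => ?_)
      have h2 : r l • θ ^ (l : ℕ) = (r l * (RatFunc.X : RatFunc k) ^ (e * (l : ℕ) : ℤ)) • v l := by
        rw [hve, mul_smul, ← eq_et_pow]
      rw [h2]
      have h3 := DLE.smul (degLE_mul (hr l) (zpow_mem (k := k) (e * (l : ℕ) : ℤ))) (dle_self v l)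
      refine DLE.mono ?_ h3
      have h4 : (e * (l : ℕ) : ℤ) ≤ (e * d : ℤ) := by
        have := Nat.mul_le_mul_left e l.2.le
        exact_mod_cast this
      linarith

end Pool.Agent.LGF
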