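import Pool.Agent.LGF.Crv
import Pool.Agent.LGF.Div

/-!
# Weights

Elementary facts about the weights, from the coordinates `ω.repr x l`.
-/

noncomputable section

namespace Pool.Agent.LGF

open Polynomial Module Matrix

namespace Crv

variable {k : Type} [Field k] {d : ℕ} {a : Fin d → ℕ} {Y : Crv k d a} {x y f g : Y.O} {m n j : ℕ}

private theorem pl_add {p q : k[X]} {c n : ℕ} (hp : p = 0 ∨ p.natDegree + c ≤ n)
    (hq : q = 0 ∨ q.natDegree + c ≤ n) : p + q = 0 ∨ (p + q).natDegree + c ≤ n := by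
  rcases hp with rfl | hp
  · rw [zero_add]
    exact hq
  rcases hq with rfl | hq
  · rw [add_zero]
    exact Or.inr hp
  right
  have h := natDegree_add_le p q
  rcases max_cases p.natDegree q.natDegree with h1 | h1 <;> omega

theorem le_add (hx : Y.Le x n) (hy : Y.Le y n) : Y.Le (x + y) n := by
  intro l
  rw [map_add, Finsupp.add_apply]
  exact pl_add (hx l) (hy l)

theorem lt_add (hx : Y.Lt x n) (hy : Y.Lt y n) : Y.Lt (x + y) n := by
  intro l
  rw [map_add, Finsupp.add_apply]
  rcases hx l with h1 | h1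
  · rw [h1, zero_add]
    exact hy l
  · have h2 := pl_add (Or.inr h1) ((hy l).imp_right Nat.succ_le_of_lt) (p := Y.ω.repr x l)
      (q := Y.ω.repr y l) (c := a l + 1) (n := n)
    rcases h2 with h2 | h2
    · exact Or.inl h2
    · right
      omega

theorem lt_neg (hx : Y.Lt x n) : Y.Lt (-x) n := by
  intro l
  rw [map_neg, Finsupp.neg_apply, natDegree_neg, neg_eq_zero]
  exact hx l

theorem le_mono (h : m ≤ n) (hx : Y.Le x m) : Y.Le x n :=
  fun l => (hx l).imp_right fun h1 => h1.trans h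

theorem lt_mono (h : m ≤ n) (hx : Y.Lt x m) : Y.Lt x n :=
  fun l => (hx l).imp_right fun h1 => h1.trans_le h

theorem le_iff_lt : Y.Le x n ↔ Y.Lt x (n + 1) :=
  ⟨fun h l => (h l).imp_right Nat.lt_succ_of_le, fun h l => (h l).imp_right Nat.le_of_lt_succ⟩

theorem lt_zero_iff : Y.Lt x 0 ↔ x = 0 := by
  constructor
  · intro h
    apply Y.ω.ext_elem
    intro l
    rw [map_zero, Finsupp.zero_apply]
    exact (h l).resolve_right (Nat.not_lt_zero _)
  · rintro rfl l
    left
    rw [map_zero, Finsupp.zero_apply]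

theorem exists_le (x : Y.O) : ∃ n, Y.Le x n := by
  refine ⟨∑ l, ((Y.ω.repr x l).natDegree + a l), fun l => Or.inr ?_⟩
  exact Finset.single_le_sum (f := fun l => (Y.ω.repr x l).natDegree + a l)
    (fun _ _ => Nat.zero_le _) (Finset.mem_univ l)

private theorem repr_t_mul (l : Fin d) : Y.ω.repr (Y.t ^ j * x) l = X ^ j * Y.ω.repr x l := by
  have h : Y.t ^ j * x = (X ^ j : k[X]) • x := by
    rw [Algebra.smul_def, map_pow]
    rfl
  rw [h, map_smul, Finsupp.smul_apply, smul_eq_mul]

theorem lt_t_mul : Y.Lt (Y.t ^ j * x) (n + j) ↔ Y.Lt x n := by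
  refine forall_congr' fun l => ?_
  rw [repr_t_mul]
  by_cases h : Y.ω.repr x l = 0
  · rw [h, mul_zero]
    exact ⟨fun _ => Or.inl rfl, fun _ => Or.inl rfl⟩
  · have h1 : (X ^ j : k[X]) ≠ 0 := pow_ne_zero _ X_ne_zero
    rw [natDegree_mul h1 h, natDegree_X_pow]
    have h2 : X ^ j * Y.ω.repr x l ≠ 0 := mul_ne_zero h1 h
    constructor
    · rintro (h3 | h3)
      · exact absurd h3 h2
      · right
        omega
    · rintro (h3 | h3)
      · exact absurd h3 h
      · right
        omega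

theorem le_t_mul : Y.Le (Y.t ^ j * x) (n + j) ↔ Y.Le x n := by
  rw [le_iff_lt, le_iff_lt, show n + j + 1 = n + 1 + j by omega, lt_t_mul]

theorem le_t : Y.Le (Y.t ^ m) m := by
  have h := (le_t_mul (Y := Y) (j := m) (x := 1) (n := 0)).2 Y.one_le
  rwa [mul_one, zero_add] at h

theorem not_lt_t : ¬ Y.Lt (Y.t ^ m) m := by
  intro h
  have h1 : Y.Lt (Y.t ^ m * 1) (0 + m) := by
    rw [mul_one, zero_add]
    exact h
  exact one_ne_zero (lt_zero_iff.1 (lt_t_mul.1 h1))

theorem le_mul (hx : Y.Le x m) (hy : Y.Le y n) : Y.Le (x * y) (m + n) := Y.mul_le x y m n hx hy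

theorem lt_mul (hx : Y.Le x m) (hy : Y.Lt y n) : Y.Lt (x * y) (m + n) := by
  rcases n with _ | n
  · rw [lt_zero_iff.1 hy, mul_zero]
    intro l
    left
    rw [map_zero, Finsupp.zero_apply]
  · exact le_iff_lt.1 (le_mul hx (le_iff_lt.2 hy))

theorem le_smul (p : k[X]) (hx : Y.Le x n) : Y.Le (p • x) (p.natDegree + n) := by
  intro l
  rw [map_smul, Finsupp.smul_apply, smul_eq_mul]
  rcases hx l with h | h
  · left
    rw [h, mul_zero]
  · right
    have h1 := natDegree_mul_le (p := p) (q := Y.ω.repr x l)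
    omega

theorem le_basis (l : Fin d) : Y.Le (Y.ω l) (a l) := by
  intro l'
  rw [Basis.repr_self_apply]
  by_cases h : l = l'
  · right
    rw [if_pos h, natDegree_one, zero_add, h]
  · left
    rw [if_neg h]

theorem wtM_mat (hx : Y.Lt x m) : WtM a m (Y.mat x) := by
  intro l' l
  have h := lt_mul (le_basis l) hx l'
  have h1 : Y.mat x l' l = Y.ω.repr (Y.ω l * x) l' := by
    unfold mat
    rw [Algebra.leftMulMatrix_eq_repr_mul, mul_comm]
  rw [h1, Nat.add_comm m (a l)]
  exact h

theorem d_pos (Y : Crv k d a) : 0 < d := by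
  rcases Nat.eq_zero_or_pos d with h | h
  · exfalso
    subst h
    have h1 : (1 : Y.O) = 0 := Y.ω.ext_elem fun i => i.elim0
    exact one_ne_zero h1
  · exact h

theorem le_algebraMap (c : k) : Y.Le (algebraMap k Y.O c) 0 := by
  have h : algebraMap k Y.O c = (Polynomial.C c) • (1 : Y.O) := by
    rw [Algebra.smul_def, mul_one, IsScalarTower.algebraMap_apply k k[X] Y.O c]
    rfl
  rw [h]
  have h1 := le_smul (Y := Y) (Polynomial.C c) (x := 1) (n := 0) Y.one_le
  rwa [natDegree_C, zero_add] at h1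

end Crv

end Pool.Agent.LGF
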