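import Pool.Agent.LGF.MkB
import Pool.Agent.LGF.Pow
import Pool.Agent.LGF.Fac
import Pool.Agent.LGF.ColM
import Pool.Agent.LGF.Wgt

/-!
# The curve through a point

MODULE LGF-MkC. PLAN. `exists_factor` gives `Ψ`; `exists_LF` the rings; `Gen` holds with
`ψ j = Ψ.coeff j` (`root` mapped to `L`); `Gen.exists_basis` gives `v`, and `mk_crv` (with
`n₀ = e * natDegree Ψ`) the curve `Y`; transport `θ` by `e.symm`. `aeval θ Φ = 0` because `Ψ ∣ Φ`.
`Le θ e` from `DLE v θ e`.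
* `exists_point_over`: the kernel of `ev : k[X][Y] → O`, `Y ↦ θ`, is `(Ψ)`: if `q(θ) = 0` divide by the monic
  `Ψ`: `q = Ψ s + r`, `deg r < deg Ψ`, `r(θ) = 0` in `L`, where the powers `θ^l` are independent,
  so `r = 0`. Hence evaluation at `(t₀, θ₀)` factors through the image `B ⊆ O` of `ev`; its kernel in `B` is
  a maximal ideal; `O` is integral over `B` (`int`), so there is a maximal ideal `𝔭` of `O` over it
  (`Ideal.exists_ideal_over_maximal_of_isIntegral`). It contains `t - t₀`, `θ - θ₀`.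
* Colengths: `t - t₀` is `Nrm 1`-like: `O / (t - t₀)` has dimension `d` over `k`
  (`O / (X - t₀) O = (k[X]/(X - t₀))^d`; or `col_span_le`, or directly from the basis), so `𝔭` has colength
  `N ≤ d`, and `N > 0` since `𝔭 ≠ ⊤`. The same for `𝔮 ∋ t`: `t` is not a unit (its quotient has dimension
  `d > 0`), take a maximal ideal containing it.
-/

noncomputable section

namespace Pool.Agent.LGF

open Polynomial Pool.Agent.GSM Module

private theorem col_small {k : Type} [Field k] {d : ℕ} {a : Fin d → ℕ} (Y : Crv k d a) (J : Ideal Y.O) (c : k)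
    (hJ : J ≠ ⊤) (hc : Y.t - algebraMap k Y.O c ∈ J) : ∃ N, Y.Col J N ∧ 0 < N ∧ N ≤ d := by
  let f : (Fin d → k) →ₗ[k] (Y.O ⧸ J) :=
    Fintype.linearCombination k (fun l => Ideal.Quotient.mk J (Y.ω l))
  have hsm : ∀ (c' : k) (y : Y.O), c' • (Ideal.Quotient.mk J y) =
      Ideal.Quotient.mk J (algebraMap k Y.O c' * y) := by
    intro c' y
    rw [← Algebra.smul_def]
    rfl
  have hf : Function.Surjective f := by
    intro z
    obtain ⟨x, rfl⟩ := Ideal.Quotient.mk_surjective z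
    refine ⟨fun l => (Y.ω.repr x l).eval c, ?_⟩
    have h1 : f (fun l => (Y.ω.repr x l).eval c) =
        ∑ l, ((Y.ω.repr x l).eval c) • (Ideal.Quotient.mk J (Y.ω l)) :=
      Fintype.linearCombination_apply _ _ _
    have h2 : x = ∑ l, algebraMap k[X] Y.O (Y.ω.repr x l) * Y.ω l := by
      have h3 := Y.ω.sum_repr x
      simp only [Algebra.smul_def] at h3
      exact h3.symm
    rw [h1]
    nth_rw 2 [h2]
    rw [map_sum]
    refine Finset.sum_congr rfl fun l _ => ?_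
    rw [hsm, Ideal.Quotient.eq, ← sub_mul]
    refine J.mul_mem_right _ ?_
    obtain ⟨q, hq⟩ := X_sub_C_dvd_sub_C_eval (p := Y.ω.repr x l) (a := c)
    have h4 : algebraMap k Y.O ((Y.ω.repr x l).eval c) - algebraMap k[X] Y.O (Y.ω.repr x l) =
        -((Y.t - algebraMap k Y.O c) * algebraMap k[X] Y.O q) := by
      have h5 := congrArg (algebraMap k[X] Y.O) hq
      rw [map_sub, map_mul, map_sub] at h5
      have h6 : ∀ c' : k, algebraMap k[X] Y.O (C c') = algebraMap k Y.O c' := fun c' =>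
        (IsScalarTower.algebraMap_apply k k[X] Y.O c').symm
      rw [h6, h6] at h5
      have h7 : Y.t = algebraMap k[X] Y.O X := rfl
      rw [h7, ← h5]
      ring
    rw [h4]
    exact J.neg_mem (J.mul_mem_right _ hc)
  have hfin : Module.Finite k (Y.O ⧸ J) := Module.Finite.of_surjective f hf
  have hnt : Nontrivial (Y.O ⧸ J) := Ideal.Quotient.nontrivial_iff.mpr hJ
  refine ⟨finrank k (Y.O ⧸ J), ⟨hfin, rfl⟩, finrank_pos, ?_⟩
  have h1 := LinearMap.finrank_le_finrank_of_surjective hf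
  rwa [finrank_fin_fun] at h1

private theorem t_not_unit {k : Type} [Field k] {d : ℕ} {a : Fin d → ℕ} (Y : Crv k d a) : ¬ IsUnit Y.t := by
  intro h
  obtain ⟨s, hs⟩ := h.exists_right_inv
  have hd : 0 < d := Y.d_pos
  have h1 : Y.ω ⟨0, hd⟩ = (X : k[X]) • (s * Y.ω ⟨0, hd⟩) := by
    rw [Algebra.smul_def]
    have h2 : algebraMap k[X] Y.O X = Y.t := rfl
    rw [h2, ← mul_assoc, hs, one_mul]
  have h2 := congrArg (fun y => Y.ω.repr y ⟨0, hd⟩) h1
  simp only [map_smul, Finsupp.smul_apply, smul_eq_mul, Basis.repr_self, Finsupp.single_eq_same] at h2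
  exact not_isUnit_X (IsUnit.of_mul_eq_one _ h2.symm)

/-- a maximal ideal over the point -/
private theorem point_over {k O : Type} [Field k] [CommRing O] [Algebra k O] [Algebra k[X] O]
    [IsScalarTower k k[X] O] (hint : ∀ x : O, IsIntegral k[X] x) (θ : O) (Ψ : k[X][X])
    (hker : ∀ q : k[X][X], aeval θ q = 0 → Ψ ∣ q) (t₀ θ₀ : k) (hev : (Ψ.map (evalRingHom t₀)).eval θ₀ = 0) :
    ∃ 𝔭 : Ideal O, 𝔭.IsMaximal ∧ algebraMap k[X] O X - algebraMap k O t₀ ∈ 𝔭 ∧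
      θ - algebraMap k O θ₀ ∈ 𝔭 := by
  let g : k[X][X] →+* k := eval₂RingHom (evalRingHom t₀) θ₀
  have hg : ∀ q, g q = (q.map (evalRingHom t₀)).eval θ₀ := fun q => (eval_map _ _).symm
  have hgs : Function.Surjective g := by
    intro c
    refine ⟨C (C c), ?_⟩
    rw [hg, map_C, eval_C, coe_evalRingHom, eval_C]
  letI : Algebra k[X][X] O := (aeval θ : k[X][X] →ₐ[k[X]] O).toRingHom.toAlgebra
  have halg : ∀ q : k[X][X], algebraMap k[X][X] O q = aeval θ q := fun q => rfl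
  haveI : IsScalarTower k[X] k[X][X] O := IsScalarTower.of_algebraMap_eq fun p => by
    rw [halg]
    exact (aeval_C θ p).symm
  haveI : Algebra.IsIntegral k[X][X] O := ⟨fun x => (hint x).tower_top⟩
  haveI : (RingHom.ker g).IsMaximal := RingHom.ker_isMaximal_of_surjective g hgs
  obtain ⟨Q, hQ, hQ'⟩ := Ideal.exists_ideal_over_maximal_of_isIntegral (S := O) (RingHom.ker g) (by
    intro q hq
    rw [RingHom.mem_ker, halg] at hq
    obtain ⟨r, hr⟩ := hker q hq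
    rw [RingHom.mem_ker, hr, map_mul, hg Ψ, hev, zero_mul])
  have hmem : ∀ q : k[X][X], g q = 0 → aeval θ q ∈ Q := by
    intro q hq
    have h1 : q ∈ Q.comap (algebraMap k[X][X] O) := by
      rw [hQ', RingHom.mem_ker]
      exact hq
    exact h1
  have hC : ∀ c : k, algebraMap k[X] O (C c) = algebraMap k O c := fun c =>
    (IsScalarTower.algebraMap_apply k k[X] O c).symm
  refine ⟨Q, hQ, ?_, ?_⟩
  · have h1 := hmem (C (X - C t₀)) (by
      rw [hg, map_C, eval_C, coe_evalRingHom, eval_sub, eval_X, eval_C, sub_self])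
    rw [aeval_C, map_sub, hC] at h1
    exact h1
  · have h1 := hmem (X - C (C θ₀)) (by
      rw [hg, Polynomial.map_sub, map_X, map_C, eval_sub, eval_X, eval_C, coe_evalRingHom, eval_C, sub_self])
    rw [map_sub, aeval_X, aeval_C, hC] at h1
    exact h1

private theorem ker_LF {k : Type} [Field k] {Ψ : k[X][X]} (hm : Ψ.Monic) (h0 : 0 < Ψ.natDegree) (F : LF k Ψ)
    (q : k[X][X]) (hq : aeval F.θ q = 0) : Ψ ∣ q := by
  rw [← modByMonic_eq_zero_iff_dvd hm]
  obtain ⟨r, hr⟩ : ∃ r, r = q %ₘ Ψ := ⟨_, rfl⟩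
  rw [← hr]
  have h1 : aeval F.θ r = 0 := by
    have h2 := congrArg (aeval F.θ) (modByMonic_add_div q Ψ)
    rw [map_add, map_mul, F.root, zero_mul, add_zero, hq, ← hr] at h2
    exact h2
  have hdeg : r.natDegree < Ψ.natDegree := by
    rw [hr]
    refine natDegree_modByMonic_lt q hm ?_
    intro h2
    rw [h2, natDegree_one] at h0
    exact lt_irrefl _ h0
  have h2 := congrArg F.emb h1
  rw [aeval_eq_sum_range' hdeg, map_sum, map_zero, Finset.sum_range] at h2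
  have h3 : ∀ l : Fin Ψ.natDegree, F.emb (r.coeff (l : ℕ) • F.θ ^ (l : ℕ)) =
      (algebraMap k[X] (RatFunc k) (r.coeff (l : ℕ))) • F.b l := by
    intro l
    rw [Algebra.smul_def, Algebra.smul_def, map_mul, map_pow, F.emb_alg, F.hb]
  simp only [h3] at h2
  have h4 := Fintype.linearIndependent_iff.1 F.b.linearIndependent
    (fun l => algebraMap k[X] (RatFunc k) (r.coeff (l : ℕ))) h2
  ext1 n
  rw [coeff_zero]
  by_cases hn : n < Ψ.natDegree
  · have h5 := h4 ⟨n, hn⟩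
    exact (map_eq_zero_iff _ (IsFractionRing.injective k[X] (RatFunc k))).1 h5
  · exact coeff_eq_zero_of_natDegree_lt (lt_of_lt_of_le hdeg (not_lt.1 hn))

theorem exists_crv {k : Type} [Field k] (Φ : k[X][X]) (hΦ : Φ.Monic) (D e : ℕ)
    (hD : Φ.natDegree = D) (hD0 : 0 < D) (hw : ∀ j, (Φ.coeff j).natDegree ≤ e * (D - j))
    (hp : ringChar k = 0 ∨ D < ringChar k) (t₀ θ₀ : k)
    (h₀ : (Φ.map (evalRingHom t₀)).eval θ₀ = 0) :
    ∃ (d : ℕ) (a : Fin d → ℕ) (Y : Crv k d a) (θ : Y.O) (𝔭 𝔮 : Ideal Y.O) (Np Nq : ℕ),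
      d ≤ D ∧ (∀ l, a l ≤ e * D + 1) ∧ (∀ x : Y.O, IsIntegral k[X] x) ∧ aeval θ Φ = 0 ∧ Y.Le θ e ∧
      𝔭.IsMaximal ∧ Y.t - algebraMap k Y.O t₀ ∈ 𝔭 ∧ θ - algebraMap k Y.O θ₀ ∈ 𝔭 ∧
      𝔮.IsMaximal ∧ Y.t ∈ 𝔮 ∧ Y.Col 𝔭 Np ∧ 0 < Np ∧ Np ≤ D ∧ Y.Col 𝔮 Nq ∧ 0 < Nq ∧ Nq ≤ D := by
  obtain ⟨Ψ, hΨm, hirr, hdvd, hpos, hle, hwt, hev⟩ := exists_factor Φ hΦ D e hD hD0 hw t₀ θ₀ h₀
  obtain ⟨F⟩ := exists_LF Ψ hΨm hirr hpos (hp.imp_right fun h => lt_of_le_of_lt hle h)
  have hG : Gen F.b (F.emb F.θ) e (fun j => Ψ.coeff j) := by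
    refine ⟨hpos, F.hb, hwt, ?_⟩
    have h1 := congrArg F.emb F.root
    rw [aeval_eq_sum_range, map_sum, map_zero, Finset.sum_range_succ, hΨm.coeff_natDegree, one_smul,
      map_pow, add_comm] at h1
    rw [← h1]
    congr 1
    refine Finset.sum_congr rfl fun j _ => ?_
    rw [Algebra.smul_def, map_mul, map_pow, F.emb_alg]
  obtain ⟨v, -, hv1, hvθ, hvm, hvd⟩ := hG.exists_basis
  obtain ⟨a, Y, E, ha, hE, hEk, hELe⟩ := mk_crv hpos F.emb F.emb_inj F.emb_alg F.u F.u' F.hu v hv1 hvm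
    (e * Ψ.natDegree) (by
      intro y
      obtain ⟨p, w, h1, h2⟩ := hvd y
      refine ⟨∑ l, algebraMap k[X] F.O (p l) * F.θ ^ (l : ℕ), w, ?_, ?_⟩
      · rw [h1, map_sum]
        congr 1
        refine Finset.sum_congr rfl fun l _ => ?_
        rw [map_mul, map_pow, F.emb_alg]
      · push_cast
        exact h2)
  obtain ⟨A, hA⟩ : ∃ A : Y.O ≃ₐ[k[X]] F.O, ∀ x, A x = E x := ⟨AlgEquiv.ofRingEquiv (f := E) hE, fun _ => rfl⟩
  have hint : ∀ x : Y.O, IsIntegral k[X] x := by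
    intro x
    have h1 := (F.int (A x)).map A.symm
    rwa [AlgEquiv.symm_apply_apply] at h1
  have hθA : A (A.symm F.θ) = F.θ := A.apply_symm_apply _
  have haev : ∀ q : k[X][X], aeval (A.symm F.θ) q = A.symm (aeval F.θ q) := fun q =>
    aeval_algHom_apply A.symm F.θ q
  have hker : ∀ q : k[X][X], aeval (A.symm F.θ) q = 0 → Ψ ∣ q := by
    intro q hq
    rw [haev] at hq
    exact ker_LF hΨm hpos F q ((map_eq_zero_iff _ A.symm.injective).1 hq)
  obtain ⟨𝔭, hpmax, hpt, hpθ⟩ := point_over hint (A.symm F.θ) Ψ hker t₀ θ₀ hev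
  obtain ⟨𝔮, hqmax, hqle⟩ := Ideal.exists_le_maximal (Ideal.span {Y.t}) (by
    intro h
    exact t_not_unit Y (Ideal.span_singleton_eq_top.1 h))
  have hqt : Y.t ∈ 𝔮 := hqle (Ideal.mem_span_singleton_self _)
  obtain ⟨Np, hNp, hNp0, hNpd⟩ := col_small Y 𝔭 t₀ hpmax.ne_top hpt
  obtain ⟨Nq, hNq, hNq0, hNqd⟩ := col_small Y 𝔮 0 hqmax.ne_top (by rw [map_zero, sub_zero]; exact hqt)
  refine ⟨Ψ.natDegree, a, Y, A.symm F.θ, 𝔭, 𝔮, Np, Nq, hle, ?_, hint, ?_, ?_, hpmax, hpt, hpθ, hqmax, hqt,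
    hNp, hNp0, hNpd.trans hle, hNq, hNq0, hNqd.trans hle⟩
  · intro l
    exact (ha l).trans (Nat.add_le_add_right (Nat.mul_le_mul_left e hle) 1)
  · obtain ⟨Φ', hΦ'⟩ := hdvd
    rw [haev, hΦ', map_mul, F.root, zero_mul, map_zero]
  · rw [hELe, ← hA, hθA]
    exact hvθ

end Pool.Agent.LGF
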