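import Pool.Agent.LGF.NDef

/-!
# LGF-NCho: two inequalities for binomial coefficients
-/

namespace Pool.Agent.LGF.N

theorem choose_mul_le (n D B : ℕ) (hD : 1 ≤ D) :
    (D * B + n).choose n ≤ D ^ n * (B + n).choose n := by
  induction n with
  | zero => simp
  | succ n ih =>
    have h1 := Nat.add_one_mul_choose_eq (D * B + n) n
    have h2 := Nat.add_one_mul_choose_eq (B + n) n
    have h3 : D * B + n + 1 ≤ D * (B + n + 1) := by nlinarith
    have h4 : (D * B + (n + 1)).choose (n + 1) * (n + 1) ≤
        D ^ (n + 1) * (B + (n + 1)).choose (n + 1) * (n + 1) := by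
      calc (D * B + (n + 1)).choose (n + 1) * (n + 1)
          = (D * B + n + 1) * (D * B + n).choose n := by
            rw [← add_assoc]
            exact h1.symm
        _ ≤ (D * (B + n + 1)) * (D ^ n * (B + n).choose n) := Nat.mul_le_mul h3 ih
        _ = D ^ (n + 1) * ((B + n + 1) * (B + n).choose n) := by
            rw [pow_succ]
            ring
        _ = D ^ (n + 1) * (B + (n + 1)).choose (n + 1) * (n + 1) := by
            rw [h2, ← add_assoc]
            ring
    exact Nat.le_of_mul_le_mul_right h4 (Nat.succ_pos n)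

theorem two_choose_le (n D : ℕ) (hD : 1 ≤ D) :
    2 * (D * PB n D + n).choose n ≤ (PB n D + (n + 1)).choose (n + 1) := by
  have h1 := choose_mul_le n D (PB n D) hD
  have h2 := Nat.add_one_mul_choose_eq (PB n D + n) n
  have h3 : 2 * (n + 1) * D ^ n ≤ PB n D + n + 1 := by
    unfold PB
    omega
  have h4 : 2 * (D * PB n D + n).choose n * (n + 1) ≤
      (PB n D + (n + 1)).choose (n + 1) * (n + 1) := by
    calc 2 * (D * PB n D + n).choose n * (n + 1)
        ≤ 2 * (D ^ n * (PB n D + n).choose n) * (n + 1) :=
          Nat.mul_le_mul_right _ (Nat.mul_le_mul_left _ h1)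
      _ = (2 * (n + 1) * D ^ n) * (PB n D + n).choose n := by ring
      _ ≤ (PB n D + n + 1) * (PB n D + n).choose n := Nat.mul_le_mul_right _ h3
      _ = (PB n D + (n + 1)).choose (n + 1) * (n + 1) := by
          rw [← add_assoc]
          exact h2
  exact Nat.le_of_mul_le_mul_right h4 (Nat.succ_pos n)

end Pool.Agent.LGF.N
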