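import Pool.Agent.LGF.NDef

/-!
# LGF-NDiv: divisors of constants are constants
-/

open MvPolynomial

namespace Pool.Agent.LGF.N

theorem eq_C_of_dvd_C {A J : Type} [CommRing A] [IsDomain A] {a : MvPolynomial J A} {b : A}
    (hb : b ≠ 0) (h : a ∣ C b) : ∃ g : A, a = C g := by
  obtain ⟨c, hc⟩ := h
  have h0 : (C b : MvPolynomial J A) ≠ 0 := by
    rw [Ne, C_eq_zero]
    exact hb
  have ha : a ≠ 0 := by
    rintro rfl
    exact h0 (by rw [hc, zero_mul])
  have hc0 : c ≠ 0 := by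
    rintro rfl
    exact h0 (by rw [hc, mul_zero])
  have h1 := totalDegree_mul_of_isDomain ha hc0
  rw [← hc, totalDegree_C] at h1
  exact ⟨_, totalDegree_eq_zero_iff_eq_C.1 (by omega)⟩

theorem totalDegree_le_of_dvd {A J : Type} [CommRing A] [IsDomain A] {G q : MvPolynomial J A}
    (hq : q ≠ 0) (h : G ∣ q) : G.totalDegree ≤ q.totalDegree := by
  obtain ⟨c, rfl⟩ := h
  rw [totalDegree_mul_of_isDomain (left_ne_zero_of_mul hq) (right_ne_zero_of_mul hq)]
  exact Nat.le_add_right _ _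

end Pool.Agent.LGF.N
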