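import Pool.Agent.LGF.NDef

/-!
# LGF-NMon: the number of monomials of degree `≤ k`

PLAN. The elements of degree exactly `k` of `σ →₀ ℕ` form the finset
`Finset.univ.finsuppAntidiag k` with `(card σ + k - 1).choose k` elements
(`Finset.card_finsuppAntidiag_nat_eq_choose`, `Finset.mem_finsuppAntidiag`). For degree `≤ k` use
`σ = Option ρ`: `a ↦ (a with value k - degree a at none)` is a bijection onto the elements of
degree exactly `k` of `Option ρ →₀ ℕ`; so take `S` = image of `univ.finsuppAntidiag k` under
`b ↦ (ρ-part of b)` (`Finsupp.some`, injective on this set), card `= (card ρ + 1 + k - 1).choose k =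
(k + card ρ).choose (card ρ)` (`Nat.choose_symm_add`). Alternatively sum over `j ≤ k` of
`(card ρ + j - 1).choose j` (hockey stick). `Finsupp.degree a = ∑ i, a i` for a fintype
(`Finsupp.degree_eq_sum`).
-/

open MvPolynomial

namespace Pool.Agent.LGF.N

theorem exists_mons (ρ : Type) [Fintype ρ] (k : ℕ) : ∃ S : Finset (ρ →₀ ℕ),
    (∀ a, a ∈ S ↔ a.degree ≤ k) ∧ S.card = (k + Fintype.card ρ).choose (Fintype.card ρ) := by
  classical
  have hmem : ∀ f : Option ρ →₀ ℕ, f ∈ (Finset.univ : Finset (Option ρ)).finsuppAntidiag k ↔
      f none + ∑ i, f (some i) = k := by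
    intro f
    rw [Finset.mem_finsuppAntidiag, Fintype.sum_option]
    exact ⟨fun h => h.1, fun h => ⟨h, Finset.subset_univ _⟩⟩
  refine ⟨((Finset.univ : Finset (Option ρ)).finsuppAntidiag k).image Finsupp.some, ?_, ?_⟩
  · intro a
    rw [Finset.mem_image, Finsupp.degree_eq_sum]
    constructor
    · rintro ⟨f, hf, rfl⟩
      rw [hmem] at hf
      simp only [Finsupp.some_apply]
      omega
    · intro h
      refine ⟨Finsupp.equivFunOnFinite.symm (fun o => o.elim (k - ∑ i, a i) a), ?_, ?_⟩
      · rw [hmem]
        simp only [Finsupp.equivFunOnFinite_symm_apply_apply, Option.elim_none, Option.elim_some]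
        omega
      · ext i
        rw [Finsupp.some_apply]
        rfl
  · rw [Finset.card_image_of_injOn, Finset.card_finsuppAntidiag_nat_eq_choose, Finset.card_univ,
      Fintype.card_option, show Fintype.card ρ + 1 + k - 1 = k + Fintype.card ρ by omega]
    · exact Nat.choose_symm_add
    · intro f hf g hg hfg
      rw [Finset.mem_coe, hmem] at hf hg
      have hs : ∀ i, f (some i) = g (some i) := by
        intro i
        have := DFunLike.congr_fun hfg i
        simpa only [Finsupp.some_apply] using this
      ext o
      cases o with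
      | none =>
        have : ∑ i, f (some i) = ∑ i, g (some i) := Finset.sum_congr rfl fun i _ => hs i
        omega
      | some i => exact hs i

end Pool.Agent.LGF.N
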