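import Pool.Agent.LGF.NDef

/-!
# LGF-NSie: the lemma of Siegel
-/

namespace Pool.Agent.LGF.N

attribute [local instance] Matrix.seminormedAddCommGroup

private theorem norm_natAbs (z : ℤ) : ‖z‖ = (z.natAbs : ℝ) := by
  rw [Int.norm_eq_abs, Nat.cast_natAbs, Int.cast_abs]

theorem siegel {α β : Type} [Fintype α] [Fintype β] (A : Matrix α β ℤ)
    (h : 2 * Fintype.card α ≤ Fintype.card β) (hβ : 0 < Fintype.card β) (M : ℕ) (hM : 1 ≤ M)
    (hA : ∀ i j, (A i j).natAbs ≤ M) :
    ∃ t : β → ℤ, t ≠ 0 ∧ A.mulVec t = 0 ∧ ∀ j, (t j).natAbs ≤ Fintype.card β * M := by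
  rcases Nat.eq_zero_or_pos (Fintype.card α) with h0 | h0
  · have hne : Nonempty β := Fintype.card_pos_iff.1 hβ
    have he : IsEmpty α := Fintype.card_eq_zero_iff.1 h0
    refine ⟨fun _ => 1, ?_, ?_, fun j => ?_⟩
    · intro h1
      have := congrFun h1 hne.some
      simp at this
    · funext i
      exact isEmptyElim i
    · show (1 : ℤ).natAbs ≤ _
      rw [Int.natAbs_one]
      exact Nat.mul_pos hβ hM
  · obtain ⟨t, ht0, ht1, ht2⟩ := Int.Matrix.exists_ne_zero_int_vec_norm_le A (by omega) h0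
    refine ⟨t, ht0, ht1, fun j => ?_⟩
    have hM' : (1 : ℝ) ≤ M := by exact_mod_cast hM
    have hn : (1 : ℝ) ≤ Fintype.card β := by exact_mod_cast hβ
    have hAn : ‖A‖ ≤ (M : ℝ) := by
      rw [Matrix.norm_le_iff (by positivity)]
      intro i j
      rw [norm_natAbs]
      exact_mod_cast hA i j
    have hmax : max 1 ‖A‖ ≤ (M : ℝ) := max_le hM' hAn
    have hbase : (Fintype.card β : ℝ) * max 1 ‖A‖ ≤ Fintype.card β * M :=
      mul_le_mul_of_nonneg_left hmax (by positivity)
    have hbase1 : (1 : ℝ) ≤ Fintype.card β * max 1 ‖A‖ := by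
      nlinarith [le_max_left (1 : ℝ) ‖A‖]
    have h2 : 2 * (Fintype.card α : ℝ) ≤ Fintype.card β := by exact_mod_cast h
    have h0' : (0 : ℝ) < Fintype.card α := by exact_mod_cast h0
    have hexp : (Fintype.card α : ℝ) / (Fintype.card β - Fintype.card α) ≤ 1 := by
      rw [div_le_one (by linarith)]
      linarith
    have h3 : ((Fintype.card β : ℝ) * max 1 ‖A‖) ^
        ((Fintype.card α : ℝ) / (Fintype.card β - Fintype.card α)) ≤ Fintype.card β * M :=
      calc _ ≤ ((Fintype.card β : ℝ) * max 1 ‖A‖) ^ (1 : ℝ) :=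
            Real.rpow_le_rpow_of_exponent_le hbase1 hexp
        _ = (Fintype.card β : ℝ) * max 1 ‖A‖ := Real.rpow_one _
        _ ≤ _ := hbase
    have h4 : ((t j).natAbs : ℝ) ≤ Fintype.card β * M := by
      rw [← norm_natAbs]
      exact (norm_le_pi_norm t j).trans (ht2.trans h3)
    exact_mod_cast h4

end Pool.Agent.LGF.N
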