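import Pool.Agent.LGF.NL1
import Pool.Agent.LGF.NMon
import Pool.Agent.LGF.NCho
import Pool.Agent.LGF.NSie

/-!
# LGF-NPer: the theorem of Perron with integer coefficients

Siegel's lemma for the coefficients of the relation, with `2 card S' ≤ card S`.
-/

open MvPolynomial

namespace Pool.Agent.LGF.N

theorem perron_int {ρ τ : Type} [Fintype ρ] [Fintype τ]
    (hc : Fintype.card τ = Fintype.card ρ + 1) (D H : ℕ) (hD : 1 ≤ D) (hH : 1 ≤ H)
    (g : τ → MvPolynomial ρ ℤ) (hg : ∀ t, (g t).totalDegree ≤ D) (hl : ∀ t, l1 (g t) ≤ H) :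
    ∃ W : MvPolynomial τ ℤ, W ≠ 0 ∧ aeval g W = 0 ∧ W.totalDegree ≤ PB (Fintype.card ρ) D ∧
      ∀ a, (W.coeff a).natAbs ≤
        (PB (Fintype.card ρ) D + Fintype.card τ).choose (Fintype.card τ) *
          H ^ PB (Fintype.card ρ) D := by
  classical
  obtain ⟨S, hS, hSc⟩ := exists_mons τ (PB (Fintype.card ρ) D)
  obtain ⟨S', hS', hSc'⟩ := exists_mons ρ (D * PB (Fintype.card ρ) D)
  obtain ⟨B, hB⟩ : ∃ B, B = PB (Fintype.card ρ) D := ⟨_, rfl⟩
  have hcard : Fintype.card S = (B + Fintype.card τ).choose (Fintype.card τ) := by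
    rw [Fintype.card_coe, hSc, hB]
  have hcard' : 2 * Fintype.card S' ≤ Fintype.card S := by
    rw [hcard, Fintype.card_coe, hSc', hc, hB]
    exact two_choose_le (Fintype.card ρ) D hD
  have hpos : 0 < Fintype.card S := by
    rw [hcard]
    exact Nat.choose_pos (Nat.le_add_left _ _)
  obtain ⟨P, hP⟩ : ∃ P : (τ →₀ ℕ) → MvPolynomial ρ ℤ, ∀ a, P a = a.prod fun t k => g t ^ k :=
    ⟨_, fun _ => rfl⟩
  have hPdeg : ∀ a : τ →₀ ℕ, (P a).totalDegree ≤ D * a.degree := by
    intro a
    rw [hP, Finsupp.prod, Finsupp.degree_apply, Finset.mul_sum]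
    refine (totalDegree_finsetProd _ _).trans (Finset.sum_le_sum fun t _ => ?_)
    refine (totalDegree_pow _ _).trans ?_
    rw [mul_comm D]
    exact Nat.mul_le_mul_left _ (hg t)
  obtain ⟨t, ht0, htA, htb⟩ := siegel (α := S') (β := S) (fun b a => coeff b.1 (P a.1)) hcard' hpos
    (H ^ B) (Nat.one_le_pow _ _ hH) (by
      intro b a
      refine (natAbs_coeff_le _ _).trans ?_
      rw [hP]
      exact l1_prod g H hH hl a.1 B (by rw [hB]; exact (hS a.1).1 a.2))
  obtain ⟨W, hW⟩ : ∃ W : MvPolynomial τ ℤ, W = ∑ a : S, monomial a.1 (t a) := ⟨_, rfl⟩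
  have hWc : ∀ a : S, W.coeff a.1 = t a := by
    intro a
    rw [hW, coeff_sum, Finset.sum_eq_single a]
    · rw [coeff_monomial, if_pos rfl]
    · intro b _ hb
      rw [coeff_monomial, if_neg]
      exact fun hh => hb (Subtype.ext hh)
    · intro ha
      exact absurd (Finset.mem_univ a) ha
  have hWn : ∀ a, a ∉ S → W.coeff a = 0 := by
    intro a ha
    rw [hW, coeff_sum]
    refine Finset.sum_eq_zero fun b _ => ?_
    rw [coeff_monomial, if_neg]
    exact fun hh => ha (hh ▸ b.2)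
  refine ⟨W, ?_, ?_, ?_, ?_⟩
  · intro hW0
    apply ht0
    funext a
    rw [← hWc a, hW0, coeff_zero]
    rfl
  · ext b
    rw [hW, map_sum, coeff_sum, coeff_zero]
    have h1 : ∀ a : S, coeff b (aeval g (monomial a.1 (t a))) = t a * coeff b (P a.1) := by
      intro a
      rw [aeval_monomial, ← hP, algebraMap_eq, coeff_C_mul]
    rw [Finset.sum_congr rfl fun a _ => h1 a]
    by_cases hb : b ∈ S'
    · have h2 : ∑ a : S, coeff b (P a.1) * t a = 0 := congrFun htA ⟨b, hb⟩
      rw [← h2]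
      exact Finset.sum_congr rfl fun a _ => mul_comm _ _
    · refine Finset.sum_eq_zero fun a _ => ?_
      rw [coeff_eq_zero_of_totalDegree_lt, mul_zero]
      have h2 : ¬ b.degree ≤ D * PB (Fintype.card ρ) D := fun h => hb ((hS' b).2 h)
      have h3 := hPdeg a.1
      have h4 : D * a.1.degree ≤ D * PB (Fintype.card ρ) D :=
        Nat.mul_le_mul_left _ ((hS a.1).1 a.2)
      rw [Finsupp.degree_apply] at h2
      omega
  · rw [hW]
    refine totalDegree_finsetSum_le fun a _ => ?_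
    refine (totalDegree_monomial_le _ _).trans ?_
    have h1 := (hS a.1).1 a.2
    rw [Finsupp.degree_apply] at h1
    exact h1
  · intro a
    by_cases ha : a ∈ S
    · have h1 := htb ⟨a, ha⟩
      rw [← hWc ⟨a, ha⟩, hcard] at h1
      rw [← hB]
      exact h1
    · rw [hWn a ha]
      exact Nat.zero_le _

end Pool.Agent.LGF.N
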