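import Pool.Agent.LGF.NMon
import Pool.Agent.LGF.NCho

/-!
# LGF-NPerK: the theorem of Perron over a field (weak form, dimension count)
-/

open MvPolynomial

namespace Pool.Agent.LGF.N

theorem perron_field {K ρ τ : Type} [Field K] [Fintype ρ] [Fintype τ]
    (hc : Fintype.card τ = Fintype.card ρ + 1) (D : ℕ) (hD : 1 ≤ D)
    (g : τ → MvPolynomial ρ K) (hg : ∀ t, (g t).totalDegree ≤ D) :
    ∃ W : MvPolynomial τ K, W ≠ 0 ∧ aeval g W = 0 ∧ W.totalDegree ≤ PB (Fintype.card ρ) D := by
  classical
  obtain ⟨S, hS, hSc⟩ := exists_mons τ (PB (Fintype.card ρ) D)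
  obtain ⟨S', hS', hSc'⟩ := exists_mons ρ (D * PB (Fintype.card ρ) D)
  have hlt : S'.card < S.card := by
    have h1 := two_choose_le (Fintype.card ρ) D hD
    rw [hc] at hSc
    rw [← hSc, ← hSc'] at h1
    have h2 : 0 < S'.card := by
      rw [hSc']
      exact Nat.choose_pos (Nat.le_add_left _ _)
    omega
  set mo : (τ →₀ ℕ) → MvPolynomial ρ K := fun a => a.prod fun i k => g i ^ k with hmo
  have hmod : ∀ a, (mo a).totalDegree ≤ D * a.degree := by
    intro a
    show (a.prod fun i k => g i ^ k).totalDegree ≤ D * a.degree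
    rw [Finsupp.prod, Finsupp.degree_apply, Finset.mul_sum]
    refine (totalDegree_finsetProd _ _).trans (Finset.sum_le_sum fun i _ => ?_)
    refine (totalDegree_pow _ _).trans ?_
    rw [mul_comm]
    exact Nat.mul_le_mul_right _ (hg i)
  let L : (S → K) →ₗ[K] (S' → K) :=
    { toFun := fun t b => ∑ a : S, t a * coeff b.1 (mo a.1)
      map_add' := by
        intro t t'
        ext b
        simp only [Pi.add_apply, add_mul, Finset.sum_add_distrib]
      map_smul' := by
        intro c t
        ext b
        simp only [Pi.smul_apply, smul_eq_mul, RingHom.id_apply, Finset.mul_sum, mul_assoc] }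
  have hker : LinearMap.ker L ≠ ⊥ := by
    apply L.ker_ne_bot_of_finrank_lt
    rw [Module.finrank_fintype_fun_eq_card, Module.finrank_fintype_fun_eq_card,
      Fintype.card_coe, Fintype.card_coe]
    exact hlt
  obtain ⟨t, ht, ht0⟩ := Submodule.exists_mem_ne_zero_of_ne_bot hker
  have hLt : ∀ b : S', ∑ a : S, t a * coeff b.1 (mo a.1) = 0 := by
    intro b
    exact congrFun (LinearMap.mem_ker.1 ht) b
  refine ⟨∑ a : S, monomial a.1 (t a), ?_, ?_, ?_⟩
  · intro hW
    apply ht0
    ext a
    have h1 := congrArg (coeff a.1) hW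
    rw [coeff_sum, coeff_zero] at h1
    rw [Pi.zero_apply, ← h1]
    rw [Finset.sum_eq_single a]
    · rw [coeff_monomial, if_pos rfl]
    · intro b _ hb
      rw [coeff_monomial, if_neg]
      intro h
      exact hb (Subtype.ext h)
    · intro h
      exact absurd (Finset.mem_univ _) h
  · rw [map_sum]
    have h1 : ∀ a : S, aeval g (monomial a.1 (t a)) = C (t a) * mo a.1 := by
      intro a
      rw [aeval_monomial]
      rfl
    rw [Finset.sum_congr rfl fun a _ => h1 a]
    ext b
    rw [coeff_sum, coeff_zero]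
    by_cases hb : b ∈ S'
    · have h2 := hLt ⟨b, hb⟩
      rw [← h2]
      refine Finset.sum_congr rfl fun a _ => ?_
      rw [coeff_C_mul]
    · refine Finset.sum_eq_zero fun a _ => ?_
      rw [coeff_C_mul, coeff_eq_zero_of_totalDegree_lt, mul_zero]
      rw [hS', not_le] at hb
      refine lt_of_le_of_lt (hmod a.1) (lt_of_le_of_lt ?_ hb)
      exact Nat.mul_le_mul_left _ ((hS a.1).1 a.2)
  · refine totalDegree_finsetSum_le fun a _ => ?_
    refine (totalDegree_monomial_le _ _).trans ?_
    exact (hS a.1).1 a.2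

end Pool.Agent.LGF.N
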