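import Pool.Agent.LGF.NDef

/-!
# LGF-NShi: substitution of linear polynomials

PLAN. Both statements by writing `F` as the sum of its monomials (`MvPolynomial.as_sum`, or
`MvPolynomial.aeval_def`, `eval₂_eq'`): for a monomial `c X^s` the polynomial
`c ∏ (a_i + b_i Y) ^ s_i` has degree `≤ degree s ≤ totalDegree F` (`Polynomial.natDegree_sum_le_of_forall_le`,
`Polynomial.natDegree_prod_le`, `natDegree_pow_le`) and its coefficient of `Y ^ degree s` is
`c ∏ b_i ^ s_i` (`Polynomial.coeff_prod_of_natDegree_le`, `coeff_pow_of_natDegree_le`), while the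
coefficient of `Y ^ totalDegree F` is `0` if `degree s < totalDegree F`. The right hand side is the
sum over the monomials with `degree s = totalDegree F` (`homogeneousComponent_apply`).
-/

open MvPolynomial

namespace Pool.Agent.LGF.N

private theorem prod_fact {R σ : Type} [CommRing R] (a b : σ → R) (e : σ → ℕ) (T : Finset σ) :
    (∏ i ∈ T, (Polynomial.C (a i) + Polynomial.C (b i) * Polynomial.X) ^ e i).natDegree ≤ ∑ i ∈ T, e i ∧
      (∏ i ∈ T, (Polynomial.C (a i) + Polynomial.C (b i) * Polynomial.X) ^ e i).coeff (∑ i ∈ T, e i) =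
        ∏ i ∈ T, b i ^ e i := by
  classical
  have h1 : ∀ i, (Polynomial.C (a i) + Polynomial.C (b i) * Polynomial.X).natDegree ≤ 1 := by
    intro i
    rw [add_comm]
    exact Polynomial.natDegree_linear_le
  have h2 : ∀ i, (Polynomial.C (a i) + Polynomial.C (b i) * Polynomial.X).coeff 1 = b i := by
    intro i
    rw [Polynomial.coeff_add, Polynomial.coeff_C_mul, Polynomial.coeff_X_one, mul_one,
      Polynomial.coeff_C_of_ne_zero one_ne_zero, zero_add]
  have h3 : ∀ i, ((Polynomial.C (a i) + Polynomial.C (b i) * Polynomial.X) ^ e i).natDegree ≤ e i := by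
    intro i
    have := Polynomial.natDegree_pow_le_of_le (e i) (h1 i)
    rwa [mul_one] at this
  have h4 : ∀ i, ((Polynomial.C (a i) + Polynomial.C (b i) * Polynomial.X) ^ e i).coeff (e i) = b i ^ e i := by
    intro i
    have := Polynomial.coeff_pow_of_natDegree_le (m := e i) (h1 i)
    rwa [mul_one, h2] at this
  induction T using Finset.induction_on with
  | empty => simp
  | insert i T hi ih =>
    rw [Finset.prod_insert hi, Finset.sum_insert hi, Finset.prod_insert hi]
    refine ⟨Polynomial.natDegree_mul_le_of_le (h3 i) ih.1, ?_⟩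
    rw [Polynomial.coeff_mul_add_eq_of_natDegree_le (h3 i) ih.1, h4, ih.2]

private theorem aeval_sum {K R σ : Type} [CommRing K] [CommRing R] [Algebra K R]
    (F : MvPolynomial σ K) (a b : σ → R) :
    (aeval (fun i => Polynomial.C (a i) + Polynomial.C (b i) * Polynomial.X) F : Polynomial R) =
      ∑ s ∈ F.support, Polynomial.C (algebraMap K R (F.coeff s)) *
        ∏ i ∈ s.support, (Polynomial.C (a i) + Polynomial.C (b i) * Polynomial.X) ^ s i := by
  rw [MvPolynomial.aeval_def, MvPolynomial.eval₂_eq]
  rfl

private theorem term_deg {R σ : Type} [CommRing R] (c : R) (a b : σ → R) (s : σ →₀ ℕ) :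
    (Polynomial.C c *
        ∏ i ∈ s.support, (Polynomial.C (a i) + Polynomial.C (b i) * Polynomial.X) ^ s i).natDegree ≤ s.degree :=
  (Polynomial.natDegree_C_mul_le _ _).trans (prod_fact a b s s.support).1

theorem natDegree_shift {K R σ : Type} [CommRing K] [CommRing R] [Algebra K R]
    (F : MvPolynomial σ K) (a b : σ → R) :
    (aeval (fun i => Polynomial.C (a i) + Polynomial.C (b i) * Polynomial.X) F :
      Polynomial R).natDegree ≤ F.totalDegree := by
  rw [aeval_sum]
  refine Polynomial.natDegree_sum_le_of_forall_le _ _ fun s hs => ?_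
  exact (term_deg _ a b s).trans (le_totalDegree hs)

theorem coeff_shift {K R σ : Type} [CommRing K] [CommRing R] [Algebra K R]
    (F : MvPolynomial σ K) (a b : σ → R) :
    (aeval (fun i => Polynomial.C (a i) + Polynomial.C (b i) * Polynomial.X) F :
      Polynomial R).coeff F.totalDegree = aeval b (homogeneousComponent F.totalDegree F) := by
  classical
  rw [aeval_sum, Polynomial.finsetSum_coeff, homogeneousComponent_apply, map_sum, Finset.sum_filter]
  refine Finset.sum_congr rfl fun s hs => ?_
  by_cases hd : s.degree = F.totalDegree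
  · rw [if_pos hd, Polynomial.coeff_C_mul, ← hd, aeval_monomial, Finsupp.prod]
    congr 1
    exact (prod_fact a b s s.support).2
  · rw [if_neg hd]
    refine Polynomial.coeff_eq_zero_of_natDegree_lt ?_
    have h1 : s.degree ≤ F.totalDegree := le_totalDegree hs
    exact (term_deg _ a b s).trans_lt (lt_of_le_of_ne h1 hd)

end Pool.Agent.LGF.N
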