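import Pool.Agent.LGF.NDef

/-!
# LGF-NToK: passage to the field of fractions of the parameters

All comparisons of ring homomorphisms are made on the variables.
-/

open MvPolynomial

namespace Pool.Agent.LGF.N

private theorem int_hom_ext {σ A : Type*} [CommRing A] {φ ψ : MvPolynomial σ ℤ →+* A}
    (h : ∀ i, φ (X i) = ψ (X i)) : φ = ψ :=
  ringHom_ext' (Subsingleton.elim _ _) h

private theorem toK_X (m : ℕ) (V : Type) (i : Fin m ⊕ V) : toK m V (X i) =
    Sum.elim (fun i => C (algebraMap (MvPolynomial (Fin m) ℤ) (KF m) (X i))) X i := by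
  unfold toK
  rw [aeval_X]

private theorem toK_rename {m : ℕ} {V : Type} (f : MvPolynomial (Fin m ⊕ V) ℤ) :
    toK m (Option V) (rename (Sum.map id some) f) = rename some (toK m V f) := by
  have h1 : (toK m (Option V) : MvPolynomial (Fin m ⊕ Option V) ℤ →+* MvPolynomial (Option V) (KF m)).comp
      ((rename (Sum.map id some) : MvPolynomial (Fin m ⊕ V) ℤ →ₐ[ℤ] _) :
        MvPolynomial (Fin m ⊕ V) ℤ →+* MvPolynomial (Fin m ⊕ Option V) ℤ) =
      ((rename some : MvPolynomial V (KF m) →ₐ[KF m] _) :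
        MvPolynomial V (KF m) →+* MvPolynomial (Option V) (KF m)).comp
        (toK m V : MvPolynomial (Fin m ⊕ V) ℤ →+* MvPolynomial V (KF m)) := by
    refine int_hom_ext fun i => ?_
    show toK m (Option V) (rename (Sum.map id some) (X i)) = rename some (toK m V (X i))
    rw [rename_X, toK_X, toK_X]
    rcases i with i | v
    · show C (algebraMap (MvPolynomial (Fin m) ℤ) (KF m) (X i)) =
        rename some (C (algebraMap (MvPolynomial (Fin m) ℤ) (KF m) (X i)))
      rw [rename_C]
    · show X (some v) = rename some (X v)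
      rw [rename_X]
  exact congrArg (fun φ : MvPolynomial (Fin m ⊕ V) ℤ →+* MvPolynomial (Option V) (KF m) => φ f) h1

theorem toK_injective (m : ℕ) (V : Type) : Function.Injective (toK m V) := by
  have h1 : (toK m V : MvPolynomial (Fin m ⊕ V) ℤ →+* MvPolynomial V (KF m)) =
      (MvPolynomial.map (algebraMap (MvPolynomial (Fin m) ℤ) (KF m))).comp
        ((sumAlgEquiv ℤ V (Fin m) : MvPolynomial (V ⊕ Fin m) ℤ →+* _).comp
          (renameEquiv ℤ (Equiv.sumComm (Fin m) V) : MvPolynomial (Fin m ⊕ V) ℤ →+* _)) := by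
    refine int_hom_ext fun i => ?_
    show toK m V (X i) = MvPolynomial.map (algebraMap (MvPolynomial (Fin m) ℤ) (KF m))
      (sumAlgEquiv ℤ V (Fin m) (renameEquiv ℤ (Equiv.sumComm (Fin m) V) (X i)))
    rw [renameEquiv_apply, rename_X, toK_X]
    rcases i with i | v
    · rw [Equiv.sumComm_apply, Sum.swap_inl, sumAlgEquiv_X_inr, map_C]
      rfl
    · rw [Equiv.sumComm_apply, Sum.swap_inr, sumAlgEquiv_X_inl, map_X]
      rfl
  have h2 : ⇑(toK m V) = ⇑(MvPolynomial.map (algebraMap (MvPolynomial (Fin m) ℤ) (KF m))) ∘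
      ⇑(sumAlgEquiv ℤ V (Fin m)) ∘ ⇑(renameEquiv ℤ (Equiv.sumComm (Fin m) V)) := by
    funext p
    exact congrArg (fun φ : MvPolynomial (Fin m ⊕ V) ℤ →+* MvPolynomial V (KF m) => φ p) h1
  rw [h2]
  exact (MvPolynomial.map_injective _ (IsFractionRing.injective _ _)).comp
    ((sumAlgEquiv ℤ V (Fin m)).injective.comp (renameEquiv ℤ (Equiv.sumComm (Fin m) V)).injective)

theorem totalDegree_toK {m : ℕ} {V : Type} (f : MvPolynomial (Fin m ⊕ V) ℤ) :
    (toK m V f).totalDegree ≤ f.totalDegree := by
  conv_lhs => rw [f.as_sum, map_sum]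
  refine totalDegree_finsetSum_le fun s hs => ?_
  unfold toK
  rw [aeval_monomial, Finsupp.prod]
  refine (totalDegree_mul _ _).trans ?_
  have h1 : (algebraMap ℤ (MvPolynomial V (KF m)) (coeff s f)).totalDegree = 0 := by
    rw [eq_intCast, ← map_intCast (C : KF m →+* MvPolynomial V (KF m)), totalDegree_C]
  rw [h1, zero_add]
  refine (totalDegree_finsetProd _ _).trans ?_
  refine le_trans (Finset.sum_le_sum (g := fun i => s i) fun i _ => ?_) (le_totalDegree hs)
  refine (totalDegree_pow _ _).trans ?_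
  rcases i with i | v
  · show s (Sum.inl i) * (C (algebraMap (MvPolynomial (Fin m) ℤ) (KF m) (X i)) :
      MvPolynomial V (KF m)).totalDegree ≤ _
    rw [totalDegree_C, mul_zero]
    exact Nat.zero_le _
  · show s (Sum.inr v) * (X v : MvPolynomial V (KF m)).totalDegree ≤ _
    rw [totalDegree_X, mul_one]

theorem aeval_toK {m : ℕ} {V : Type} (u : V → AlgebraicClosure (KF m))
    (f : MvPolynomial (Fin m ⊕ V) ℤ) :
    aeval u (toK m V f) = aeval (Sum.elim
      (fun i => algebraMap (MvPolynomial (Fin m) ℤ) (AlgebraicClosure (KF m)) (X i)) u) f := by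
  have h1 : ((aeval u : MvPolynomial V (KF m) →ₐ[KF m] AlgebraicClosure (KF m)) :
      MvPolynomial V (KF m) →+* AlgebraicClosure (KF m)).comp
        (toK m V : MvPolynomial (Fin m ⊕ V) ℤ →+* MvPolynomial V (KF m)) =
      ((aeval (Sum.elim (fun i => algebraMap (MvPolynomial (Fin m) ℤ) (AlgebraicClosure (KF m)) (X i))
        u) : MvPolynomial (Fin m ⊕ V) ℤ →ₐ[ℤ] AlgebraicClosure (KF m)) :
        MvPolynomial (Fin m ⊕ V) ℤ →+* AlgebraicClosure (KF m)) := by
    refine int_hom_ext fun i => ?_
    show aeval u (toK m V (X i)) = aeval (Sum.elim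
      (fun i => algebraMap (MvPolynomial (Fin m) ℤ) (AlgebraicClosure (KF m)) (X i)) u) (X i)
    rw [aeval_X, toK_X]
    rcases i with i | v
    · show aeval u (C (algebraMap (MvPolynomial (Fin m) ℤ) (KF m) (X i))) =
        algebraMap (MvPolynomial (Fin m) ℤ) (AlgebraicClosure (KF m)) (X i)
      rw [aeval_C, ← IsScalarTower.algebraMap_apply]
    · show aeval u (X v) = u v
      rw [aeval_X]
  exact congrArg (fun φ : MvPolynomial (Fin m ⊕ V) ℤ →+* AlgebraicClosure (KF m) => φ f) h1

theorem toK_gen {m : ℕ} {V Q : Type} (f : Q → MvPolynomial (Fin m ⊕ V) ℤ) (i : Q ⊕ V) :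
    toK m (Option V) (gen f i) =
      Sum.elim (fun q => X none * rename some (toK m V (f q))) (fun v => X (some v)) i := by
  rcases i with q | v
  · show toK m (Option V) (X (Sum.inr none) * rename (Sum.map id some) (f q)) =
      X none * rename some (toK m V (f q))
    rw [map_mul, toK_X, toK_rename]
    rfl
  · show toK m (Option V) (X (Sum.inr (some v))) = X (some v)
    rw [toK_X]
    rfl

theorem phi_injective {m : ℕ} {V J : Type} (Ψ : J → MvPolynomial (Fin m ⊕ Option V) ℤ)
    (h : AlgebraicIndependent (KF m) fun j => toK m (Option V) (Ψ j)) :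
    Function.Injective (phi Ψ) := by
  have h1 : (toK m (Option V) : MvPolynomial (Fin m ⊕ Option V) ℤ →+* _).comp (phi Ψ) =
      ((aeval fun j => toK m (Option V) (Ψ j)) :
        MvPolynomial J (KF m) →ₐ[KF m] MvPolynomial (Option V) (KF m)).toRingHom.comp
        (MvPolynomial.map (algebraMap (MvPolynomial (Fin m) ℤ) (KF m))) := by
    refine ringHom_ext' (int_hom_ext fun i => ?_) fun j => ?_
    · show toK m (Option V) (phi Ψ (C (X i))) = aeval (fun j => toK m (Option V) (Ψ j))
        (MvPolynomial.map (algebraMap (MvPolynomial (Fin m) ℤ) (KF m)) (C (X i)))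
      have h2 : phi Ψ (C (X i)) = X (Sum.inl i) := by
        unfold phi
        rw [coe_eval₂Hom, eval₂_C]
        show rename Sum.inl (X i) = _
        rw [rename_X]
      rw [h2, toK_X, map_C, aeval_C]
      rfl
    · show toK m (Option V) (phi Ψ (X j)) = aeval (fun j => toK m (Option V) (Ψ j))
        (MvPolynomial.map (algebraMap (MvPolynomial (Fin m) ℤ) (KF m)) (X j))
      have h2 : phi Ψ (X j) = Ψ j := by
        unfold phi
        rw [coe_eval₂Hom, eval₂_X]
      rw [h2, map_X, aeval_X]
  have h3 : ⇑(toK m (Option V)) ∘ ⇑(phi Ψ) = ⇑(aeval (R := KF m) fun j => toK m (Option V) (Ψ j)) ∘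
      ⇑(MvPolynomial.map (algebraMap (MvPolynomial (Fin m) ℤ) (KF m))) := by
    funext p
    exact congrArg (fun φ : MvPolynomial J (MvPolynomial (Fin m) ℤ) →+*
      MvPolynomial (Option V) (KF m) => φ p) h1
  refine Function.Injective.of_comp (f := ⇑(toK m (Option V))) ?_
  rw [h3]
  exact (show Function.Injective (aeval (R := KF m) fun j => toK m (Option V) (Ψ j)) from h).comp
    (MvPolynomial.map_injective _ (IsFractionRing.injective _ _))

end Pool.Agent.LGF.N
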