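import Pool.Agent.LGF.Prod

/-!
# A class over a product is determined by its components
-/

noncomputable section

namespace Pool.Agent.LGF

open Pool.Agent.GSM

variable {T T₁ T₂ : Type} [CommRing T] [CommRing T₁] [CommRing T₂] {f₁ : T →+* T₁} {f₂ : T →+* T₂}

private theorem pinj_lift (h : IsProd f₁ f₂) {α β : Type} (M₁ : Matrix α β T₁)
    (M₂ : Matrix α β T₂) : ∃ M : Matrix α β T, M.map f₁ = M₁ ∧ M.map f₂ = M₂ := by
  have h1 : ∀ i j, ∃ y, f₁ y = M₁ i j ∧ f₂ y = M₂ i j := by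
    intro i j
    obtain ⟨y, hy⟩ := h.2 (M₁ i j, M₂ i j)
    exact ⟨y, congrArg Prod.fst hy, congrArg Prod.snd hy⟩
  choose M hM using h1
  exact ⟨Matrix.of M, by ext i j; exact (hM i j).1, by ext i j; exact (hM i j).2⟩

private theorem pinj_ext (h : IsProd f₁ f₂) {α β : Type} {M N : Matrix α β T}
    (h1 : M.map f₁ = N.map f₁) (h2 : M.map f₂ = N.map f₂) : M = N := by
  ext i j
  apply h.1
  exact Prod.ext (congrFun (congrFun h1 i) j) (congrFun (congrFun h2 i) j)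

private theorem pinj_tup (h : IsProd f₁ f₂) {ι σ : Type} [Fintype ι] [DecidableEq ι]
    (A₁ : Tup ι σ T₁) (A₂ : Tup ι σ T₂) : ∃ A : Tup ι σ T, A.map f₁ = A₁ ∧ A.map f₂ = A₂ := by
  have h1 := fun s => pinj_lift h (A₁.mat s) (A₂.mat s)
  choose M hM1 hM2 using h1
  have hu : ∀ s, IsUnit (M s) := by
    intro s
    obtain ⟨u1, hu1⟩ := A₁.unit s
    obtain ⟨u2, hu2⟩ := A₂.unit s
    obtain ⟨N, hN1, hN2⟩ := pinj_lift h (u1⁻¹ : (Matrix ι ι T₁)ˣ).val (u2⁻¹ : (Matrix ι ι T₂)ˣ).val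
    refine ⟨⟨M s, N, ?_, ?_⟩, rfl⟩
    · apply pinj_ext h
      · rw [Matrix.map_mul, hM1, hN1, ← hu1, Units.mul_inv,
          Matrix.map_one _ (map_zero _) (map_one _)]
      · rw [Matrix.map_mul, hM2, hN2, ← hu2, Units.mul_inv,
          Matrix.map_one _ (map_zero _) (map_one _)]
    · apply pinj_ext h
      · rw [Matrix.map_mul, hM1, hN1, ← hu1, Units.inv_mul,
          Matrix.map_one _ (map_zero _) (map_one _)]
      · rw [Matrix.map_mul, hM2, hN2, ← hu2, Units.inv_mul,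
          Matrix.map_one _ (map_zero _) (map_one _)]
  have hc : ∀ s t, Commute (M s) (M t) := by
    intro s t
    apply pinj_ext h
    · rw [Matrix.map_mul, Matrix.map_mul, hM1, hM1]
      exact A₁.comm s t
    · rw [Matrix.map_mul, Matrix.map_mul, hM2, hM2]
      exact A₂.comm s t
  refine ⟨⟨M, hu, hc⟩, ?_, ?_⟩
  · apply Tup.ext
    funext s
    exact hM1 s
  · apply Tup.ext
    funext s
    exact hM2 s

private theorem pinj_iso (h : IsProd f₁ f₂) {ι κ σ : Type} [Fintype ι] [DecidableEq ι]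
    [Fintype κ] [DecidableEq κ] {A : Tup ι σ T} {B : Tup κ σ T}
    (h1 : (A.map f₁).Iso (B.map f₁)) (h2 : (A.map f₂).Iso (B.map f₂)) : A.Iso B := by
  obtain ⟨P₁, Q₁, a1, a2, a3⟩ := h1
  obtain ⟨P₂, Q₂, b1, b2, b3⟩ := h2
  obtain ⟨P, hP1, hP2⟩ := pinj_lift h P₁ P₂
  obtain ⟨Q, hQ1, hQ2⟩ := pinj_lift h Q₁ Q₂
  refine ⟨P, Q, ?_, ?_, fun s => ?_⟩
  · apply pinj_ext h
    · rw [Matrix.map_mul, hP1, hQ1, a1, Matrix.map_one _ (map_zero _) (map_one _)]
    · rw [Matrix.map_mul, hP2, hQ2, b1, Matrix.map_one _ (map_zero _) (map_one _)]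
  · apply pinj_ext h
    · rw [Matrix.map_mul, hP1, hQ1, a2, Matrix.map_one _ (map_zero _) (map_one _)]
    · rw [Matrix.map_mul, hP2, hQ2, b2, Matrix.map_one _ (map_zero _) (map_one _)]
  · apply pinj_ext h
    · rw [Matrix.map_mul, Matrix.map_mul, hP1]
      exact a3 s
    · rw [Matrix.map_mul, Matrix.map_mul, hP2]
      exact b3 s

private theorem pinj_add {ι κ σ : Type} [Fintype ι] [DecidableEq ι] [Fintype κ] [DecidableEq κ]
    {R R' : Type} [CommRing R] [CommRing R'] (f : R →+* R') (A : Tup ι σ R) (B : Tup κ σ R) :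
    (A.add B).map f = (A.map f).add (B.map f) := by
  apply Tup.ext
  funext s
  show (Matrix.fromBlocks (A.mat s) 0 0 (B.mat s)).map f =
    Matrix.fromBlocks ((A.mat s).map f) 0 0 ((B.mat s).map f)
  rw [Matrix.fromBlocks_map, Matrix.map_zero _ (map_zero f), Matrix.map_zero _ (map_zero f)]

private theorem pinj_of {σ R R' : Type} [CommRing R] [CommRing R'] (f : R →+* R') (a : TupQ σ R) :
    KK.map f (GR.of a) = GR.of (TupQ.map f a) :=
  GR.lift_of _ a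

private theorem pinj_cls {ι σ R R' : Type} [Fintype ι] [DecidableEq ι] [CommRing R] [CommRing R']
    (f : R →+* R') (A : Tup ι σ R) : TupQ.map f (cls A) = cls (A.map f) :=
  TupQ.mapQ_cls f A

theorem kk_inj_prod {σ : Type} (h : IsProd f₁ f₂) (x : KK σ T) (h₁ : KK.map f₁ x = 0)
    (h₂ : KK.map f₂ x = 0) : x = 0 := by
  obtain ⟨n, a, b, hn, hx⟩ := GR.exists_rep x
  have hn' : (n : ℚ) ≠ 0 := Nat.cast_ne_zero.2 hn
  have k1 : (GR.of (TupQ.map f₁ a) : KK σ T₁) = GR.of (TupQ.map f₁ b) := by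
    have h2 := congrArg (KK.map f₁) hx
    rw [map_smul, h₁, smul_zero, map_sub, pinj_of, pinj_of] at h2
    exact (sub_eq_zero.1 h2.symm)
  have k2 : (GR.of (TupQ.map f₂ a) : KK σ T₂) = GR.of (TupQ.map f₂ b) := by
    have h2 := congrArg (KK.map f₂) hx
    rw [map_smul, h₂, smul_zero, map_sub, pinj_of, pinj_of] at h2
    exact (sub_eq_zero.1 h2.symm)
  obtain ⟨m₁, c₁, hm₁, hc₁⟩ := GR.of_eq_of k1
  obtain ⟨m₂, c₂, hm₂, hc₂⟩ := GR.of_eq_of k2
  obtain ⟨s₁, C₁, hC₁⟩ := cls_surj (m₂ • c₁)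
  obtain ⟨s₂, C₂, hC₂⟩ := cls_surj (m₁ • c₂)
  obtain ⟨C, hCa, hCb⟩ := pinj_tup h (C₁.add (Tup.triv (Fin s₂) σ T₁))
    ((Tup.triv (Fin s₁) σ T₂).add C₂)
  obtain ⟨r1, A, hA⟩ := cls_surj ((m₁ * m₂) • a)
  obtain ⟨r2, B, hB⟩ := cls_surj ((m₁ * m₂) • b)
  have e1 : (m₁ * m₂) • TupQ.map f₁ a + m₂ • c₁ = (m₁ * m₂) • TupQ.map f₁ b + m₂ • c₁ := by
    have h5 := congrArg (fun z => m₂ • z) hc₁
    simpa only [smul_add, smul_smul, mul_comm m₂ m₁] using h5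
  have e2 : (m₁ * m₂) • TupQ.map f₂ a + m₁ • c₂ = (m₁ * m₂) • TupQ.map f₂ b + m₁ • c₂ := by
    have h5 := congrArg (fun z => m₁ • z) hc₂
    simpa only [smul_add, smul_smul] using h5
  have i1 : ((A.add C).map f₁).Iso ((B.add C).map f₁) := by
    rw [pinj_add, pinj_add, hCa, ← cls_eq_iff]
    simp only [TupQ.cls_add]
    rw [hC₁, ← pinj_cls, ← pinj_cls, hA, hB, map_nsmul, map_nsmul, ← add_assoc, ← add_assoc, e1]
  have i2 : ((A.add C).map f₂).Iso ((B.add C).map f₂) := by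
    rw [pinj_add, pinj_add, hCb, ← cls_eq_iff]
    simp only [TupQ.cls_add]
    rw [hC₂, ← pinj_cls, ← pinj_cls, hA, hB, map_nsmul, map_nsmul,
      add_comm (cls (Tup.triv (Fin s₁) σ T₂)), ← add_assoc, ← add_assoc, e2]
  have h3 := cls_eq_iff.2 (pinj_iso h i1 i2)
  rw [TupQ.cls_add, TupQ.cls_add, hA, hB] at h3
  have h4 := congrArg (GR.of : TupQ σ T → KK σ T) h3
  rw [map_add, map_add, map_nsmul, map_nsmul] at h4
  have h5 := add_right_cancel h4
  have hm' : ((m₁ * m₂ : ℕ) : ℚ) ≠ 0 := Nat.cast_ne_zero.2 (Nat.mul_ne_zero hm₁ hm₂)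
  have h6 : (GR.of a : KK σ T) = GR.of b := by
    rw [← Nat.cast_smul_eq_nsmul ℚ, ← Nat.cast_smul_eq_nsmul ℚ] at h5
    have h7 := congrArg (fun z => ((m₁ * m₂ : ℕ) : ℚ)⁻¹ • z) h5
    simpa only [smul_smul, inv_mul_cancel₀ hm', one_smul] using h7
  rw [h6, sub_self] at hx
  have h9 := congrArg (fun z => (n : ℚ)⁻¹ • z) hx
  simpa only [smul_smul, inv_mul_cancel₀ hn', one_smul, smul_zero] using h9

theorem gg_inj_prod {I σ : Type} (h : IsProd f₁ f₂) (x : GG I σ T) (h₁ : GG.base f₁ x = 0)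
    (h₂ : GG.base f₂ x = 0) : x = 0 :=
  kk_inj_prod (h.mv I) x h₁ h₂

end Pool.Agent.LGF
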