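import Pool.Agent.LGF.Defs

/-!
# The set of all primes is not thin
-/

namespace Pool.Agent.LGF

open Chebyshev

theorem not_thin_primes : ¬ Plain.Thin {p : ℕ | p.Prime} := by
  intro h
  obtain ⟨N, hN⟩ := h (1 / 2) (by norm_num)
  obtain ⟨m, hm⟩ : ∃ m : ℕ, m = N + 8 := ⟨_, rfl⟩
  have hm8 : (8 : ℝ) ≤ m := by rw [hm]; push_cast; linarith [Nat.cast_nonneg (α := ℝ) N]
  have hNm : N ≤ m ^ 4 := by
    calc N ≤ m := by omega
      _ = m ^ 1 := (pow_one m).symm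
      _ ≤ m ^ 4 := Nat.pow_le_pow_right (by omega) (by norm_num)
  have h1 := hN (m ^ 4) hNm
  have h2 : ({p : ℕ | p ∈ {p : ℕ | p.Prime} ∧ p.Prime ∧ p ≤ m ^ 4}.ncard : ℝ) =
      Nat.primeCounting (m ^ 4) := by
    rw [← Nat.primesLE_card_eq_primeCounting, ← Set.ncard_coe_finset]
    congr 2
    ext p
    simp [Nat.mem_primesLE]
    tauto
  rw [h2] at h1
  have h3 : (((m ^ 4 : ℕ) : ℝ)) ^ (1 / 2 : ℝ) = (m : ℝ) ^ 2 := by
    rw [Nat.cast_pow, ← Real.rpow_natCast, ← Real.rpow_mul (by positivity), ← Real.rpow_natCast]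
    norm_num
  rw [h3] at h1
  have h4 := psi_ge (m ^ 4)
  have h5 := psi_le_primeCounting_mul_log (m ^ 4)
  have hlog : Real.log ((m ^ 4 : ℕ) : ℝ) ≤ 4 * m := by
    rw [Nat.cast_pow, Real.log_pow]
    have := Real.log_le_sub_one_of_pos (x := (m : ℝ)) (by linarith)
    push_cast
    linarith
  have hlog' : Real.log ((m ^ 4 : ℕ) + 1 : ℝ) ≤ 4 * m := by
    have e1 : ((m ^ 4 : ℕ) : ℝ) + 1 ≤ ((m : ℝ) + 1) ^ 4 := by
      push_cast
      nlinarith [pow_nonneg (by linarith : (0 : ℝ) ≤ m) 3, pow_nonneg (by linarith : (0 : ℝ) ≤ m) 2]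
    have e2 := Real.log_le_log (by positivity) e1
    rw [Real.log_pow] at e2
    have := Real.log_le_sub_one_of_pos (x := (m : ℝ) + 1) (by linarith)
    push_cast at e2 ⊢
    linarith
  have h6 : (Nat.primeCounting (m ^ 4) : ℝ) * Real.log ((m ^ 4 : ℕ) : ℝ) ≤ (m : ℝ) ^ 2 * (4 * m) := by
    refine mul_le_mul h1 hlog (Real.log_natCast_nonneg _) (by positivity)
  have h7 : ((m ^ 4 : ℕ) : ℝ) * Real.log 2 ≤ 4 * (m : ℝ) ^ 3 + 4 * m := by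
    have : (m : ℝ) ^ 2 * (4 * m) = 4 * (m : ℝ) ^ 3 := by ring
    linarith
  have h8 := Real.log_two_gt_d9
  have h9 : (m : ℝ) ^ 4 * 0.69 ≤ 4 * (m : ℝ) ^ 3 + 4 * m := by
    rw [Nat.cast_pow] at h7
    have : (0 : ℝ) ≤ (m : ℝ) ^ 4 := by positivity
    nlinarith
  have h10 : 8 * (m : ℝ) ^ 3 ≤ (m : ℝ) ^ 4 := by
    have : (0 : ℝ) ≤ (m : ℝ) ^ 3 := by positivity
    nlinarith
  have h11 : 8 * (m : ℝ) ≤ (m : ℝ) ^ 2 := by nlinarith
  have h12 : 8 * (m : ℝ) ^ 2 ≤ (m : ℝ) ^ 3 := by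
    have : (0 : ℝ) ≤ (m : ℝ) ^ 2 := by positivity
    nlinarith
  nlinarith

end Pool.Agent.LGF
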