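import Pool.Agent.LGF.Base

/-!
# Products of rings

MODULE LGF-Prod. PLAN. `IsProd f₁ f₂` says that `T → T₁ × T₂` is bijective.
* `IsProd.mv`: coefficientwise (`MvPolynomial.ext`, `MvPolynomial.coeff_map`). Injectivity: if both
  images agree then all coefficients agree. Surjectivity: given `p₁, p₂` take
  `∑ s ∈ p₁.support ∪ p₂.support, monomial s (e (p₁.coeff s, p₂.coeff s))`, `e` the inverse of the
  bijection (or `Finsupp.onFinset`-like construction); check coefficients.
* `IsProd.poly`: the same with `Polynomial`.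
* `isProd_res`: a function on `ι` is a pair of functions on `J` and `Jᶜ`
  (`Equiv.piEquivPiSubtypeProd` or by hand with `if h : i ∈ J then x ⟨i, h⟩ else y ⟨i, h⟩`).
* `isProd_res_prod`: the same for families over `ι × A` (apply `isProd_res` to `ι × A`, or by hand),
  where the two factors are indexed by `J × A`, `Jᶜ × A`.
-/

noncomputable section

namespace Pool.Agent.LGF

open Pool.Agent.GSM

variable {T T₁ T₂ : Type} [CommRing T] [CommRing T₁] [CommRing T₂] {f₁ : T →+* T₁} {f₂ : T →+* T₂}

theorem IsProd.mv (h : IsProd f₁ f₂) (I : Type) :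
    IsProd (MvPolynomial.map (σ := I) f₁) (MvPolynomial.map (σ := I) f₂) := by
  classical
  constructor
  · intro p q hpq
    have h1 : MvPolynomial.map f₁ p = MvPolynomial.map f₁ q := congrArg Prod.fst hpq
    have h2 : MvPolynomial.map f₂ p = MvPolynomial.map f₂ q := congrArg Prod.snd hpq
    ext s
    apply h.1
    refine Prod.ext ?_ ?_
    · show f₁ (p.coeff s) = f₁ (q.coeff s)
      rw [← MvPolynomial.coeff_map, ← MvPolynomial.coeff_map, h1]
    · show f₂ (p.coeff s) = f₂ (q.coeff s)
      rw [← MvPolynomial.coeff_map, ← MvPolynomial.coeff_map, h2]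
  · rintro ⟨p₁, p₂⟩
    have he : ∀ (a : T₁) (b : T₂), ∃ c : T, f₁ c = a ∧ f₂ c = b := by
      intro a b
      obtain ⟨c, hc⟩ := h.2 (a, b)
      exact ⟨c, congrArg Prod.fst hc, congrArg Prod.snd hc⟩
    choose e he1 he2 using he
    obtain ⟨q, hq⟩ : ∃ q : MvPolynomial I T, ∀ s, q.coeff s =
        if s ∈ p₁.support ∪ p₂.support then e (p₁.coeff s) (p₂.coeff s) else 0 := by
      refine ⟨∑ s ∈ p₁.support ∪ p₂.support, MvPolynomial.monomial s (e (p₁.coeff s) (p₂.coeff s)), ?_⟩
      intro s
      rw [MvPolynomial.coeff_sum]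
      simp only [MvPolynomial.coeff_monomial]
      rw [Finset.sum_ite_eq']
    have hz : ∀ s, s ∉ p₁.support ∪ p₂.support → p₁.coeff s = 0 ∧ p₂.coeff s = 0 := by
      intro s hs
      rw [Finset.mem_union, not_or, MvPolynomial.notMem_support_iff, MvPolynomial.notMem_support_iff] at hs
      exact hs
    refine ⟨q, Prod.ext ?_ ?_⟩
    · show MvPolynomial.map f₁ q = p₁
      ext s
      rw [MvPolynomial.coeff_map, hq]
      by_cases hs : s ∈ p₁.support ∪ p₂.support
      · rw [if_pos hs, he1]
      · rw [if_neg hs, map_zero, (hz s hs).1]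
    · show MvPolynomial.map f₂ q = p₂
      ext s
      rw [MvPolynomial.coeff_map, hq]
      by_cases hs : s ∈ p₁.support ∪ p₂.support
      · rw [if_pos hs, he2]
      · rw [if_neg hs, map_zero, (hz s hs).2]

theorem IsProd.poly (h : IsProd f₁ f₂) :
    IsProd (Polynomial.mapRingHom f₁) (Polynomial.mapRingHom f₂) := by
  classical
  constructor
  · intro p q hpq
    have h1 : Polynomial.map f₁ p = Polynomial.map f₁ q := congrArg Prod.fst hpq
    have h2 : Polynomial.map f₂ p = Polynomial.map f₂ q := congrArg Prod.snd hpq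
    ext s
    apply h.1
    refine Prod.ext ?_ ?_
    · show f₁ (p.coeff s) = f₁ (q.coeff s)
      rw [← Polynomial.coeff_map, ← Polynomial.coeff_map, h1]
    · show f₂ (p.coeff s) = f₂ (q.coeff s)
      rw [← Polynomial.coeff_map, ← Polynomial.coeff_map, h2]
  · rintro ⟨p₁, p₂⟩
    have he : ∀ (a : T₁) (b : T₂), ∃ c : T, f₁ c = a ∧ f₂ c = b := by
      intro a b
      obtain ⟨c, hc⟩ := h.2 (a, b)
      exact ⟨c, congrArg Prod.fst hc, congrArg Prod.snd hc⟩
    choose e he1 he2 using he
    obtain ⟨q, hq⟩ : ∃ q : Polynomial T, ∀ s, q.coeff s =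
        if s ∈ p₁.support ∪ p₂.support then e (p₁.coeff s) (p₂.coeff s) else 0 := by
      refine ⟨∑ s ∈ p₁.support ∪ p₂.support, Polynomial.monomial s (e (p₁.coeff s) (p₂.coeff s)), ?_⟩
      intro s
      rw [Polynomial.finsetSum_coeff]
      simp only [Polynomial.coeff_monomial]
      rw [Finset.sum_ite_eq']
    have hz : ∀ s, s ∉ p₁.support ∪ p₂.support → p₁.coeff s = 0 ∧ p₂.coeff s = 0 := by
      intro s hs
      rw [Finset.mem_union, not_or, Polynomial.notMem_support_iff, Polynomial.notMem_support_iff] at hs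
      exact hs
    refine ⟨q, Prod.ext ?_ ?_⟩
    · show Polynomial.map f₁ q = p₁
      ext s
      rw [Polynomial.coeff_map, hq]
      by_cases hs : s ∈ p₁.support ∪ p₂.support
      · rw [if_pos hs, he1]
      · rw [if_neg hs, map_zero, (hz s hs).1]
    · show Polynomial.map f₂ q = p₂
      ext s
      rw [Polynomial.coeff_map, hq]
      by_cases hs : s ∈ p₁.support ∪ p₂.support
      · rw [if_pos hs, he2]
      · rw [if_neg hs, map_zero, (hz s hs).2]

theorem isProd_res {ι : Type} (k : ι → Type) [∀ i, CommRing (k i)] (J : Set ι) :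
    IsProd (res k (Subtype.val : J → ι)) (res k (Subtype.val : (Jᶜ : Set ι) → ι)) := by
  classical
  constructor
  · intro x y hxy
    funext i
    by_cases hi : i ∈ J
    · exact congrFun (congrArg Prod.fst hxy) (⟨i, hi⟩ : J)
    · exact congrFun (congrArg Prod.snd hxy) (⟨i, hi⟩ : (Jᶜ : Set ι))
  · rintro ⟨y, z⟩
    refine ⟨fun i => if hi : i ∈ J then y ⟨i, hi⟩ else z ⟨i, hi⟩, Prod.ext ?_ ?_⟩
    · funext j
      exact dif_pos j.2
    · funext j
      exact dif_neg j.2

theorem isProd_res_prod {ι : Type} (k : ι → Type) [∀ i, CommRing (k i)] (A : Type) (J : Set ι) :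
    IsProd (res (fun s : ι × A => k s.1) (fun s : J × A => ((s.1 : ι), s.2)))
      (res (fun s : ι × A => k s.1) (fun s : (Jᶜ : Set ι) × A => ((s.1 : ι), s.2))) := by
  classical
  constructor
  · intro x y hxy
    funext s
    obtain ⟨i, a⟩ := s
    by_cases hi : i ∈ J
    · exact congrFun (congrArg Prod.fst hxy) ((⟨i, hi⟩, a) : J × A)
    · exact congrFun (congrArg Prod.snd hxy) ((⟨i, hi⟩, a) : (Jᶜ : Set ι) × A)
  · rintro ⟨y, z⟩
    refine ⟨fun s => if hi : s.1 ∈ J then y (⟨s.1, hi⟩, s.2) else z (⟨s.1, hi⟩, s.2), Prod.ext ?_ ?_⟩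
    · funext s
      exact dif_pos s.1.2
    · funext s
      exact dif_neg s.1.2

end Pool.Agent.LGF
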