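import Pool.Agent.LGF.Wgt
import Pool.Agent.LGF.ColM

/-!
# Principal ideals and multiplication by a section
-/

noncomputable section

namespace Pool.Agent.LGF

open Polynomial Module Matrix

namespace Crv

variable {k : Type} [Field k] {d : ℕ} {a : Fin d → ℕ} {Y : Crv k d a} {f s y : Y.O} {m n : ℕ}

private theorem rieA_mat (h : Y.Le f n) (l l' : Fin d) :
    Y.mat f l' l = 0 ∨ (Y.mat f l' l).natDegree + a l' ≤ n + a l := by
  have h1 := le_mul h (le_basis l) l'
  have h2 : Y.mat f l' l = Y.ω.repr (f * Y.ω l) l' := by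
    unfold mat
    rw [Algebra.leftMulMatrix_eq_repr_mul]
  rw [h2]
  exact h1

private theorem rieA_det (h : Y.Le f n) : (Algebra.norm k[X] f).natDegree ≤ n * d := by
  rw [Algebra.norm_eq_matrix_det Y.ω f, Matrix.det_apply]
  refine natDegree_sum_le_of_forall_le _ _ fun σ _ => ?_
  have h1 : (∏ i, Algebra.leftMulMatrix Y.ω f (σ i) i).natDegree ≤ n * d := by
    by_cases h0 : ∃ i, Algebra.leftMulMatrix Y.ω f (σ i) i = 0
    · obtain ⟨i, hi⟩ := h0
      rw [Finset.prod_eq_zero (f := fun i => Algebra.leftMulMatrix Y.ω f (σ i) i)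
        (Finset.mem_univ i) hi, natDegree_zero]
      exact Nat.zero_le _
    · push Not at h0
      refine (natDegree_prod_le _ _).trans ?_
      have h2 : ∑ i, ((Algebra.leftMulMatrix Y.ω f (σ i) i).natDegree + a (σ i)) ≤
          ∑ i, (n + a i) :=
        Finset.sum_le_sum fun i _ => (rieA_mat h i (σ i)).resolve_left (h0 i)
      rw [Finset.sum_add_distrib, Finset.sum_add_distrib, Equiv.sum_comp σ a, Finset.sum_const,
        Finset.card_univ, Fintype.card_fin, smul_eq_mul, Nat.mul_comm d n] at h2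
      exact Nat.le_of_add_le_add_right h2
  rcases Int.units_eq_one_or (Equiv.Perm.sign σ) with h2 | h2
  · rw [h2, one_smul]
    exact h1
  · rw [h2, Units.neg_smul, one_smul, natDegree_neg]
    exact h1

theorem col_span_le (hf : f ≠ 0) (h : Y.Le f n) :
    ∃ N, Y.Col (Ideal.span {f}) N ∧ N ≤ n * d := by
  have hI : Ideal.span ({f} : Set Y.O) ≠ ⊥ := Ideal.span_singleton_eq_bot.not.2 hf
  have h1 := finrank_quotient_span_eq_natDegree_norm (F := k) Y.ω hf
  refine ⟨_, ⟨?_, rfl⟩, h1 ▸ rieA_det h⟩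
  have h2 := Ideal.quotientEquivDirectSum k Y.ω hI
  exact Module.Finite.equiv h2.symm

theorem exists_dvd_poly (hs : s ≠ 0) : ∃ q : k[X], q ≠ 0 ∧ s ∣ algebraMap k[X] Y.O q := by
  have hfin : Module.Finite k[X] Y.O := Module.Finite.of_basis Y.ω
  have h1 := Ideal.comap_ne_bot_of_integral_mem (R := k[X]) hs
    (Ideal.mem_span_singleton_self s) (Algebra.IsIntegral.isIntegral s)
  obtain ⟨q, hq, hq0⟩ := Submodule.exists_mem_ne_zero_of_ne_bot h1
  exact ⟨q, hq0, Ideal.mem_span_singleton.1 hq⟩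

theorem mul_surj (hs : s ≠ 0) (h : Y.Le s m) (y : Y.O) :
    ∃ x w : Y.O, y = s * x + w ∧ Y.Lt w (m + ∑ l, a l) := by
  obtain ⟨q, hq0, s', hs'⟩ := exists_dvd_poly hs
  obtain ⟨x, hx⟩ : ∃ x : Y.O, ∀ l, Y.ω.repr x l = Y.ω.repr (s' * y) l / q :=
    ⟨Y.ω.equivFun.symm fun l => Y.ω.repr (s' * y) l / q, fun l => by
      rw [← Basis.equivFun_apply, LinearEquiv.apply_symm_apply]⟩
  obtain ⟨r, hr⟩ : ∃ r : Y.O, ∀ l, Y.ω.repr r l = Y.ω.repr (s' * y) l % q :=
    ⟨Y.ω.equivFun.symm fun l => Y.ω.repr (s' * y) l % q, fun l => by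
      rw [← Basis.equivFun_apply, LinearEquiv.apply_symm_apply]⟩
  have h1 : s' * y = q • x + r := by
    refine Y.ω.ext_elem fun l => ?_
    rw [map_add, Finsupp.add_apply, map_smul, Finsupp.smul_apply, smul_eq_mul, hx, hr]
    exact (EuclideanDomain.div_add_mod _ _).symm
  have hA : ∀ l, a l ≤ ∑ l, a l := fun l =>
    Finset.single_le_sum (f := a) (fun _ _ => Nat.zero_le _) (Finset.mem_univ l)
  have h2 : Y.Lt r (q.natDegree + ∑ l, a l) := by
    intro l
    rw [hr]
    by_cases h3 : Y.ω.repr (s' * y) l % q = 0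
    · exact Or.inl h3
    · right
      have h4 := natDegree_lt_natDegree h3 (degree_mod_lt (Y.ω.repr (s' * y) l) hq0)
      have h5 := hA l
      omega
  have h3 := lt_mul h h2
  have h4 : q • (y - s * x) = s * r := by
    have h5 : r = s' * y - q • x := by rw [h1]; ring
    rw [h5, smul_sub, mul_sub, ← mul_assoc, ← hs', mul_smul_comm, Algebra.smul_def]
  refine ⟨x, y - s * x, by ring, fun l => ?_⟩
  have h5 := h3 l
  rw [← h4, map_smul, Finsupp.smul_apply, smul_eq_mul] at h5
  by_cases h6 : Y.ω.repr (y - s * x) l = 0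
  · exact Or.inl h6
  · right
    rcases h5 with h5 | h5
    · exact absurd h5 (mul_ne_zero hq0 h6)
    · rw [natDegree_mul hq0 h6] at h5
      omega

end Crv

end Pool.Agent.LGF
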