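import Pool.Agent.LGF.Wgt

/-!
# Dimensions of the spaces of elements of bounded weight

MODULE LGF-RieB. PLAN. `leSub n` has the `k`-basis `X ^ j ω l` with `j + a l ≤ n`; so its dimension is
`∑ l, (n + 1 - a l)` (truncated subtraction). Show: `leSub n` is linearly equivalent to
`∀ l, degreeLT k (n + 1 - a l)` (coordinates; `Polynomial.degreeLTEquiv`), then
`finrank_pi`-type formula. `d * (n + 1) ≤ ∑ (n + 1 - a l) + ∑ a l`.
-/

noncomputable section

namespace Pool.Agent.LGF

open Polynomial Module

namespace Crv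

variable {k : Type} [Field k] {d : ℕ} {a : Fin d → ℕ} (Y : Crv k d a)

/-- The elements of weight at most `n`. -/
def leSub (n : ℕ) : Submodule k Y.O where
  carrier := {x | Y.Le x n}
  add_mem' := fun hx hy => le_add hx hy
  zero_mem' := fun l => Or.inl (by rw [map_zero]; rfl)
  smul_mem' := fun c x hx => by
    have h := le_mul (le_algebraMap (Y := Y) c) hx
    rw [← Algebra.smul_def, Nat.zero_add] at h
    exact h

theorem mem_leSub {n : ℕ} {x : Y.O} : x ∈ Y.leSub n ↔ Y.Le x n := Iff.rfl

private def coord (n : ℕ) : Y.leSub n →ₗ[k] ((l : Fin d) → degreeLT k (n + 1 - a l)) where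
  toFun x := fun l => ⟨Y.ω.repr x.1 l, by
    rw [mem_degreeLT]
    rcases x.2 l with h | h
    · rw [h, degree_zero]
      exact WithBot.bot_lt_coe _
    · by_cases h0 : Y.ω.repr x.1 l = 0
      · rw [h0, degree_zero]
        exact WithBot.bot_lt_coe _
      · rw [degree_eq_natDegree h0]
        exact Nat.cast_lt.2 (by omega)⟩
  map_add' x y := by
    funext l
    apply Subtype.ext
    change Y.ω.repr (x.1 + y.1) l = Y.ω.repr x.1 l + Y.ω.repr y.1 l
    rw [map_add, Finsupp.add_apply]
  map_smul' c x := by
    funext l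
    apply Subtype.ext
    change Y.ω.repr (c • x.1) l = c • Y.ω.repr x.1 l
    rw [← IsScalarTower.algebraMap_smul k[X] c x.1, map_smul, Finsupp.smul_apply,
      IsScalarTower.algebraMap_smul]

private theorem coord_val {n : ℕ} (x : Y.leSub n) (l : Fin d) :
    ((Y.coord n x l : degreeLT k (n + 1 - a l)) : k[X]) = Y.ω.repr x.1 l := rfl

private theorem coord_bij (n : ℕ) : Function.Bijective (Y.coord n) := by
  constructor
  · intro x y h
    apply Subtype.ext
    apply Y.ω.ext_elem
    intro l
    rw [← coord_val, ← coord_val, h]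
  · intro f
    let x : Y.O := Y.ω.equivFun.symm fun l => (f l : k[X])
    have hx : ∀ l, Y.ω.repr x l = f l := by
      intro l
      have h := congrFun (Y.ω.equivFun.apply_symm_apply fun l => (f l : k[X])) l
      exact h
    refine ⟨⟨x, ?_⟩, ?_⟩
    · rw [mem_leSub]
      intro l
      by_cases h0 : Y.ω.repr x l = 0
      · exact Or.inl h0
      · right
        have h1 := (f l).2
        rw [mem_degreeLT, ← hx l, degree_eq_natDegree h0] at h1
        have h2 := Nat.cast_lt.1 h1
        omega
    · funext l
      apply Subtype.ext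
      rw [coord_val]
      exact hx l

private def eqv (n : ℕ) : Y.leSub n ≃ₗ[k] ((l : Fin d) → degreeLT k (n + 1 - a l)) :=
  LinearEquiv.ofBijective (Y.coord n) (Y.coord_bij n)

private theorem fin_deg (m : ℕ) : Module.Finite k (degreeLT k m) :=
  Module.Finite.equiv (degreeLTEquiv k m).symm

private theorem rank_deg (m : ℕ) : finrank k (degreeLT k m) = m := by
  rw [(degreeLTEquiv k m).finrank_eq, finrank_fin_fun]

theorem leSub_finite (n : ℕ) : Module.Finite k (Y.leSub n) := by
  haveI : ∀ l : Fin d, Module.Finite k (degreeLT k (n + 1 - a l)) := fun l => fin_deg _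
  exact Module.Finite.equiv (Y.eqv n).symm

theorem finrank_leSub (n : ℕ) : finrank k (Y.leSub n) = ∑ l, (n + 1 - a l) := by
  haveI : ∀ l : Fin d, Module.Finite k (degreeLT k (n + 1 - a l)) := fun l => fin_deg _
  rw [(Y.eqv n).finrank_eq, finrank_pi_fintype]
  exact Finset.sum_congr rfl fun l _ => rank_deg _

theorem le_finrank_leSub (n : ℕ) : d * (n + 1) ≤ finrank k (Y.leSub n) + ∑ l, a l := by
  rw [finrank_leSub, ← Finset.sum_add_distrib]
  calc d * (n + 1) = ∑ _l : Fin d, (n + 1) := by
        rw [Finset.sum_const, Finset.card_univ, Fintype.card_fin, smul_eq_mul]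
    _ ≤ _ := Finset.sum_le_sum fun l _ => by omega

theorem finrank_leSub_le (n : ℕ) : finrank k (Y.leSub n) ≤ d * (n + 1) := by
  rw [finrank_leSub]
  calc ∑ l, (n + 1 - a l) ≤ ∑ _l : Fin d, (n + 1) := Finset.sum_le_sum fun l _ => by omega
    _ = d * (n + 1) := by
        rw [Finset.sum_const, Finset.card_univ, Fintype.card_fin, smul_eq_mul]

end Crv

end Pool.Agent.LGF
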