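import Pool.Agent.LGF.RieA
import Pool.Agent.LGF.RieB
import Pool.Agent.LGF.Nrm

/-!
# Riemann's theorem

MODULE LGF-RieC. PLAN. `A = ∑ l, a l`. For `n` let `V n = O / (J ⊔ leSub n)` (`k`-vector space, quotient
of `O / J`). Suppose `V M ≠ 0` and let `φ : O → k` be a nonzero `k`-linear functional vanishing on `J` and
`leSub M`. Put `m = M - A`. For `s ∈ leSub m` the functional `x ↦ φ (s x)` vanishes on `J` and
on `leSub A`, so it is a functional on `V A`; if `s ≠ 0` it is not zero: otherwise for all `y`,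
`y = s x + w` with `Lt w (m + A)` (`mul_surj`), `φ y = φ (s x) + φ w = 0`. So
`leSub m → Dual (V A)` is injective and `finrank (leSub m) ≤ finrank (V A)`.
`J ⊓ leSub A = ⊥`: for `0 ≠ f` in it, `N ≤ finrank (O / (f)) ≤ A * d` (`col_span_le`), contradiction.
So `finrank (V A) = N - finrank (leSub A)`: `leSub A → O / J` is injective and `V A` is the quotient.
With `le_finrank_leSub` for `m` and `A`: `d (m + 1) - A ≤ N - d (A + 1) + A`, so
`d * (M + 2) ≤ N + 2 * A`, contradiction.
* `exists_nrm`: apply `riem` to `x = t ^ m`, `M = m - 1`.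
-/

noncomputable section

namespace Pool.Agent.LGF

open Polynomial Module

namespace Crv

variable {k : Type} [Field k] {d : ℕ} {a : Fin d → ℕ} {Y : Crv k d a} {J : Ideal Y.O} {N M m : ℕ}

/-- `J ⊓ leSub A = ⊥` -/
private theorem inf_bot (hJ : Y.Col J N) (h1 : d * ∑ l, a l < N) {f : Y.O} (hf : f ∈ J)
    (hf' : Y.Le f (∑ l, a l)) : f = 0 := by
  by_contra h0
  obtain ⟨N', ⟨hfin, hN'⟩, hle⟩ := col_span_le h0 hf'
  have hspan : Ideal.span {f} ≤ J := (Ideal.span_singleton_le_iff_mem J).mpr hf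
  have hsurj : Function.Surjective (Ideal.Quotient.factorₐ k hspan).toLinearMap := by
    intro z
    obtain ⟨w, hw⟩ := Ideal.Quotient.mk_surjective z
    exact ⟨Ideal.Quotient.mk _ w, by simp [← hw]⟩
  haveI := hfin
  have := LinearMap.finrank_le_finrank_of_surjective
    (f := (Ideal.Quotient.factorₐ k hspan).toLinearMap) hsurj
  rw [hN', hJ.2] at this
  have h2 : N' ≤ d * ∑ l, a l := by rw [mul_comm]; exact hle
  omega

/-- the multiplication followed by a functional -/
private def mulFun (φ : Y.O →ₗ[k] k) (m : ℕ) : Y.leSub m →ₗ[k] Module.Dual k Y.O :=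
  ((LinearMap.mul k Y.O).compr₂ φ).comp (Y.leSub m).subtype

private theorem mulFun_apply (φ : Y.O →ₗ[k] k) (m : ℕ) (s : Y.leSub m) (x : Y.O) :
    mulFun φ m s x = φ ((s : Y.O) * x) := rfl

private theorem mulFun_inj {φ : Y.O →ₗ[k] k} (hφ : φ ≠ 0) (hM : ∀ w, Y.Le w (m + ∑ l, a l) → φ w = 0) :
    Function.Injective (mulFun (Y := Y) φ m) := by
  rw [← LinearMap.ker_eq_bot, LinearMap.ker_eq_bot']
  intro s hs
  by_contra h0
  have hs0 : (s : Y.O) ≠ 0 := fun h => h0 (Subtype.ext h)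
  apply hφ
  ext y
  obtain ⟨x, w, hy, hw⟩ := mul_surj hs0 (mem_leSub Y |>.mp s.2) y
  have h1 : φ ((s : Y.O) * x) = 0 := by
    rw [← mulFun_apply, hs]
    rfl
  have h2 : φ w = 0 := hM w (fun l => (hw l).imp_right le_of_lt)
  rw [hy, map_add, h1, h2]
  simp

theorem riem (hJ : Y.Col J N) (h1 : d * ∑ l, a l < N) (h2 : ∑ l, a l ≤ M)
    (h3 : N + 2 * ∑ l, a l < d * (M + 2)) (x : Y.O) : ∃ y ∈ J, Y.Le (x - y) M := by
  set A := ∑ l, a l with hA
  by_cases hW : J.restrictScalars k ⊔ Y.leSub M = ⊤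
  · have hx : x ∈ J.restrictScalars k ⊔ Y.leSub M := by rw [hW]; trivial
    obtain ⟨y, hy, z, hz, hyz⟩ := Submodule.mem_sup.mp hx
    refine ⟨y, hy, ?_⟩
    rw [← hyz, add_sub_cancel_left]
    exact hz
  · exfalso
    obtain ⟨φ, hφ0, hφ⟩ := Submodule.exists_le_ker_of_lt_top _ (lt_top_iff_ne_top.mpr hW)
    have hφJ : ∀ w ∈ J, φ w = 0 := fun w hw =>
      LinearMap.mem_ker.mp (hφ (Submodule.mem_sup_left (S := J.restrictScalars k) hw))
    have hφM : ∀ w, Y.Le w M → φ w = 0 := fun w hw =>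
      LinearMap.mem_ker.mp (hφ (Submodule.mem_sup_right (T := Y.leSub M) hw))
    have hmM : M - A + A = M := by omega
    haveI hJfin := hJ.1
    let π : Y.O →ₗ[k] (Y.O ⧸ J) := (Ideal.Quotient.mkₐ k J).toLinearMap
    let πA : Y.leSub A →ₗ[k] (Y.O ⧸ J) := π.comp (Y.leSub A).subtype
    have hπA : Function.Injective πA := by
      rw [← LinearMap.ker_eq_bot, LinearMap.ker_eq_bot']
      intro u hu
      have hu' : (u : Y.O) ∈ J := Ideal.Quotient.eq_zero_iff_mem.mp hu
      exact Subtype.ext (inf_bot hJ h1 hu' u.2)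
    let R := LinearMap.range πA
    have hR : finrank k R = finrank k (Y.leSub A) := LinearMap.finrank_range_of_inj hπA
    have hQ : finrank k ((Y.O ⧸ J) ⧸ R) + finrank k R = N := by
      rw [Submodule.finrank_quotient_add_finrank, hJ.2]
    let π' : Y.O →ₗ[k] ((Y.O ⧸ J) ⧸ R) := R.mkQ.comp π
    have hle : LinearMap.range (mulFun (Y := Y) φ (M - A)) ≤ LinearMap.range π'.dualMap := by
      rintro _ ⟨s, rfl⟩
      rw [LinearMap.range_dualMap_eq_dualAnnihilator_ker, Submodule.mem_dualAnnihilator]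
      intro w hw
      have hw' : π w ∈ R := by
        have : R.mkQ (π w) = 0 := hw
        rwa [Submodule.mkQ_apply, Submodule.Quotient.mk_eq_zero] at this
      obtain ⟨u, hu⟩ := hw'
      have hwu : w - (u : Y.O) ∈ J := by
        have : Ideal.Quotient.mk J w = Ideal.Quotient.mk J (u : Y.O) := hu.symm
        exact Ideal.Quotient.eq.mp this
      have e : (s : Y.O) * w = (s : Y.O) * (w - (u : Y.O)) + (s : Y.O) * (u : Y.O) := by ring
      rw [mulFun_apply, e, map_add, hφJ _ (J.mul_mem_left _ hwu), zero_add]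
      refine hφM _ ?_
      have := le_mul (Y := Y) s.2 u.2
      rwa [hmM] at this
    have hinj : Function.Injective (mulFun (Y := Y) φ (M - A)) :=
      mulFun_inj hφ0 (fun w hw => hφM w (by rwa [← hA, hmM] at hw))
    have k1 : finrank k (Y.leSub (M - A)) ≤ finrank k ((Y.O ⧸ J) ⧸ R) := by
      rw [← LinearMap.finrank_range_of_inj hinj]
      refine (Submodule.finrank_mono hle).trans ?_
      refine (LinearMap.finrank_range_le _).trans ?_
      rw [Subspace.dual_finrank_eq]
    have k2 := le_finrank_leSub Y (M - A)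
    have k3 := le_finrank_leSub Y A
    rw [← hA] at k2 k3
    have k4 : d * (M - A + 1) + d * (A + 1) = d * (M + 2) := by
      rw [← mul_add]
      congr 1
      omega
    omega

theorem exists_nrm (hJ : Y.Col J N) (h1 : d * ∑ l, a l < N) (h2 : ∑ l, a l < m)
    (h3 : N + 2 * ∑ l, a l < d * (m + 1)) : ∃ f ∈ J, Y.Nrm m f := by
  have hm : m - 1 + 2 = m + 1 := by omega
  obtain ⟨y, hy, hle⟩ := riem hJ h1 (M := m - 1) (by omega) (by rw [hm]; exact h3) (Y.t ^ m)
  refine ⟨y, hy, ?_⟩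
  have h4 : Y.Lt (Y.t ^ m - y) m := fun l => (hle l).imp_right (fun h => by omega)
  have h5 := lt_neg h4
  rw [neg_sub] at h5
  exact h5

end Crv

end Pool.Agent.LGF
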