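import Pool.Agent.LGF.CD
import Pool.Agent.LGF.MkC
import Pool.Agent.LGF.Wgt

/-!
# Specialisation of curve data to a finite field

MODULE LGF-Sgl. PLAN. `e` = a common bound of the degrees of the coefficients of `D.Φ`
(`natDegree (coeff j) ≤ e ≤ e * (D - j)` for `j < D`; the coefficient at `D` is `1`).
`D' = D.Φ.natDegree`. For the field `k` and `ρ : C → k` with `δ(ρ t) ≠ 0`: let `s = ρ|_S : S → k`,
`Φ_k = D.Φ.map (mapRingHom s)` (monic of the same degree), `t₀ = ρ t`, `θ₀ = ρ θ`;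
`Φ_k(t₀, θ₀) = ρ (Φ(t, θ)) = 0`. `exists_crv` gives `Y`, `θ'`, `𝔭`, `𝔮`. `exists_spec` with
`f' = algebraMap k O ∘ s`, `t' = Y.t`, `θ'` gives `h : C → O` (`δ(t') ≠ 0` because the polynomial
`δ.map s` is not zero: its value at `t₀` is not; `algebraMap k[X] O` is injective; `O` is integrally
closed as a Dedekind domain). 
Weights: for `c : C` fix `n, p` with `δ(t)^n c = p(t, θ)` (independent of `k`): `w c` = a bound for
`natDegree (p.coeff j) + e j`. Then `δ'^n h c = p(t', θ')` has weight `≤ w c`, and `δ'` is a nonzero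
element of `k[X]`, so `h c` has weight `≤ w c`.
`h c - ρ c ∈ 𝔭`: modulo `𝔭`, `t' ≡ t₀`, `θ' ≡ θ₀`, so `δ(t₀)^n h c ≡ p(t₀, θ₀) = δ(t₀)^n ρ c`, and
`δ(t₀)` is invertible.
The last clause: for `c : C` take `χ` from `D.int c`; apply `h` and reduce modulo `𝔮 ∋ t'`:
`∑_j (χ.coeff j).coeff 0 • (h c)^j ∈ 𝔮`.
-/

noncomputable section

namespace Pool.Agent.LGF

open Polynomial

private theorem sg_hom {S C A : Type} [CommRing S] [CommRing C] [CommRing A] (f : S →+* C) (t θ : C)
    (g : C →+* A) (p : S[X][X]) : g (ev2 f t θ p) = ev2 (g.comp f) (g t) (g θ) p := by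
  unfold ev2
  simp only [coe_eval₂RingHom]
  rw [hom_eval₂]
  congr 1
  apply RingHom.ext
  intro q
  simp only [RingHom.comp_apply, coe_eval₂RingHom]
  rw [hom_eval₂]

private theorem sg_zero {S A : Type} [CommRing S] [CommRing A] (g : S →+* A) (z : A) (χ : S[X][X]) :
    ev2 g 0 z χ = (χ.map Polynomial.constantCoeff).eval₂ g z := by
  unfold ev2
  rw [coe_eval₂RingHom, eval₂_map]
  congr 1
  apply RingHom.ext
  intro q
  simp only [RingHom.comp_apply, coe_eval₂RingHom, constantCoeff_apply, eval₂_at_zero]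

private theorem sg_smul {k : Type} [Field k] {d : ℕ} {a : Fin d → ℕ} {Y : Crv k d a} {x : Y.O} {n : ℕ}
    {q : k[X]} (hq : q ≠ 0) (h : Y.Le (q • x) n) : Y.Le x n := by
  intro l
  have h1 := h l
  rw [map_smul, Finsupp.smul_apply, smul_eq_mul] at h1
  rcases h1 with h1 | h1
  · exact Or.inl ((mul_eq_zero.1 h1).resolve_left hq)
  · by_cases h2 : Y.ω.repr x l = 0
    · exact Or.inl h2
    · right
      rw [natDegree_mul hq h2] at h1
      omega

private theorem sg_pow {k : Type} [Field k] {d : ℕ} {a : Fin d → ℕ} {Y : Crv k d a} {x : Y.O} {e : ℕ}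
    (h : Y.Le x e) (j : ℕ) : Y.Le (x ^ j) (e * j) := by
  induction j with
  | zero =>
    rw [pow_zero, mul_zero]
    exact Y.one_le
  | succ j ih =>
    rw [pow_succ, mul_add, mul_one]
    exact Crv.le_mul ih h

private theorem sg_sum {k : Type} [Field k] {d : ℕ} {a : Fin d → ℕ} {Y : Crv k d a} {n : ℕ} (T : Finset ℕ)
    (x : ℕ → Y.O) (h : ∀ j ∈ T, Y.Le (x j) n) : Y.Le (∑ j ∈ T, x j) n := by
  induction T using Finset.induction_on with
  | empty =>
    rw [Finset.sum_empty]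
    intro l
    left
    rw [map_zero, Finsupp.zero_apply]
  | insert j T hj ih =>
    rw [Finset.sum_insert hj]
    exact Crv.le_add (h j (Finset.mem_insert_self _ _))
      (ih fun i hi => h i (Finset.mem_insert_of_mem hi))

private theorem sg_al {k : Type} [Field k] {d : ℕ} {a : Fin d → ℕ} (Y : Crv k d a) {S : Type} [CommRing S]
    (s : S →+* k) (q : S[X]) : q.eval₂ ((algebraMap k Y.O).comp s) Y.t = algebraMap k[X] Y.O (q.map s) := by
  have h : (algebraMap k[X] Y.O).comp (mapRingHom s) = eval₂RingHom ((algebraMap k Y.O).comp s) Y.t := by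
    apply ringHom_ext
    · intro c
      simp only [RingHom.comp_apply, coe_mapRingHom, map_C, coe_eval₂RingHom, eval₂_C]
      rw [IsScalarTower.algebraMap_apply k k[X] Y.O]
      rfl
    · simp only [RingHom.comp_apply, coe_mapRingHom, map_X, coe_eval₂RingHom, eval₂_X]
      rfl
  have h1 := RingHom.congr_fun h q
  simpa using h1.symm

private theorem sg_inj {k : Type} [Field k] {d : ℕ} {a : Fin d → ℕ} (Y : Crv k d a) {q : k[X]} (hq : q ≠ 0) :
    algebraMap k[X] Y.O q ≠ 0 := by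
  intro h
  have h1 : q • (1 : Y.O) = 0 := by
    rw [Algebra.smul_def, h, zero_mul]
  have h2 : Y.Lt (q • (1 : Y.O)) 0 := by
    rw [h1]
    exact Crv.lt_zero_iff.2 rfl
  have h3 : (1 : Y.O) = 0 := by
    apply Y.ω.ext_elem
    intro l
    have h4 : Y.ω.repr (q • (1 : Y.O)) l = 0 := by
      rw [h1, map_zero, Finsupp.zero_apply]
    rw [map_smul, Finsupp.smul_apply, smul_eq_mul] at h4
    rw [map_zero, Finsupp.zero_apply]
    exact (mul_eq_zero.1 h4).resolve_left hq
  exact one_ne_zero h3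

theorem exists_single {K : Type} [Field K] [CharZero K] {C : Subring K} {m : ℕ} (D : CD C m) :
    ∃ (B : ℕ) (w : C → ℕ), 0 < B ∧ ∀ (k : Type) [Field k] (ρ : C →+* k),
      ρ (D.δ.eval₂ (Subring.inclusion D.le) D.t) ≠ 0 → (ringChar k = 0 ∨ B < ringChar k) →
      ∃ (d : ℕ) (a : Fin d → ℕ) (Y : Crv k d a) (h : C →+* Y.O) (𝔭 𝔮 : Ideal Y.O) (Np Nq : ℕ),
        d ≤ B ∧ (∀ l, a l ≤ B) ∧ (∀ c, Y.Le (h c) (w c)) ∧
        (∀ c, h c - algebraMap k Y.O (ρ c) ∈ 𝔭) ∧ 𝔮.IsMaximal ∧ Y.t ∈ 𝔮 ∧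
        Y.Col 𝔭 Np ∧ 0 < Np ∧ Np ≤ B ∧ Y.Col 𝔮 Nq ∧ 0 < Nq ∧ Nq ≤ B ∧
        (∀ s : D.S, h (Subring.inclusion D.le s) =
          algebraMap k Y.O (ρ (Subring.inclusion D.le s))) ∧
        ∀ c (χ : D.S[X][X]), ev2 (Subring.inclusion D.le) D.t c χ = 0 →
          (χ.map (Polynomial.constantCoeff)).eval₂ (h.comp (Subring.inclusion D.le)) (h c) ∈ 𝔮 := by
  classical
  obtain ⟨i, hi⟩ : ∃ i : D.S →+* C, i = Subring.inclusion D.le := ⟨_, rfl⟩
  have hroot := D.root
  have hker := D.ker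
  have hδne := D.δ_ne
  have hgen := D.gen
  have hint := D.int
  rw [← hi] at hroot hδne ⊢
  simp only [← hi] at hker hgen hint
  have hmon := D.monic
  have hpos := D.pos
  choose nn pp hnp using hgen
  obtain ⟨e, he⟩ : ∃ e : ℕ, ∀ j, (D.Φ.coeff j).natDegree ≤ e := by
    refine ⟨∑ j ∈ Finset.range (D.Φ.natDegree + 1), (D.Φ.coeff j).natDegree, fun j => ?_⟩
    by_cases hj : j < D.Φ.natDegree + 1
    · exact Finset.single_le_sum (f := fun j => (D.Φ.coeff j).natDegree) (fun _ _ => Nat.zero_le _)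
        (Finset.mem_range.2 hj)
    · rw [coeff_eq_zero_of_natDegree_lt (by omega), natDegree_zero]
      exact Nat.zero_le _
  refine ⟨e * D.Φ.natDegree + 1 + D.Φ.natDegree,
    fun c => ∑ j ∈ Finset.range ((pp c).natDegree + 1), (((pp c).coeff j).natDegree + e * j), by omega, ?_⟩
  intro k _ ρ hρ hch
  have hδ1 := hρ
  have hmap : (D.Φ.map (mapRingHom (ρ.comp i))).natDegree = D.Φ.natDegree := hmon.natDegree_map _
  obtain ⟨d, a, Y, θ', 𝔭, 𝔮, Np, Nq, hd, ha, -, hθ0, hθe, hpm, hpt, hpθ, hqm, hqt, hcp, hNp, hNp', hcq, hNq,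
      hNq'⟩ := exists_crv (D.Φ.map (mapRingHom (ρ.comp i))) (hmon.map _) D.Φ.natDegree e hmap hpos
    (by
      intro j
      rw [coeff_map]
      by_cases hj : j < D.Φ.natDegree
      · have h1 : ((mapRingHom (ρ.comp i)) (D.Φ.coeff j)).natDegree ≤ (D.Φ.coeff j).natDegree := by
          rw [coe_mapRingHom]
          exact natDegree_map_le
        have h2 := he j
        have h3 : e * 1 ≤ e * (D.Φ.natDegree - j) := Nat.mul_le_mul_left _ (by omega)
        omega
      · by_cases hj2 : j = D.Φ.natDegree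
        · subst hj2
          rw [hmon.coeff_natDegree, map_one, natDegree_one]
          exact Nat.zero_le _
        · rw [coeff_eq_zero_of_natDegree_lt (by omega), map_zero, natDegree_zero]
          exact Nat.zero_le _)
    (by
      rcases hch with h | h
      · exact Or.inl h
      · right
        omega) (ρ D.t) (ρ D.θ)
    (by
      have h1 := sg_hom i D.t D.θ ρ D.Φ
      rw [hroot, map_zero] at h1
      rw [h1]
      unfold ev2
      rw [coe_eval₂RingHom, map_map, eval_map]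
      congr 1
      apply ringHom_ext
      · intro c
        simp
      · simp)
  obtain ⟨al, hal⟩ : ∃ al : k →+* Y.O, al = algebraMap k Y.O := ⟨_, rfl⟩
  have hδk : D.δ.map (ρ.comp i) ≠ 0 := by
    intro h0
    apply hδ1
    rw [hom_eval₂, ← eval_map, h0, eval_zero]
  have hev : ∀ q : D.S[X], q.eval₂ (al.comp (ρ.comp i)) Y.t = algebraMap k[X] Y.O (q.map (ρ.comp i)) := by
    intro q
    rw [hal]
    exact sg_al Y _ q
  have hδ' : D.δ.eval₂ (al.comp (ρ.comp i)) Y.t ≠ 0 := by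
    rw [hev]
    exact sg_inj Y hδk
  have hΦ' : ev2 (al.comp (ρ.comp i)) Y.t θ' D.Φ = 0 := by
    rw [← hθ0]
    unfold ev2
    rw [coe_eval₂RingHom, aeval_def, eval₂_map]
    congr 1
    apply RingHom.ext
    intro q
    rw [coe_eval₂RingHom, hev]
    rfl
  obtain ⟨h, h1, h2, h3⟩ := exists_spec i D.t D.θ D.Φ D.δ hker hδne (fun c => ⟨nn c, pp c, hnp c⟩) hint
    (al.comp (ρ.comp i)) Y.t θ' hΦ' hδ'
  have hs : ∀ s, h (i s) = al (ρ (i s)) := fun s => RingHom.congr_fun h1 s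
  refine ⟨d, a, Y, h, 𝔭, 𝔮, Np, Nq, by omega, fun l => (ha l).trans (by omega), ?_, ?_, hqm, hqt, hcp, hNp,
    by omega, hcq, hNq, by omega, ?_, ?_⟩
  · intro c
    have e1 := congrArg h (hnp c)
    rw [map_mul, map_pow, hom_eval₂, sg_hom, h1, h2, h3, hev, ← map_pow, ← Algebra.smul_def] at e1
    refine sg_smul (pow_ne_zero (nn c) hδk) ?_
    rw [e1]
    unfold ev2
    rw [coe_eval₂RingHom, eval₂_eq_sum_range]
    refine sg_sum _ _ fun j hj => ?_
    rw [coe_eval₂RingHom, hev, ← Algebra.smul_def]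
    have e2 := Crv.le_smul (((pp c).coeff j).map (ρ.comp i)) (sg_pow hθe j)
    refine Crv.le_mono ?_ e2
    refine le_trans (Nat.add_le_add_right natDegree_map_le _) ?_
    exact Finset.single_le_sum (f := fun j => ((pp c).coeff j).natDegree + e * j) (fun _ _ => Nat.zero_le _) hj
  · intro c
    rw [← hal, ← Ideal.Quotient.eq]
    obtain ⟨π, hπ⟩ : ∃ π : Y.O →+* (Y.O ⧸ 𝔭), π = Ideal.Quotient.mk 𝔭 := ⟨_, rfl⟩
    rw [← hπ]
    have g1 : (π.comp h).comp i = (π.comp (al.comp ρ)).comp i := by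
      apply RingHom.ext
      intro s
      exact congrArg π (hs s)
    have g2 : (π.comp h) D.t = (π.comp (al.comp ρ)) D.t := by
      rw [RingHom.comp_apply, h2, hπ, hal]
      exact Ideal.Quotient.eq.2 hpt
    have g3 : (π.comp h) D.θ = (π.comp (al.comp ρ)) D.θ := by
      rw [RingHom.comp_apply, h3, hπ, hal]
      exact Ideal.Quotient.eq.2 hpθ
    have g4 : ∀ p, (π.comp h) (ev2 i D.t D.θ p) = (π.comp (al.comp ρ)) (ev2 i D.t D.θ p) := by
      intro p
      rw [sg_hom, sg_hom, g1, g2, g3]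
    have g5 : (π.comp h) (D.δ.eval₂ i D.t) = (π.comp (al.comp ρ)) (D.δ.eval₂ i D.t) := by
      rw [hom_eval₂, hom_eval₂, g1, g2]
    have g6 := g4 (pp c)
    rw [← hnp c, map_mul, map_pow, g5, map_mul, map_pow] at g6
    have g7 : IsUnit ((π.comp (al.comp ρ)) (D.δ.eval₂ i D.t)) := by
      have : IsUnit (ρ (D.δ.eval₂ i D.t)) := isUnit_iff_ne_zero.2 hδ1
      exact this.map (π.comp al)
    exact (g7.pow _).mul_left_cancel g6
  · intro s
    rw [← hal]
    exact hs s
  · intro c χ hχ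
    rw [← Ideal.Quotient.eq_zero_iff_mem, hom_eval₂]
    have e1 := congrArg ((Ideal.Quotient.mk 𝔮).comp h) hχ
    rw [map_zero, sg_hom, RingHom.comp_apply _ _ D.t, h2, Ideal.Quotient.eq_zero_iff_mem.2 hqt, sg_zero] at e1
    exact e1

end Pool.Agent.LGF
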