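import Pool.Agent.LGF.Tam1
import Pool.Agent.LGF.Glue

/-!
# Tameness can be checked on two complementary subsets
-/

noncomputable section

namespace Pool.Agent.LGF

open Pool.Agent.GSM

private theorem tam2_bb {I σ : Type} {R R' S S' : Type} [CommRing R] [CommRing R'] [CommRing S]
    [CommRing S'] (f : R →+* R') (g : R' →+* S) (f' : R →+* S') (g' : S' →+* S)
    (h : g.comp f = g'.comp f') (y : GG I σ R) :
    GG.base g (GG.base f y) = GG.base g' (GG.base f' y) := by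
  rw [GG.base_base, GG.base_base, h]

private theorem tam2_part {ι ι' : Type} {k : ι → Type} [∀ i, CommRing (k i)] {I σ : Type}
    (φ : ι' → ι) (m : ι → ℕ) (m₁ : ι' → ℕ)
    (hm : ∀ j, m (φ j) = m₁ j) (y : GG I σ (∀ s : ι × ℕ, k s.1))
    (y₁ : GG I σ (∀ s : ι' × ℕ, k (φ s.1)))
    (hy : GG.base (res (fun s : ι × ℕ => k s.1) (fun s : ι' × ℕ => (φ s.1, s.2))) y = y₁) :
    GG.base (res k φ) (GG.base (at_ k fun _ => 1) y) =
        GG.base (at_ (fun j => k (φ j)) fun _ => 1) y₁ ∧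
      (∀ f : ℕ × ℕ → ℕ,
        GG.base (res (fun s : ι × (ℕ × ℕ) => k s.1) (fun s : ι' × (ℕ × ℕ) => (φ s.1, s.2)))
          (GG.base (rr k fun _ s => f s) y) =
        GG.base (rr (fun j => k (φ j)) fun _ s => f s) y₁) ∧
      GG.base (res (fun s : ι × ℕ => k s.1) (fun s : ι' × ℕ => (φ s.1, s.2)))
          (GG.base (rr k fun i a => m i * a) y) =
        GG.base (rr (fun j => k (φ j)) fun i a => m₁ i * a) y₁ := by
  subst hy
  refine ⟨?_, fun f => ?_, ?_⟩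
  · refine tam2_bb (at_ k fun _ => 1) (res k φ)
      (res (fun s : ι × ℕ => k s.1) (fun s : ι' × ℕ => (φ s.1, s.2)))
      (at_ (fun j => k (φ j)) fun _ => 1) ?_ y
    rfl
  · refine tam2_bb (rr k fun _ s => f s)
      (res (fun s : ι × (ℕ × ℕ) => k s.1) (fun s : ι' × (ℕ × ℕ) => (φ s.1, s.2)))
      (res (fun s : ι × ℕ => k s.1) (fun s : ι' × ℕ => (φ s.1, s.2)))
      (rr (fun j => k (φ j)) fun _ s => f s) ?_ y
    rfl
  · refine tam2_bb (rr k fun i a => m i * a)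
      (res (fun s : ι × ℕ => k s.1) (fun s : ι' × ℕ => (φ s.1, s.2)))
      (res (fun s : ι × ℕ => k s.1) (fun s : ι' × ℕ => (φ s.1, s.2)))
      (rr (fun j => k (φ j)) fun i a => m₁ i * a) ?_ y
    refine RingHom.ext fun x => funext fun s => ?_
    have key : ∀ a b : ℕ, a = b → x (φ s.1, a * s.2) = x (φ s.1, b * s.2) := by
      rintro a _ rfl
      rfl
    exact key _ _ (hm s.1)

variable {ι : Type} {k : ι → Type} [∀ i, Field (k i)] [∀ i, Finite (k i)]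
variable {I σ : Type} [DecidableEq I] [DecidableEq σ] [Nonempty σ] {c : ℕ} {x : GG I σ (∀ i, k i)}

theorem isTame_glue (J : Set ι)
    (h₁ : IsTame (fun i : J => k i) c (GG.base (res k (Subtype.val : J → ι)) x))
    (h₂ : IsTame (fun i : (Jᶜ : Set ι) => k i) c
      (GG.base (res k (Subtype.val : (Jᶜ : Set ι) → ι)) x)) : IsTame k c x := by
  classical
  obtain ⟨m₁, hm₁, y₁, hc₁, a₁, b₁, d₁⟩ := h₁
  obtain ⟨m₂, hm₂, y₂, hc₂, a₂, b₂, d₂⟩ := h₂
  obtain ⟨y, hc, e₁, e₂⟩ := cub_glue (isProd_res_prod k ℕ J) hc₁ hc₂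
  obtain ⟨m, hmJ, hmC⟩ : ∃ m : ι → ℕ, (∀ j : J, m j = m₁ j) ∧ ∀ j : (Jᶜ : Set ι), m j = m₂ j :=
    ⟨fun i => if hi : i ∈ J then m₁ ⟨i, hi⟩ else m₂ ⟨i, hi⟩, fun j => dif_pos j.2,
      fun j => dif_neg j.2⟩
  obtain ⟨p₁, q₁, r₁⟩ := tam2_part (k := k) (Subtype.val : J → ι) m m₁ hmJ y y₁ e₁
  obtain ⟨p₂, q₂, r₂⟩ := tam2_part (k := k) (Subtype.val : (Jᶜ : Set ι) → ι) m m₂ hmC y y₂ e₂
  refine ⟨m, fun i => ?_, y, hc, ?_, ?_, ?_⟩
  · by_cases hi : i ∈ J
    · have h := hm₁ ⟨i, hi⟩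
      rw [← hmJ ⟨i, hi⟩] at h
      exact h
    · have h := hm₂ ⟨i, hi⟩
      rw [← hmC ⟨i, hi⟩] at h
      exact h
  · refine nul_glue (isProd_res k J) ?_ ?_
    · rw [map_sub, p₁]
      exact a₁
    · rw [map_sub, p₂]
      exact a₂
  · refine nul_glue (isProd_res_prod k (ℕ × ℕ) J) ?_ ?_
    · rw [map_sub, map_sub, q₁ (fun s => s.1 + s.2), q₁ (fun s => s.1), q₁ (fun s => s.2)]
      exact b₁
    · rw [map_sub, map_sub, q₂ (fun s => s.1 + s.2), q₂ (fun s => s.1), q₂ (fun s => s.2)]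
      exact b₂
  · refine nul_glue (isProd_res_prod k ℕ J) ?_ ?_
    · rw [r₁]
      exact d₁
    · rw [r₂]
      exact d₂

theorem isTame_union (J J' : Set ι)
    (h₁ : IsTame (fun i : J => k i) c (GG.base (res k (Subtype.val : J → ι)) x))
    (h₂ : IsTame (fun i : J' => k i) c (GG.base (res k (Subtype.val : J' → ι)) x)) :
    IsTame (fun i : (J ∪ J' : Set ι) => k i) c
      (GG.base (res k (Subtype.val : (J ∪ J' : Set ι) → ι)) x) := by
  refine isTame_glue (k := fun i : (J ∪ J' : Set ι) => k i) {i | (i : ι) ∈ J} ?_ ?_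
  · have h := IsTame.res (fun i : ({i : (J ∪ J' : Set ι) | (i : ι) ∈ J} : Set _) =>
      (⟨i.1.1, i.2⟩ : J)) h₁
    rw [GG.base_base] at h ⊢
    exact h
  · have h := IsTame.res (fun i : ({i : (J ∪ J' : Set ι) | (i : ι) ∈ J}ᶜ : Set _) =>
      (⟨i.1.1, i.1.2.resolve_left i.2⟩ : J')) h₂
    rw [GG.base_base] at h ⊢
    exact h

theorem nul_union {J J' : Set ι}
    (h₁ : Nul (GG.base (res k (Subtype.val : J → ι)) x))
    (h₂ : Nul (GG.base (res k (Subtype.val : J' → ι)) x)) :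
    Nul (GG.base (res k (Subtype.val : (J ∪ J' : Set ι) → ι)) x) := by
  refine nul_glue (isProd_res (fun i : (J ∪ J' : Set ι) => k i) {i | (i : ι) ∈ J}) ?_ ?_
  · have h := BdOn.base (res (fun i : J => k i)
      (fun i : ({i : (J ∪ J' : Set ι) | (i : ι) ∈ J} : Set _) => (⟨i.1.1, i.2⟩ : J))) h₁
    rw [GG.base_base] at h ⊢
    exact h
  · have h := BdOn.base (res (fun i : J' => k i)
      (fun i : ({i : (J ∪ J' : Set ι) | (i : ι) ∈ J}ᶜ : Set _) =>
        (⟨i.1.1, i.1.2.resolve_left i.2⟩ : J'))) h₂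
    rw [GG.base_base] at h ⊢
    exact h

end Pool.Agent.LGF
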