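import Pool.Agent.LGF.Tam1

/-!
# Cyclic classes die in few doubling steps

The binary digits of `m i` are the digits of the doubling steps.
-/

noncomputable section

namespace Pool.Agent.LGF

open Pool.Agent.GSM

variable {ι : Type} {k : ι → Type} [∀ i, Field (k i)]
variable {I σ : Type} [DecidableEq I] [DecidableEq σ] {x : GG I σ (∀ i, k i)}

private theorem t4_half (m L j : ℕ) (hj : j < L) :
    m / 2 ^ (L - j) = m / 2 ^ (L - (j + 1)) / 2 := by
  rw [Nat.div_div_eq_div_mul, ← pow_succ]
  congr 2
  omega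

theorem IsCyc.die {m : ι → ℕ} (hm : ∀ i, 0 < m i) (h : IsCyc k m x) :
    Die k (fun i => Nat.log 2 (m i)) x := by
  obtain ⟨y, hy, h1, h2, h3⟩ := h
  let a : ι → ℕ → ℕ := fun i j => m i / 2 ^ (Nat.log 2 (m i) - j)
  have ha0 : (fun i => a i 0) = fun _ => 1 := by
    funext i
    show m i / 2 ^ (Nat.log 2 (m i) - 0) = 1
    rw [Nat.sub_zero]
    refine Nat.div_eq_of_lt_le ?_ ?_
    · rw [one_mul]
      exact Nat.pow_log_le_self 2 (hm i).ne'
    · have := Nat.lt_pow_succ_log_self (b := 2) (by norm_num) (m i)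
      rw [pow_succ] at this
      omega
  have haL : (fun i => a i (Nat.log 2 (m i))) = fun i => m i * 1 := by
    funext i
    show m i / 2 ^ (Nat.log 2 (m i) - Nat.log 2 (m i)) = m i * 1
    rw [Nat.sub_self, pow_zero, Nat.div_one, mul_one]
  have hstep : ∀ i j, j < Nat.log 2 (m i) → a i (j + 1) = a i j + a i j + a i (j + 1) % 2 := by
    intro i j hj
    have e1 : a i j = a i (j + 1) / 2 := t4_half (m i) (Nat.log 2 (m i)) j hj
    omega
  -- additivity
  have hadd : ∀ φ ψ : ι → ℕ → ℕ, Nul (GG.base (rr k fun i j => φ i j + ψ i j) y -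
      GG.base (rr k φ) y - GG.base (rr k ψ) y) := by
    intro φ ψ
    have h := h2.base (rr k fun i (j : ℕ) => (φ i j, ψ i j))
    rw [map_sub, map_sub, GG.base_base, GG.base_base, GG.base_base] at h
    exact h
  have hone : Nul (GG.base (rr k fun _ _ => 1) y - GG.base (pb k ℕ) x) := by
    have h := h1.base (pb k ℕ)
    rw [map_sub, GG.base_base] at h
    exact h
  refine ⟨fun i j => decide (a i (j + 1) % 2 = 1), GG.base (rr k a) y, hy.base _, ?_, ?_, ?_⟩
  · rw [GG.base_base]
    have e1 : (at_ k fun _ => 0).comp (rr k a) = at_ k (fun i => a i 0) := rfl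
    rw [e1, ha0]
    exact h1
  · rw [GG.base_base]
    have e1 : (at_ k fun i => Nat.log 2 (m i)).comp (rr k a) =
        at_ k (fun i => a i (Nat.log 2 (m i))) := rfl
    rw [e1, haL]
    have h := h3.base (at_ k fun _ => 1)
    rw [GG.base_base] at h
    exact h
  · intro b
    let c : ℕ := if b then 1 else 0
    have hkey : (res (fun s : ι × ℕ => k s.1)
        (Subtype.val : {s : ι × ℕ // s.2 < Nat.log 2 (m s.1) ∧
          decide (a s.1 (s.2 + 1) % 2 = 1) = b} → ι × ℕ)).comp
        ((rr k fun _ j => j + 1).comp (rr k a)) =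
        (res (fun s : ι × ℕ => k s.1)
        (Subtype.val : {s : ι × ℕ // s.2 < Nat.log 2 (m s.1) ∧
          decide (a s.1 (s.2 + 1) % 2 = 1) = b} → ι × ℕ)).comp
        (rr k fun i j => a i j + a i j + c) := by
      refine RingHom.ext fun z => funext fun s => ?_
      have hs := s.2
      have e2 : a s.1.1 (s.1.2 + 1) = a s.1.1 s.1.2 + a s.1.1 s.1.2 + c := by
        have e3 := hstep s.1.1 s.1.2 hs.1
        have e4 := hs.2
        cases b with
        | false =>
          have e5 : ¬ a s.1.1 (s.1.2 + 1) % 2 = 1 := by simpa using e4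
          show _ = a s.1.1 s.1.2 + a s.1.1 s.1.2 + 0
          omega
        | true =>
          have e5 : a s.1.1 (s.1.2 + 1) % 2 = 1 := by simpa using e4
          show _ = a s.1.1 s.1.2 + a s.1.1 s.1.2 + 1
          omega
      exact congrArg (β := k s.1.1) (fun n => z (s.1.1, n)) e2
    have hkey2 : GG.base (res (fun s : ι × ℕ => k s.1)
        (Subtype.val : {s : ι × ℕ // s.2 < Nat.log 2 (m s.1) ∧
          decide (a s.1 (s.2 + 1) % 2 = 1) = b} → ι × ℕ))
        (GG.base (rr k fun _ j => j + 1) (GG.base (rr k a) y)) =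
        GG.base (res (fun s : ι × ℕ => k s.1)
        (Subtype.val : {s : ι × ℕ // s.2 < Nat.log 2 (m s.1) ∧
          decide (a s.1 (s.2 + 1) % 2 = 1) = b} → ι × ℕ))
        (GG.base (rr k fun i j => a i j + a i j + c) y) := by
      rw [GG.base_base, GG.base_base, GG.base_base, RingHom.comp_assoc, hkey]
    have hZ : Nul (GG.base (rr k fun i j => a i j + a i j + c) y - (2 : ℚ) • GG.base (rr k a) y -
        (if b then 1 else 0 : ℚ) • GG.base (pb k ℕ) x) := by
      have g1 := hadd a a
      cases b with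
      | false =>
        have e1 : GG.base (rr k fun i j => a i j + a i j + c) y - (2 : ℚ) • GG.base (rr k a) y -
            (if false = true then 1 else 0 : ℚ) • GG.base (pb k ℕ) x =
            GG.base (rr k fun i j => a i j + a i j) y - GG.base (rr k a) y -
              GG.base (rr k a) y := by
          rw [if_neg (by decide), zero_smul, sub_zero, two_smul, sub_sub]
          rfl
        rw [e1]
        exact g1
      | true =>
        have g2 := hadd (fun i j => a i j + a i j) (fun _ _ => 1)
        have g3 := (g2.add g1).add hone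
        have e1 : GG.base (rr k fun i j => a i j + a i j + c) y - (2 : ℚ) • GG.base (rr k a) y -
            (if true = true then 1 else 0 : ℚ) • GG.base (pb k ℕ) x =
            GG.base (rr k fun i j => a i j + a i j + 1) y -
              GG.base (rr k fun i j => a i j + a i j) y - GG.base (rr k fun _ _ => 1) y +
              (GG.base (rr k fun i j => a i j + a i j) y - GG.base (rr k a) y -
              GG.base (rr k a) y) +
              (GG.base (rr k fun _ _ => 1) y - GG.base (pb k ℕ) x) := by
          rw [if_pos rfl, one_smul, two_smul]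
          have e2 : (fun i j => a i j + a i j + c) = fun i j => a i j + a i j + 1 := rfl
          rw [e2]
          abel
        rw [e1]
        exact g3
    have hfin := hZ.base (res (fun s : ι × ℕ => k s.1)
        (Subtype.val : {s : ι × ℕ // s.2 < Nat.log 2 (m s.1) ∧
          decide (a s.1 (s.2 + 1) % 2 = 1) = b} → ι × ℕ))
    rw [map_sub, map_sub] at hfin ⊢
    rw [hkey2]
    exact hfin

private theorem t4_mk {R : Type} [CommRing R] [Subsingleton R] {r : ℕ}
    (A : Tup (Fin r) σ R) : KK.mk A = 0 := by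
  have h : A.Iso (A.add A) := by
    refine ⟨0, 0, ?_, ?_, fun s => ?_⟩
    · ext i j
      exact Subsingleton.elim _ _
    · ext i j
      exact Subsingleton.elim _ _
    · ext i j
      exact Subsingleton.elim _ _
  have h1 := KK.mk_eq_of_iso h
  rw [KK.mk_add] at h1
  exact (left_eq_add.mp h1)

private theorem t4_zero {R : Type} [CommRing R] [Subsingleton R] (z : GG I σ R) : z = 0 := by
  haveI : Subsingleton (MvPolynomial I R) := by
    refine ⟨fun p q => ?_⟩
    ext s
    exact Subsingleton.elim _ _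
  have h : (LinearMap.id : GG I σ R →ₗ[ℚ] GG I σ R) = 0 := by
    refine KK.lin_ext fun r A => ?_
    show KK.mk A = 0
    exact t4_mk A
  exact LinearMap.congr_fun h z

theorem die_of_nul (hx : Cub x) (h : Nul x) : Die k (fun _ => 0) x := by
  refine ⟨fun _ _ => false, GG.base (pb k ℕ) x, hx.base _, ?_, ?_, ?_⟩
  · rw [GG.base_base]
    have e1 : (at_ k fun _ => 0).comp (pb k ℕ) = RingHom.id _ := rfl
    rw [e1, GG.base_id, sub_self]
    exact BdOn.zero _ _
  · rw [GG.base_base]
    have e1 : (at_ k fun _ => 0).comp (pb k ℕ) = RingHom.id _ := rfl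
    rw [e1, GG.base_id]
    exact h
  · intro b
    haveI : IsEmpty {s : ι × ℕ // s.2 < (fun _ : ι => 0) s.1 ∧
        (fun _ _ => false : ι → ℕ → Bool) s.1 s.2 = b} := ⟨fun s => Nat.not_lt_zero _ s.2.1⟩
    rw [t4_zero (GG.base _ _)]
    exact BdOn.zero _ _

theorem IsTame.die [∀ i, Finite (k i)] {c : ℕ} (h : IsTame k c x) :
    ∃ L : ι → ℕ, (∀ i, (L i : ℝ) ≤ (2 * c : ℕ) * Real.log (Nat.card (k i))) ∧ Die k L x := by
  obtain ⟨m, hm, hc⟩ := h
  refine ⟨fun i => Nat.log 2 (m i), fun i => ?_, hc.die fun i => (hm i).1⟩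
  have h1 : 2 ^ Nat.log 2 (m i) ≤ Nat.card (k i) ^ c :=
    (Nat.pow_log_le_self 2 (hm i).1.ne').trans (hm i).2
  have h2 : ((2 : ℝ)) ^ Nat.log 2 (m i) ≤ (Nat.card (k i) : ℝ) ^ c := by exact_mod_cast h1
  have h3 := Real.log_le_log (by positivity) h2
  rw [Real.log_pow, Real.log_pow] at h3
  have h4 : (1 / 2 : ℝ) < Real.log 2 := by
    have := Real.log_two_gt_d9
    linarith
  have h5 : (0 : ℝ) ≤ (Nat.log 2 (m i) : ℝ) := Nat.cast_nonneg _
  push_cast
  show ((Nat.log 2 (m i) : ℕ) : ℝ) ≤ 2 * c * Real.log (Nat.card (k i))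
  nlinarith

end Pool.Agent.LGF
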