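import Pool.Agent.LGF.Base

/-!
# Ultraproducts of fields

MODULE LGF-Ult.
-/

noncomputable section

namespace Pool.Agent.LGF

open Pool.Agent.GSM Filter

variable {ι : Type} (k : ι → Type) [∀ i, Field (k i)] (U : Ultrafilter ι)

/-- Families that vanish almost everywhere. -/
def uIdeal : Ideal (∀ i, k i) where
  carrier := {x | ∀ᶠ i in (U : Filter ι), x i = 0}
  add_mem' := fun {a b} ha hb => by
    filter_upwards [ha, hb] with i h1 h2
    rw [Pi.add_apply, h1, h2, add_zero]
  zero_mem' := Eventually.of_forall fun _ => rfl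
  smul_mem' := fun c x hx => by
    filter_upwards [hx] with i h1
    rw [smul_eq_mul, Pi.mul_apply, h1, mul_zero]

instance uIdeal_isMaximal : (uIdeal k U).IsMaximal := by
  rw [Ideal.isMaximal_iff]
  constructor
  · intro h
    have h1 : ∀ᶠ i in (U : Filter ι), (1 : ∀ i, k i) i = 0 := h
    have h2 : ∀ᶠ _ in (U : Filter ι), False := by
      filter_upwards [h1] with i hi
      exact one_ne_zero hi
    rw [Filter.eventually_false_iff_eq_bot] at h2
    exact U.neBot.ne h2
  · intro J x hJ hx hxJ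
    have h1 : ¬ ∀ᶠ i in (U : Filter ι), x i = 0 := hx
    have h2 : ∀ᶠ i in (U : Filter ι), ¬ x i = 0 := Ultrafilter.eventually_not.2 h1
    have h3 : (1 : ∀ i, k i) - (fun i => (x i)⁻¹) * x ∈ uIdeal k U := by
      show ∀ᶠ i in (U : Filter ι), ((1 : ∀ i, k i) - (fun i => (x i)⁻¹) * x) i = 0
      filter_upwards [h2] with i hi
      rw [Pi.sub_apply, Pi.mul_apply, Pi.one_apply, inv_mul_cancel₀ hi, sub_self]
    have h4 := J.mul_mem_left (fun i => (x i)⁻¹) hxJ
    have h5 := J.add_mem (hJ h3) h4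
    rwa [sub_add_cancel] at h5

/-- The ultraproduct. -/
def UP : Type := (∀ i, k i) ⧸ uIdeal k U

instance : Field (UP k U) := Ideal.Quotient.field (uIdeal k U)

/-- The class of a family. -/
def toUP : (∀ i, k i) →+* UP k U := Ideal.Quotient.mk (uIdeal k U)

theorem toUP_surjective : Function.Surjective (toUP k U) := Ideal.Quotient.mk_surjective

theorem toUP_eq_zero {x : ∀ i, k i} : toUP k U x = 0 ↔ ∀ᶠ i in (U : Filter ι), x i = 0 :=
  Ideal.Quotient.eq_zero_iff_mem

theorem toUP_eq {x y : ∀ i, k i} : toUP k U x = toUP k U y ↔ ∀ᶠ i in (U : Filter ι), x i = y i := by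
  rw [← sub_eq_zero, ← map_sub, toUP_eq_zero]
  exact eventually_congr (Eventually.of_forall fun i => sub_eq_zero)

theorem charZero_UP (h : ∀ N : ℕ, ∀ᶠ i in (U : Filter ι), N < ringChar (k i)) :
    CharZero (UP k U) := by
  refine charZero_of_inj_zero fun n hn => ?_
  by_contra hn0
  have h1 : toUP k U (n : ∀ i, k i) = 0 := by rw [map_natCast, hn]
  rw [toUP_eq_zero] at h1
  have h2 : ∀ᶠ _ in (U : Filter ι), False := by
    filter_upwards [h1, h n] with i h3 h4
    have h5 : ((n : ℕ) : k i) = 0 := h3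
    have h6 := (ringChar.spec (k i) n).1 h5
    have h7 := Nat.le_of_dvd (Nat.pos_of_ne_zero hn0) h6
    omega
  rw [Filter.eventually_false_iff_eq_bot] at h2
  exact U.neBot.ne h2

end Pool.Agent.LGF
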