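import Pool.Agent.LGF.IndD
import Pool.Agent.LGF.Tam2
import Pool.Agent.LGF.Tam4
import Pool.Agent.LGF.Cpt
import Pool.Agent.LGF.IclE

/-!
# Log fillings

MODULE LGF-Upper. PLAN. `P J := ∃ c, IsTame (k|_J) c (base res x)`. Monotone (`IsTame.res` along the
inclusion), `P ∅` (`∅` : the product over the empty type is the zero ring, everything is `Nul`:
`gg_eq_zero_of_subsingleton`, `isTame_of_nul`), unions (`isTame_union`, `IsTame.mono`). For an ultrafilter
`U` with the hypothesis: `exists_cube` (GSM/ContG.lean): `x = base (R → ∏ k) z` with `R` the subring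
generated by a finite set, `z` a cube; `AlgLE (toUP ∘ R.subtype) m` with `m` = the number of generators
(their images generate); `main_ind`. Then `exists_tail` with `q i = ringChar (k i)`.
* `nul_tail`: the same with `P J := Nul (base res x)`: for `U` with the hypothesis `UP k U` is a field of
  characteristic zero, so `base (toUP) x` is `Nul` by `hF`; `nul_of_UP`.
-/

noncomputable section

namespace Pool.Agent.LGF

open Pool.Agent.GSM Filter Polynomial

variable {I σ : Type} [Finite I] [DecidableEq I] [Finite σ] [DecidableEq σ] [Nonempty σ]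
variable {ι : Type} (k : ι → Type) [∀ i, Field (k i)]

private theorem fg_cl {A : Type} [CommRing A] {F : Set A} (hF : F.Finite) :
    Algebra.FiniteType ℤ (Subring.closure F) := by
  have h1 : (subalgebraOfSubring (Subring.closure F)).FG := by
    rw [← Algebra.adjoin_int, Subalgebra.fg_def]
    exact ⟨F, hF, rfl⟩
  have h2 := (Subalgebra.fg_iff_finiteType _).mp h1
  exact h2

private theorem nul_empty (x : GG I σ (∀ i : (∅ : Set ι), k i)) : Nul x := by
  have h1 : Subsingleton (∀ i : (∅ : Set ι), k i) := ⟨fun a b => funext fun i => absurd i.2 (Set.notMem_empty _)⟩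
  rw [gg_eq_zero_of_subsingleton x]
  exact BdOn.zero _ _

private theorem nul_mono {x : GG I σ (∀ i, k i)} {J J' : Set ι} (h : J ⊆ J')
    (h' : Nul (GG.base (res k (Subtype.val : J' → ι)) x)) : Nul (GG.base (res k (Subtype.val : J → ι)) x) := by
  have h1 := h'.base (res (fun i : J' => k i) (Set.inclusion h))
  rw [GG.base_base] at h1
  exact h1

private theorem nul_un {x : GG I σ (∀ i, k i)} {J J' : Set ι}
    (h₁ : Nul (GG.base (res k (Subtype.val : J → ι)) x))
    (h₂ : Nul (GG.base (res k (Subtype.val : J' → ι)) x)) :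
    Nul (GG.base (res k (Subtype.val : (J ∪ J' : Set ι) → ι)) x) := by
  obtain ⟨S, hS⟩ : ∃ S : Set (J ∪ J' : Set ι), ∀ i, i ∈ S ↔ (i : ι) ∈ J :=
    ⟨{i : (J ∪ J' : Set ι) | (i : ι) ∈ J}, fun _ => Iff.rfl⟩
  refine nul_glue (isProd_res (fun i : (J ∪ J' : Set ι) => k i) S) ?_ ?_
  · have h3 := h₁.base (res (fun i : J => k i) (fun s : S => (⟨s.1.1, (hS s.1).1 s.2⟩ : J)))
    rw [GG.base_base] at h3 ⊢
    exact h3
  · have h3 := h₂.base (res (fun i : J' => k i) (fun s : (Sᶜ : Set (J ∪ J' : Set ι)) => (⟨s.1.1,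
      s.1.2.resolve_left fun h5 => s.2 ((hS s.1).2 h5)⟩ : J')))
    rw [GG.base_base] at h3 ⊢
    exact h3

theorem tame_tail [∀ i, Finite (k i)] (hQ : ∀ x : GG I σ (AlgebraicClosure ℚ), Cub x → Nul x)
    {x : GG I σ (∀ i, k i)} (hx : Cub x) :
    ∃ N c : ℕ, IsTame (fun i : {i // N < ringChar (k i)} => k i) c
      (GG.base (res k (Subtype.val : {i // N < ringChar (k i)} → ι)) x) := by
  refine exists_tail (fun i => ringChar (k i))
    (fun J => ∃ c : ℕ, IsTame (fun i : J => k i) c (GG.base (res k (Subtype.val : J → ι)) x)) ?_ ?_ ?_ ?_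
  · exact ⟨0, isTame_of_nul (nul_empty k _)⟩
  · rintro J J' h ⟨c, hc⟩
    refine ⟨c, ?_⟩
    have h1 := hc.res (Set.inclusion h)
    rw [GG.base_base] at h1
    exact h1
  · rintro J J' ⟨c, hc⟩ ⟨c', hc'⟩
    exact ⟨max c c', isTame_union J J' (hc.mono (le_max_left _ _)) (hc'.mono (le_max_right _ _))⟩
  · intro U hU
    obtain ⟨F, hF, h1⟩ := exists_cube.{0, 0} hx
    obtain ⟨z, hz, hzx⟩ := h1 (Subring.closure F).subtype Subtype.val_injective
      (fun c hc => ⟨⟨c, Subring.subset_closure hc⟩, rfl⟩)
    have hf0 : Algebra.FiniteType ℤ (Subring.closure F) := fg_cl hF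
    haveI := charZero_UP k U hU
    have halg : AlgLE ((toUP k U).comp (Subring.closure F).subtype) hF.toFinset.card := by
      refine ⟨fun i => toUP k U (hF.toFinset.equivFin.symm i : ∀ i, k i), ?_⟩
      intro r
      obtain ⟨E, hE⟩ : ∃ E : IntermediateField ℚ (UP k U), E = IntermediateField.adjoin ℚ
        (Set.range fun i => toUP k U (hF.toFinset.equivFin.symm i : ∀ i, k i)) := ⟨_, rfl⟩
      rw [← hE]
      have h3 : Subring.closure F ≤ E.toSubfield.toSubring.comap (toUP k U) := by
        rw [Subring.closure_le]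
        intro d hd
        show toUP k U d ∈ E
        rw [hE]
        apply IntermediateField.subset_adjoin
        refine ⟨hF.toFinset.equivFin ⟨d, hF.mem_toFinset.2 hd⟩, ?_⟩
        simp only [Equiv.symm_apply_apply]
      have h4 : ((toUP k U).comp (Subring.closure F).subtype) r ∈ E := h3 r.2
      exact isAlgebraic_algebraMap (⟨_, h4⟩ : E)
    obtain ⟨J, hJ, c, hc⟩ := main_ind hQ hF.toFinset.card ι k U hU (Subring.closure F) z hz
      (Subring.closure F).subtype halg
    refine ⟨J, hJ, c, ?_⟩
    rw [← GG.base_base, hzx] at hc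
    exact hc

theorem nul_tail (hF : ∀ (F : Type) [Field F] [CharZero F] (x : GG I σ F), Cub x → Nul x)
    {x : GG I σ (∀ i, k i)} (hx : Cub x) :
    ∃ N : ℕ, Nul (GG.base (res k (Subtype.val : {i // N < ringChar (k i)} → ι)) x) := by
  refine exists_tail (fun i => ringChar (k i))
    (fun J => Nul (GG.base (res k (Subtype.val : J → ι)) x)) ?_ ?_ ?_ ?_
  · exact nul_empty k _
  · intro J J' h h'
    exact nul_mono k h h'
  · intro J J' h h'
    exact nul_un k h h'
  · intro U hU
    haveI := charZero_UP k U hU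
    exact nul_of_UP k U hx (hF (UP k U) _ (hx.base (toUP k U)))

end Pool.Agent.LGF
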